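import Pool.Agent.FLV.L1

/-!
# The explicit macros on rows, second part
-/

set_option autoImplicit false

namespace Pool.Agent.FLV

variable {U : Type*}

/-- The R-move: the first two letters `x, x'` are joined by `z`, the opposite letter `v` runs through
`a1, z2, y, yp, ypp`, the other letters advance by two, and a new pair `c, c'` is opened. -/
theorem cov_R {E : U → U → Prop} (A B F0 F1 F2 S0 S1 S2 : List U)
    (x x' v z a1 z2 y yp ypp c c' : U) (hl : F0.length = S0.length)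
    (hF1 : List.Forall₂ E F0 F1) (hF2 : List.Forall₂ E F1 F2)
    (hS1 : List.Forall₂ E S0 S1) (hS2 : List.Forall₂ E S1 S2)
    (hxz : E x z ∨ E z x) (hxz' : E x' z ∨ E z x') (h1 : E v a1) (h2 : E a1 z2) (h3 : E z2 y)
    (h4 : E y yp) (h5 : E yp ypp) (hc : E c c') :
    CovI E ((A ++ x :: x' :: (F0 ++ y :: a1 :: S1)) ++ c :: (F2 ++ [ypp]))
      ((B ++ v :: (S0 ++ z :: (F1 ++ yp :: z2 :: []))) ++ (S2 ++ [c']))
      (A.length + B.length + F0.length + 1)
      (A.length + B.length + F0.length + 1 + (4 * (F0.length + 1) + 4)) := by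
  intro s hs1 hs2
  have e1 := hF1.length_eq
  have e2 := hF2.length_eq
  have e3 := hS1.length_eq
  have e4 := hS2.length_eq
  obtain ⟨t, rfl⟩ := Nat.exists_eq_add_of_le hs1
  set n := F0.length with hn
  have hcase : t = 0 ∨ t = 1 ∨ t = 2 ∨ (∃ i < n, t = 3 + 2 * i) ∨ (∃ i < n, t = 4 + 2 * i) ∨
      t = 2 * n + 3 ∨ t = 2 * n + 4 ∨ t = 2 * n + 5 ∨
      (∃ i < n, t = 2 * n + 6 + 2 * i) ∨ (∃ i < n, t = 2 * n + 7 + 2 * i) ∨
      t = 4 * n + 6 ∨ t = 4 * n + 7 := by
    rcases Nat.even_or_odd' t with ⟨k, hk | hk⟩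
    · by_cases h1 : k = 0
      · omega
      by_cases h2 : k = 1
      · omega
      by_cases h3 : k < n + 2
      · right; right; right; right; left; exact ⟨k - 2, by omega, by omega⟩
      by_cases h4 : k = n + 2
      · omega
      by_cases h5 : k < 2 * n + 3
      · right; right; right; right; right; right; right; right; left
        exact ⟨k - (n + 3), by omega, by omega⟩
      omega
    · by_cases h1 : k = 0
      · omega
      by_cases h3 : k < n + 1
      · right; right; right; left; exact ⟨k - 1, by omega, by omega⟩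
      by_cases h4 : k = n + 1 ∨ k = n + 2
      · omega
      by_cases h5 : k < 2 * n + 3
      · right; right; right; right; right; right; right; right; right; left
        exact ⟨k - (n + 3), by omega, by omega⟩
      omega
  rcases hcase with rfl | rfl | rfl | ⟨i, hi, rfl⟩ | ⟨i, hi, rfl⟩ | rfl | rfl | rfl |
    ⟨i, hi, rfl⟩ | ⟨i, hi, rfl⟩ | rfl | rfl
  · exact covAt_mk A (x' :: (F0 ++ y :: a1 :: S1) ++ c :: (F2 ++ [ypp])) (B ++ v :: S0)
      ((F1 ++ yp :: z2 :: []) ++ (S2 ++ [c'])) x z hxz (by simp) (by simp) (by simp; omega)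
  · exact covAt_mk (A ++ [x]) ((F0 ++ y :: a1 :: S1) ++ c :: (F2 ++ [ypp])) (B ++ v :: S0)
      ((F1 ++ yp :: z2 :: []) ++ (S2 ++ [c'])) x' z hxz' (by simp) (by simp) (by simp; omega)
  · exact covAt_mk (A ++ x :: x' :: (F0 ++ [y])) (S1 ++ c :: (F2 ++ [ypp])) B
      ((S0 ++ z :: (F1 ++ yp :: z2 :: [])) ++ (S2 ++ [c'])) a1 v (Or.inr h1) (by simp) (by simp)
      (by simp; omega)
  · exact cov_forall₂ (A ++ [x, x']) (y :: a1 :: S1 ++ c :: (F2 ++ [ypp])) (B ++ v :: (S0 ++ [z]))
      (yp :: z2 :: [] ++ (S2 ++ [c'])) F0 F1 hF1 (by simp) (by simp) i (by omega) (by simp; omega)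
  · exact (cov_forall₂ (B ++ [v]) (z :: (F1 ++ yp :: z2 :: []) ++ (S2 ++ [c']))
      (A ++ x :: x' :: (F0 ++ [y, a1])) (c :: (F2 ++ [ypp])) S0 S1 hS1 (by simp) (by simp) i
      (by omega) (by simp; omega)).symm
  · exact covAt_mk (A ++ x :: x' :: F0) (a1 :: S1 ++ c :: (F2 ++ [ypp])) (B ++ v :: (S0 ++ z :: F1))
      (z2 :: [] ++ (S2 ++ [c'])) y yp (Or.inl h4) (by simp) (by simp) (by simp; omega)
  · exact covAt_mk (A ++ x :: x' :: F0) (a1 :: S1 ++ c :: (F2 ++ [ypp]))
      (B ++ v :: (S0 ++ z :: (F1 ++ [yp])))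
      (S2 ++ [c']) y z2 (Or.inr h3) (by simp) (by simp) (by simp; omega)
  · exact covAt_mk (A ++ x :: x' :: (F0 ++ [y])) (S1 ++ c :: (F2 ++ [ypp]))
      (B ++ v :: (S0 ++ z :: (F1 ++ [yp])))
      (S2 ++ [c']) a1 z2 (Or.inl h2) (by simp) (by simp) (by simp; omega)
  · exact (cov_forall₂ (B ++ v :: (S0 ++ [z])) (yp :: z2 :: [] ++ (S2 ++ [c']))
      ((A ++ x :: x' :: (F0 ++ y :: a1 :: S1)) ++ [c]) [ypp] F1 F2 hF2 (by simp) (by simp) i
      (by omega) (by simp; omega)).symm
  · exact cov_forall₂ (A ++ x :: x' :: (F0 ++ [y, a1])) (c :: (F2 ++ [ypp]))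
      (B ++ v :: (S0 ++ z :: (F1 ++ yp :: z2 :: []))) [c'] S1 S2 hS2 (by simp) (by simp) i
      (by omega) (by simp; omega)
  · exact covAt_mk ((A ++ x :: x' :: (F0 ++ y :: a1 :: S1)) ++ c :: F2) []
      (B ++ v :: (S0 ++ z :: F1)) (z2 :: [] ++ (S2 ++ [c'])) ypp yp (Or.inr h5) (by simp)
      (by simp) (by simp; omega)
  · exact covAt_mk (A ++ x :: x' :: (F0 ++ y :: a1 :: S1)) (F2 ++ [ypp])
      ((B ++ v :: (S0 ++ z :: (F1 ++ yp :: z2 :: []))) ++ S2) [] c c' (Or.inl hc) (by simp)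
      (by simp) (by simp; omega)

/-- corner stage -/
theorem cov_corner {E : U → U → Prop} (A B F S F' S' : List U) (D D' v1 v1' v2 : U)
    (hl : F.length = S.length) (hF : List.Forall₂ E F F') (hS : List.Forall₂ E S S')
    (h1 : E D v1) (h2 : E D v2) (h3 : E v1 v1') :
    CovI E ((A ++ D :: F) ++ D' :: (S' ++ [v1'])) ((B ++ (S ++ [v1])) ++ v2 :: F')
      (A.length + B.length + F.length) (A.length + B.length + F.length + (2 * F.length + 3)) := by
  intro s hs1 hs2
  have e1 := hF.length_eq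
  have e2 := hS.length_eq
  obtain ⟨t, rfl⟩ := Nat.exists_eq_add_of_le hs1
  set n := F.length with hn
  have hcase : t = 0 ∨ t = 1 ∨ (∃ i < n, t = 2 + 2 * i) ∨ (∃ i < n, t = 3 + 2 * i) ∨
      t = 2 * n + 2 := by
    rcases Nat.even_or_odd' t with ⟨k, hk | hk⟩
    · by_cases h1 : k = 0
      · omega
      by_cases h2 : k < n + 1
      · right; right; left; exact ⟨k - 1, by omega, by omega⟩
      omega
    · by_cases h1 : k = 0
      · omega
      right; right; right; left; exact ⟨k - 1, by omega, by omega⟩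
  rcases hcase with rfl | rfl | ⟨i, hi, rfl⟩ | ⟨i, hi, rfl⟩ | rfl
  · exact covAt_mk A (F ++ D' :: (S' ++ [v1'])) (B ++ S) (v2 :: F') D v1 (Or.inl h1) (by simp)
      (by simp) (by simp; omega)
  · exact covAt_mk A (F ++ D' :: (S' ++ [v1'])) (B ++ (S ++ [v1])) F' D v2 (Or.inl h2) (by simp)
      (by simp) (by simp; omega)
  · exact (cov_forall₂ B ([v1] ++ v2 :: F') ((A ++ D :: F) ++ [D']) [v1'] S S' hS (by simp)
      (by simp) i (by omega) (by simp; omega)).symm
  · exact cov_forall₂ (A ++ [D]) (D' :: (S' ++ [v1'])) ((B ++ (S ++ [v1])) ++ [v2]) [] F F' hF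
      (by simp) (by simp) i (by omega) (by simp; omega)
  · exact covAt_mk ((A ++ D :: F) ++ D' :: S') [] (B ++ S) (v2 :: F') v1' v1 (Or.inr h3) (by simp)
      (by simp) (by simp; omega)

/-- far start: `D1, D2` are inserted, all letters are popped once; the sum `N` is omitted -/
theorem cov_far0 {E : U → U → Prop} (A B F S F' S' : List U) (D1 D2 : U)
    (hl : F.length = S.length + 1) (hF : List.Forall₂ E F F') (hS : List.Forall₂ E S S') :
    CovI E ((B ++ S) ++ D1 :: F') ((A ++ F) ++ D2 :: S') (A.length + B.length + F.length)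
      (A.length + B.length + F.length + (2 * S.length + 1)) := by
  intro s h1 h2
  have hl1 := hF.length_eq
  have hl2 := hS.length_eq
  obtain ⟨t, rfl⟩ := Nat.exists_eq_add_of_le h1
  rcases Nat.even_or_odd' t with ⟨k, hk | hk⟩
  · exact (cov_forall₂ A (D2 :: S') ((B ++ S) ++ [D1]) [] F F' hF
      (by simp) (by simp) k (by omega) (by simp; omega)).symm
  · exact cov_forall₂ B (D1 :: F') ((A ++ F) ++ [D2]) [] S S' hS
      (by simp) (by simp) k (by omega) (by simp; omega)

/-- one stage of a train -/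
theorem cov_stage {E : U → U → Prop} (A B F S F' S' : List U)
    (D1 D2 D1' D2' d1 d1' d2 e1 e1' e2 : U) (hl : F.length = S.length + 1)
    (hF : List.Forall₂ E F F') (hS : List.Forall₂ E S S') (hd1 : E D1 d1) (hd2 : E D1 d2)
    (he1 : E D2 e1) (he2 : E D2 e2) (hdd : E d1 d1') (hee : E e1 e1') :
    CovI E ((B ++ D2 :: (S ++ [d1])) ++ D1' :: (d2 :: (F' ++ [e1'])))
      ((A ++ D1 :: (F ++ [e1])) ++ D2' :: (e2 :: (S' ++ [d1'])))
      (A.length + B.length + F.length) (A.length + B.length + F.length + (2 * F.length + 5)) := by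
  intro s hs1 hs2
  have e3 := hF.length_eq
  have e4 := hS.length_eq
  obtain ⟨t, rfl⟩ := Nat.exists_eq_add_of_le hs1
  set n := F.length with hn
  have hcase : t = 0 ∨ t = 1 ∨ t = 2 ∨ t = 3 ∨ (∃ i < n, t = 4 + 2 * i) ∨
      (∃ i < S.length, t = 5 + 2 * i) ∨ t = 2 * n + 3 ∨ t = 2 * n + 4 := by
    rcases Nat.even_or_odd' t with ⟨k, hk | hk⟩
    · by_cases h1 : k < 2
      · omega
      by_cases h2 : k < n + 2
      · right; right; right; right; left; exact ⟨k - 2, by omega, by omega⟩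
      omega
    · by_cases h1 : k < 2
      · omega
      by_cases h2 : k < S.length + 2
      · right; right; right; right; right; left; exact ⟨k - 2, by omega, by omega⟩
      omega
  rcases hcase with rfl | rfl | rfl | rfl | ⟨i, hi, rfl⟩ | ⟨i, hi, rfl⟩ | rfl | rfl
  · exact (covAt_mk A ((F ++ [e1]) ++ D2' :: (e2 :: (S' ++ [d1']))) (B ++ D2 :: S)
      (D1' :: (d2 :: (F' ++ [e1']))) D1 d1 (Or.inl hd1) (by simp) (by simp) (by simp; omega)).symm
  · exact covAt_mk B ((S ++ [d1]) ++ D1' :: (d2 :: (F' ++ [e1']))) (A ++ D1 :: F)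
      (D2' :: (e2 :: (S' ++ [d1']))) D2 e1 (Or.inl he1) (by simp) (by simp) (by simp; omega)
  · exact (covAt_mk A ((F ++ [e1]) ++ D2' :: (e2 :: (S' ++ [d1'])))
      ((B ++ D2 :: (S ++ [d1])) ++ [D1'])
      (F' ++ [e1']) D1 d2 (Or.inl hd2) (by simp) (by simp) (by simp; omega)).symm
  · exact covAt_mk B ((S ++ [d1]) ++ D1' :: (d2 :: (F' ++ [e1'])))
      ((A ++ D1 :: (F ++ [e1])) ++ [D2'])
      (S' ++ [d1']) D2 e2 (Or.inl he2) (by simp) (by simp) (by simp; omega)
  · exact (cov_forall₂ (A ++ [D1]) ([e1] ++ D2' :: (e2 :: (S' ++ [d1'])))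
      ((B ++ D2 :: (S ++ [d1])) ++ [D1', d2]) [e1'] F F' hF (by simp) (by simp) i (by omega)
      (by simp; omega)).symm
  · exact cov_forall₂ (B ++ [D2]) ([d1] ++ D1' :: (d2 :: (F' ++ [e1'])))
      ((A ++ D1 :: (F ++ [e1])) ++ [D2', e2]) [d1'] S S' hS (by simp) (by simp) i (by omega)
      (by simp; omega)
  · exact covAt_mk (B ++ D2 :: S) (D1' :: (d2 :: (F' ++ [e1'])))
      ((A ++ D1 :: (F ++ [e1])) ++ D2' :: (e2 :: S')) [] d1 d1' (Or.inl hdd) (by simp) (by simp)
      (by simp; omega)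
  · exact (covAt_mk (A ++ D1 :: F) (D2' :: (e2 :: (S' ++ [d1'])))
      ((B ++ D2 :: (S ++ [d1])) ++ D1' :: (d2 :: F')) [] e1 e1' (Or.inl hee) (by simp) (by simp)
      (by simp; omega)).symm

/-- end of a train, first kind: the vertex `w` has no further edges -/
theorem cov_absorb {E : U → U → Prop} (A B F S : List U) (D w d1 d2 : U)
    (hl : F.length = S.length + 1) (h1 : E D d1) (h2 : E D d2) :
    CovI E ((B ++ [w]) ++ (S ++ [d1, d2])) ((A ++ [D]) ++ F) (A.length + B.length + F.length)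
      (A.length + B.length + F.length + 2) := by
  intro s hs1 hs2
  obtain ⟨t, rfl⟩ := Nat.exists_eq_add_of_le hs1
  have : t = 0 ∨ t = 1 := by omega
  rcases this with rfl | rfl
  · exact (covAt_mk A F (B ++ w :: S) [d2] D d1 (Or.inl h1) (by simp) (by simp)
      (by simp; omega)).symm
  · exact (covAt_mk A F (B ++ w :: (S ++ [d1])) [] D d2 (Or.inl h2) (by simp) (by simp)
      (by simp; omega)).symm

/-- end of a train, second kind: `w` is the first vertex of a long branch, `w'` the next one and `l`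
the last one -/
theorem cov_branch {E : U → U → Prop} (A B F S : List U) (D w w' l d1 d2 : U)
    (hl : F.length = S.length + 1) (h1 : E D d1) (h2 : E D d2) (hw : E w w') :
    CovI E ((A ++ [D]) ++ (F ++ [l, w'])) ((B ++ [w]) ++ (S ++ [d1, d2]))
      (A.length + B.length + F.length) (A.length + B.length + F.length + 3) := by
  intro s hs1 hs2
  obtain ⟨t, rfl⟩ := Nat.exists_eq_add_of_le hs1
  have : t = 0 ∨ t = 1 ∨ t = 2 := by omega
  rcases this with rfl | rfl | rfl
  · exact (covAt_mk A (F ++ [l, w']) (B ++ w :: S) [d2] D d1 (Or.inl h1) (by simp) (by simp)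
      (by simp; omega))
  · exact (covAt_mk A (F ++ [l, w']) (B ++ w :: (S ++ [d1])) [] D d2 (Or.inl h2) (by simp)
      (by simp) (by simp; omega))
  · exact (covAt_mk (A ++ D :: (F ++ [l])) [] B (S ++ [d1, d2]) w' w (Or.inr hw) (by simp)
      (by simp) (by simp; omega))

end Pool.Agent.FLV
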