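import Pool.Agent.FLV.C5
import Pool.Agent.FLV.L1b

/-!
# Macros: full round, double step

`HInv.round`: let `F = ((lets es).rotate k).take (h+1)`, `S = ((lets es).rotate k).drop (h+1)`, take `es'`, `fe'` from
`Core.adv_all` (`av = []`); `C = S`, `D = F`; the new rows are `(B ++ S) ++ F'` and `(A ++ F) ++ S'` with
`F' = ((lets es').rotate k).take (h+1)` etc. (`List.Forall₂` is compatible with `rotate`, `take`, `drop`; equal lengths).
Coverage: old part by `CovI.mono`, `CovI.symm`, new part `cov_round`.  Core: `Core.perm`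
(`(A ++ B) ++ lets es ~ (B ++ S) ++ (A ++ F)`).  Colours: `forall₂_nx_col`.

`HInv.dstep`: the letters with indices `0` (`a`) and `h+1` (`b`) of the circle word `w = (lets es).rotate k` are advanced
(`Core.adv_rot` twice, the second time with index `h + 1` of `w.set 0 a'`), `w = a :: (P ++ b :: Q)`,
`|P| = h`, `|Q| = h - 1`; the new circle word is `P ++ b' :: (Q ++ [a'])` `= ((w.set 0 a').set (h+1) b').rotate 1`
`= (lets es').rotate (k+1)`; coverage by `cov_dstep`.
-/

set_option autoImplicit false

namespace Pool.Agent.FLV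

variable {V : Type*} [DecidableEq V] {G : V → V → Prop} {col : V → Bool} {b : V} {SV : List V}
  {h : ℕ} {fe : List ((V ⊕ ℕ) × ℕ)} {A B : List (V ⊕ ℕ)} {es : List (Elem V)} {k : ℕ}

omit [DecidableEq V] in
theorem M1_perm (A B L S F : List (V ⊕ ℕ)) (h : L.Perm (S ++ F)) :
    ((A ++ B) ++ L).Perm ((B ++ S) ++ (A ++ F)) := by
  have h1 : ((A ++ B) ++ L).Perm ((A ++ B) ++ (S ++ F)) := h.append_left _
  refine h1.trans ?_
  rw [← Multiset.coe_eq_coe]
  simp only [← Multiset.coe_add]
  abel

omit [DecidableEq V] in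
theorem M1_forall₂_take {α β : Type*} {R : α → β → Prop} {l : List α} {l' : List β}
    (h : List.Forall₂ R l l') (n : ℕ) : List.Forall₂ R (l.take n) (l'.take n) :=
  List.forall₂_take n h

omit [DecidableEq V] in
theorem M1_forall₂_drop {α β : Type*} {R : α → β → Prop} {l : List α} {l' : List β}
    (h : List.Forall₂ R l l') (n : ℕ) : List.Forall₂ R (l.drop n) (l'.drop n) :=
  List.forall₂_drop n h

omit [DecidableEq V] in
theorem M1_forall₂_rotate {α β : Type*} {R : α → β → Prop} {l : List α} {l' : List β}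
    (h : List.Forall₂ R l l') (n : ℕ) : List.Forall₂ R (l.rotate n) (l'.rotate n) := by
  have hl := h.length_eq
  rcases Nat.eq_zero_or_pos l.length with h0 | h0
  · have h1 : l = [] := List.length_eq_zero_iff.1 h0
    have h2 : l' = [] := List.length_eq_zero_iff.1 (hl ▸ h0)
    subst h1 h2; simp
  · rw [List.rotate_eq_drop_append_take_mod, List.rotate_eq_drop_append_take_mod, ← hl]
    exact List.rel_append (M1_forall₂_drop h _) (M1_forall₂_take h _)

omit [DecidableEq V] in
theorem M1_forall₂_mem {α β : Type*} {R : α → β → Prop} {l : List α} {l' : List β}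
    (h : List.Forall₂ R l l') : ∀ y ∈ l', ∃ x ∈ l, R x y := by
  induction h with
  | nil => intro y hy; cases hy
  | @cons a c l l' h1 _ ih =>
    intro y hy
    rcases List.mem_cons.1 hy with h2 | h2
    · subst h2; exact ⟨a, by simp, h1⟩
    · obtain ⟨x, hx, hxy⟩ := ih y h2
      exact ⟨x, by simp [hx], hxy⟩

omit [DecidableEq V] in
theorem M1_split {α : Type*} {h : ℕ} (w : List α) (hl : w.length = 2 * h + 1) (hh : 1 ≤ h) :
    ∃ a P b Q, w = a :: (P ++ b :: Q) ∧ P.length = h ∧ Q.length + 1 = h := by
  cases w with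
  | nil => simp at hl
  | cons a w =>
    simp only [List.length_cons] at hl
    have h1 : (w.drop h).length = h := by rw [List.length_drop]; omega
    cases hd : w.drop h with
    | nil => rw [hd] at h1; simp at h1; omega
    | cons b Q =>
      refine ⟨a, w.take h, b, Q, ?_, ?_, ?_⟩
      · rw [← hd, List.take_append_drop]
      · rw [List.length_take]; omega
      · rw [hd] at h1; simpa using h1

omit [DecidableEq V] in
theorem M1_covI_le {E : V ⊕ ℕ → V ⊕ ℕ → Prop} {X Y : List (V ⊕ ℕ)} {a c c' : ℕ}
    (h : CovI E X Y a c) (hc : c' ≤ c) : CovI E X Y a c' :=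
  fun s h1 h2 => h s h1 (by omega)

theorem HInv.round (hG : ∀ a c, G a c → G c a) (hcol : ∀ a c, G a c → col a ≠ col c)
    (H : HInv G col b SV h fe A B es k) (hbig : ∀ p ∈ sizes es, 2 ≤ p) :
    ∃ fe' C D es', HInv G col b SV h fe' (B ++ C) (A ++ D) es' k ∧ C.length = h ∧
      D.length = h + 1 ∧ List.Forall₂ (Shr 2 2) es es' ∧ (∀ u, u ∈ A ++ B ++ lets es →
        u ∈ (B ++ C) ++ (A ++ D)) := by
  obtain ⟨fe', es', hc, hs, hshr, hnx, -⟩ := H.core.adv_all hG hbig []
  have hlen := H.len
  have hlen' : (lets es').length = 2 * h + 1 := (shrL_len hshr).trans hlen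
  have hperm : ((A ++ B) ++ lets es).Perm
      ((B ++ ((lets es).rotate k).drop (h + 1)) ++ (A ++ ((lets es).rotate k).take (h + 1))) := by
    have h1 : ((lets es).rotate k).Perm (lets es) := List.rotate_perm _ _
    have h2 : (((lets es).rotate k).drop (h + 1) ++ ((lets es).rotate k).take (h + 1)).Perm
        (lets es) := by
      refine List.perm_append_comm.trans ?_
      rw [List.take_append_drop]; exact h1
    exact M1_perm A B (lets es) _ _ h2.symm
  have hF : List.Forall₂ (Nx G fe') (((lets es).rotate k).take (h + 1))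
      (((lets es').rotate k).take (h + 1)) := M1_forall₂_take (M1_forall₂_rotate hnx k) _
  have hS : List.Forall₂ (Nx G fe') (((lets es).rotate k).drop (h + 1))
      (((lets es').rotate k).drop (h + 1)) := M1_forall₂_drop (M1_forall₂_rotate hnx k) _
  have hFl : (((lets es).rotate k).take (h + 1)).length = h + 1 := by
    rw [List.length_take, List.length_rotate, hlen]; omega
  have hSl : (((lets es).rotate k).drop (h + 1)).length = h := by
    rw [List.length_drop, List.length_rotate, hlen]; omega
  have hcov := H.cov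
  obtain ⟨κ, k1, k2⟩ := H.col
  generalize hFd : ((lets es).rotate k).take (h + 1) = F at *
  generalize hSd : ((lets es).rotate k).drop (h + 1) = S at *
  refine ⟨fe', S, F, es', ⟨hc.perm hperm (List.Perm.refl _), hlen', ?_, ?_⟩, hSl, hFl, hshr, ?_⟩
  · have c1 := (hcov.symm.mono (E' := EE G fe') (fun u v huv => huv.mono hs)
      (((lets es').rotate k).take (h + 1)) (((lets es').rotate k).drop (h + 1)))
    have c2 := cov_round (E := EE G fe') A B F S _ _ (hF.imp (fun _ _ h => h.ee))
      (hS.imp (fun _ _ h => h.ee)) (by omega)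
    refine M1_covI_le (c1.trans (c := A.length + B.length + S.length + (2 * S.length + 1)) ?_) ?_
    · intro s hs1 hs2
      exact c2 s (by omega) (by omega)
    · simp only [List.length_append]; omega
  · refine ⟨!κ, ?_, ?_⟩
    · intro a ha
      rcases List.mem_append.1 ha with h1 | h1
      · exact k2 a h1
      · exact forall₂_nx_col hcol hF (κ := κ) (fun a ha => k1 a (List.mem_append_right _ ha)) a h1
    · intro a ha
      rcases List.mem_append.1 ha with h1 | h1
      · rw [Bool.not_not]; exact k1 a h1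
      · exact forall₂_nx_col hcol hS (κ := !κ) (fun a ha => k2 a (List.mem_append_right _ ha)) a h1
  · intro u hu
    exact hperm.mem_iff.1 hu

theorem HInv.dstep (hG : ∀ a c, G a c → G c a) (hcol : ∀ a c, G a c → col a ≠ col c)
    (H : HInv G col b SV h fe A B es k) (hh : 1 ≤ h) (hbig : ∀ p ∈ sizes es, 2 ≤ p) :
    ∃ fe' u v es', HInv G col b SV h fe' (A ++ [u]) (B ++ [v]) es' (k + 1) ∧
      List.Forall₂ (Shr 0 2) es es' := by
  have hlen := H.len
  obtain ⟨a0, P, b0, Q, hw, hP, hQ⟩ := M1_split ((lets es).rotate k)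
    (by rw [List.length_rotate, hlen]) hh
  obtain ⟨fe1, es1, a1, hc1, hs1, hshr1, hr1, hnx1⟩ := H.core.adv_rot hG
    (fun p hp => le_trans (by norm_num) (hbig p hp)) k (i := 0) (v := a0) (by rw [hw]; rfl)
  rw [hw, List.set_cons_zero] at hr1
  have hbig1 : ∀ p ∈ sizes es1, 1 ≤ p := by
    have h1 := shrL_sizes hshr1
    intro p hp
    obtain ⟨q, hq, hqp⟩ := M1_forall₂_mem h1 p hp
    have := hbig q hq
    omega
  obtain ⟨fe2, es2, b1, hc2, hs2, hshr2, hr2, hnx2⟩ := hc1.adv_rot hG hbig1 k
    (i := h + 1) (v := b0) (by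
      rw [hr1, List.getElem?_cons_succ, ← hP, List.getElem?_append_right (le_refl _)]; simp)
  rw [hr1, List.set_cons_succ, ← hP, List.set_append_right _ _ (le_refl _), Nat.sub_self,
    List.set_cons_zero] at hr2
  have hrot : (lets es2).rotate (k + 1) = (P ++ [b1]) ++ (Q ++ [a1]) := by
    rw [← List.rotate_rotate, hr2, List.rotate_cons_succ, List.rotate_zero]
    simp
  have hPl : (P ++ [b1]).length = h + 1 := by simp [hP]
  have hF' : ((lets es2).rotate (k + 1)).take (h + 1) = P ++ [b1] := by
    rw [hrot, ← hPl, List.take_left]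
  have hS' : ((lets es2).rotate (k + 1)).drop (h + 1) = Q ++ [a1] := by
    rw [hrot, ← hPl, List.drop_left]
  have hF : ((lets es).rotate k).take (h + 1) = a0 :: P := by
    rw [hw, List.take_succ_cons, ← hP, List.take_left]
  have hS : ((lets es).rotate k).drop (h + 1) = b0 :: Q := by
    rw [hw, List.drop_succ_cons, ← hP, List.drop_left]
  have hcov := H.cov
  obtain ⟨κ, k1, k2⟩ := H.col
  rw [hF, hS] at hcov
  rw [hF] at k1
  rw [hS] at k2
  refine ⟨fe2, a0, b0, es2, ⟨hc2.perm ?_ (List.Perm.refl _), ?_, ?_, ?_⟩,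
    shrL_trans hshr1 hshr2⟩
  · rw [List.append_assoc, List.append_assoc, List.append_assoc]
    refine List.Perm.append_left A ?_
    rw [← List.append_assoc, ← List.append_assoc]
    exact List.Perm.append_right _ List.perm_append_comm
  · rw [shrL_len hshr2, shrL_len hshr1, hlen]
  · rw [hF', hS']
    have c1 := hcov.mono (E' := EE G fe2) (fun u v huv => (huv.mono hs1).mono hs2) [b1] [a1]
    have c2 := cov_dstep (E := EE G fe2) A B P Q a0 b0 a1 b1 (hnx1.mono hs2).ee hnx2.ee (by omega)
    have e1 : (A ++ [a0]) ++ (P ++ [b1]) = A ++ a0 :: (P ++ [b1]) := by simp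
    have e2 : (B ++ [b0]) ++ (Q ++ [a1]) = B ++ b0 :: (Q ++ [a1]) := by simp
    have e3 : (A ++ a0 :: P) ++ [b1] = A ++ a0 :: (P ++ [b1]) := by simp
    have e4 : (B ++ b0 :: Q) ++ [a1] = B ++ b0 :: (Q ++ [a1]) := by simp
    rw [e3, e4] at c1
    rw [e1, e2]
    intro s hs hs'
    simp only [List.length_append, List.length_cons, List.length_nil] at hs'
    rcases lt_or_ge s (A.length + B.length + h) with h3 | h3
    · exact c1 s hs h3
    · exact c2 s (by omega) (by omega)
  · rw [hF', hS']
    refine ⟨κ, ?_, ?_⟩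
    · intro a ha
      have hb1 := hnx2.col hcol (κ := !κ) (fun a ha => k2 a (by simp [ha]))
      simp only [List.mem_append, List.mem_singleton] at ha
      rcases ha with (h1 | h1) | (h1 | h1)
      · exact k1 a (by simp [h1])
      · exact k1 a (by simp [h1])
      · exact k1 a (by simp [h1])
      · rw [hb1 a h1.symm, Bool.not_not]
    · intro a ha
      have ha1 := (hnx1.mono hs2).col hcol (κ := κ) (fun a ha => k1 a (by simp [ha]))
      simp only [List.mem_append, List.mem_singleton] at ha
      rcases ha with (h1 | h1) | (h1 | h1)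
      · exact k2 a (by simp [h1])
      · exact k2 a (by simp [h1])
      · exact k2 a (by simp [h1])
      · exact ha1 a h1.symm

end Pool.Agent.FLV
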