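import Pool.Agent.FLV.C1

/-!
# Core: joining two letters

`Core.join_free`: two free letters `x, x'` of different strings `s ≠ s'` are joined by the new vertex `z = Sum.inr n`.
The remaining letters of the strings `s, s'` get the common name `min s s'` (`Elem.ren`).
* `cnt0`, `cnt`: the number of letters named `min s s'` in `es.map (ren s s')` is the number of letters named `s` or `s'`
  in `es`; by `H.cnt`, `H.cnt0` the name `s` occurs in `es` once if `s ≠ 0` (and `r - 1` times if `s = 0`), the same for `s'`.
* `conn_id`: letters with the new name were connected to `x` or to `x'` (`H.conn_id`), and `x - z - x'`.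
* `conn_root`: if `s = 0` then `x` is connected to the root (`H.conn_root`) and so are the letters with
  name `s'` in `es`.
* `conn_st`: one of `s, s'` is not `0`; if `s ≠ 0` there is another letter with name `s` in `es` (`H.cnt`), connected
  to `x`; so `x, x', z` and everything that was connected to them is connected to an open free letter.
* `deg`: `dg fe x + 1 ≤ cap b x` by `H.deg_open`, `x ≠ x'` by `H.nodup`, `dg` of `z` is `2`.

`Core.join_pile`: trivial (the pile is complete).
-/

set_option autoImplicit false

namespace Pool.Agent.FLV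

variable {V : Type*} [DecidableEq V] {G : V → V → Prop} {b : V} {r : ℕ} {SV : List V}
  {fe : List ((V ⊕ ℕ) × ℕ)} {st : List (V ⊕ ℕ)} {es : List (Elem V)}

namespace C2Aux

omit [DecidableEq V] in
theorem full_ren (s s' : ℕ) (es : List (Elem V)) : full (es.map (Elem.ren s s')) = full es := by
  induction es with
  | nil => rfl
  | cons e es ih => cases e <;> simp [Elem.ren, ih]

omit [DecidableEq V] in
theorem lets_ren (s s' : ℕ) (es : List (Elem V)) : lets (es.map (Elem.ren s s')) = lets es := by
  induction es with
  | nil => rfl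
  | cons e es ih => cases e <;> simp [Elem.ren, ih]

omit [DecidableEq V] in
theorem ids_ren (s s' : ℕ) (es : List (Elem V)) :
    ids (es.map (Elem.ren s s')) = (ids es).map (fun r => if r = s ∨ r = s' then min s s' else r) := by
  induction es with
  | nil => rfl
  | cons e es ih => cases e <;> simp [Elem.ren, ih]

omit [DecidableEq V] in
theorem free_mem_ren {s s' t : ℕ} {v : V ⊕ ℕ} {es : List (Elem V)}
    (h : Elem.free t v ∈ es.map (Elem.ren s s')) :
    ∃ t1, Elem.free t1 v ∈ es ∧ t = if t1 = s ∨ t1 = s' then min s s' else t1 := by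
  obtain ⟨e, he, h1⟩ := List.mem_map.1 h
  cases e with
  | free t1 w =>
    simp only [Elem.ren, Elem.free.injEq] at h1
    obtain ⟨h2, rfl⟩ := h1
    exact ⟨t1, he, h2.symm⟩
  | pile x P x' => simp [Elem.ren] at h1

omit [DecidableEq V] in
theorem free_mem_ren' {s s' t : ℕ} {v : V ⊕ ℕ} {es : List (Elem V)} (h : Elem.free t v ∈ es) :
    ∃ t', Elem.free t' v ∈ es.map (Elem.ren s s') :=
  ⟨_, List.mem_map.2 ⟨_, h, rfl⟩⟩

omit [DecidableEq V] in
theorem pile_mem_ren {s s' : ℕ} {x x' : V} {P : List V} {es : List (Elem V)}
    (h : Elem.pile x P x' ∈ es.map (Elem.ren s s')) : Elem.pile x P x' ∈ es := by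
  obtain ⟨e, he, h1⟩ := List.mem_map.1 h
  cases e with
  | free t1 w => simp [Elem.ren] at h1
  | pile y Q y' =>
    simp only [Elem.ren, Elem.pile.injEq] at h1
    obtain ⟨rfl, rfl, rfl⟩ := h1
    exact he

theorem count_ne {s s' t : ℕ} (h : t ≠ s) (h' : t ≠ s') (l : List ℕ) :
    (l.map (fun r => if r = s ∨ r = s' then min s s' else r)).count t = l.count t := by
  induction l with
  | nil => rfl
  | cons a l ih =>
    simp only [List.map_cons, List.count_cons, ih]
    congr 1
    by_cases ha : a = s ∨ a = s'
    · rw [if_pos ha]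
      have h1 : min s s' ≠ t := by
        rcases min_choice s s' with h2 | h2 <;> rw [h2] <;> exact fun h3 => by omega
      have h2 : a ≠ t := by rintro rfl; rcases ha with h3 | h3 <;> omega
      simp [h1, h2]
    · rw [if_neg ha]

theorem count_min {s s' : ℕ} (h : s ≠ s') (l : List ℕ) :
    (l.map (fun r => if r = s ∨ r = s' then min s s' else r)).count (min s s') =
      l.count s + l.count s' := by
  induction l with
  | nil => rfl
  | cons a l ih =>
    simp only [List.map_cons, List.count_cons, ih]
    by_cases ha : a = s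
    · subst ha
      simp [h]
      omega
    · by_cases ha' : a = s'
      · subst ha'
        simp [ha]
        omega
      · have h1 : a ≠ min s s' := by
          rcases min_choice s s' with h2 | h2 <;> rw [h2] <;> assumption
        have h3 : ¬ (a = s ∨ a = s') := by tauto
        rw [if_neg h3]
        simp [ha, ha', h1]

theorem count_other {s s' t : ℕ} (h : t = s ∨ t = s') (h' : t ≠ min s s') (l : List ℕ) :
    (l.map (fun r => if r = s ∨ r = s' then min s s' else r)).count t = 0 := by
  rw [List.count_eq_zero]
  intro hm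
  obtain ⟨a, _, h1⟩ := List.mem_map.1 hm
  by_cases ha : a = s ∨ a = s'
  · simp only [if_pos ha] at h1
    exact h' h1.symm
  · simp only [if_neg ha] at h1
    subst h1
    exact ha h

end C2Aux

open C2Aux

theorem Core.join_free {s s' : ℕ} {x x' : V ⊕ ℕ}
    (H : Core G b r SV fe st (Elem.free s x :: Elem.free s' x' :: es)) (hs : s ≠ s') {n : ℕ}
    (hn : Sum.inr n ∉ st ++ full (Elem.free s x :: Elem.free s' x' :: es)) :
    Core G b r SV ((x, n) :: (x', n) :: fe) (st ++ [x, x', Sum.inr n])
      (es.map (Elem.ren s s')) := by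
  have hnd : (st ++ x :: x' :: full es).Nodup := by simpa using H.nodup
  have hperm : (Sum.inr n :: (st ++ x :: x' :: full es)).Perm
      (st ++ [x, x', Sum.inr n] ++ full es) := by
    have h1 : (st ++ [x, x', Sum.inr n] ++ full es) = (st ++ [x, x']) ++ (Sum.inr n :: full es) := by
      simp
    rw [h1]
    have h2 : (st ++ x :: x' :: full es) = (st ++ [x, x']) ++ full es := by simp
    rw [h2]
    exact List.perm_middle.symm
  have hn' : Sum.inr n ∉ st ++ x :: x' :: full es := by simpa using hn
  have hnx : Sum.inr n ≠ x := by rintro rfl; exact hn' (by simp)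
  have hnx' : Sum.inr n ≠ x' := by rintro rfl; exact hn' (by simp)
  have hxx' : x ≠ x' := by
    rintro rfl
    have := (List.nodup_append.1 hnd).2.1
    simp at this
  have hlet : ∀ v ∈ lets es, v ≠ x ∧ v ≠ x' ∧ v ≠ Sum.inr n := by
    intro v hv
    have hv' := lets_subset_full hv
    refine ⟨?_, ?_, ?_⟩
    · rintro rfl
      have := (List.nodup_append.1 hnd).2.1
      simp [hv'] at this
    · rintro rfl
      have := (List.nodup_append.1 hnd).2.1
      simp [hv'] at this
    · rintro rfl
      exact hn' (by simp [hv'])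
  have hsub : ∀ e ∈ fe, e ∈ (x, n) :: (x', n) :: fe := fun e he => by simp [he]
  have cxn : Conn ((x, n) :: (x', n) :: fe) x (Sum.inr n) := Conn.mk (by simp)
  have cx'n : Conn ((x, n) :: (x', n) :: fe) x' (Sum.inr n) := Conn.mk (by simp)
  have cxx' : Conn ((x, n) :: (x', n) :: fe) x x' := cxn.trans cx'n.symm
  -- counts
  have hcs : s ≠ 0 → (ids es).count s = 1 := by
    intro h0
    have := H.cnt s h0
    simp [List.count_cons, hs.symm] at this
    omega
  have hcs' : s' ≠ 0 → (ids es).count s' = 1 := by
    intro h0
    have := H.cnt s' h0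
    simp [List.count_cons, hs] at this
    omega
  -- a free letter connected to `x`
  have hw : ∃ t w, Elem.free t w ∈ es ∧ Conn ((x, n) :: (x', n) :: fe) x w := by
    by_cases h0 : s = 0
    · have h1 : s' ≠ 0 := by omega
      have h2 : s' ∈ ids es := by
        rw [← List.count_pos_iff, hcs' h1]; exact Nat.one_pos
      obtain ⟨w, hw⟩ := mem_ids_iff.1 h2
      exact ⟨s', w, hw, cxx'.trans ((H.conn_id s' x' w (by simp) (by simp [hw])).mono hsub)⟩
    · have h2 : s ∈ ids es := by
        rw [← List.count_pos_iff, hcs h0]; exact Nat.one_pos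
      obtain ⟨w, hw⟩ := mem_ids_iff.1 h2
      exact ⟨s, w, hw, (H.conn_id s x w (by simp) (by simp [hw])).mono hsub⟩
  obtain ⟨tw, w, hwm, hwc⟩ := hw
  obtain ⟨tw', hwm'⟩ := free_mem_ren' (s := s) (s' := s') hwm
  have hdgn : dg fe (Sum.inr n) = 0 := by
    apply dg_eq_zero
    intro e he
    have h1 := H.mem_fe e he
    have h2 : ∀ u, u ∈ st ++ lets (Elem.free s x :: Elem.free s' x' :: es) → u ≠ Sum.inr n := by
      rintro u hu rfl
      apply hn
      rcases List.mem_append.1 hu with h3 | h3
      · exact List.mem_append_left _ h3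
      · exact List.mem_append_right _ (lets_subset_full h3)
    exact ⟨h2 _ h1.1, h2 _ h1.2⟩
  -- connections of letters with old names `s`, `s'`
  have hcx : ∀ t v, Elem.free t v ∈ es → t = s ∨ t = s' →
      Conn ((x, n) :: (x', n) :: fe) x v := by
    intro t v hv ht
    rcases ht with rfl | rfl
    · exact (H.conn_id t x v (by simp) (by simp [hv])).mono hsub
    · exact cxx'.trans ((H.conn_id t x' v (by simp) (by simp [hv])).mono hsub)
  refine ⟨?_, ?_, ?_, ?_, ?_, ?_, ?_, ?_, ?_, ?_, ?_⟩
  · -- nodup
    rw [full_ren]
    exact (hperm.nodup_iff).1 (List.nodup_cons.2 ⟨hn', hnd⟩)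
  · -- mem
    intro a
    rw [full_ren, ← H.mem a, ← hperm.mem_iff]
    simp
  · -- chain
    intro y P y' h
    exact H.chain y P y' (by simp [pile_mem_ren h])
  · -- mem_fe
    intro e he
    rw [lets_ren]
    rcases List.mem_cons.1 he with rfl | he
    · simp
    rcases List.mem_cons.1 he with rfl | he
    · simp
    have h1 := H.mem_fe e he
    have h2 : ∀ u, u ∈ st ++ lets (Elem.free s x :: Elem.free s' x' :: es) →
        u ∈ st ++ [x, x', Sum.inr n] ++ lets es := by
      intro u hu
      simp at hu ⊢
      tauto
    exact ⟨h2 _ h1.1, h2 _ h1.2⟩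
  · -- deg
    intro u
    rw [dg_cons, dg_cons]
    have hdx := H.deg_open s x (by simp)
    have hdx' := H.deg_open s' x' (by simp)
    have hdu := H.deg u
    by_cases h1 : u = x
    · subst h1
      simp only [if_pos rfl, if_neg hnx, if_neg hxx'.symm]
      simp
      omega
    · by_cases h2 : u = x'
      · subst h2
        simp only [if_pos rfl, if_neg hnx', if_neg (Ne.symm h1)]
        simp
        omega
      · by_cases h3 : u = Sum.inr n
        · subst h3
          simp [hdgn, Ne.symm h1, Ne.symm h2]
        · simp only [if_neg (Ne.symm h1), if_neg (Ne.symm h2), if_neg (Ne.symm h3)]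
          omega
  · -- deg_open
    intro t v hv
    obtain ⟨t1, hv1, _⟩ := free_mem_ren hv
    have hvl : v ∈ lets es := mem_lets.2 ⟨_, hv1, by simp⟩
    obtain ⟨h1, h2, h3⟩ := hlet v hvl
    rw [dg_cons, dg_cons]
    simp only [if_neg (Ne.symm h1), if_neg (Ne.symm h2), if_neg (Ne.symm h3)]
    have := H.deg_open t1 v (by simp [hv1])
    omega
  · -- conn_id
    intro t v v' hv hv'
    obtain ⟨t1, hv1, ht1⟩ := free_mem_ren hv
    obtain ⟨t2, hv2, ht2⟩ := free_mem_ren hv'
    by_cases h1 : t1 = s ∨ t1 = s'
    · by_cases h2 : t2 = s ∨ t2 = s'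
      · exact (hcx t1 v hv1 h1).symm.trans (hcx t2 v' hv2 h2)
      · exfalso
        rw [if_pos h1] at ht1
        rw [if_neg h2] at ht2
        apply h2
        rw [← ht2, ht1]
        exact min_choice s s'
    · by_cases h2 : t2 = s ∨ t2 = s'
      · exfalso
        rw [if_neg h1] at ht1
        rw [if_pos h2] at ht2
        apply h1
        rw [← ht1, ht2]
        exact min_choice s s'
      · rw [if_neg h1] at ht1
        rw [if_neg h2] at ht2
        subst ht1
        subst ht2
        exact (H.conn_id t v v' (by simp [hv1]) (by simp [hv2])).mono hsub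
  · -- conn_root
    intro v hv
    obtain ⟨t1, hv1, ht1⟩ := free_mem_ren hv
    by_cases h1 : t1 = s ∨ t1 = s'
    · rw [if_pos h1] at ht1
      have h2 : s = 0 ∨ s' = 0 := by
        rcases min_choice s s' with h | h <;> omega
      have h3 : Conn ((x, n) :: (x', n) :: fe) (Sum.inl b) x := by
        rcases h2 with rfl | rfl
        · exact (H.conn_root x (by simp)).mono hsub
        · exact ((H.conn_root x' (by simp)).mono hsub).trans cxx'.symm
      exact h3.trans (hcx t1 v hv1 h1)
    · rw [if_neg h1] at ht1
      subst ht1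
      exact (H.conn_root v (by simp [hv1])).mono hsub
  · -- conn_st
    intro m hm
    have hm' : Sum.inr m ∈ st ∨ Sum.inr m = x ∨ Sum.inr m = x' ∨ (Sum.inr m : V ⊕ ℕ) = Sum.inr n := by
      simpa using hm
    rcases hm' with h1 | h1 | h1 | h1
    · obtain ⟨t, v, hv, hc⟩ := H.conn_st m h1
      have hc' := hc.mono hsub
      rcases List.mem_cons.1 hv with h2 | h2
      · cases h2
        exact ⟨tw', w, hwm', hc'.trans hwc⟩
      rcases List.mem_cons.1 h2 with h2 | h2
      · cases h2
        exact ⟨tw', w, hwm', (hc'.trans cxx'.symm).trans hwc⟩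
      · obtain ⟨t', ht'⟩ := free_mem_ren' (s := s) (s' := s') h2
        exact ⟨t', v, ht', hc'⟩
    · rw [h1]
      exact ⟨tw', w, hwm', hwc⟩
    · rw [h1]
      exact ⟨tw', w, hwm', cxx'.symm.trans hwc⟩
    · rw [h1]
      exact ⟨tw', w, hwm', cxn.symm.trans hwc⟩
  · -- cnt0
    rw [ids_ren]
    have h0 := H.cnt0
    simp [List.count_cons] at h0
    by_cases h1 : s = 0
    · subst h1
      have h2 : s' ≠ 0 := by omega
      have h3 := count_min hs (ids es)
      have h4 : min 0 s' = 0 := by simp
      rw [h4] at h3
      rw [h4, h3, hcs' h2]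
      simp [h2] at h0
      omega
    · by_cases h2 : s' = 0
      · subst h2
        have h3 := count_min hs (ids es)
        have h4 : min s 0 = 0 := by simp
        rw [h4] at h3
        rw [h4, h3, hcs h1]
        simp [h1] at h0
        omega
      · rw [count_ne (Ne.symm h1) (Ne.symm h2)]
        simp [h1, h2] at h0
        exact h0
  · -- cnt
    intro t ht
    rw [ids_ren]
    by_cases h1 : t = s ∨ t = s'
    · by_cases h2 : t = min s s'
      · subst h2
        rw [count_min hs]
        right
        have h3 : s ≠ 0 := by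
          rintro rfl; simp at ht
        have h4 : s' ≠ 0 := by
          rintro rfl; simp at ht
        rw [hcs h3, hcs' h4]
      · left
        exact count_other h1 h2 _
    · push Not at h1
      rw [count_ne h1.1 h1.2]
      have := H.cnt t ht
      simp [List.count_cons, Ne.symm h1.1, Ne.symm h1.2] at this
      exact this

theorem Core.join_pile {x z x' : V}
    (H : Core G b r SV fe st (Elem.pile x [z] x' :: es)) :
    Core G b r SV fe (st ++ [Sum.inl x, Sum.inl x', Sum.inl z]) es := by
  have hperm : (st ++ full (Elem.pile x [z] x' :: es)).Perm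
      (st ++ [Sum.inl x, Sum.inl x', Sum.inl z] ++ full es) := by
    rw [List.append_assoc]
    apply List.Perm.append_left
    simp only [full_cons, Elem.full_pile, List.map_cons, List.map_nil, List.cons_append,
      List.nil_append]
    exact List.Perm.cons _ (List.Perm.swap _ _ _)
  refine ⟨?_, ?_, ?_, ?_, ?_, ?_, ?_, ?_, ?_, ?_, ?_⟩
  · exact hperm.nodup_iff.1 H.nodup
  · intro a
    rw [← H.mem a, hperm.mem_iff]
  · intro y P y' h
    exact H.chain y P y' (by simp [h])
  · intro e he
    have h1 := H.mem_fe e he
    have h2 : ∀ u, u ∈ st ++ lets (Elem.pile x [z] x' :: es) →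
        u ∈ st ++ [Sum.inl x, Sum.inl x', Sum.inl z] ++ lets es := by
      intro u hu
      simp at hu ⊢
      tauto
    exact ⟨h2 _ h1.1, h2 _ h1.2⟩
  · exact H.deg
  · intro s v hv
    exact H.deg_open s v (by simp [hv])
  · intro s v v' hv hv'
    exact H.conn_id s v v' (by simp [hv]) (by simp [hv'])
  · intro v hv
    exact H.conn_root v (by simp [hv])
  · intro m hm
    have hm' : Sum.inr m ∈ st := by simpa using hm
    obtain ⟨t, v, hv, hc⟩ := H.conn_st m hm'
    rcases List.mem_cons.1 hv with h2 | h2
    · cases h2
    · exact ⟨t, v, h2, hc⟩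
  · simpa using H.cnt0
  · intro s hs
    simpa using H.cnt s hs

end Pool.Agent.FLV
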