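import Pool.Agent.FLV.M2
import Pool.Agent.FLV.C2

/-!
# Starting an R-move

`HInv.startFree`: join two free letters of different strings (`Core.join_free`, new vertex `z`), then `rmove`.  Here
`h = n + 1`, the circle word is `x :: x' :: lets es`, so `take (h+1) = x :: x' :: (lets es).take n`,
`drop (h+1) = (lets es).drop n`.
`HInv.startPile`: the same with a pile with exactly one unexplored vertex `z` (`Core.join_pile`).  The colours of `x`, `x'` agree
and `z` has the other colour (`hcol`).
`HInv.odd`: a pile at the front has an odd number of unexplored vertices: both letters are in the first row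
(`h + 1 ≥ 2`), so `col x = col x'` by `H.col`, and colours alternate along the chain (`H.core.chain`, `hcol`).
-/

set_option autoImplicit false

namespace Pool.Agent.FLV

variable {V : Type*} [DecidableEq V] {G : V → V → Prop} {col : V → Bool} {b : V} {SV : List V}
  {n : ℕ} {fe : List ((V ⊕ ℕ) × ℕ)} {A B : List (V ⊕ ℕ)} {es : List (Elem V)}

theorem M3_lets_ren (s s' : ℕ) (es : List (Elem V)) : lets (es.map (Elem.ren s s')) = lets es := by
  induction es with
  | nil => rfl
  | cons e es ih =>
    rw [List.map_cons, lets_cons, lets_cons, ih]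
    cases e <;> rfl

theorem M3_sizes_ren (s s' : ℕ) (es : List (Elem V)) :
    sizes (es.map (Elem.ren s s')) = sizes es := by
  induction es with
  | nil => rfl
  | cons e es ih =>
    rw [List.map_cons, sizes_cons, sizes_cons, ih]
    cases e <;> rfl

/-- a natural number whose fresh vertex does not occur in a list -/
theorem M3_fresh (l : List (V ⊕ ℕ)) : ∃ m : ℕ, (Sum.inr m : V ⊕ ℕ) ∉ l := by
  obtain ⟨m, hm⟩ := Infinite.exists_notMem_finset ((l.filterMap Sum.getRight?).toFinset)
  refine ⟨m, fun h => hm ?_⟩
  rw [List.mem_toFinset, List.mem_filterMap]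
  exact ⟨_, h, rfl⟩

/-- colours alternate along a chain -/
theorem chain_parity (hcol : ∀ a c, G a c → col a ≠ col c) {x x' : V} {P : List V}
    (h : (x :: (P ++ [x'])).IsChain G) : (Odd P.length ↔ col x = col x') := by
  induction P generalizing x with
  | nil =>
    have h1 : G x x' := by simpa using h
    have h2 := hcol _ _ h1
    simp [h2]
  | cons y P ih =>
    rw [List.cons_append, List.isChain_cons_cons] at h
    have h1 := hcol _ _ h.1
    have h2 := ih h.2
    rw [List.length_cons, Nat.odd_add_one, h2]
    revert h1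
    cases col x <;> cases col y <;> cases col x' <;> simp

theorem HInv.odd {h : ℕ} (hcol : ∀ a c, G a c → col a ≠ col c) {x x' : V} {P : List V}
    (H : HInv G col b SV h fe A B (Elem.pile x P x' :: es) 0) (hh : 1 ≤ h) : Odd P.length := by
  rw [chain_parity hcol (H.core.chain x P x' (by simp))]
  obtain ⟨κ, h1, _⟩ := H.col
  obtain ⟨m, rfl⟩ : ∃ m, h = m + 1 := ⟨h - 1, by omega⟩
  rw [h1 x (by simp), h1 x' (by simp)]

theorem HInv.startFree (hG : ∀ a c, G a c → G c a) (hcol : ∀ a c, G a c → col a ≠ col c)
    {s s' : ℕ} {x x' : V ⊕ ℕ}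
    (H : HInv G col b SV (n + 1) fe A B (Elem.free s x :: Elem.free s' x' :: es) 0) (hs : s ≠ s')
    (hbig : ∀ p ∈ sizes es, 8 ≤ p) :
    ∃ fe' C D es', PInv G col b SV n fe' (A ++ C) (B ++ D) es' 0 ∧ C.length = 2 * n + 4 ∧
      D.length = 2 * n + 4 ∧ List.Forall₂ (Shr 4 7) (es.map (Elem.ren s s')) es' := by
  obtain ⟨m, hm⟩ := M3_fresh ((A ++ B) ++ full (Elem.free s x :: Elem.free s' x' :: es))
  have hC := H.core.join_free hs hm
  have hlen := H.len
  have hcov := H.cov
  obtain ⟨κ, hc1, hc2⟩ := H.col
  simp only [lets_cons, Elem.lets_free, List.singleton_append, List.rotate_zero,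
    List.take_succ_cons, List.drop_succ_cons, List.length_cons] at hlen hcov hc1 hc2
  refine rmove (x := x) (x' := x') (z := Sum.inr m) (k := 0) hG hcol hC (List.Perm.refl _) ?_ ?_
    ⟨κ, ?_, ?_⟩ (EE.mk (by simp)) (EE.mk (by simp)) (by rwa [M3_sizes_ren])
  · rw [M3_lets_ren]; omega
  · rw [M3_lets_ren, List.rotate_zero]
    have h3 := hcov.mono (E' := EE G ((x, m) :: (x', m) :: fe))
      (fun u v h => h.mono (fun e he => by simp [he])) [] []
    simpa [Nat.add_assoc] using h3
  · rw [M3_lets_ren, List.rotate_zero]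
    exact hc1
  · rw [M3_lets_ren, List.rotate_zero]
    intro a ha
    apply hc2 a
    simpa using ha

theorem HInv.startPile (hG : ∀ a c, G a c → G c a) (hcol : ∀ a c, G a c → col a ≠ col c)
    {x z x' : V} (H : HInv G col b SV (n + 1) fe A B (Elem.pile x [z] x' :: es) 0)
    (hbig : ∀ p ∈ sizes es, 8 ≤ p) :
    ∃ fe' C D es', PInv G col b SV n fe' (A ++ C) (B ++ D) es' 0 ∧ C.length = 2 * n + 4 ∧
      D.length = 2 * n + 4 ∧ List.Forall₂ (Shr 4 7) es es' := by
  have hC := H.core.join_pile
  have hch := H.core.chain x [z] x' (by simp)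
  have hxz : G x z := by
    simp only [List.singleton_append, List.isChain_cons_cons] at hch
    exact hch.1
  have hzx' : G z x' := by
    simp only [List.singleton_append, List.isChain_cons_cons] at hch
    exact hch.2.1
  have hlen := H.len
  have hcov := H.cov
  obtain ⟨κ, hc1, hc2⟩ := H.col
  simp only [lets_cons, Elem.lets_pile, List.cons_append, List.nil_append, List.rotate_zero,
    List.take_succ_cons, List.drop_succ_cons, List.length_cons] at hlen hcov hc1 hc2
  refine rmove (x := Sum.inl x) (x' := Sum.inl x') (z := Sum.inl z) (k := 0) hG hcol hC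
    (List.Perm.refl _) ?_ ?_ ⟨κ, ?_, ?_⟩ (EE.of_G hxz) (EE.of_G (hG _ _ hzx')) hbig
  · omega
  · rw [List.rotate_zero]
    simpa [Nat.add_assoc] using hcov
  · rw [List.rotate_zero]
    exact hc1
  · rw [List.rotate_zero]
    intro a ha
    have ha' : a = z ∨ Sum.inl a ∈ B ++ (lets es).drop n := by
      simp only [List.mem_append, List.mem_cons, Sum.inl.injEq] at ha ⊢
      tauto
    rcases ha' with rfl | h1
    · have h2 := hc1 x (by simp)
      have h3 := hcol _ _ hxz
      rw [h2] at h3
      revert h3
      cases κ <;> cases col a <;> simp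
    · exact hc2 a h1

end Pool.Agent.FLV
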