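import Pool.Agent.FLV.C1

/-!
# Core: splitting a pile, new vertices of the given tree

`Core.split`: the pair `u1, u2` of a pile is opened; `full` does not change.
`Core.pendant`: a new settled vertex `w`.
`Core.branch`: a new long branch `w - wn - mid - l`; `w` is settled, the letters are `l` and `wn` (reverse the path, use
that `G` is symmetric).
`Core.root`: the root `b` becomes the open letter of the string `0`.
-/

set_option autoImplicit false

namespace Pool.Agent.FLV

variable {V : Type*} [DecidableEq V] {G : V → V → Prop} {b : V} {r : ℕ} {SV : List V}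
  {fe : List ((V ⊕ ℕ) × ℕ)} {st : List (V ⊕ ℕ)} {es : List (Elem V)}

theorem Core.split {x u1 u2 x' : V} {P1 P2 : List V}
    (H : Core G b r SV fe st (Elem.pile x (P1 ++ u1 :: u2 :: P2) x' :: es)) :
    Core G b r SV fe st (Elem.pile x P1 u1 :: Elem.pile u2 P2 x' :: es) := by
  have hfull : full (Elem.pile x P1 u1 :: Elem.pile u2 P2 x' :: es)
      = full (Elem.pile x (P1 ++ u1 :: u2 :: P2) x' :: es) := by simp
  have hsub : ∀ u, u ∈ st ++ lets (Elem.pile x (P1 ++ u1 :: u2 :: P2) x' :: es) →
      u ∈ st ++ lets (Elem.pile x P1 u1 :: Elem.pile u2 P2 x' :: es) := by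
    intro u hu
    simp only [lets_cons, Elem.lets_pile, List.mem_append, List.mem_cons, List.not_mem_nil,
      or_false] at hu ⊢
    tauto
  have hfree : ∀ s v, Elem.free s v ∈ (Elem.pile x P1 u1 :: Elem.pile u2 P2 x' :: es) →
      Elem.free s v ∈ (Elem.pile x (P1 ++ u1 :: u2 :: P2) x' :: es) := by
    intro s v h
    simpa using h
  refine ⟨by rw [hfull]; exact H.nodup, by rw [hfull]; exact H.mem, ?_, ?_, H.deg, ?_, ?_, ?_, ?_,
    ?_, ?_⟩
  · have hc := H.chain x (P1 ++ u1 :: u2 :: P2) x' (by simp)
    have e : x :: ((P1 ++ u1 :: u2 :: P2) ++ [x'])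
        = (x :: (P1 ++ [u1])) ++ (u2 :: (P2 ++ [x'])) := by simp
    rw [e, List.isChain_append] at hc
    intro y Q y' h
    simp only [List.mem_cons, Elem.pile.injEq] at h
    rcases h with ⟨rfl, rfl, rfl⟩ | ⟨rfl, rfl, rfl⟩ | h
    · exact hc.1
    · exact hc.2.1
    · exact H.chain y Q y' (by simp [h])
  · intro e he
    exact ⟨hsub _ (H.mem_fe e he).1, hsub _ (H.mem_fe e he).2⟩
  · exact fun s v h => H.deg_open s v (hfree s v h)
  · exact fun s v v' h h' => H.conn_id s v v' (hfree s v h) (hfree s v' h')
  · exact fun v h => H.conn_root v (hfree 0 v h)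
  · intro n hn
    obtain ⟨s, v, h, hc⟩ := H.conn_st n hn
    exact ⟨s, v, by simpa using h, hc⟩
  · simpa using H.cnt0
  · simpa using H.cnt

theorem Core.pendant (H : Core G b r SV fe st es) {w : V} (hw : w ∉ SV) :
    Core G b r (w :: SV) fe (st ++ [Sum.inl w]) es := by
  have hnot : (Sum.inl w : V ⊕ ℕ) ∉ st ++ full es := fun h => hw ((H.mem w).1 h)
  have hp : (st ++ [Sum.inl w] ++ full es).Perm (Sum.inl w :: (st ++ full es)) := by
    rw [List.append_assoc]
    exact List.perm_middle
  refine ⟨?_, ?_, H.chain, ?_, H.deg, H.deg_open, H.conn_id, H.conn_root, ?_, H.cnt0, H.cnt⟩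
  · rw [hp.nodup_iff, List.nodup_cons]
    exact ⟨hnot, H.nodup⟩
  · intro a
    rw [hp.mem_iff, List.mem_cons, List.mem_cons, H.mem a, Sum.inl.injEq]
  · intro e he
    obtain ⟨h1, h2⟩ := H.mem_fe e he
    simp only [List.mem_append] at h1 h2 ⊢
    exact ⟨by tauto, by tauto⟩
  · intro n hn
    simp only [List.mem_append, List.mem_singleton, reduceCtorEq, or_false] at hn
    exact H.conn_st n hn

theorem Core.branch (hG : ∀ a c, G a c → G c a) (H : Core G b r SV fe st es) {w wn l : V}
    {mid : List V} (hnd : (w :: wn :: (mid ++ [l])).Nodup)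
    (hdis : ∀ a ∈ w :: wn :: (mid ++ [l]), a ∉ SV)
    (hch : (w :: wn :: (mid ++ [l])).IsChain G) :
    Core G b r ((w :: wn :: (mid ++ [l])) ++ SV) fe (st ++ [Sum.inl w])
      (Elem.pile l mid.reverse wn :: es) := by
  have hp : (st ++ [Sum.inl w] ++ full (Elem.pile l mid.reverse wn :: es)).Perm
      ((w :: wn :: (mid ++ [l])).map Sum.inl ++ (st ++ full es)) := by
    have h1 : (full (Elem.pile l mid.reverse wn :: es)).Perm
        (((mid.map Sum.inl) ++ [Sum.inl wn, Sum.inl l]) ++ full es : List (V ⊕ ℕ)) := by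
      have h2 : (mid.reverse.map Sum.inl : List (V ⊕ ℕ)).Perm (mid.map Sum.inl) :=
        (List.reverse_perm mid).map _
      simp only [full_cons, Elem.full_pile]
      refine List.Perm.append_right _ ?_
      refine (List.Perm.cons _ (h2.append_right _)).trans ?_
      rw [← Multiset.coe_eq_coe]
      simp only [← Multiset.coe_add, ← Multiset.cons_coe, ← Multiset.singleton_add,
        Multiset.coe_nil, add_zero]
      abel
    refine (h1.append_left _).trans ?_
    rw [← Multiset.coe_eq_coe]
    simp only [List.map_cons, List.map_append, List.map_nil, ← Multiset.coe_add,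
      ← Multiset.cons_coe, ← Multiset.singleton_add, Multiset.coe_nil, add_zero]
    abel
  refine ⟨?_, ?_, ?_, ?_, H.deg, ?_, ?_, ?_, ?_, ?_, ?_⟩
  · rw [hp.nodup_iff, List.nodup_append]
    refine ⟨hnd.map Sum.inl_injective, H.nodup, ?_⟩
    intro u hu u' hu' he
    subst he
    obtain ⟨a, ha, rfl⟩ := List.mem_map.1 hu
    exact hdis a ha ((H.mem a).1 hu')
  · intro a
    rw [hp.mem_iff, List.mem_append (t := st ++ full es), H.mem a, List.mem_append,
      List.mem_map_of_injective Sum.inl_injective]
  · intro y Q y' h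
    rw [List.mem_cons] at h
    rcases h with h | h
    · simp only [Elem.pile.injEq] at h
      obtain ⟨rfl, rfl, rfl⟩ := h
      have hc : (y' :: (mid ++ [y])).IsChain G := hch.tail
      have e : y :: (mid.reverse ++ [y']) = (y' :: (mid ++ [y])).reverse := by simp
      rw [e, List.isChain_reverse]
      exact hc.imp fun a c h => hG a c h
    · exact H.chain y Q y' h
  · intro e he
    obtain ⟨h1, h2⟩ := H.mem_fe e he
    simp only [lets_cons, List.mem_append] at h1 h2 ⊢
    exact ⟨by tauto, by tauto⟩
  · exact fun s v h => H.deg_open s v (by simpa using h)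
  · exact fun s v v' h h' => H.conn_id s v v' (by simpa using h) (by simpa using h')
  · exact fun v h => H.conn_root v (by simpa using h)
  · intro n hn
    simp only [List.mem_append, List.mem_singleton, reduceCtorEq, or_false] at hn
    obtain ⟨s, v, h, hc⟩ := H.conn_st n hn
    exact ⟨s, v, by simp [h], hc⟩
  · simpa using H.cnt0
  · simpa using H.cnt

theorem Core.root (H : Core G b 0 [] fe st es) :
    Core G b 1 [b] fe st (Elem.free 0 (Sum.inl b) :: es) := by
  have hnot : ∀ a : V, (Sum.inl a : V ⊕ ℕ) ∉ st ++ full es := fun a h => by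
    simpa using (H.mem a).1 h
  have hno : ∀ v, Elem.free 0 v ∉ es := by
    intro v hv
    have h1 : 0 ∈ ids es := mem_ids_iff.2 ⟨v, hv⟩
    have h2 := List.count_pos_iff.2 h1
    rw [H.cnt0] at h2
    exact lt_irrefl _ h2
  have hp : (st ++ full (Elem.free 0 (Sum.inl b) :: es)).Perm (Sum.inl b :: (st ++ full es)) := by
    simp only [full_cons, Elem.full_free, List.singleton_append]
    exact List.perm_middle
  have hletsnot : (Sum.inl b : V ⊕ ℕ) ∉ st ++ lets es := by
    intro h
    rcases List.mem_append.1 h with h | h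
    · exact hnot b (List.mem_append_left _ h)
    · exact hnot b (List.mem_append_right _ (lets_subset_full h))
  refine ⟨?_, ?_, ?_, ?_, H.deg, ?_, ?_, ?_, ?_, ?_, ?_⟩
  · rw [hp.nodup_iff, List.nodup_cons]
    exact ⟨hnot b, H.nodup⟩
  · intro a
    rw [hp.mem_iff, List.mem_cons, List.mem_singleton, Sum.inl.injEq]
    constructor
    · rintro (h | h)
      · exact h
      · exact absurd h (hnot a)
    · exact Or.inl
  · exact fun y Q y' h => H.chain y Q y' (by simpa using h)
  · intro e he
    obtain ⟨h1, h2⟩ := H.mem_fe e he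
    simp only [lets_cons, List.mem_append] at h1 h2 ⊢
    exact ⟨by tauto, by tauto⟩
  · intro s v h
    rw [List.mem_cons] at h
    rcases h with h | h
    · simp only [Elem.free.injEq] at h
      obtain ⟨rfl, rfl⟩ := h
      have h0 : dg fe (Sum.inl b) = 0 := by
        refine dg_eq_zero fun e he => ⟨?_, by simp⟩
        intro h1
        exact hletsnot (h1 ▸ (H.mem_fe e he).1)
      rw [h0, cap_inl, if_pos rfl]
      exact Nat.one_pos
    · exact H.deg_open s v h
  · intro s v v' h h'
    rw [List.mem_cons] at h h'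
    rcases h with h | h <;> rcases h' with h' | h'
    · simp only [Elem.free.injEq] at h h'
      rw [h.2, h'.2]
      exact Conn.refl _ _
    · simp only [Elem.free.injEq] at h
      rw [h.1] at h'
      exact absurd h' (hno v')
    · simp only [Elem.free.injEq] at h'
      rw [h'.1] at h
      exact absurd h (hno v)
    · exact H.conn_id s v v' h h'
  · intro v h
    rw [List.mem_cons] at h
    rcases h with h | h
    · simp only [Elem.free.injEq] at h
      rw [h.2]
      exact Conn.refl _ _
    · exact absurd h (hno v)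
  · intro n hn
    obtain ⟨s, v, h, hc⟩ := H.conn_st n hn
    exact ⟨s, v, by simp [h], hc⟩
  · simp [H.cnt0]
  · intro s hs
    have := H.cnt s hs
    simpa [List.count_cons, hs.symm, Ne.symm hs] using this

end Pool.Agent.FLV
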