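import Pool.Agent.FLV.C3
import Pool.Agent.FLV.C4
import Pool.Agent.FLV.L1b

/-!
# Filling the pending pair, normalisation

`PInv.fillFree`: choose fresh `c, c'` and a new name (`Core.openCap`); `H.cov` with `E' = EE G fe'`.  The circle word is
`c :: (lets es ++ [c'])`.  (`Core.perm`: the element of `c'` is moved to the end.)
`PInv.fillPile`: the hole is between the two letters of the first pile: circle word `Z = x' :: (lets es ++ [x])`
`= (lets (pile x P x' :: es)).rotate 1`.  With `P = P1 ++ u1 :: u2 :: P2` choose `c = u2`, `c' = u1` (adjacent by the chain):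
the new circle word is `u2 :: x' :: (lets es ++ [x, u1])`.  Colours: `x'` is in the first row, `|P2|` odd, so `u2` has the same
colour; `x` is in the second row (`n ≥ 1`), `|P1|` odd.
`PInv.even`: colours of `x` and `x'` are different, so `|P|` is even.
`HInv.norm`, `PInv.norm`: `(lets (e :: es)).rotate e.lets.length = lets (es ++ [e])`; `Core.perm`.
-/

set_option autoImplicit false

namespace Pool.Agent.FLV

variable {V : Type*} [DecidableEq V] {G : V → V → Prop} {col : V → Bool} {b : V} {SV : List V}
  {n : ℕ} {fe : List ((V ⊕ ℕ) × ℕ)} {A B : List (V ⊕ ℕ)} {es : List (Elem V)}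

omit [DecidableEq V] in
theorem M5_rotate (e : Elem V) (es : List (Elem V)) :
    (lets (e :: es)).rotate e.lets.length = (lets (es ++ [e])).rotate 0 := by
  rw [lets_cons, List.rotate_append_length_eq, List.rotate_zero, lets_append]
  simp

theorem HInv.norm {h : ℕ} {e : Elem V}
    (H : HInv G col b SV h fe A B (e :: es) e.lets.length) :
    HInv G col b SV h fe A B (es ++ [e]) 0 := by
  have hp : (e :: es).Perm (es ++ [e]) := (List.perm_append_singleton e es).symm
  refine ⟨H.core.perm (List.Perm.refl _) hp, ?_, ?_, ?_⟩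
  · rw [← H.len]
    exact (lets_perm hp).length_eq.symm
  · have := H.cov
    rw [M5_rotate] at this
    exact this
  · have := H.col
    rw [M5_rotate] at this
    exact this

theorem PInv.norm {e : Elem V}
    (H : PInv G col b SV n fe A B (e :: es) e.lets.length) :
    PInv G col b SV n fe A B (es ++ [e]) 0 := by
  have hp : (e :: es).Perm (es ++ [e]) := (List.perm_append_singleton e es).symm
  refine ⟨H.core.perm (List.Perm.refl _) hp, ?_, ?_, ?_⟩
  · rw [← H.len]
    exact (lets_perm hp).length_eq.symm
  · have := H.cov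
    rw [M5_rotate] at this
    exact this
  · have := H.col
    rw [M5_rotate] at this
    exact this

theorem M5_fill {k k' : ℕ} (H : PInv G col b SV n fe A B es k) {fe' : List ((V ⊕ ℕ) × ℕ)}
    {es' : List (Elem V)} {c c' : V ⊕ ℕ} (hcore : Core G b 1 SV fe' (A ++ B) es')
    (hfe : ∀ e ∈ fe, e ∈ fe') (hadj : EE G fe' c c')
    (hw : (lets es').rotate k' = c :: ((lets es).rotate k ++ [c']))
    (hc : ∀ κ : Bool, (∀ a, Sum.inl a ∈ A ++ ((lets es).rotate k).take (n + 1) → col a = κ) →
      (∀ a, Sum.inl a ∈ B ++ ((lets es).rotate k).drop (n + 1) → col a = !κ) →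
      (∀ a, c = Sum.inl a → col a = κ) ∧ (∀ a, c' = Sum.inl a → col a = !κ)) :
    HInv G col b SV (n + 1) fe' A B es' k' := by
  have hlen : ((lets es).rotate k).length = 2 * n + 1 := by
    rw [List.length_rotate]; exact H.len
  have ht : ((lets es').rotate k').take (n + 1 + 1) = c :: ((lets es).rotate k).take (n + 1) := by
    rw [hw, List.take_succ_cons, List.take_append_of_le_length (by omega)]
  have hd : ((lets es').rotate k').drop (n + 1 + 1) =
      ((lets es).rotate k).drop (n + 1) ++ [c'] := by
    rw [hw, List.drop_succ_cons, List.drop_append_of_le_length (by omega)]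
  refine ⟨hcore, ?_, ?_, ?_⟩
  · have := congrArg List.length hw
    simp only [List.length_rotate, List.length_cons, List.length_append, List.length_nil] at this
    rw [this, H.len]
    omega
  · rw [ht, hd]
    have := H.cov (EE G fe') c c' (fun u v huv => huv.mono hfe) hadj
    exact this
  · rw [ht, hd]
    obtain ⟨κ, h1, h2⟩ := H.col
    obtain ⟨h3, h4⟩ := hc κ h1 h2
    refine ⟨κ, ?_, ?_⟩
    · intro a ha
      rcases List.mem_append.1 ha with h5 | h5
      · exact h1 a (List.mem_append_left _ h5)
      · rcases List.mem_cons.1 h5 with h6 | h6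
        · exact h3 a h6.symm
        · exact h1 a (List.mem_append_right _ h6)
    · intro a ha
      rcases List.mem_append.1 ha with h5 | h5
      · exact h2 a (List.mem_append_left _ h5)
      · rcases List.mem_append.1 h5 with h6 | h6
        · exact h2 a (List.mem_append_right _ h6)
        · exact h4 a (List.mem_singleton.1 h6).symm

theorem PInv.fillFree (H : PInv G col b SV n fe A B es 0) :
    ∃ fe' c c' s, s ≠ 0 ∧ s ∉ ids es ∧ HInv G col b SV (n + 1) fe' A B
      (Elem.free s (Sum.inr c) :: (es ++ [Elem.free s (Sum.inr c')])) 0 := by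
  obtain ⟨N, hN⟩ := exists_fresh ((A ++ B) ++ full es)
  obtain ⟨s, hs0, hs⟩ := exists_name (ids es)
  have h1 := H.core.openCap (n := N) (n' := N + 1) (s := s) (hN _ le_rfl) (hN _ (by omega))
    (by omega) (hs _ le_rfl) (by omega)
  refine ⟨(Sum.inr N, N + 1) :: fe, N, N + 1, s, by omega, hs _ le_rfl, ?_⟩
  refine M5_fill H (c := Sum.inr N) (c' := Sum.inr (N + 1)) ?_ ?_ ?_ ?_ ?_
  · refine h1.perm (List.Perm.refl _) ?_
    exact List.Perm.cons _ (List.perm_append_singleton _ es).symm
  · intro e he
    exact List.mem_cons_of_mem _ he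
  · exact EE.mk (List.mem_cons_self ..)
  · simp
  · intro κ _ _
    exact ⟨fun a ha => by simp at ha, fun a ha => by simp at ha⟩

omit [DecidableEq V] in
theorem M5_chain_col (hcol : ∀ a c, G a c → col a ≠ col c) (P : List V) :
    ∀ (x x' : V), (x :: (P ++ [x'])).IsChain G →
      (Odd P.length → col x' = col x) ∧ (Even P.length → col x' = !(col x)) := by
  induction P with
  | nil =>
    intro x x' h
    have h1 : G x x' := by simpa using h
    have h2 := hcol _ _ h1
    refine ⟨fun h3 => by simp at h3, fun _ => ?_⟩
    revert h2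
    cases col x <;> cases col x' <;> simp
  | cons y P ih =>
    intro x x' h
    rw [List.cons_append, List.isChain_cons_cons] at h
    have h2 := hcol _ _ h.1
    have h3 := ih y x' h.2
    have h4 : col y = !(col x) := by
      revert h2
      cases col x <;> cases col y <;> simp
    rw [h4] at h3
    constructor
    · intro h5
      have h6 : Even P.length := by
        rw [List.length_cons] at h5
        rcases Nat.even_or_odd P.length with h7 | h7
        · exact h7
        · exact absurd h5 (by rw [Nat.not_odd_iff_even]; exact h7.add_one)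
      rw [h3.2 h6]
      simp
    · intro h5
      have h6 : Odd P.length := by
        rw [List.length_cons] at h5
        rcases Nat.even_or_odd P.length with h7 | h7
        · exact absurd h5 (by rw [Nat.not_even_iff_odd]; exact h7.add_one)
        · exact h7
      exact h3.1 h6

omit [DecidableEq V] in
theorem M5_word (x x' : V) (P : List V) (es : List (Elem V)) :
    (lets (Elem.pile x P x' :: es)).rotate 1 =
      Sum.inl x' :: (lets es ++ [Sum.inl x]) := by
  simp

/-- the colours of the letters of the first pile in a pending state with `k = 1` -/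
theorem M5_cols {x x' : V} {P : List V}
    (H : PInv G col b SV n fe A B (Elem.pile x P x' :: es) 1) (_hn : 1 ≤ n) {κ : Bool}
    (h1 : ∀ a, Sum.inl a ∈ A ++ ((lets (Elem.pile x P x' :: es)).rotate 1).take (n + 1) →
      col a = κ)
    (h2 : ∀ a, Sum.inl a ∈ B ++ ((lets (Elem.pile x P x' :: es)).rotate 1).drop (n + 1) →
      col a = !κ) : col x' = κ ∧ col x = !κ := by
  have hl : (lets es).length + 2 = 2 * n + 1 := by
    have := H.len
    simpa using this
  rw [M5_word] at h1 h2
  constructor
  · apply h1
    rw [List.take_succ_cons]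
    exact List.mem_append_right _ (List.mem_cons_self ..)
  · apply h2
    rw [List.drop_succ_cons, List.drop_append_of_le_length (by omega)]
    exact List.mem_append_right _ (List.mem_append_right _ (List.mem_singleton.2 rfl))

theorem PInv.even (hcol : ∀ a c, G a c → col a ≠ col c) {x x' : V} {P : List V}
    (H : PInv G col b SV n fe A B (Elem.pile x P x' :: es) 1) (hn : 1 ≤ n) :
    Even P.length := by
  obtain ⟨κ, h1, h2⟩ := H.col
  obtain ⟨h3, h4⟩ := M5_cols H hn h1 h2
  have h5 := M5_chain_col hcol P x x' (H.core.chain x P x' (List.mem_cons_self ..))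
  rcases Nat.even_or_odd P.length with h6 | h6
  · exact h6
  · have h7 := h5.1 h6
    rw [h3, h4] at h7
    exact absurd h7 (by cases κ <;> simp)

theorem PInv.fillPile (hcol : ∀ a c, G a c → col a ≠ col c) (hG : ∀ a c, G a c → G c a)
    {x x' u1 u2 : V} {P1 P2 : List V}
    (H : PInv G col b SV n fe A B (Elem.pile x (P1 ++ u1 :: u2 :: P2) x' :: es) 1) (hn : 1 ≤ n)
    (h1 : Odd P1.length) (h2 : Odd P2.length) :
    HInv G col b SV (n + 1) fe A B
      (Elem.pile u2 P2 x' :: (es ++ [Elem.pile x P1 u1])) 0 := by
  have hch := H.core.chain x _ x' (List.mem_cons_self ..)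
  have hre : x :: ((P1 ++ u1 :: u2 :: P2) ++ [x']) = (x :: P1) ++ (u1 :: u2 :: (P2 ++ [x'])) := by
    simp
  rw [hre] at hch
  have hc1 : (x :: (P1 ++ [u1])).IsChain G := by
    have hre2 : (x :: P1) ++ (u1 :: u2 :: (P2 ++ [x'])) =
        (x :: (P1 ++ [u1])) ++ (u2 :: (P2 ++ [x'])) := by simp
    rw [hre2] at hch
    exact (List.isChain_append.1 hch).1
  have hc2 := (List.isChain_append.1 hch).2.1
  rw [List.isChain_cons_cons] at hc2
  have hs := H.core.split
  refine M5_fill H (c := Sum.inl u2) (c' := Sum.inl u1) ?_ (fun e he => he) ?_ ?_ ?_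
  · refine hs.perm (List.Perm.refl _) ?_
    refine (List.Perm.swap _ _ _).trans ?_
    exact List.Perm.cons _ (List.perm_append_singleton _ es).symm
  · exact EE.of_G (hG _ _ hc2.1)
  · simp
  · intro κ hκ1 hκ2
    obtain ⟨h3, h4⟩ := M5_cols H hn hκ1 hκ2
    have h5 := (M5_chain_col hcol P1 x u1 hc1).1 h1
    have h6 := (M5_chain_col hcol P2 u2 x' hc2.2).1 h2
    refine ⟨?_, ?_⟩
    · intro a ha
      have : u2 = a := Sum.inl.inj ha
      rw [← this, ← h6, h3]
    · intro a ha
      have : u1 = a := Sum.inl.inj ha
      rw [← this, h5, h4]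

end Pool.Agent.FLV
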