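import Mathlib

/-!
# Two words with letters occurring twice: merging classes

A word `u` of length `2 h + 1` in which the letter `0` occurs once and every other letter twice (or never) describes the
strings of the left half (positions with equal letters are the two ends of a string; the position of
`0` is the end of the string of the root); `v` does the same for the right half.  Positions are *linked*
if they have the same letter in `u` or in `v`.

`merge_reach` PROOF.  Let `x = p`, `x' = p'` and let `C ∋ x`, `C' ∋ x'` be the classes of `Reach u v` (different by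
hypothesis).
(1) Parity: for every class `K`: `|K| = 2 · (number of nonzero letters of u in K) + [K contains the position r_u of 0 in u]`
and the same for `v`; so `r_u ∈ K ↔ |K| odd ↔ r_v ∈ K`.
(2) If `r_u ∉ K`, `x ∈ K` and `y ≠ x` is the other position with `u[y] = u[x]`, then `x` and `y` are connected by links
different from the `u`-link `{x, y}`: let `K1` be the set of positions connected with `x` by links different from the `u`-link
`{x, y}`; if `y ∉ K1` then `K1` is closed under the `v`-partner (so `|K1|` is even, `r_v ∉ K`) and `K1 \ {x}` is closed under the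
`u`-partner (so `|K1| - 1` is even), a contradiction.
(3) Now at least one of `C, C'` does not contain `r_u`.  The word `u'` has the links: `v`-links, `u`-links of letters
different from `u[x], u[x']`, the new link `x - x'` (letter `t`), and the link between the other position `y` with letter `u[x]`
and the other position `y'` with letter `u[x']` (if both exist; both have the letter `min u[x] u[x']`).  If `C` does not
contain `r_u` then `x, y` are still connected by (2) and `y'` is connected to `x'` through `y' - y ... x - x'`
(if `u[x'] = 0` there is no `y'`).  Symmetrically for `C'`.  So every old `u`-link is still connected in `u'`.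
-/

set_option autoImplicit false

namespace Pool.Agent.FLV

/-- the letter `0` occurs once, every other letter twice or never -/
def TW (u : List ℕ) : Prop := u.count 0 = 1 ∧ ∀ s, s ≠ 0 → u.count s = 0 ∨ u.count s = 2

/-- positions with the same letter in `u` or in `v` -/
def Lk (u v : List ℕ) (i j : ℕ) : Prop :=
  i < u.length ∧ j < u.length ∧ (u[i]? = u[j]? ∨ v[i]? = v[j]?)

/-- connected by links -/
def Reach (u v : List ℕ) : ℕ → ℕ → Prop := Relation.ReflTransGen (Lk u v)

/-- rename the letters `s` and `s'` to `min s s'` -/
def renN (s s' r : ℕ) : ℕ := if r = s ∨ r = s' then min s s' else r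

/-- merging at the positions `p, p'` with letters `s, s'`: both positions get the new letter `t` -/
def mergeW (u : List ℕ) (p p' s s' t : ℕ) : List ℕ := ((u.map (renN s s')).set p t).set p' t

theorem W1_card_count (l : List ℕ) (r : ℕ) :
    ((Finset.range l.length).filter (fun i => l[i]? = some r)).card = l.count r := by
  induction l using List.reverseRecOn with
  | nil => simp
  | append_singleton l a ih =>
    rw [List.length_append, List.length_singleton, Finset.range_add_one, Finset.filter_insert]
    have h1 : (Finset.range l.length).filter (fun i => (l ++ [a])[i]? = some r) =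
        (Finset.range l.length).filter (fun i => l[i]? = some r) := by
      apply Finset.filter_congr
      intro i hi
      rw [List.getElem?_append_left (Finset.mem_range.mp hi)]
    rw [h1]
    have h2 : (l ++ [a])[l.length]? = some a := by simp
    rw [h2, List.count_append, List.count_singleton, ← ih]
    by_cases har : a = r
    · subst har
      rw [if_pos rfl, Finset.card_insert_of_notMem (by simp)]
      simp
    · rw [if_neg (by simpa using har)]
      simp [har]

theorem W1_parity {w : List ℕ} (hw : TW w) (S : Finset ℕ) (hS : ∀ i ∈ S, i < w.length)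
    (hcl : ∀ i ∈ S, ∀ j, j < w.length → w[i]? = w[j]? → j ∈ S) :
    Even S.card ↔ ∀ r ∈ S, w[r]? ≠ some 0 := by
  classical
  let L : ℕ → ℕ := fun i => w.getD i 0
  have hL : ∀ i, i < w.length → w[i]? = some (L i) := by
    intro i hi
    simp [L, List.getD, List.getElem?_eq_getElem hi]
  have hc : ∀ b ∈ S.image L, (S.filter (fun i => L i = b)).card = if b = 0 then 1 else 2 := by
    intro b hb
    obtain ⟨i0, hi0, rfl⟩ := Finset.mem_image.mp hb
    have heq : S.filter (fun i => L i = L i0) =
        (Finset.range w.length).filter (fun i => w[i]? = some (L i0)) := by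
      ext i
      simp only [Finset.mem_filter, Finset.mem_range]
      constructor
      · rintro ⟨h1, h2⟩
        exact ⟨hS i h1, by rw [hL i (hS i h1), h2]⟩
      · rintro ⟨h1, h2⟩
        have h3 : i ∈ S := hcl i0 hi0 i h1 (by rw [hL i0 (hS i0 hi0), h2])
        refine ⟨h3, ?_⟩
        rw [hL i h1] at h2
        exact Option.some.inj h2
    have hpos : 0 < (S.filter (fun i => L i = L i0)).card :=
      Finset.card_pos.mpr ⟨i0, Finset.mem_filter.mpr ⟨hi0, rfl⟩⟩
    rw [heq, W1_card_count] at hpos ⊢
    by_cases h0 : L i0 = 0
    · rw [if_pos h0, h0]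
      exact hw.1
    · rw [if_neg h0]
      rcases hw.2 (L i0) h0 with h | h
      · omega
      · exact h
  have hcard : S.card = ∑ b ∈ S.image L, (if b = 0 then 1 else 2) := by
    rw [Finset.card_eq_sum_card_image L S]
    exact Finset.sum_congr rfl hc
  have hiff : (∀ r ∈ S, w[r]? ≠ some 0) ↔ 0 ∉ S.image L := by
    constructor
    · intro h hm
      obtain ⟨r, hr, hr0⟩ := Finset.mem_image.mp hm
      exact h r hr (by rw [hL r (hS r hr), hr0])
    · intro h r hr hr0
      apply h
      refine Finset.mem_image.mpr ⟨r, hr, ?_⟩
      rw [hL r (hS r hr)] at hr0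
      exact Option.some.inj hr0
  rw [hiff, hcard]
  by_cases h0 : 0 ∈ S.image L
  · rw [← Finset.add_sum_erase _ _ h0]
    have h2 : ∑ b ∈ (S.image L).erase 0, (if b = 0 then 1 else 2) =
        ∑ _b ∈ (S.image L).erase 0, 2 := by
      apply Finset.sum_congr rfl
      intro b hb
      rw [if_neg (Finset.ne_of_mem_erase hb)]
    rw [h2, Finset.sum_const, if_pos rfl, smul_eq_mul]
    constructor
    · intro h
      exfalso
      rw [Nat.even_iff] at h
      omega
    · intro h
      exact absurd h0 h
  · have h2 : ∑ b ∈ S.image L, (if b = 0 then 1 else 2) = ∑ _b ∈ S.image L, 2 := by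
      apply Finset.sum_congr rfl
      intro b hb
      rw [if_neg]
      rintro rfl
      exact h0 hb
    rw [h2, Finset.sum_const, smul_eq_mul]
    exact ⟨fun _ => h0, fun _ => by rw [Nat.even_iff]; omega⟩

theorem W1_lt {u : List ℕ} {i s : ℕ} (h : u[i]? = some s) : i < u.length := by
  obtain ⟨h, _⟩ := List.getElem?_eq_some_iff.mp h
  exact h

theorem W1_two {u : List ℕ} (hu : TW u) {x s : ℕ} (hx : u[x]? = some s) (hs : s ≠ 0) :
    ∃ y, y ≠ x ∧ u[y]? = some s ∧ ∀ i, u[i]? = some s → i = x ∨ i = y := by
  classical
  have hxm : x ∈ (Finset.range u.length).filter (fun i => u[i]? = some s) :=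
    Finset.mem_filter.mpr ⟨Finset.mem_range.mpr (W1_lt hx), hx⟩
  have hc := W1_card_count u s
  have h2 : u.count s = 2 := by
    rcases hu.2 s hs with h | h
    · exfalso
      rw [h] at hc
      rw [Finset.card_eq_zero.mp hc] at hxm
      simp at hxm
    · exact h
  rw [h2] at hc
  obtain ⟨y, hy, hyx⟩ := Finset.exists_mem_ne
    (show 1 < ((Finset.range u.length).filter (fun i => u[i]? = some s)).card by omega) x
  refine ⟨y, hyx, (Finset.mem_filter.mp hy).2, ?_⟩
  intro i hi
  have him : i ∈ (Finset.range u.length).filter (fun i => u[i]? = some s) :=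
    Finset.mem_filter.mpr ⟨Finset.mem_range.mpr (W1_lt hi), hi⟩
  have hsub : ({x, y} : Finset ℕ) ⊆ (Finset.range u.length).filter (fun i => u[i]? = some s) := by
    intro z hz
    rcases Finset.mem_insert.mp hz with rfl | hz
    · exact hxm
    · rw [Finset.mem_singleton.mp hz]
      exact hy
  have heq := Finset.eq_of_subset_of_card_le hsub (by
    rw [hc, Finset.card_pair (Ne.symm hyx)])
  rw [← heq] at him
  rcases Finset.mem_insert.mp him with h | h
  · exact Or.inl h
  · exact Or.inr (Finset.mem_singleton.mp h)

theorem W1_one {u : List ℕ} (hu : TW u) {i j : ℕ} (hi : u[i]? = some 0) (hj : u[j]? = some 0) :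
    i = j := by
  classical
  have hc := W1_card_count u 0
  rw [hu.1] at hc
  exact Finset.card_le_one.mp (le_of_eq hc) i
    (Finset.mem_filter.mpr ⟨Finset.mem_range.mpr (W1_lt hi), hi⟩) j
    (Finset.mem_filter.mpr ⟨Finset.mem_range.mpr (W1_lt hj), hj⟩)

theorem W1_Lk_symm {u v : List ℕ} {i j : ℕ} (h : Lk u v i j) : Lk u v j i := by
  obtain ⟨h1, h2, h3⟩ := h
  refine ⟨h2, h1, ?_⟩
  rcases h3 with h | h
  · exact Or.inl h.symm
  · exact Or.inr h.symm

theorem W1_Reach_symm {u v : List ℕ} {i j : ℕ} (h : Reach u v i j) : Reach u v j i := by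
  induction h with
  | refl => exact Relation.ReflTransGen.refl
  | tail _ hbc ih => exact Relation.ReflTransGen.head (W1_Lk_symm hbc) ih

/-- links except the `u`-links with letter `s` -/
def W1_Lk1 (u v : List ℕ) (s : ℕ) (i j : ℕ) : Prop :=
  i < u.length ∧ j < u.length ∧ (v[i]? = v[j]? ∨ (u[i]? = u[j]? ∧ u[i]? ≠ some s))

theorem W1_Lk1_Lk {u v : List ℕ} {s i j : ℕ} (h : W1_Lk1 u v s i j) : Lk u v i j := by
  obtain ⟨h1, h2, h3⟩ := h
  refine ⟨h1, h2, ?_⟩
  rcases h3 with h | h
  · exact Or.inr h
  · exact Or.inl h.1

theorem W1_R1_R {u v : List ℕ} {s i j : ℕ} (h : Relation.ReflTransGen (W1_Lk1 u v s) i j) :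
    Reach u v i j := by
  induction h with
  | refl => exact Relation.ReflTransGen.refl
  | tail _ hbc ih => exact ih.tail (W1_Lk1_Lk hbc)

theorem W1_core {u v : List ℕ} (hu : TW u) (hv : TW v) (hl : u.length = v.length)
    {x y s : ℕ} (hx : u[x]? = some s) (hxy : y ≠ x)
    (hun : ∀ i, u[i]? = some s → i = x ∨ i = y)
    (hC : ∀ r, u[r]? = some 0 → ¬ Reach u v x r) :
    Relation.ReflTransGen (W1_Lk1 u v s) x y := by
  classical
  by_contra hy
  have hxn := W1_lt hx
  -- the class of `x`
  let K : Finset ℕ := (Finset.range u.length).filter (fun i => Reach u v x i)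
  let K1 : Finset ℕ := (Finset.range u.length).filter
    (fun i => Relation.ReflTransGen (W1_Lk1 u v s) x i)
  have hKu : Even K.card ↔ ∀ r ∈ K, u[r]? ≠ some 0 := by
    apply W1_parity hu
    · intro i hi
      exact Finset.mem_range.mp (Finset.mem_filter.mp hi).1
    · intro i hi j hj hij
      have hi' := Finset.mem_filter.mp hi
      exact Finset.mem_filter.mpr ⟨Finset.mem_range.mpr hj,
        hi'.2.tail ⟨Finset.mem_range.mp hi'.1, hj, Or.inl hij⟩⟩
  have hKv : Even K.card ↔ ∀ r ∈ K, v[r]? ≠ some 0 := by
    apply W1_parity hv
    · intro i hi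
      rw [← hl]
      exact Finset.mem_range.mp (Finset.mem_filter.mp hi).1
    · intro i hi j hj hij
      rw [← hl] at hj
      have hi' := Finset.mem_filter.mp hi
      exact Finset.mem_filter.mpr ⟨Finset.mem_range.mpr hj,
        hi'.2.tail ⟨Finset.mem_range.mp hi'.1, hj, Or.inr hij⟩⟩
  have hKe : Even K.card := hKu.mpr (fun r hr h0 => hC r h0 (Finset.mem_filter.mp hr).2)
  have hK0 := hKv.mp hKe
  have hsub : ∀ i ∈ K1, i ∈ K := by
    intro i hi
    have hi' := Finset.mem_filter.mp hi
    exact Finset.mem_filter.mpr ⟨hi'.1, W1_R1_R hi'.2⟩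
  have h1 : Even K1.card := by
    rw [W1_parity hv K1]
    · intro r hr
      exact hK0 r (hsub r hr)
    · intro i hi
      rw [← hl]
      exact Finset.mem_range.mp (Finset.mem_filter.mp hi).1
    · intro i hi j hj hij
      rw [← hl] at hj
      have hi' := Finset.mem_filter.mp hi
      exact Finset.mem_filter.mpr ⟨Finset.mem_range.mpr hj,
        hi'.2.tail ⟨Finset.mem_range.mp hi'.1, hj, Or.inl hij⟩⟩
  have hyK1 : y ∉ K1 := fun h => hy (Finset.mem_filter.mp h).2
  have hxK1 : x ∈ K1 := Finset.mem_filter.mpr ⟨Finset.mem_range.mpr hxn, Relation.ReflTransGen.refl⟩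
  have h2 : Even (K1.erase x).card := by
    rw [W1_parity hu (K1.erase x)]
    · intro r hr h0
      have hr1 := Finset.mem_of_mem_erase hr
      exact hC r h0 (Finset.mem_filter.mp (hsub r hr1)).2
    · intro i hi
      exact Finset.mem_range.mp (Finset.mem_filter.mp (Finset.mem_of_mem_erase hi)).1
    · intro i hi j hj hij
      have hi1 := Finset.mem_of_mem_erase hi
      have hix := Finset.ne_of_mem_erase hi
      have hi' := Finset.mem_filter.mp hi1
      have his : u[i]? ≠ some s := by
        intro h
        rcases hun i h with h | h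
        · exact hix h
        · exact hyK1 (h ▸ hi1)
      refine Finset.mem_erase.mpr ⟨?_, Finset.mem_filter.mpr ⟨Finset.mem_range.mpr hj,
        hi'.2.tail ⟨Finset.mem_range.mp hi'.1, hj, Or.inr ⟨hij, his⟩⟩⟩⟩
      rintro rfl
      exact his (by rw [hij, hx])
  have h3 := Finset.card_erase_of_mem hxK1
  have h4 : 0 < K1.card := Finset.card_pos.mpr ⟨x, hxK1⟩
  rw [Nat.even_iff] at h1 h2
  omega

theorem W1_len (u : List ℕ) (p p' s s' t : ℕ) : (mergeW u p p' s s' t).length = u.length := by
  simp [mergeW]

theorem W1_get_ne {u : List ℕ} {p p' s s' t i : ℕ} (h : i ≠ p) (h' : i ≠ p') :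
    (mergeW u p p' s s' t)[i]? = (u[i]?).map (renN s s') := by
  unfold mergeW
  rw [List.getElem?_set_ne (Ne.symm h'), List.getElem?_set_ne (Ne.symm h), List.getElem?_map]

theorem W1_get_p' {u : List ℕ} {p p' s s' t : ℕ} (hp' : p' < u.length) :
    (mergeW u p p' s s' t)[p']? = some t := by
  unfold mergeW
  rw [List.getElem?_set_self (by simpa using hp')]

theorem W1_get_p {u : List ℕ} {p p' s s' t : ℕ} (hp : p < u.length) :
    (mergeW u p p' s s' t)[p]? = some t := by
  by_cases h : p = p'
  · subst h
    exact W1_get_p' hp
  · unfold mergeW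
    rw [List.getElem?_set_ne (Ne.symm h), List.getElem?_set_self (by simpa using hp)]

theorem W1_ren_comm (s s' r : ℕ) : renN s s' r = renN s' s r := by
  unfold renN
  rw [min_comm]
  by_cases h : r = s ∨ r = s'
  · rw [if_pos h, if_pos (Or.symm h)]
  · rw [if_neg h, if_neg (fun h' => h (Or.symm h'))]

theorem W1_merge_comm (u : List ℕ) (p p' s s' t : ℕ) :
    mergeW u p p' s s' t = mergeW u p' p s' s t := by
  unfold mergeW
  have h : renN s s' = renN s' s := funext (W1_ren_comm s s')
  rw [h]
  by_cases hpp : p = p'
  · subst hpp
    rfl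
  · exact List.set_comm t t hpp

theorem W1_count_ren (u : List ℕ) {s s' : ℕ} (hss : s ≠ s') (r : ℕ) :
    (u.map (renN s s')).count r =
      if r = min s s' then u.count s + u.count s' else if r = s ∨ r = s' then 0 else u.count r := by
  induction u with
  | nil => simp
  | cons a l ih =>
    rw [List.map_cons, List.count_cons, ih]
    have hm : min s s' = s ∨ min s s' = s' := min_choice s s'
    simp only [List.count_cons, beq_iff_eq]
    unfold renN
    by_cases h1 : r = min s s'
    · simp only [h1, if_true]
      by_cases ha : a = s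
      · subst ha
        simp [hss]
        omega
      · by_cases ha' : a = s'
        · subst ha'
          simp [ha]
          omega
        · have : a ≠ min s s' := by
            rcases hm with h | h <;> rw [h] <;> assumption
          simp [ha, ha', this]
    · simp only [h1, if_false]
      by_cases h2 : r = s ∨ r = s'
      · simp only [h2, if_true]
        by_cases ha : a = s ∨ a = s'
        · simp only [ha, if_true]
          simp [Ne.symm h1]
        · simp only [ha, if_false]
          have : a ≠ r := by
            rintro rfl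
            exact ha h2
          simp [this]
      · simp only [h2, if_false]
        by_cases ha : a = s ∨ a = s'
        · simp only [ha, if_true]
          have : a ≠ r := by
            rintro rfl
            exact h2 ha
          simp [Ne.symm h1, this]
        · simp only [ha, if_false]

theorem mergeW_TW {u : List ℕ} (hu : TW u) {p p' s s' t : ℕ} (hp : u[p]? = some s)
    (hp' : u[p']? = some s') (hs : s ≠ s') (ht : t ≠ 0) (htu : t ∉ u) :
    TW (mergeW u p p' s s' t) := by
  have hpn := W1_lt hp
  have hpn' := W1_lt hp'
  have hpp : p ≠ p' := by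
    rintro rfl
    rw [hp] at hp'
    exact hs (Option.some.inj hp')
  have hsu : s ∈ u := List.mem_of_getElem? hp
  have hsu' : s' ∈ u := List.mem_of_getElem? hp'
  have hts : t ≠ s := fun h => htu (h ▸ hsu)
  have hts' : t ≠ s' := fun h => htu (h ▸ hsu')
  have hm : min s s' = s ∨ min s s' = s' := min_choice s s'
  have htm : t ≠ min s s' := by
    rcases hm with h | h <;> rw [h] <;> assumption
  have hcs : 1 ≤ u.count s := List.count_pos_iff.mpr hsu
  have hcs' : 1 ≤ u.count s' := List.count_pos_iff.mpr hsu'
  have hct : u.count t = 0 := List.count_eq_zero.mpr htu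
  have key : ∀ r, (mergeW u p p' s s' t).count r =
      if r = t then 2 else if r = min s s' then u.count s + u.count s' - 2 else
        if r = s ∨ r = s' then 0 else u.count r := by
    intro r
    have hl1 : p < (u.map (renN s s')).length := by simpa using hpn
    have hl2 : p' < ((u.map (renN s s')).set p t).length := by simpa using hpn'
    unfold mergeW
    rw [List.count_set hl2, List.count_set hl1, W1_count_ren u hs]
    have e1 : (u.map (renN s s'))[p] = min s s' := by
      have : (u.map (renN s s'))[p]? = some (min s s') := by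
        rw [List.getElem?_map, hp]
        simp [renN]
      obtain ⟨_, h⟩ := List.getElem?_eq_some_iff.mp this
      exact h
    have e2 : ((u.map (renN s s')).set p t)[p'] = min s s' := by
      have : ((u.map (renN s s')).set p t)[p']? = some (min s s') := by
        rw [List.getElem?_set_ne hpp, List.getElem?_map, hp']
        simp [renN]
      obtain ⟨_, h⟩ := List.getElem?_eq_some_iff.mp this
      exact h
    rw [e1, e2]
    simp only [beq_iff_eq]
    by_cases h1 : r = t
    · subst h1
      simp only [if_true, htm, Ne.symm htm, if_false, hts, hts', or_self, hct]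
    · simp only [h1, Ne.symm h1, if_false]
      by_cases h2 : r = min s s'
      · subst h2
        simp only [if_true]
        omega
      · simp only [h2, Ne.symm h2, if_false]
        simp
  constructor
  · rw [key 0, if_neg (Ne.symm ht)]
    by_cases h0 : s = 0
    · subst h0
      rw [if_pos (by simp), hu.1]
      rcases hu.2 s' (Ne.symm hs) with h | h <;> omega
    · by_cases h0' : s' = 0
      · subst h0'
        rw [if_pos (by simp), hu.1]
        rcases hu.2 s h0 with h | h <;> omega
      · rw [if_neg (by rcases hm with h | h <;> rw [h] <;> exact Ne.symm (by assumption)),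
          if_neg (by rintro (h | h) <;> simp_all), hu.1]
  · intro r hr
    rw [key r]
    by_cases h1 : r = t
    · rw [if_pos h1]
      exact Or.inr rfl
    · rw [if_neg h1]
      by_cases h2 : r = min s s'
      · rw [if_pos h2]
        have hs0 : s ≠ 0 := by
          rintro rfl
          exact hr (by rw [h2]; simp)
        have hs0' : s' ≠ 0 := by
          rintro rfl
          exact hr (by rw [h2]; simp)
        rcases hu.2 s hs0 with h | h <;> rcases hu.2 s' hs0' with h' | h' <;> omega
      · rw [if_neg h2]
        by_cases h3 : r = s ∨ r = s'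
        · rw [if_pos h3]
          exact Or.inl rfl
        · rw [if_neg h3]
          exact hu.2 r hr

theorem W1_main {u v : List ℕ} (hu : TW u) (hv : TW v) (hl : u.length = v.length)
    {p p' s s' t : ℕ} (hp : u[p]? = some s) (hp' : u[p']? = some s')
    (hn : ¬ Reach u v p p') (hC : ∀ r, u[r]? = some 0 → ¬ Reach u v p r) :
    ∀ i j, Reach u v i j → Reach (mergeW u p p' s s' t) v i j := by
  have hpn := W1_lt hp
  have hpn' := W1_lt hp'
  have hss : s ≠ s' := by
    rintro rfl
    exact hn (Relation.ReflTransGen.single ⟨hpn, hpn', Or.inl (by rw [hp, hp'])⟩)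
  have hs0 : s ≠ 0 := by
    rintro rfl
    exact hC p hp Relation.ReflTransGen.refl
  have hlen := W1_len u p p' s s' t
  -- `v`-links
  have hvl : ∀ i j, i < u.length → j < u.length → v[i]? = v[j]? →
      Lk (mergeW u p p' s s' t) v i j := by
    intro i j hi hj h
    exact ⟨by rw [hlen]; exact hi, by rw [hlen]; exact hj, Or.inr h⟩
  -- `u`-links with other letters
  have hul : ∀ i j, i < u.length → j < u.length → u[i]? = u[j]? → u[i]? ≠ some s →
      u[i]? ≠ some s' → Lk (mergeW u p p' s s' t) v i j := by
    intro i j hi hj h h1 h2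
    refine ⟨by rw [hlen]; exact hi, by rw [hlen]; exact hj, Or.inl ?_⟩
    rw [W1_get_ne, W1_get_ne, h]
    · rintro rfl
      exact h1 (by rw [h, hp])
    · rintro rfl
      exact h2 (by rw [h, hp'])
    · rintro rfl
      exact h1 hp
    · rintro rfl
      exact h2 hp'
  obtain ⟨y, hyp, hy, hun⟩ := W1_two hu hp hs0
  have hcore := W1_core hu hv hl hp hyp hun hC
  have hstep : ∀ i, Relation.ReflTransGen (W1_Lk1 u v s) p i →
      Reach (mergeW u p p' s s' t) v p i := by
    intro i hi
    induction hi with
    | refl => exact Relation.ReflTransGen.refl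
    | tail hab hbc ih =>
      rename_i b c
      refine ih.tail ?_
      obtain ⟨h1, h2, h3⟩ := hbc
      rcases h3 with h3 | ⟨h3, h4⟩
      · exact hvl _ _ h1 h2 h3
      · refine hul _ _ h1 h2 h3 h4 ?_
        intro h5
        exact hn ((W1_R1_R hab).tail ⟨h1, hpn', Or.inl (by rw [h5, hp'])⟩)
  have hxy : Reach (mergeW u p p' s s' t) v p y := hstep y hcore
  have hpp' : Reach (mergeW u p p' s s' t) v p p' :=
    Relation.ReflTransGen.single ⟨by rw [hlen]; exact hpn, by rw [hlen]; exact hpn',
      Or.inl (by rw [W1_get_p hpn, W1_get_p' hpn'])⟩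
  -- the link `s`
  have hS : ∀ i j, u[i]? = some s → u[j]? = some s → Reach (mergeW u p p' s s' t) v i j := by
    have hA : ∀ i, u[i]? = some s → Reach (mergeW u p p' s s' t) v p i := by
      intro i hi
      rcases hun i hi with h | h
      · rw [h]
        exact Relation.ReflTransGen.refl
      · rw [h]
        exact hxy
    intro i j hi hj
    exact (W1_Reach_symm (hA i hi)).trans (hA j hj)
  have hyn := W1_lt hy
  have hyp' : y ≠ p' := by
    rintro rfl
    rw [hp'] at hy
    exact hss (Option.some.inj hy).symm
  have hS' : ∀ i j, u[i]? = some s' → u[j]? = some s' → Reach (mergeW u p p' s s' t) v i j := by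
    have hA : ∀ i, u[i]? = some s' → Reach (mergeW u p p' s s' t) v p' i := by
      intro i hi
      by_cases hip : i = p'
      · rw [hip]
        exact Relation.ReflTransGen.refl
      · have hip2 : i ≠ p := by
          rintro rfl
          rw [hp] at hi
          exact hss (Option.some.inj hi)
        refine ((W1_Reach_symm hpp').trans hxy).tail ⟨by rw [hlen]; exact hyn,
          by rw [hlen]; exact W1_lt hi, Or.inl ?_⟩
        rw [W1_get_ne hyp hyp', W1_get_ne hip2 hip, hy, hi]
        simp [renN]
    intro i j hi hj
    exact (W1_Reach_symm (hA i hi)).trans (hA j hj)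
  intro i j hij
  induction hij with
  | refl => exact Relation.ReflTransGen.refl
  | tail hab hbc ih =>
    rename_i b c
    refine ih.trans ?_
    obtain ⟨h1, h2, h3⟩ := hbc
    rcases h3 with h3 | h3
    · by_cases h4 : u[b]? = some s
      · exact hS b c h4 (by rw [← h3, h4])
      · by_cases h5 : u[b]? = some s'
        · exact hS' b c h5 (by rw [← h3, h5])
        · exact Relation.ReflTransGen.single (hul b c h1 h2 h3 h4 h5)
    · exact Relation.ReflTransGen.single (hvl b c h1 h2 h3)

theorem merge_reach {u v : List ℕ} (hu : TW u) (hv : TW v) (hl : u.length = v.length)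
    {p p' s s' t : ℕ} (hp : u[p]? = some s) (hp' : u[p']? = some s') (ht : t ≠ 0) (htu : t ∉ u)
    (hn : ¬ Reach u v p p') :
    (∀ i j, Reach u v i j → Reach (mergeW u p p' s s' t) v i j) ∧
      Reach (mergeW u p p' s s' t) v p p' := by
  have hpn := W1_lt hp
  have hpn' := W1_lt hp'
  have hlen := W1_len u p p' s s' t
  refine ⟨?_, Relation.ReflTransGen.single ⟨by rw [hlen]; exact hpn, by rw [hlen]; exact hpn',
      Or.inl (by rw [W1_get_p hpn, W1_get_p' hpn'])⟩⟩
  by_cases hC : ∀ r, u[r]? = some 0 → ¬ Reach u v p r
  · exact W1_main hu hv hl hp hp' hn hC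
  · rw [W1_merge_comm]
    apply W1_main hu hv hl hp' hp (fun h => hn (W1_Reach_symm h))
    intro r hr hreach
    apply hC
    intro r' hr' hreach'
    have := W1_one hu hr hr'
    subst this
    exact hn (hreach'.trans (W1_Reach_symm hreach))

end Pool.Agent.FLV
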