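import Pool.Agent.FLV.AFDefs
import Pool.Agent.FLV.M1
import Pool.Agent.FLV.M3
import Pool.Agent.FLV.M5
import Pool.Agent.FLV.W1

/-!
# Moves on states without piles
-/

set_option autoImplicit false

namespace Pool.Agent.FLV

variable {V : Type*} [DecidableEq V] {G : V → V → Prop} {col : V → Bool} {b : V} {SV : List V}
  {n h : ℕ} {fe : List ((V ⊕ ℕ) × ℕ)} {A B : List (V ⊕ ℕ)} {es : List (Elem V)} {u : List ℕ} {N : ℕ}

theorem PInv.fillFreeAv (H : PInv G col b SV n fe A B es 0) (av : List ℕ) :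
    ∃ fe' c c' s, s ≠ 0 ∧ s ∉ ids es ∧ s ∉ av ∧ HInv G col b SV (n + 1) fe' A B
      (Elem.free s (Sum.inr c) :: (es ++ [Elem.free s (Sum.inr c')])) 0 := by
  obtain ⟨N, hN⟩ := exists_fresh ((A ++ B) ++ full es)
  obtain ⟨s, hs0, hs⟩ := exists_name (ids es ++ av)
  have hs' : s ∉ ids es ∧ s ∉ av := by
    have := hs s le_rfl
    simpa using this
  have h1 := H.core.openCap (n := N) (n' := N + 1) (s := s) (hN _ le_rfl) (hN _ (by omega))
    (by omega) hs'.1 (by omega)
  refine ⟨(Sum.inr N, N + 1) :: fe, N, N + 1, s, by omega, hs'.1, hs'.2, ?_⟩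
  refine M5_fill H (c := Sum.inr N) (c' := Sum.inr (N + 1)) ?_ ?_ ?_ ?_ ?_
  · refine h1.perm (List.Perm.refl _) ?_
    exact List.Perm.cons _ (List.perm_append_singleton _ es).symm
  · intro e he
    exact List.mem_cons_of_mem _ he
  · exact EE.mk (List.mem_cons_self ..)
  · simp
  · intro κ _ _
    exact ⟨fun a ha => by simp at ha, fun a ha => by simp at ha⟩

omit [DecidableEq V] in
theorem A1_sizes {a c : ℕ} {es es' : List (Elem V)} (h : List.Forall₂ (Shr a c) es es')
    (hs : sizes es = []) : sizes es' = [] := by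
  have := (shrL_sizes h).length_eq
  rw [hs] at this
  exact List.length_eq_zero_iff.1 this.symm

omit [DecidableEq V] in
theorem A1_sizes_map (s s' : ℕ) (es : List (Elem V)) :
    sizes (es.map (Elem.ren s s')) = sizes es := by
  induction es with
  | nil => rfl
  | cons e es ih => cases e <;> simp [Elem.ren, ih]

omit [DecidableEq V] in
theorem A1_ids_map (s s' : ℕ) (es : List (Elem V)) :
    ids (es.map (Elem.ren s s')) = (ids es).map (renN s s') := by
  induction es with
  | nil => rfl
  | cons e es ih => cases e <;> simp [Elem.ren, ih, renN]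

omit [DecidableEq V] in
theorem A1_cons {es : List (Elem V)} (hs : sizes es = []) (hl : (lets es).length ≠ 0) :
    ∃ s v es0, es = Elem.free s v :: es0 ∧ sizes es0 = [] := by
  cases es with
  | nil => simp at hl
  | cons e es0 =>
    cases e with
    | free s v => exact ⟨s, v, es0, rfl, by simpa using hs⟩
    | pile x P x' => simp at hs

omit [DecidableEq V] in
theorem A1_len {es : List (Elem V)} (hs : sizes es = []) :
    (lets es).length = (ids es).length := by
  induction es with
  | nil => rfl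
  | cons e es ih =>
    cases e with
    | free s v =>
      have := ih (by simpa using hs)
      simp [this]
    | pile x P x' => simp at hs

theorem AF.TW (H : AF G col b SV h u N) : u.length = 2 * h + 1 ∧ TW u := by
  obtain ⟨fe, A, B, es, H, hs, _, hu, _⟩ := H
  refine ⟨?_, ?_, ?_⟩
  · rw [← hu, ← A1_len hs]; exact H.len
  · rw [← hu]; exact H.core.cnt0
  · intro s hs0; rw [← hu]; exact H.core.cnt s hs0

theorem AF.round (hG : ∀ a c, G a c → G c a) (hcol : ∀ a c, G a c → col a ≠ col c)
    (H : AF G col b SV h u N) : AF G col b SV h u (N + (2 * h + 1)) := by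
  obtain ⟨fe, A, B, es, H, hs, ha, hu, hN⟩ := H
  obtain ⟨fe', C, D, es', H', hC, hD, hsh, hm⟩ := H.round hG hcol (by simp [hs])
  refine ⟨fe', B ++ C, A ++ D, es', H', A1_sizes hsh hs, fun a haS => ?_, ?_, ?_⟩
  · exact hm _ (List.mem_append_left _ (ha a haS))
  · rw [shrL_ids hsh, hu]
  · simp only [List.length_append]; omega

theorem AF.rot (hG : ∀ a c, G a c → G c a) (hcol : ∀ a c, G a c → col a ≠ col c) (hh : 1 ≤ h)
    (H : AF G col b SV h u N) : AF G col b SV h (u.rotate 1) (N + 2) := by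
  obtain ⟨fe, A, B, es, H, hs, ha, hu, hN⟩ := H
  obtain ⟨s, v, es0, rfl, hs0⟩ := A1_cons hs (by rw [H.len]; omega)
  obtain ⟨fe', x, y, es', H', hsh⟩ := H.dstep hG hcol hh (by simp [hs])
  obtain ⟨e', es0', he, hes, rfl⟩ := List.forall₂_cons_left_iff.1 hsh
  cases he with
  | free _ _ v' =>
    have H2 := HInv.norm (e := Elem.free s v') (by simpa using H')
    refine ⟨fe', A ++ [x], B ++ [y], es0' ++ [Elem.free s v'], H2, ?_, fun a haS => ?_, ?_, ?_⟩
    · simp [A1_sizes hes hs0]
    · have := ha a haS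
      simp only [List.mem_append] at this ⊢
      tauto
    · rw [← hu]
      simp [shrL_ids hes]
    · simp only [List.length_append, List.length_singleton]; omega

theorem AF.merge (hG : ∀ a c, G a c → G c a) (hcol : ∀ a c, G a c → col a ≠ col c) (hh : 1 ≤ h)
    {s s' : ℕ} {u0 : List ℕ} (H : AF G col b SV h (s :: s' :: u0) N) (hne : s ≠ s') :
    ∃ t, t ≠ 0 ∧ t ∉ s :: s' :: u0 ∧
      AF G col b SV h (t :: (u0.map (renN s s') ++ [t])) (N + (4 * h + 4)) := by
  obtain ⟨n, rfl⟩ : ∃ n, h = n + 1 := ⟨h - 1, by omega⟩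
  obtain ⟨fe, A, B, es, H, hs, ha, hu, hN⟩ := H
  obtain ⟨r, v, es0, rfl, hs0⟩ := A1_cons hs (by rw [H.len]; omega)
  obtain ⟨r', v', es1, rfl, hs1⟩ := A1_cons hs0 (by
    have := H.len
    simp at this
    omega)
  simp only [ids_cons, Elem.ids_free, List.cons_append, List.nil_append, List.cons.injEq] at hu
  obtain ⟨rfl, rfl, hu⟩ := hu
  obtain ⟨fe', C, D, es', H', hC, hD, hsh⟩ := H.startFree hG hcol hne (by simp [hs1])
  obtain ⟨fe'', c, c', t, ht0, _, htav, H2⟩ := H'.fillFreeAv (r :: r' :: u0)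
  have hs' : sizes es' = [] := A1_sizes hsh (by rw [A1_sizes_map]; exact hs1)
  have hids : ids es' = u0.map (renN r r') := by
    rw [shrL_ids hsh, A1_ids_map, hu]
  refine ⟨t, ht0, htav, fe'', A ++ C, B ++ D, _, H2, ?_, fun a haS => ?_, ?_, ?_⟩
  · simp [hs']
  · have := ha a haS
    simp only [List.mem_append] at this ⊢
    tauto
  · simp [hids]
  · simp only [List.length_append]; omega

end Pool.Agent.FLV
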