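import Pool.Agent.FLV.Base

/-!
# States without piles
-/

set_option autoImplicit false

namespace Pool.Agent.FLV

/-- a state without piles, all vertices of the tree are settled, `u` = names of the strings, `N` = number of
realised sums -/
def AF {V : Type*} [DecidableEq V] (G : V → V → Prop) (col : V → Bool) (b : V) (SV : List V)
    (h : ℕ) (u : List ℕ) (N : ℕ) : Prop :=
  ∃ fe A B es, HInv G col b SV h fe A B es 0 ∧ sizes es = [] ∧ (∀ a ∈ SV, Sum.inl a ∈ A ++ B) ∧
    ids es = u ∧ A.length + B.length + h = N

end Pool.Agent.FLV
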