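import Pool.Agent.FLV.Defs

/-!
# Basic lemmas on elements, `fe`, `Conn`, `dg`
-/

set_option autoImplicit false

namespace Pool.Agent.FLV

variable {V : Type*}

@[simp] theorem lets_nil : lets ([] : List (Elem V)) = [] := rfl
@[simp] theorem full_nil : full ([] : List (Elem V)) = [] := rfl
@[simp] theorem ids_nil : ids ([] : List (Elem V)) = [] := rfl
@[simp] theorem sizes_nil : sizes ([] : List (Elem V)) = [] := rfl
@[simp] theorem lets_cons (e : Elem V) (es : List (Elem V)) : lets (e :: es) = e.lets ++ lets es := rfl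
@[simp] theorem full_cons (e : Elem V) (es : List (Elem V)) : full (e :: es) = e.full ++ full es := rfl
@[simp] theorem ids_cons (e : Elem V) (es : List (Elem V)) : ids (e :: es) = e.ids ++ ids es := rfl
@[simp] theorem sizes_cons (e : Elem V) (es : List (Elem V)) :
    sizes (e :: es) = e.sizes ++ sizes es := rfl
@[simp] theorem lets_append (es es' : List (Elem V)) : lets (es ++ es') = lets es ++ lets es' := by
  simp [lets]
@[simp] theorem full_append (es es' : List (Elem V)) : full (es ++ es') = full es ++ full es' := by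
  simp [full]
@[simp] theorem ids_append (es es' : List (Elem V)) : ids (es ++ es') = ids es ++ ids es' := by
  simp [ids]
@[simp] theorem sizes_append (es es' : List (Elem V)) :
    sizes (es ++ es') = sizes es ++ sizes es' := by
  simp [sizes]

@[simp] theorem Elem.lets_free (s : ℕ) (v : V ⊕ ℕ) : (Elem.free s v).lets = [v] := rfl
@[simp] theorem Elem.lets_pile (x x' : V) (P : List V) :
    (Elem.pile x P x').lets = [Sum.inl x, Sum.inl x'] := rfl
@[simp] theorem Elem.full_free (s : ℕ) (v : V ⊕ ℕ) : (Elem.free s v).full = [v] := rfl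
@[simp] theorem Elem.full_pile (x x' : V) (P : List V) :
    (Elem.pile x P x').full = Sum.inl x :: (P.map Sum.inl ++ [Sum.inl x']) := rfl
@[simp] theorem Elem.ids_free (s : ℕ) (v : V ⊕ ℕ) : (Elem.free s v).ids = [s] := rfl
@[simp] theorem Elem.ids_pile (x x' : V) (P : List V) : (Elem.pile x P x').ids = [] := rfl
@[simp] theorem Elem.sizes_free (s : ℕ) (v : V ⊕ ℕ) : (Elem.free s v).sizes = [] := rfl
@[simp] theorem Elem.sizes_pile (x x' : V) (P : List V) :
    (Elem.pile x P x').sizes = [P.length] := rfl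

theorem Elem.lets_subset_full (e : Elem V) {u : V ⊕ ℕ} (h : u ∈ e.lets) : u ∈ e.full := by
  cases e <;> simp at h ⊢
  · exact h
  · tauto

theorem mem_lets {es : List (Elem V)} {u : V ⊕ ℕ} : u ∈ lets es ↔ ∃ e ∈ es, u ∈ e.lets := by
  simp [lets]
theorem mem_full {es : List (Elem V)} {u : V ⊕ ℕ} : u ∈ full es ↔ ∃ e ∈ es, u ∈ e.full := by
  simp [full]
theorem mem_ids {es : List (Elem V)} {s : ℕ} : s ∈ ids es ↔ ∃ e ∈ es, s ∈ e.ids := by
  simp [ids]
theorem mem_ids_iff {es : List (Elem V)} {s : ℕ} : s ∈ ids es ↔ ∃ v, Elem.free s v ∈ es := by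
  rw [mem_ids]
  constructor
  · rintro ⟨e, he, hs⟩
    cases e with
    | free r v => simp at hs; subst hs; exact ⟨v, he⟩
    | pile x P x' => simp at hs
  · rintro ⟨v, hv⟩
    exact ⟨_, hv, by simp⟩
theorem lets_subset_full {es : List (Elem V)} {u : V ⊕ ℕ} (h : u ∈ lets es) : u ∈ full es := by
  obtain ⟨e, he, hu⟩ := mem_lets.1 h
  exact mem_full.2 ⟨e, he, e.lets_subset_full hu⟩

theorem lets_perm {es es' : List (Elem V)} (h : es.Perm es') : (lets es).Perm (lets es') := by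
  unfold lets; exact h.flatMap_right _
theorem full_perm {es es' : List (Elem V)} (h : es.Perm es') : (full es).Perm (full es') := by
  unfold full; exact h.flatMap_right _
theorem ids_perm {es es' : List (Elem V)} (h : es.Perm es') : (ids es).Perm (ids es') := by
  unfold ids; exact h.flatMap_right _
theorem sizes_perm {es es' : List (Elem V)} (h : es.Perm es') : (sizes es).Perm (sizes es') := by
  unfold sizes; exact h.flatMap_right _

/-! ## adjacency and connectivity by `fe` -/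

theorem FAdj.symm {fe : List ((V ⊕ ℕ) × ℕ)} {u v : V ⊕ ℕ} (h : FAdj fe u v) : FAdj fe v u :=
  h.elim (fun h => Or.inr h) (fun h => Or.inl h)

theorem FAdj.mono {fe fe' : List ((V ⊕ ℕ) × ℕ)} (hs : ∀ e ∈ fe, e ∈ fe') {u v : V ⊕ ℕ}
    (h : FAdj fe u v) : FAdj fe' u v := by
  rcases h with ⟨n, hn, h⟩ | ⟨n, hn, h⟩
  · exact Or.inl ⟨n, hn, hs _ h⟩
  · exact Or.inr ⟨n, hn, hs _ h⟩

theorem FAdj.mk {fe : List ((V ⊕ ℕ) × ℕ)} {u : V ⊕ ℕ} {n : ℕ} (h : (u, n) ∈ fe) :
    FAdj fe u (Sum.inr n) := Or.inl ⟨n, rfl, h⟩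

theorem Conn.refl (fe : List ((V ⊕ ℕ) × ℕ)) (u : V ⊕ ℕ) : Conn fe u u := Relation.ReflTransGen.refl

theorem Conn.symm {fe : List ((V ⊕ ℕ) × ℕ)} {u v : V ⊕ ℕ} (h : Conn fe u v) : Conn fe v u := by
  induction h with
  | refl => exact Relation.ReflTransGen.refl
  | tail _ hbc ih => exact Relation.ReflTransGen.head hbc.symm ih

theorem Conn.trans {fe : List ((V ⊕ ℕ) × ℕ)} {u v w : V ⊕ ℕ} (h : Conn fe u v)
    (h' : Conn fe v w) : Conn fe u w := Relation.ReflTransGen.trans h h'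

theorem Conn.mono {fe fe' : List ((V ⊕ ℕ) × ℕ)} (hs : ∀ e ∈ fe, e ∈ fe') {u v : V ⊕ ℕ}
    (h : Conn fe u v) : Conn fe' u v :=
  Relation.ReflTransGen.mono (fun _ _ h => FAdj.mono hs h) _ _ h

theorem Conn.of_adj {fe : List ((V ⊕ ℕ) × ℕ)} {u v : V ⊕ ℕ} (h : FAdj fe u v) : Conn fe u v :=
  Relation.ReflTransGen.single h

theorem Conn.mk {fe : List ((V ⊕ ℕ) × ℕ)} {u : V ⊕ ℕ} {n : ℕ} (h : (u, n) ∈ fe) :
    Conn fe u (Sum.inr n) := Conn.of_adj (FAdj.mk h)

theorem EE.mono {G : V → V → Prop} {fe fe' : List ((V ⊕ ℕ) × ℕ)} (hs : ∀ e ∈ fe, e ∈ fe')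
    {u v : V ⊕ ℕ} (h : EE G fe u v) : EE G fe' u v :=
  h.imp id (fun h => h.mono hs)

theorem EE.of_G {G : V → V → Prop} {fe : List ((V ⊕ ℕ) × ℕ)} {a b : V} (h : G a b) :
    EE G fe (Sum.inl a) (Sum.inl b) := Or.inl ⟨a, b, rfl, rfl, h⟩

theorem EE.mk {G : V → V → Prop} {fe : List ((V ⊕ ℕ) × ℕ)} {u : V ⊕ ℕ} {n : ℕ}
    (h : (u, n) ∈ fe) : EE G fe u (Sum.inr n) := Or.inr (FAdj.mk h)

theorem Nx.ee {G : V → V → Prop} {fe : List ((V ⊕ ℕ) × ℕ)} {u v : V ⊕ ℕ} (h : Nx G fe u v) :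
    EE G fe u v := h.imp id (fun h => Or.inl h)

theorem Nx.mono {G : V → V → Prop} {fe fe' : List ((V ⊕ ℕ) × ℕ)} (hs : ∀ e ∈ fe, e ∈ fe')
    {u v : V ⊕ ℕ} (h : Nx G fe u v) : Nx G fe' u v := by
  rcases h with h | ⟨n, hn, h⟩
  · exact Or.inl h
  · exact Or.inr ⟨n, hn, hs _ h⟩

theorem Nx.mk {G : V → V → Prop} {fe : List ((V ⊕ ℕ) × ℕ)} {u : V ⊕ ℕ} {n : ℕ}
    (h : (u, n) ∈ fe) : Nx G fe u (Sum.inr n) := Or.inr ⟨n, rfl, h⟩

theorem Nx.of_G {G : V → V → Prop} {fe : List ((V ⊕ ℕ) × ℕ)} {a b : V} (h : G a b) :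
    Nx G fe (Sum.inl a) (Sum.inl b) := Or.inl ⟨a, b, rfl, rfl, h⟩

/-- colours alternate along `Nx` -/
theorem Nx.col {G : V → V → Prop} {fe : List ((V ⊕ ℕ) × ℕ)} {col : V → Bool}
    (hcol : ∀ a c, G a c → col a ≠ col c) {u v : V ⊕ ℕ} (h : Nx G fe u v) {κ : Bool}
    (hu : ∀ a, u = Sum.inl a → col a = κ) : ∀ a, v = Sum.inl a → col a = !κ := by
  rintro a rfl
  rcases h with ⟨a', c, rfl, hc, hg⟩ | ⟨n, hn, _⟩
  · cases hc
    have h1 := hu a' rfl
    have h2 := hcol _ _ hg
    rw [h1] at h2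
    revert h2
    cases col a <;> cases κ <;> simp
  · cases hn

theorem forall₂_nx_col {G : V → V → Prop} {fe : List ((V ⊕ ℕ) × ℕ)} {col : V → Bool}
    (hcol : ∀ a c, G a c → col a ≠ col c) {F F' : List (V ⊕ ℕ)}
    (h : List.Forall₂ (Nx G fe) F F') {κ : Bool} (hF : ∀ a, Sum.inl a ∈ F → col a = κ) :
    ∀ a, Sum.inl a ∈ F' → col a = !κ := by
  induction h with
  | nil => simp
  | @cons u v l l' h1 _ ih =>
    intro a ha
    rcases List.mem_cons.1 ha with h2 | h2
    · exact h1.col hcol (κ := κ) (fun a' ha' => hF a' (by simp [ha'])) a h2.symm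
    · exact ih (fun a' ha' => hF a' (by simp [ha'])) a h2

/-! ## sizes and shrinking -/

theorem Shr.mono {a c a' c' : ℕ} {e e' : Elem V} (h : Shr a c e e') (ha : a' ≤ a) (hc : c ≤ c') :
    Shr a' c' e e' := by
  cases h with
  | free s v v' => exact .free s v v'
  | pile x P x' y Q y' h1 h2 => exact .pile x P x' y Q y' (by omega) (by omega)

theorem Shr.trans {a c a' c' : ℕ} {e e' e'' : Elem V} (h : Shr a c e e') (h' : Shr a' c' e' e'') :
    Shr (a + a') (c + c') e e'' := by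
  cases h with
  | free s v v' => cases h' with
    | free _ _ v'' => exact .free s v v''
  | pile x P x' y Q y' h1 h2 => cases h' with
    | pile _ _ _ z R z' h3 h4 => exact .pile x P x' z R z' (by omega) (by omega)

theorem Shr.refl (e : Elem V) : Shr 0 0 e e := by
  cases e with
  | free s v => exact .free s v v
  | pile x P x' => exact .pile x P x' x P x' (by omega) (by omega)

theorem shrL_mono {a c a' c' : ℕ} {es es' : List (Elem V)} (h : List.Forall₂ (Shr a c) es es')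
    (ha : a' ≤ a) (hc : c ≤ c') : List.Forall₂ (Shr a' c') es es' :=
  h.imp (fun _ _ h => h.mono ha hc)

theorem shrL_trans {a c a' c' : ℕ} {es es' es'' : List (Elem V)}
    (h : List.Forall₂ (Shr a c) es es') (h' : List.Forall₂ (Shr a' c') es' es'') :
    List.Forall₂ (Shr (a + a') (c + c')) es es'' := by
  induction h generalizing es'' with
  | nil => cases h'; exact .nil
  | cons h1 _ ih => cases h' with
    | cons h2 h3 => exact .cons (h1.trans h2) (ih h3)

theorem shrL_refl (es : List (Elem V)) : List.Forall₂ (Shr 0 0) es es := by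
  induction es with
  | nil => exact .nil
  | cons e es ih => exact .cons (Shr.refl e) ih

theorem Shr.ids {a c : ℕ} {e e' : Elem V} (h : Shr a c e e') : e'.ids = e.ids := by
  cases h <;> rfl

theorem shrL_ids {a c : ℕ} {es es' : List (Elem V)} (h : List.Forall₂ (Shr a c) es es') :
    ids es' = ids es := by
  induction h with
  | nil => rfl
  | cons h1 _ ih => simp [h1.ids, ih]

theorem shrL_len {a c : ℕ} {es es' : List (Elem V)} (h : List.Forall₂ (Shr a c) es es') :
    (lets es').length = (lets es).length := by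
  induction h with
  | nil => rfl
  | cons h1 _ ih => cases h1 <;> simp [ih]

theorem shrL_sizes {a c : ℕ} {es es' : List (Elem V)} (h : List.Forall₂ (Shr a c) es es') :
    List.Forall₂ (fun g g' => g' + a ≤ g ∧ g ≤ g' + c) (sizes es) (sizes es') := by
  induction h with
  | nil => exact .nil
  | cons h1 _ ih => cases h1 with
    | free s v v' => simpa using ih
    | pile x P x' y Q y' h1 h2 => simpa using ⟨⟨h1, h2⟩, ih⟩

variable [DecidableEq V]

@[simp] theorem dg_nil (u : V ⊕ ℕ) : dg [] u = 0 := rfl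

theorem dg_append (fe fe' : List ((V ⊕ ℕ) × ℕ)) (u : V ⊕ ℕ) :
    dg (fe ++ fe') u = dg fe u + dg fe' u := by
  simp only [dg, List.countP_append]; omega

theorem dg_cons (e : (V ⊕ ℕ) × ℕ) (fe : List ((V ⊕ ℕ) × ℕ)) (u : V ⊕ ℕ) :
    dg (e :: fe) u = (if e.1 = u then 1 else 0) + (if Sum.inr e.2 = u then 1 else 0) + dg fe u := by
  simp only [dg, List.countP_cons, decide_eq_true_eq]; omega

theorem dg_eq_zero {fe : List ((V ⊕ ℕ) × ℕ)} {u : V ⊕ ℕ}
    (h : ∀ e ∈ fe, e.1 ≠ u ∧ Sum.inr e.2 ≠ u) : dg fe u = 0 := by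
  simp only [dg, Nat.add_eq_zero_iff, List.countP_eq_zero, decide_eq_true_eq]
  exact ⟨fun e he => (h e he).1, fun e he => (h e he).2⟩

@[simp] theorem cap_inr (b : V) (n : ℕ) : cap b (Sum.inr n) = 2 := rfl
theorem cap_inl (b a : V) : cap b (Sum.inl a) = if a = b then 1 else 0 := rfl

end Pool.Agent.FLV
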