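import Pool.Agent.FLV.Base

/-!
# Core: permutations and advancing one element

`Core.perm`: all fields only depend on the lists up to permutation (`full_perm`, `lets_perm`, `ids_perm`).

`Core.adv_free`: the open letter `v` (first element) is explored one step further: new edge `(v, n)`, `v` becomes settled.
`deg`: `dg_cons`; `dg fe v < cap b v` by `deg_open`; `dg fe (Sum.inr n) = 0` by `dg_eq_zero` and `mem_fe`
(`Sum.inr n` is not in the lists).  `conn_*`: by `Conn.mono` and the new edge (`Conn.mk`): what was connected to `v`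
is connected to `Sum.inr n`; in `conn_st` the vertex `v` itself (if fresh) is connected to `Sum.inr n`.
`adv_left`, `adv_right`: `fe` does not change, only the pile shrinks by one vertex.
-/

set_option autoImplicit false

namespace Pool.Agent.FLV

variable {V : Type*} [DecidableEq V] {G : V → V → Prop} {b : V} {r : ℕ} {SV : List V}
  {fe : List ((V ⊕ ℕ) × ℕ)} {st : List (V ⊕ ℕ)} {es : List (Elem V)}

theorem Core.perm {st' : List (V ⊕ ℕ)} {es' : List (Elem V)} (H : Core G b r SV fe st es)
    (h1 : st.Perm st') (h2 : es.Perm es') : Core G b r SV fe st' es' := by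
  have hf := full_perm h2
  have hl := lets_perm h2
  have hi := ids_perm h2
  have hsf := h1.append hf
  have hsl := h1.append hl
  refine ⟨?_, ?_, ?_, ?_, ?_, ?_, ?_, ?_, ?_, ?_, ?_⟩
  · exact hsf.nodup_iff.1 H.nodup
  · intro a; rw [← H.mem a]; exact hsf.symm.mem_iff
  · intro x P x' h; exact H.chain x P x' (h2.mem_iff.2 h)
  · intro e he
    exact ⟨hsl.mem_iff.1 (H.mem_fe e he).1, hsl.mem_iff.1 (H.mem_fe e he).2⟩
  · exact H.deg
  · intro s v h; exact H.deg_open s v (h2.mem_iff.2 h)
  · intro s v v' h h'; exact H.conn_id s v v' (h2.mem_iff.2 h) (h2.mem_iff.2 h')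
  · intro v h; exact H.conn_root v (h2.mem_iff.2 h)
  · intro n hn
    obtain ⟨s, v, hv, hc⟩ := H.conn_st n (h1.mem_iff.2 hn)
    exact ⟨s, v, h2.mem_iff.1 hv, hc⟩
  · rw [← H.cnt0]; exact (hi.count_eq 0).symm
  · intro s hs
    rw [← hi.count_eq s]; exact H.cnt s hs

theorem Core.adv_free {s : ℕ} {v : V ⊕ ℕ} (H : Core G b r SV fe st (Elem.free s v :: es)) {n : ℕ}
    (hn : Sum.inr n ∉ st ++ full (Elem.free s v :: es)) :
    Core G b r SV ((v, n) :: fe) (st ++ [v]) (Elem.free s (Sum.inr n) :: es) := by
  have hsub : ∀ e ∈ fe, e ∈ (v, n) :: fe := fun e he => List.mem_cons_of_mem _ he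
  have hvn : v ≠ Sum.inr n := by
    rintro rfl
    exact hn (by simp)
  have hnst : Sum.inr n ∉ st := fun h => hn (by simp [h])
  have hnfe : Sum.inr n ∉ full es := fun h => hn (by simp [h])
  have hnd := H.nodup
  have hvfull : v ∉ full es := by
    intro h
    simp only [full_cons, Elem.full_free, List.singleton_append] at hnd
    have := (List.nodup_append.1 hnd).2.1
    exact (List.nodup_cons.1 this).1 h
  have hdgn : dg fe (Sum.inr n : V ⊕ ℕ) = 0 := by
    apply dg_eq_zero
    intro e he
    have h1 := H.mem_fe e he
    constructor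
    · intro h
      rw [h] at h1
      refine hn ?_
      rcases List.mem_append.1 h1.1 with h2 | h2
      · simp [h2]
      · exact List.mem_append.2 (Or.inr (lets_subset_full h2))
    · intro h
      rw [h] at h1
      refine hn ?_
      rcases List.mem_append.1 h1.2 with h2 | h2
      · simp [h2]
      · exact List.mem_append.2 (Or.inr (lets_subset_full h2))
  have hconn : Conn ((v, n) :: fe) v (Sum.inr n) := Conn.mk (List.mem_cons_self ..)
  have hfm : ∀ {s' : ℕ} {v' : V ⊕ ℕ}, Elem.free s' v' ∈ es → v' ∈ full es := by
    intro s' v' h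
    exact mem_full.2 ⟨_, h, by simp⟩
  refine ⟨?_, ?_, ?_, ?_, ?_, ?_, ?_, ?_, ?_, ?_, ?_⟩
  · have hp : (Sum.inr n :: (st ++ full (Elem.free s v :: es))).Perm
        ((st ++ [v]) ++ full (Elem.free s (Sum.inr n) :: es)) := by
      simp only [full_cons, Elem.full_free, List.singleton_append, List.append_assoc]
      refine (List.perm_middle.symm).trans ?_
      exact List.Perm.append_left _ (List.Perm.swap _ _ _)
    exact hp.nodup_iff.1 (List.nodup_cons.2 ⟨hn, hnd⟩)
  · intro a
    rw [← H.mem a]
    simp
  · intro x P x' h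
    rcases List.mem_cons.1 h with h | h
    · cases h
    · exact H.chain x P x' (List.mem_cons_of_mem _ h)
  · intro e he
    rcases List.mem_cons.1 he with rfl | he
    · simp
    · have h1 := H.mem_fe e he
      constructor
      · have h2 := h1.1
        simp only [lets_cons, Elem.lets_free, List.mem_append, List.mem_singleton] at h2 ⊢
        tauto
      · have h2 := h1.2
        simp only [lets_cons, Elem.lets_free, List.mem_append, List.mem_singleton] at h2 ⊢
        tauto
  · intro u
    rw [dg_cons]
    by_cases h1 : v = u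
    · subst h1
      have h2 := H.deg_open s v (List.mem_cons_self ..)
      have h3 : ¬ ((Sum.inr n : V ⊕ ℕ) = v) := fun h => hvn h.symm
      simp only [if_true, h3, if_false]
      omega
    · by_cases h2 : (Sum.inr n : V ⊕ ℕ) = u
      · subst h2
        simp only [h1, if_false, if_true, hdgn, cap_inr]
        omega
      · simp only [h1, h2, if_false]
        have := H.deg u
        omega
  · intro s' v' h
    rw [dg_cons]
    rcases List.mem_cons.1 h with h | h
    · cases h
      simp only [hvn, if_false, if_true, hdgn, cap_inr]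
      omega
    · have h1 := hfm h
      have h2 : ¬ (v = v') := by rintro rfl; exact hvfull h1
      have h3 : ¬ ((Sum.inr n : V ⊕ ℕ) = v') := by rintro rfl; exact hnfe h1
      have h4 := H.deg_open s' v' (List.mem_cons_of_mem _ h)
      simp only [h2, h3, if_false]
      omega
  · intro s' v1 v2 h h'
    rcases List.mem_cons.1 h with h | h
    · cases h
      rcases List.mem_cons.1 h' with h' | h'
      · cases h'; exact Conn.refl _ _
      · exact hconn.symm.trans
          ((H.conn_id _ v v2 (List.mem_cons_self ..) (List.mem_cons_of_mem _ h')).mono hsub)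
    · rcases List.mem_cons.1 h' with h' | h'
      · cases h'
        exact ((H.conn_id _ v1 v (List.mem_cons_of_mem _ h) (List.mem_cons_self ..)).mono
          hsub).trans hconn
      · exact (H.conn_id s' v1 v2 (List.mem_cons_of_mem _ h) (List.mem_cons_of_mem _ h')).mono hsub
  · intro v1 h
    rcases List.mem_cons.1 h with h | h
    · cases h
      exact ((H.conn_root v (List.mem_cons_self ..)).mono hsub).trans hconn
    · exact (H.conn_root v1 (List.mem_cons_of_mem _ h)).mono hsub
  · intro m hm
    rcases List.mem_append.1 hm with hm | hm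
    · obtain ⟨s', v', hv', hc⟩ := H.conn_st m hm
      rcases List.mem_cons.1 hv' with hv' | hv'
      · cases hv'
        exact ⟨s, Sum.inr n, List.mem_cons_self .., (hc.mono hsub).trans hconn⟩
      · exact ⟨s', v', List.mem_cons_of_mem _ hv', hc.mono hsub⟩
    · rw [List.mem_singleton] at hm
      rw [hm]
      exact ⟨s, Sum.inr n, List.mem_cons_self .., hconn⟩
  · exact H.cnt0
  · exact H.cnt

theorem Core.adv_left {x y x' : V} {P : List V}
    (H : Core G b r SV fe st (Elem.pile x (y :: P) x' :: es)) :
    Core G b r SV fe (st ++ [Sum.inl x]) (Elem.pile y P x' :: es) := by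
  have hfull : (st ++ [Sum.inl x]) ++ full (Elem.pile y P x' :: es) =
      st ++ full (Elem.pile x (y :: P) x' :: es) := by simp
  have hfree : ∀ {s' : ℕ} {v' : V ⊕ ℕ}, Elem.free s' v' ∈ Elem.pile y P x' :: es →
      Elem.free s' v' ∈ Elem.pile x (y :: P) x' :: es := by
    intro s' v' h
    rcases List.mem_cons.1 h with h | h
    · cases h
    · exact List.mem_cons_of_mem _ h
  have hfree' : ∀ {s' : ℕ} {v' : V ⊕ ℕ}, Elem.free s' v' ∈ Elem.pile x (y :: P) x' :: es →
      Elem.free s' v' ∈ Elem.pile y P x' :: es := by
    intro s' v' h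
    rcases List.mem_cons.1 h with h | h
    · cases h
    · exact List.mem_cons_of_mem _ h
  refine ⟨?_, ?_, ?_, ?_, ?_, ?_, ?_, ?_, ?_, ?_, ?_⟩
  · rw [hfull]; exact H.nodup
  · intro a; rw [hfull]; exact H.mem a
  · intro z Q z' h
    rcases List.mem_cons.1 h with h | h
    · cases h
      have := H.chain x (y :: P) x' (List.mem_cons_self ..)
      rw [List.cons_append, List.isChain_cons_cons] at this
      exact this.2
    · exact H.chain z Q z' (List.mem_cons_of_mem _ h)
  · intro e he
    have h1 := H.mem_fe e he
    constructor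
    · have h2 := h1.1
      simp only [lets_cons, Elem.lets_pile, List.mem_append, List.mem_cons, List.not_mem_nil,
        or_false] at h2 ⊢
      tauto
    · have h2 := h1.2
      simp only [lets_cons, Elem.lets_pile, List.mem_append, List.mem_cons, List.not_mem_nil,
        or_false] at h2 ⊢
      tauto
  · exact H.deg
  · intro s v h; exact H.deg_open s v (hfree h)
  · intro s v v' h h'; exact H.conn_id s v v' (hfree h) (hfree h')
  · intro v h; exact H.conn_root v (hfree h)
  · intro n hn
    have hn' : Sum.inr n ∈ st := by simpa using hn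
    obtain ⟨s, v, hv, hc⟩ := H.conn_st n hn'
    exact ⟨s, v, hfree' hv, hc⟩
  · exact H.cnt0
  · exact H.cnt

theorem Core.adv_right {x y x' : V} {P : List V}
    (H : Core G b r SV fe st (Elem.pile x (P ++ [y]) x' :: es)) :
    Core G b r SV fe (st ++ [Sum.inl x']) (Elem.pile x P y :: es) := by
  have hfull : (st ++ full (Elem.pile x (P ++ [y]) x' :: es)).Perm
      ((st ++ [Sum.inl x']) ++ full (Elem.pile x P y :: es)) := by
    simp only [full_cons, Elem.full_pile, List.map_append, List.map_cons, List.map_nil,
      List.append_assoc, List.cons_append, List.nil_append]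
    refine List.Perm.append_left _ ?_
    have h1 : (Sum.inl x :: (List.map Sum.inl P ++ Sum.inl y :: Sum.inl x' :: full es)) =
        ((Sum.inl x :: (List.map Sum.inl P ++ [Sum.inl y])) ++ (Sum.inl x' :: full es) :
          List (V ⊕ ℕ)) := by simp
    have h2 : ((Sum.inl x' : V ⊕ ℕ) :: Sum.inl x ::
        (List.map Sum.inl P ++ Sum.inl y :: full es)) =
        (Sum.inl x' :: ((Sum.inl x :: (List.map Sum.inl P ++ [Sum.inl y])) ++ full es) :
          List (V ⊕ ℕ)) := by simp
    rw [h1, h2]
    exact List.perm_middle
  have hfree : ∀ {s' : ℕ} {v' : V ⊕ ℕ}, Elem.free s' v' ∈ Elem.pile x P y :: es →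
      Elem.free s' v' ∈ Elem.pile x (P ++ [y]) x' :: es := by
    intro s' v' h
    rcases List.mem_cons.1 h with h | h
    · cases h
    · exact List.mem_cons_of_mem _ h
  have hfree' : ∀ {s' : ℕ} {v' : V ⊕ ℕ}, Elem.free s' v' ∈ Elem.pile x (P ++ [y]) x' :: es →
      Elem.free s' v' ∈ Elem.pile x P y :: es := by
    intro s' v' h
    rcases List.mem_cons.1 h with h | h
    · cases h
    · exact List.mem_cons_of_mem _ h
  refine ⟨?_, ?_, ?_, ?_, ?_, ?_, ?_, ?_, ?_, ?_, ?_⟩
  · exact hfull.nodup_iff.1 H.nodup
  · intro a; rw [← H.mem a]; exact hfull.symm.mem_iff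
  · intro z Q z' h
    rcases List.mem_cons.1 h with h | h
    · cases h
      have := H.chain x (P ++ [y]) x' (List.mem_cons_self ..)
      exact List.IsChain.left_of_append (l₂ := [x']) (by simpa using this)
    · exact H.chain z Q z' (List.mem_cons_of_mem _ h)
  · intro e he
    have h1 := H.mem_fe e he
    constructor
    · have h2 := h1.1
      simp only [lets_cons, Elem.lets_pile, List.mem_append, List.mem_cons, List.not_mem_nil,
        or_false] at h2 ⊢
      tauto
    · have h2 := h1.2
      simp only [lets_cons, Elem.lets_pile, List.mem_append, List.mem_cons, List.not_mem_nil,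
        or_false] at h2 ⊢
      tauto
  · exact H.deg
  · intro s v h; exact H.deg_open s v (hfree h)
  · intro s v v' h h'; exact H.conn_id s v v' (hfree h) (hfree h')
  · intro v h; exact H.conn_root v (hfree h)
  · intro n hn
    have hn' : Sum.inr n ∈ st := by simpa using hn
    obtain ⟨s, v, hv, hc⟩ := H.conn_st n hn'
    exact ⟨s, v, hfree' hv, hc⟩
  · exact H.cnt0
  · exact H.cnt

end Pool.Agent.FLV
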