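import Pool.Agent.FLV.C1

/-!
# Core: opening new strings

`Core.openCap`: a new string with the two open (adjacent) letters `n, n'`.
`Core.openD`: a new string `n - m - n'` with settled middle vertex `m`.
All new vertices have `dg = 0` before (`dg_eq_zero`, `H.mem_fe`).  The name `s` is new.
-/

set_option autoImplicit false

namespace Pool.Agent.FLV

variable {V : Type*} [DecidableEq V] {G : V → V → Prop} {b : V} {r : ℕ} {SV : List V}
  {fe : List ((V ⊕ ℕ) × ℕ)} {st : List (V ⊕ ℕ)} {es : List (Elem V)}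

theorem C3_dg (H : Core G b r SV fe st es) {u : V ⊕ ℕ} (hu : u ∉ st ++ full es) :
    dg fe u = 0 := by
  refine dg_eq_zero fun e he => ?_
  obtain ⟨h1, h2⟩ := H.mem_fe e he
  have key : ∀ v, v ∈ st ++ lets es → v ≠ u := by
    rintro v hv rfl
    refine hu ?_
    rcases List.mem_append.1 hv with h | h
    · exact List.mem_append.2 (Or.inl h)
    · exact List.mem_append.2 (Or.inr (lets_subset_full h))
  exact ⟨key _ h1, key _ h2⟩

theorem C3_ids {s : ℕ} {v : V ⊕ ℕ} (hs : s ∉ ids es) (h : Elem.free s v ∈ es) : False :=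
  hs (mem_ids_iff.2 ⟨v, h⟩)

theorem Core.openCap (H : Core G b r SV fe st es) {n n' s : ℕ}
    (hn : Sum.inr n ∉ st ++ full es) (hn' : Sum.inr n' ∉ st ++ full es) (hne : n ≠ n')
    (hs : s ∉ ids es) (hs0 : s ≠ 0) :
    Core G b r SV ((Sum.inr n, n') :: fe) st
      (Elem.free s (Sum.inr n) :: Elem.free s (Sum.inr n') :: es) := by
  have d1 := C3_dg H hn
  have d2 := C3_dg H hn'
  have hsub : ∀ e ∈ fe, e ∈ ((Sum.inr n, n') :: fe : List ((V ⊕ ℕ) × ℕ)) :=
    fun e he => List.mem_cons_of_mem _ he
  have hc : Conn ((Sum.inr n, n') :: fe : List ((V ⊕ ℕ) × ℕ)) (Sum.inr n) (Sum.inr n') :=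
    Conn.mk (by simp)
  have hsub2 : ∀ v, v ∈ st ++ lets es →
      v ∈ st ++ lets (Elem.free s (Sum.inr n) :: Elem.free s (Sum.inr n') :: es) := by
    intro v hv
    simp only [lets_cons, Elem.lets_free, List.mem_append, List.mem_cons, List.not_mem_nil,
      or_false] at hv ⊢
    tauto
  refine ⟨?_, ?_, ?_, ?_, ?_, ?_, ?_, ?_, ?_, ?_, ?_⟩
  · have h1 : (st ++ full (Elem.free s (Sum.inr n) :: Elem.free s (Sum.inr n') :: es)).Perm
        (Sum.inr n :: Sum.inr n' :: (st ++ full es)) := by
      simp only [full_cons, Elem.full_free, List.singleton_append]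
      exact List.perm_middle.trans (List.Perm.cons _ List.perm_middle)
    rw [h1.nodup_iff]
    refine List.nodup_cons.2 ⟨?_, List.nodup_cons.2 ⟨hn', H.nodup⟩⟩
    intro h
    rcases List.mem_cons.1 h with h | h
    · exact hne (Sum.inr.inj h)
    · exact hn h
  · intro a
    rw [← H.mem a]
    simp
  · intro x P x' hx
    simp only [List.mem_cons, reduceCtorEq, false_or] at hx
    exact H.chain x P x' hx
  · intro e he
    rcases List.mem_cons.1 he with rfl | he
    · simp
    · obtain ⟨h1, h2⟩ := H.mem_fe e he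
      exact ⟨hsub2 _ h1, hsub2 _ h2⟩
  · intro u
    rw [dg_cons]
    by_cases h1 : (Sum.inr n : V ⊕ ℕ) = u
    · subst h1
      rw [d1]
      have : ¬ (Sum.inr n' : V ⊕ ℕ) = Sum.inr n := fun h => hne (Sum.inr.inj h).symm
      simp [this]
    · by_cases h2 : (Sum.inr n' : V ⊕ ℕ) = u
      · subst h2
        rw [d2]
        simp [hne]
      · simp only [h1, h2, if_false]
        simpa using H.deg u
  · intro s' v hv
    simp only [List.mem_cons, Elem.free.injEq] at hv
    rw [dg_cons]
    rcases hv with ⟨-, rfl⟩ | ⟨-, rfl⟩ | hv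
    · rw [d1]
      have : ¬ (Sum.inr n' : V ⊕ ℕ) = Sum.inr n := fun h => hne (Sum.inr.inj h).symm
      simp [this]
    · rw [d2]
      simp [hne]
    · have hvm : v ∈ st ++ full es :=
        List.mem_append.2 (Or.inr (mem_full.2 ⟨_, hv, by simp⟩))
      have h1 : ¬ (Sum.inr n : V ⊕ ℕ) = v := by rintro rfl; exact hn hvm
      have h2 : ¬ (Sum.inr n' : V ⊕ ℕ) = v := by rintro rfl; exact hn' hvm
      simp only [h1, h2, if_false]
      simpa using H.deg_open s' v hv
  · intro s' v v' hv hv'
    simp only [List.mem_cons, Elem.free.injEq] at hv hv'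
    rcases hv with ⟨rfl, rfl⟩ | ⟨rfl, rfl⟩ | hv <;>
      rcases hv' with ⟨h, rfl⟩ | ⟨h, rfl⟩ | hv'
    · exact Conn.refl _ _
    · exact hc
    · exact (C3_ids hs hv').elim
    · exact hc.symm
    · exact Conn.refl _ _
    · exact (C3_ids hs hv').elim
    · subst h; exact (C3_ids hs hv).elim
    · subst h; exact (C3_ids hs hv).elim
    · exact (H.conn_id s' v v' hv hv').mono hsub
  · intro v hv
    simp only [List.mem_cons, Elem.free.injEq] at hv
    rcases hv with ⟨h, -⟩ | ⟨h, -⟩ | hv
    · exact absurd h.symm hs0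
    · exact absurd h.symm hs0
    · exact (H.conn_root v hv).mono hsub
  · intro m hm
    obtain ⟨s', v, h1, h2⟩ := H.conn_st m hm
    exact ⟨s', v, by simp [h1], h2.mono hsub⟩
  · simp only [ids_cons, Elem.ids_free, List.singleton_append]
    rw [List.count_cons_of_ne hs0, List.count_cons_of_ne hs0]
    exact H.cnt0
  · intro t ht
    simp only [ids_cons, Elem.ids_free, List.singleton_append]
    by_cases h : s = t
    · subst h
      right
      rw [List.count_cons_self, List.count_cons_self, List.count_eq_zero_of_not_mem hs]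
    · rw [List.count_cons_of_ne h, List.count_cons_of_ne h]
      exact H.cnt t ht

theorem Core.openD (H : Core G b r SV fe st es) {m n n' s : ℕ}
    (hm : Sum.inr m ∉ st ++ full es) (hn : Sum.inr n ∉ st ++ full es)
    (hn' : Sum.inr n' ∉ st ++ full es) (hmn : m ≠ n) (hmn' : m ≠ n') (hne : n ≠ n')
    (hs : s ∉ ids es) (hs0 : s ≠ 0) :
    Core G b r SV ((Sum.inr m, n) :: (Sum.inr m, n') :: fe) (st ++ [Sum.inr m])
      (Elem.free s (Sum.inr n) :: Elem.free s (Sum.inr n') :: es) := by
  have d0 := C3_dg H hm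
  have d1 := C3_dg H hn
  have d2 := C3_dg H hn'
  have hsub : ∀ e ∈ fe, e ∈ ((Sum.inr m, n) :: (Sum.inr m, n') :: fe : List ((V ⊕ ℕ) × ℕ)) :=
    fun e he => List.mem_cons_of_mem _ (List.mem_cons_of_mem _ he)
  have hc1 : Conn ((Sum.inr m, n) :: (Sum.inr m, n') :: fe : List ((V ⊕ ℕ) × ℕ)) (Sum.inr m)
      (Sum.inr n) := Conn.mk (by simp)
  have hc2 : Conn ((Sum.inr m, n) :: (Sum.inr m, n') :: fe : List ((V ⊕ ℕ) × ℕ)) (Sum.inr m)
      (Sum.inr n') := Conn.mk (by simp)
  have hsub2 : ∀ v, v ∈ st ++ lets es →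
      v ∈ (st ++ [Sum.inr m]) ++
        lets (Elem.free s (Sum.inr n) :: Elem.free s (Sum.inr n') :: es) := by
    intro v hv
    simp only [lets_cons, Elem.lets_free, List.mem_append, List.mem_cons, List.not_mem_nil,
      or_false] at hv ⊢
    tauto
  have i1 : ∀ {k l : ℕ}, k ≠ l → ¬ (Sum.inr k : V ⊕ ℕ) = Sum.inr l :=
    fun h h' => h (Sum.inr.inj h')
  refine ⟨?_, ?_, ?_, ?_, ?_, ?_, ?_, ?_, ?_, ?_, ?_⟩
  · have h1 : ((st ++ [Sum.inr m]) ++
        full (Elem.free s (Sum.inr n) :: Elem.free s (Sum.inr n') :: es)).Perm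
        (Sum.inr m :: Sum.inr n :: Sum.inr n' :: (st ++ full es)) := by
      simp only [full_cons, Elem.full_free, List.singleton_append, List.append_assoc]
      exact List.perm_middle.trans (List.Perm.cons _ (List.perm_middle.trans
        (List.Perm.cons _ List.perm_middle)))
    rw [h1.nodup_iff]
    refine List.nodup_cons.2 ⟨?_, List.nodup_cons.2 ⟨?_, List.nodup_cons.2 ⟨hn', H.nodup⟩⟩⟩
    · intro h
      rcases List.mem_cons.1 h with h | h
      · exact i1 hmn h
      rcases List.mem_cons.1 h with h | h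
      · exact i1 hmn' h
      · exact hm h
    · intro h
      rcases List.mem_cons.1 h with h | h
      · exact i1 hne h
      · exact hn h
  · intro a
    rw [← H.mem a]
    simp
  · intro x P x' hx
    simp only [List.mem_cons, reduceCtorEq, false_or] at hx
    exact H.chain x P x' hx
  · intro e he
    rcases List.mem_cons.1 he with rfl | he
    · simp
    rcases List.mem_cons.1 he with rfl | he
    · simp
    · obtain ⟨h1, h2⟩ := H.mem_fe e he
      exact ⟨hsub2 _ h1, hsub2 _ h2⟩
  · intro u
    rw [dg_cons, dg_cons]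
    by_cases h0 : (Sum.inr m : V ⊕ ℕ) = u
    · subst h0
      rw [d0]
      simp [i1 hmn.symm, i1 hmn'.symm]
    · by_cases h1 : (Sum.inr n : V ⊕ ℕ) = u
      · subst h1
        rw [d1]
        simp [i1 hmn, i1 hne.symm]
      · by_cases h2 : (Sum.inr n' : V ⊕ ℕ) = u
        · subst h2
          rw [d2]
          simp [i1 hmn', i1 hne]
        · simp only [h0, h1, h2, if_false]
          simpa using H.deg u
  · intro s' v hv
    simp only [List.mem_cons, Elem.free.injEq] at hv
    rw [dg_cons, dg_cons]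
    rcases hv with ⟨-, rfl⟩ | ⟨-, rfl⟩ | hv
    · rw [d1]
      simp [i1 hmn, i1 hne.symm]
    · rw [d2]
      simp [i1 hmn', i1 hne]
    · have hvm : v ∈ st ++ full es :=
        List.mem_append.2 (Or.inr (mem_full.2 ⟨_, hv, by simp⟩))
      have h0 : ¬ (Sum.inr m : V ⊕ ℕ) = v := by rintro rfl; exact hm hvm
      have h1 : ¬ (Sum.inr n : V ⊕ ℕ) = v := by rintro rfl; exact hn hvm
      have h2 : ¬ (Sum.inr n' : V ⊕ ℕ) = v := by rintro rfl; exact hn' hvm
      simp only [h0, h1, h2, if_false]
      simpa using H.deg_open s' v hv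
  · intro s' v v' hv hv'
    simp only [List.mem_cons, Elem.free.injEq] at hv hv'
    rcases hv with ⟨rfl, rfl⟩ | ⟨rfl, rfl⟩ | hv <;>
      rcases hv' with ⟨h, rfl⟩ | ⟨h, rfl⟩ | hv'
    · exact Conn.refl _ _
    · exact hc1.symm.trans hc2
    · exact (C3_ids hs hv').elim
    · exact hc2.symm.trans hc1
    · exact Conn.refl _ _
    · exact (C3_ids hs hv').elim
    · subst h; exact (C3_ids hs hv).elim
    · subst h; exact (C3_ids hs hv).elim
    · exact (H.conn_id s' v v' hv hv').mono hsub
  · intro v hv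
    simp only [List.mem_cons, Elem.free.injEq] at hv
    rcases hv with ⟨h, -⟩ | ⟨h, -⟩ | hv
    · exact absurd h.symm hs0
    · exact absurd h.symm hs0
    · exact (H.conn_root v hv).mono hsub
  · intro k hk
    rcases List.mem_append.1 hk with hk | hk
    · obtain ⟨s', v, h1, h2⟩ := H.conn_st k hk
      exact ⟨s', v, by simp [h1], h2.mono hsub⟩
    · rw [List.mem_singleton] at hk
      rw [hk]
      exact ⟨s, Sum.inr n, by simp, hc1⟩
  · simp only [ids_cons, Elem.ids_free, List.singleton_append]
    rw [List.count_cons_of_ne hs0, List.count_cons_of_ne hs0]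
    exact H.cnt0
  · intro t ht
    simp only [ids_cons, Elem.ids_free, List.singleton_append]
    by_cases h : s = t
    · subst h
      right
      rw [List.count_cons_self, List.count_cons_self, List.count_eq_zero_of_not_mem hs]
    · rw [List.count_cons_of_ne h, List.count_cons_of_ne h]
      exact H.cnt t ht

/-- finitely many new fresh vertices exist -/
theorem exists_fresh (l : List (V ⊕ ℕ)) : ∃ N : ℕ, ∀ n, N ≤ n → (Sum.inr n : V ⊕ ℕ) ∉ l := by
  induction l with
  | nil => exact ⟨0, fun n _ => by simp⟩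
  | cons u l ih =>
    obtain ⟨N, hN⟩ := ih
    cases u with
    | inl a => exact ⟨N, fun n hn => by simp [hN n hn]⟩
    | inr k =>
      refine ⟨max N (k + 1), fun n hn => ?_⟩
      have h1 := hN n (le_trans (le_max_left _ _) hn)
      have h2 : n ≠ k := by have := le_trans (le_max_right N (k + 1)) hn; omega
      intro h
      rcases List.mem_cons.1 h with h | h
      · exact h2 (Sum.inr.inj h)
      · exact h1 h

/-- new names of strings exist -/
theorem exists_name (l : List ℕ) : ∃ N : ℕ, 0 < N ∧ ∀ n, N ≤ n → n ∉ l := by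
  induction l with
  | nil => exact ⟨1, one_pos, fun n _ => by simp⟩
  | cons k l ih =>
    obtain ⟨N, h0, hN⟩ := ih
    refine ⟨max N (k + 1), lt_of_lt_of_le h0 (le_max_left _ _), fun n hn => ?_⟩
    have h1 := hN n (le_trans (le_max_left _ _) hn)
    have h2 : n ≠ k := by have := le_trans (le_max_right N (k + 1)) hn; omega
    intro h
    rcases List.mem_cons.1 h with h | h
    · exact h2 h
    · exact h1 h

end Pool.Agent.FLV
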