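import Pool.Agent.FLV.C3

/-!
# Core: advancing all letters, advancing one letter

`Core.adv_all`: PROOF.  Generalise to `Core G b r SV fe (st ++ lets es1) (es1' ++ es2)` with
`Forall₂ (Shr 2 2) es1 es1'`, `Forall₂ (Nx G fe) (lets es1) (lets es1')`, and advance the elements of `es2`
one after another (the new fresh vertices are chosen outside of the given list `av`; induction on `es2`; use `Core.perm` to bring the element to the front).  A free letter is
advanced by `Core.adv_free` with a fresh vertex (`exists_fresh`), a pile `x (y :: (P ++ [y'])) x'` by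
`adv_left` and `adv_right` to `pile y P y'`; `G x y` and `G y' x'` come from `H.chain` (`G` symmetric).  The relation
`Nx` is monotone in `fe` (`Nx.mono`).
`Core.adv_at`: write `es = es1 ++ e :: es2` where `e` is the element containing the letter with index `i`;
one application of `adv_free`, `adv_left` or `adv_right`.
`Core.adv_rot`: the same for the rotated circle word: an index `i` of `l.rotate k` corresponds to the index
`(i + k) % l.length` of `l`, and `(l.set j v).rotate k = (l.rotate k).set i v`.
-/

set_option autoImplicit false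

namespace Pool.Agent.FLV

variable {V : Type*} [DecidableEq V] {G : V → V → Prop} {b : V} {r : ℕ} {SV : List V}
  {fe : List ((V ⊕ ℕ) × ℕ)} {st : List (V ⊕ ℕ)} {es : List (Elem V)}

/-- the first step of a pile -/
theorem C5_chain_left {x y x' : V} {P : List V} (h : (x :: ((y :: P) ++ [x'])).IsChain G) :
    G x y := by
  simpa using (List.isChain_cons_cons.1 h).1

/-- the last step of a pile -/
theorem C5_chain_right {x y x' : V} {P : List V} (h : (x :: ((P ++ [y]) ++ [x'])).IsChain G) :
    G y x' := by
  have e : x :: ((P ++ [y]) ++ [x']) = (x :: P) ++ [y, x'] := by simp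
  rw [e] at h
  exact (List.isChain_append.1 h).2.1.rel_head

/-- advancing the first element at both ends -/
theorem C5_adv_head (hG : ∀ a c, G a c → G c a) {e : Elem V}
    (H : Core G b r SV fe st (e :: es)) (hbig : ∀ p ∈ e.sizes, 2 ≤ p) {n : ℕ}
    (hn : Sum.inr n ∉ st ++ full (e :: es)) :
    ∃ fe' e', Core G b r SV fe' (st ++ e.lets) (e' :: es) ∧ (∀ x ∈ fe, x ∈ fe') ∧
      Shr 2 2 e e' ∧ List.Forall₂ (Nx G fe') e.lets e'.lets ∧
      (∀ u, u ∉ st ++ full (e :: es) → u ≠ Sum.inr n →
        u ∉ st ++ e.lets ++ full (e' :: es)) := by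
  cases e with
  | free s v =>
    refine ⟨(v, n) :: fe, Elem.free s (Sum.inr n), H.adv_free hn, fun x hx => by simp [hx],
      .free s v _, ?_, ?_⟩
    · exact .cons (Nx.mk (by simp)) .nil
    · intro u hu hun
      simp only [full_cons, Elem.full_free, Elem.lets_free, List.mem_append,
        List.mem_singleton] at hu ⊢
      tauto
  | pile x P x' =>
    have h2 : 2 ≤ P.length := hbig _ (by simp)
    obtain ⟨y, P1, rfl⟩ : ∃ y P1, P = y :: P1 := by
      cases P with
      | nil => simp at h2
      | cons y P1 => exact ⟨y, P1, rfl⟩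
    obtain ⟨Q, y', rfl⟩ : ∃ Q y', P1 = Q ++ [y'] := by
      rcases List.eq_nil_or_concat P1 with h | ⟨Q, y', h⟩
      · subst h; simp at h2
      · exact ⟨Q, y', by simpa using h⟩
    have hc := H.chain x (y :: (Q ++ [y'])) x' (by simp)
    have g1 : G x y := C5_chain_left hc
    have g2 : G y' x' := C5_chain_right (P := y :: Q) (by simpa using hc)
    have H1 := H.adv_left
    have H2 := H1.adv_right
    refine ⟨fe, Elem.pile y Q y', ?_, fun x hx => hx, ?_, ?_, ?_⟩
    · simpa using H2
    · exact .pile _ _ _ _ _ _ (by simp) (by simp)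
    · exact .cons (Nx.of_G g1) (.cons (Nx.of_G (hG _ _ g2)) .nil)
    · intro u hu hun
      simp only [full_cons, Elem.full_pile, Elem.lets_pile, List.mem_append, List.map_cons,
        List.map_append, List.map_nil, List.mem_cons, List.not_mem_nil, or_false] at hu ⊢
      tauto

theorem C5_adv_all_aux (hG : ∀ a c, G a c → G c a) (av : List (V ⊕ ℕ)) :
    ∀ (es2 es1 : List (Elem V)) (fe : List ((V ⊕ ℕ) × ℕ)) (st : List (V ⊕ ℕ)),
      Core G b r SV fe st (es1 ++ es2) → (∀ p ∈ sizes es2, 2 ≤ p) →
      ∃ fe' es2', Core G b r SV fe' (st ++ lets es2) (es1 ++ es2') ∧ (∀ e ∈ fe, e ∈ fe') ∧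
        List.Forall₂ (Shr 2 2) es2 es2' ∧ List.Forall₂ (Nx G fe') (lets es2) (lets es2') ∧
        (∀ u ∈ av, u ∉ st ++ full (es1 ++ es2) → u ∉ st ++ lets es2 ++ full (es1 ++ es2')) := by
  intro es2
  induction es2 with
  | nil =>
    intro es1 fe st H _
    exact ⟨fe, [], by simpa using H, fun e he => he, .nil, .nil, fun u _ hu => by simpa using hu⟩
  | cons e es2 ih =>
    intro es1 fe st H hbig
    have H1 : Core G b r SV fe st (e :: (es1 ++ es2)) :=
      H.perm (List.Perm.refl _) List.perm_middle
    obtain ⟨N, hN⟩ := exists_fresh (st ++ full (e :: (es1 ++ es2)) ++ av)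
    have hN0 := hN N le_rfl
    have hN1 : (Sum.inr N : V ⊕ ℕ) ∉ st ++ full (e :: (es1 ++ es2)) :=
      fun h => hN0 (List.mem_append_left _ h)
    have hN2 : (Sum.inr N : V ⊕ ℕ) ∉ av := fun h => hN0 (List.mem_append_right _ h)
    obtain ⟨fe1, e', H2, hfe, hshr, hnx, hu1⟩ :=
      C5_adv_head hG H1 (fun p hp => hbig p (by simp [hp])) hN1
    have H3 : Core G b r SV fe1 (st ++ e.lets) ((es1 ++ [e']) ++ es2) := by
      refine H2.perm (List.Perm.refl _) ?_
      simpa using (List.perm_middle (a := e') (l₁ := es1) (l₂ := es2)).symm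
    obtain ⟨fe', es2', H4, hfe', hshr', hnx', hu2⟩ :=
      ih (es1 ++ [e']) fe1 (st ++ e.lets) H3 (fun p hp => hbig p (by simp [hp]))
    refine ⟨fe', e' :: es2', ?_, fun x hx => hfe' _ (hfe _ hx), .cons hshr hshr', ?_, ?_⟩
    · simpa using H4
    · rw [lets_cons, lets_cons]
      exact List.rel_append (hnx.imp fun _ _ h => h.mono hfe') hnx'
    · intro u hu hnot
      have h1 : u ∉ st ++ full (e :: (es1 ++ es2)) := by
        simp only [full_cons, full_append, List.mem_append] at hnot ⊢
        tauto
      have h2 := hu1 u h1 (fun h => hN2 (h ▸ hu))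
      have h3 : u ∉ (st ++ e.lets) ++ full ((es1 ++ [e']) ++ es2) := by
        simp only [full_cons, full_append, full_nil, List.mem_append, List.not_mem_nil,
          or_false] at h2 ⊢
        tauto
      have h4 := hu2 u hu h3
      simp only [full_cons, full_append, full_nil, lets_cons, List.mem_append, List.not_mem_nil,
        or_false] at h4 ⊢
      tauto

theorem Core.adv_all (hG : ∀ a c, G a c → G c a) (H : Core G b r SV fe st es)
    (hbig : ∀ p ∈ sizes es, 2 ≤ p) (av : List (V ⊕ ℕ)) :
    ∃ fe' es', Core G b r SV fe' (st ++ lets es) es' ∧ (∀ e ∈ fe, e ∈ fe') ∧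
      List.Forall₂ (Shr 2 2) es es' ∧ List.Forall₂ (Nx G fe') (lets es) (lets es') ∧
      (∀ u ∈ av, u ∉ st ++ full es → u ∉ st ++ lets es ++ full es') := by
  simpa using C5_adv_all_aux hG av es [] fe st (by simpa using H) hbig

theorem C5_adv_at_aux (hG : ∀ a c, G a c → G c a) {v : V ⊕ ℕ} :
    ∀ (es2 es1 : List (Elem V)) (i : ℕ), Core G b r SV fe st (es1 ++ es2) →
      (∀ p ∈ sizes es2, 1 ≤ p) → (lets es2)[i]? = some v →
      ∃ fe' es2' v', Core G b r SV fe' (st ++ [v]) (es1 ++ es2') ∧ (∀ e ∈ fe, e ∈ fe') ∧
        List.Forall₂ (Shr 0 1) es2 es2' ∧ lets es2' = (lets es2).set i v' ∧ Nx G fe' v v' := by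
  intro es2
  induction es2 with
  | nil => intro es1 i _ _ hi; simp at hi
  | cons e es2 ih =>
    intro es1 i H hbig hi
    have H1 : Core G b r SV fe st (e :: (es1 ++ es2)) :=
      H.perm (List.Perm.refl _) List.perm_middle
    have back : ∀ {fe' : List ((V ⊕ ℕ) × ℕ)} {e' : Elem V},
        Core G b r SV fe' (st ++ [v]) (e' :: (es1 ++ es2)) →
        Core G b r SV fe' (st ++ [v]) (es1 ++ e' :: es2) := fun h =>
      h.perm (List.Perm.refl _) List.perm_middle.symm
    have hrec : ∀ j, (lets es2)[j]? = some v →
        ∃ fe' es2' v', Core G b r SV fe' (st ++ [v]) (es1 ++ e :: es2') ∧ (∀ e ∈ fe, e ∈ fe') ∧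
          List.Forall₂ (Shr 0 1) es2 es2' ∧ lets es2' = (lets es2).set j v' ∧ Nx G fe' v v' := by
      intro j hj
      have H2 : Core G b r SV fe st ((es1 ++ [e]) ++ es2) := by simpa using H
      obtain ⟨fe', es2', v', h1, h2, h3, h4, h5⟩ :=
        ih (es1 ++ [e]) j H2 (fun p hp => hbig p (by simp [hp])) hj
      exact ⟨fe', es2', v', by simpa using h1, h2, h3, h4, h5⟩
    cases e with
    | free s w =>
      cases i with
      | zero =>
        simp only [lets_cons, Elem.lets_free, List.cons_append, List.nil_append,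
          List.getElem?_cons_zero, Option.some.injEq] at hi
        subst hi
        obtain ⟨N, hN⟩ := exists_fresh (st ++ full (Elem.free s w :: (es1 ++ es2)))
        refine ⟨(w, N) :: fe, Elem.free s (Sum.inr N) :: es2, Sum.inr N,
          back (H1.adv_free (hN N le_rfl)), fun e he => by simp [he],
          .cons (.free s _ _) ((shrL_refl es2).imp fun _ _ h => h.mono le_rfl (by omega)), ?_,
          Nx.mk (by simp)⟩
        simp
      | succ j =>
        have hj : (lets es2)[j]? = some v := by simpa using hi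
        obtain ⟨fe', es2', v', h1, h2, h3, h4, h5⟩ := hrec j hj
        exact ⟨fe', Elem.free s w :: es2', v', h1, h2, .cons (.free s w w) h3,
          by simp [h4], h5⟩
    | pile x P x' =>
      have h1P : 1 ≤ P.length := hbig _ (by simp)
      have hc := H.chain x P x' (by simp)
      match i, hi with
      | 0, hi =>
        simp only [lets_cons, Elem.lets_pile, List.cons_append, List.nil_append,
          List.getElem?_cons_zero, Option.some.injEq] at hi
        subst hi
        obtain ⟨y, Q, rfl⟩ : ∃ y Q, P = y :: Q := by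
          cases P with
          | nil => simp at h1P
          | cons y Q => exact ⟨y, Q, rfl⟩
        refine ⟨fe, Elem.pile y Q x' :: es2, Sum.inl y, back H1.adv_left, fun e he => he,
          .cons (.pile _ _ _ _ _ _ (by simp) (by simp))
            ((shrL_refl es2).imp fun _ _ h => h.mono le_rfl (by omega)), ?_,
          Nx.of_G (C5_chain_left hc)⟩
        simp
      | 1, hi =>
        simp only [lets_cons, Elem.lets_pile, List.cons_append, List.nil_append,
          List.getElem?_cons_succ, List.getElem?_cons_zero, Option.some.injEq] at hi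
        subst hi
        obtain ⟨Q, y', rfl⟩ : ∃ Q y', P = Q ++ [y'] := by
          rcases List.eq_nil_or_concat P with h | ⟨Q, y', h⟩
          · subst h; simp at h1P
          · exact ⟨Q, y', by simpa using h⟩
        refine ⟨fe, Elem.pile x Q y' :: es2, Sum.inl y', back H1.adv_right, fun e he => he,
          .cons (.pile _ _ _ _ _ _ (by simp) (by simp))
            ((shrL_refl es2).imp fun _ _ h => h.mono le_rfl (by omega)), ?_,
          Nx.of_G (hG _ _ (C5_chain_right hc))⟩
        simp
      | j + 2, hi =>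
        have hj : (lets es2)[j]? = some v := by simpa using hi
        obtain ⟨fe', es2', v', h1, h2, h3, h4, h5⟩ := hrec j hj
        exact ⟨fe', Elem.pile x P x' :: es2', v', h1, h2,
          .cons (.pile _ _ _ _ _ _ (by omega) (by omega)) h3, by simp [h4], h5⟩

theorem Core.adv_at (hG : ∀ a c, G a c → G c a) (H : Core G b r SV fe st es)
    (hbig : ∀ p ∈ sizes es, 1 ≤ p) {i : ℕ} {v : V ⊕ ℕ} (hi : (lets es)[i]? = some v) :
    ∃ fe' es' v', Core G b r SV fe' (st ++ [v]) es' ∧ (∀ e ∈ fe, e ∈ fe') ∧
      List.Forall₂ (Shr 0 1) es es' ∧ lets es' = (lets es).set i v' ∧ Nx G fe' v v' := by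
  simpa using C5_adv_at_aux hG es [] i (by simpa using H) hbig hi

theorem C5_set_rotate {U : Type*} (l : List U) (k : ℕ) {i : ℕ} (hi : i < l.length) (v : U) :
    (l.set ((i + k) % l.length) v).rotate k = (l.rotate k).set i v := by
  have hl : 0 < l.length := by omega
  apply List.ext_getElem
  · simp
  · intro m h1 h2
    have hm : m < l.length := by simpa using h2
    rw [List.getElem_rotate, List.getElem_set, List.getElem_set, List.getElem_rotate]
    simp only [List.length_set]
    by_cases h : i = m
    · subst h; simp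
    · have h3 : (i + k) % l.length ≠ (m + k) % l.length := by
        intro h4
        have h5 : i ≡ m [MOD l.length] := Nat.ModEq.add_right_cancel' k h4
        exact h (Nat.ModEq.eq_of_lt_of_lt h5 hi hm)
      rw [if_neg h3, if_neg h]

theorem Core.adv_rot (hG : ∀ a c, G a c → G c a) (H : Core G b r SV fe st es)
    (hbig : ∀ p ∈ sizes es, 1 ≤ p) (k : ℕ) {i : ℕ} {v : V ⊕ ℕ}
    (hi : ((lets es).rotate k)[i]? = some v) :
    ∃ fe' es' v', Core G b r SV fe' (st ++ [v]) es' ∧ (∀ e ∈ fe, e ∈ fe') ∧
      List.Forall₂ (Shr 0 1) es es' ∧ (lets es').rotate k = ((lets es).rotate k).set i v' ∧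
      Nx G fe' v v' := by
  have hlt : i < (lets es).length := by
    have := (List.getElem?_eq_some_iff.1 hi).1
    simpa using this
  rw [List.getElem?_rotate hlt] at hi
  obtain ⟨fe', es', v', h1, h2, h3, h4, h5⟩ := H.adv_at hG hbig hi
  refine ⟨fe', es', v', h1, h2, h3, ?_, h5⟩
  rw [h4, C5_set_rotate _ _ hlt]

end Pool.Agent.FLV
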