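import Mathlib

/-!
# Few leaves: the two-row calculus

A *state* of the labelling process consists of two rows of vertices, `A ++ F` and `B ++ S`
(`|F| = h + 1`, `|S| = h`).  Positions in the rows are labels; every sum `< |A| + |B| + h` of a
position in the first row and a position in the second row is realised by an edge.
The vertices in `F ++ S` (the *circle word*) are *open letters*: each has exactly one edge which
is not yet explored.  Letters are grouped in *elements*:

* `free s v`: a letter on the (flexible) longest branch; `s` is the name of the string to which it belongs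
  (a string has two open ends, the string `0` is the one that starts at the root `b` and has one open end);
* `pile x P x'`: two consecutive open letters of a long branch, `P` is the list of the unexplored
  vertices between them.
-/

set_option autoImplicit false

namespace Pool.Agent.FLV

/-! ## coverage of sums -/

/-- the sum `s` is realised by an adjacent pair (an entry of `X` and an entry of `Y`) -/
def CovAt {U : Type*} (E : U → U → Prop) (X Y : List U) (s : ℕ) : Prop :=
  ∃ i j x y, X[i]? = some x ∧ Y[j]? = some y ∧ i + j = s ∧ (E x y ∨ E y x)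

/-- all sums `s` with `a ≤ s < b` are realised -/
def CovI {U : Type*} (E : U → U → Prop) (X Y : List U) (a b : ℕ) : Prop :=
  ∀ s, a ≤ s → s < b → CovAt E X Y s

/-! ## elements -/

/-- elements of the circle; `Sum.inl a` is a vertex of the given tree, `Sum.inr n` a fresh vertex -/
inductive Elem (V : Type*)
  | free (s : ℕ) (v : V ⊕ ℕ) : Elem V
  | pile (x : V) (P : List V) (x' : V) : Elem V

/-- the open letters of an element -/
def Elem.lets {V : Type*} : Elem V → List (V ⊕ ℕ)
  | .free _ v => [v]
  | .pile x _ x' => [Sum.inl x, Sum.inl x']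

/-- the open letters and the reserved (unexplored) vertices of an element -/
def Elem.full {V : Type*} : Elem V → List (V ⊕ ℕ)
  | .free _ v => [v]
  | .pile x P x' => Sum.inl x :: (P.map Sum.inl ++ [Sum.inl x'])

/-- names of strings -/
def Elem.ids {V : Type*} : Elem V → List ℕ
  | .free s _ => [s]
  | .pile _ _ _ => []

/-- number of unexplored vertices of a pile -/
def Elem.sizes {V : Type*} : Elem V → List ℕ
  | .free _ _ => []
  | .pile _ P _ => [P.length]

/-- rename the two strings `s` and `s'` to `min s s'` -/
def Elem.ren {V : Type*} (s s' : ℕ) : Elem V → Elem V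
  | .free r v => .free (if r = s ∨ r = s' then min s s' else r) v
  | .pile x P x' => .pile x P x'

variable {V : Type*}

/-- the circle word of a list of elements -/
def lets (es : List (Elem V)) : List (V ⊕ ℕ) := es.flatMap Elem.lets
/-- all vertices of a list of elements -/
def full (es : List (Elem V)) : List (V ⊕ ℕ) := es.flatMap Elem.full
/-- the names of the free letters -/
def ids (es : List (Elem V)) : List ℕ := es.flatMap Elem.ids
/-- the sizes of the piles -/
def sizes (es : List (Elem V)) : List ℕ := es.flatMap Elem.sizes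

/-! ## explored edges on fresh vertices

`fe : List ((V ⊕ ℕ) × ℕ)`: the pair `(u, n)` is the edge between `u` and `Sum.inr n`. -/

/-- adjacency by an edge in `fe` -/
def FAdj (fe : List ((V ⊕ ℕ) × ℕ)) (u v : V ⊕ ℕ) : Prop :=
  (∃ n, v = Sum.inr n ∧ (u, n) ∈ fe) ∨ (∃ n, u = Sum.inr n ∧ (v, n) ∈ fe)

/-- connected by edges in `fe` -/
def Conn (fe : List ((V ⊕ ℕ) × ℕ)) : V ⊕ ℕ → V ⊕ ℕ → Prop :=
  Relation.ReflTransGen (FAdj fe)

/-- adjacency: an edge of the given graph or an edge in `fe` -/
def EE (G : V → V → Prop) (fe : List ((V ⊕ ℕ) × ℕ)) (u v : V ⊕ ℕ) : Prop :=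
  (∃ a b, u = Sum.inl a ∧ v = Sum.inl b ∧ G a b) ∨ FAdj fe u v

/-- `v` is a possible next vertex after `u`: a neighbour in the given graph or a fresh vertex -/
def Nx (G : V → V → Prop) (fe : List ((V ⊕ ℕ) × ℕ)) (u v : V ⊕ ℕ) : Prop :=
  (∃ a b, u = Sum.inl a ∧ v = Sum.inl b ∧ G a b) ∨ (∃ n, v = Sum.inr n ∧ (u, n) ∈ fe)

variable [DecidableEq V]

/-- number of edges of `fe` at `u` -/
def dg (fe : List ((V ⊕ ℕ) × ℕ)) (u : V ⊕ ℕ) : ℕ :=
  fe.countP (fun e => decide (e.1 = u)) + fe.countP (fun e => decide (Sum.inr e.2 = u))

/-- maximal number of edges of `fe` at a vertex: `2` for fresh vertices, `1` for the root `b`,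
`0` for the other vertices of the given tree -/
def cap (b : V) : V ⊕ ℕ → ℕ
  | .inl a => if a = b then 1 else 0
  | .inr _ => 2

/-- The invariant that does not depend on the order of the rows.  `st` is the list of all settled vertices,
`SV` the list of the vertices of the given tree which are in use, `r` the number of open letters
with name `0` (it is `1` except in the corner). -/
structure Core (G : V → V → Prop) (b : V) (r : ℕ) (SV : List V) (fe : List ((V ⊕ ℕ) × ℕ))
    (st : List (V ⊕ ℕ)) (es : List (Elem V)) : Prop where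
  nodup : (st ++ full es).Nodup
  mem : ∀ a : V, Sum.inl a ∈ st ++ full es ↔ a ∈ SV
  chain : ∀ x P x', Elem.pile x P x' ∈ es → (x :: (P ++ [x'])).IsChain G
  mem_fe : ∀ e ∈ fe, e.1 ∈ st ++ lets es ∧ Sum.inr e.2 ∈ st ++ lets es
  deg : ∀ u, dg fe u ≤ cap b u
  deg_open : ∀ s v, Elem.free s v ∈ es → dg fe v < cap b v
  conn_id : ∀ s v v', Elem.free s v ∈ es → Elem.free s v' ∈ es → Conn fe v v'
  conn_root : ∀ v, Elem.free 0 v ∈ es → Conn fe (Sum.inl b) v
  conn_st : ∀ n, Sum.inr n ∈ st → ∃ s v, Elem.free s v ∈ es ∧ Conn fe (Sum.inr n) v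
  cnt0 : (ids es).count 0 = r
  cnt : ∀ s, s ≠ 0 → (ids es).count s = 0 ∨ (ids es).count s = 2

/-- the colours of the vertices of the given tree agree with the rows -/
def ColOK (col : V → Bool) (X Y : List (V ⊕ ℕ)) : Prop :=
  ∃ κ : Bool, (∀ a, Sum.inl a ∈ X → col a = κ) ∧ (∀ a, Sum.inl a ∈ Y → col a = !κ)

/-- A plain state with height `h`; `k` is the position of the first letter of the circle word in `lets es`. -/
structure HInv (G : V → V → Prop) (col : V → Bool) (b : V) (SV : List V) (h : ℕ)
    (fe : List ((V ⊕ ℕ) × ℕ)) (A B : List (V ⊕ ℕ)) (es : List (Elem V)) (k : ℕ) : Prop where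
  core : Core G b 1 SV fe (A ++ B) es
  len : (lets es).length = 2 * h + 1
  cov : CovI (EE G fe) (A ++ ((lets es).rotate k).take (h + 1))
    (B ++ ((lets es).rotate k).drop (h + 1)) 0 (A.length + B.length + h)
  col : ColOK col (A ++ ((lets es).rotate k).take (h + 1)) (B ++ ((lets es).rotate k).drop (h + 1))

/-- A pending state of height `n + 1`: two adjacent letters `c` (first in the circle word) and `c'` (last in the circle
word), which are adjacent vertices, have still to be chosen. -/
structure PInv (G : V → V → Prop) (col : V → Bool) (b : V) (SV : List V) (n : ℕ)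
    (fe : List ((V ⊕ ℕ) × ℕ)) (A B : List (V ⊕ ℕ)) (es : List (Elem V)) (k : ℕ) : Prop where
  core : Core G b 1 SV fe (A ++ B) es
  len : (lets es).length = 2 * n + 1
  cov : ∀ (E' : V ⊕ ℕ → V ⊕ ℕ → Prop) (c c' : V ⊕ ℕ), (∀ u v, EE G fe u v → E' u v) → E' c c' →
    CovI E' (A ++ c :: ((lets es).rotate k).take (n + 1))
      (B ++ (((lets es).rotate k).drop (n + 1) ++ [c'])) 0 (A.length + B.length + n + 1)
  col : ColOK col (A ++ ((lets es).rotate k).take (n + 1)) (B ++ ((lets es).rotate k).drop (n + 1))

/-- `e'` is obtained from `e` by exploring between `a` and `c` vertices of a pile (any number for a free letter) -/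
inductive Shr (a c : ℕ) : Elem V → Elem V → Prop
  | free (s : ℕ) (v v' : V ⊕ ℕ) : Shr a c (.free s v) (.free s v')
  | pile (x : V) (P : List V) (x' y : V) (Q : List V) (y' : V) (h1 : Q.length + a ≤ P.length)
      (h2 : P.length ≤ Q.length + c) : Shr a c (.pile x P x') (.pile y Q y')

end Pool.Agent.FLV
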