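import Pool.Agent.FLV.M5

/-!
# Rotations which respect the elements

`IsOff es k`: the `k`-th letter of `lets es` is the first letter of an element (or `k` is the total length).
`off_bad`: every pile excludes exactly one `k` (the position of its second letter).  Induction on `es`.
`off_shr`: shapes agree.
`good_rot` PROOF: `R = 2h+1`, `r = k % R`, `es = es1 ++ es2`, `|lets es1| = r`; then
`(lets es).rotate k = (lets es).rotate r = lets (es2 ++ es1)`.  If `r + h + 1 < R` (or `= R`) then the second offset is
`|lets es1| + (h+1)`, it splits `es2 = e3 ++ e4` with `|lets e3| = h + 1`, `esF = e3`, `esS = e4 ++ es1`.  Otherwise the second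
offset `r + h + 1 - R ≤ r` splits `es1 = e3 ++ e4`, `esF = es2 ++ e3`, `esS = e4`.  (Use `off_split`.)
The conclusion on `HInv` is a rewriting of `H` (`Core.perm`).
-/

set_option autoImplicit false

namespace Pool.Agent.FLV

variable {V : Type*}

/-- `k` is the offset of an element -/
def IsOff (es : List (Elem V)) (k : ℕ) : Prop := ∃ es1 es2, es = es1 ++ es2 ∧ (lets es1).length = k

theorem F1_zero (es : List (Elem V)) : IsOff es 0 := ⟨[], es, rfl, rfl⟩

theorem F1_cons (e : Elem V) (es : List (Elem V)) (k : ℕ) :
    IsOff (e :: es) k ↔ k = 0 ∨ ∃ k', IsOff es k' ∧ k = e.lets.length + k' := by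
  constructor
  · rintro ⟨es1, es2, h1, h2⟩
    cases es1 with
    | nil => left; simpa using h2.symm
    | cons f es1 =>
      rw [List.cons_append, List.cons.injEq] at h1
      right
      refine ⟨(lets es1).length, ⟨es1, es2, h1.2, rfl⟩, ?_⟩
      rw [← h2, lets_cons, List.length_append, h1.1]
  · rintro (rfl | ⟨k', ⟨es1, es2, h1, h2⟩, rfl⟩)
    · exact F1_zero _
    · exact ⟨e :: es1, es2, by rw [h1]; rfl, by rw [lets_cons, List.length_append, h2]⟩

theorem off_bad (es : List (Elem V)) : ∃ Bad : Finset ℕ, Bad.card ≤ (sizes es).length ∧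
    ∀ k < (lets es).length, k ∉ Bad → IsOff es k := by
  induction es with
  | nil => exact ⟨∅, by simp, fun k hk => by simp at hk⟩
  | cons e es ih =>
    obtain ⟨Bad, hc, hB⟩ := ih
    cases e with
    | free s v =>
      refine ⟨Bad.image (· + 1), ?_, ?_⟩
      · simpa using Finset.card_image_le.trans hc
      · intro k hk hkB
        rw [F1_cons]
        rcases k with _ | k
        · exact Or.inl rfl
        · right
          refine ⟨k, hB k ?_ ?_, ?_⟩
          · simp at hk; omega
          · intro h
            exact hkB (Finset.mem_image.2 ⟨k, h, rfl⟩)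
          · simp; omega
    | pile x P x' =>
      refine ⟨insert 1 (Bad.image (· + 2)), ?_, ?_⟩
      · have h1 := Finset.card_insert_le 1 (Bad.image (· + 2))
        have h2 : (Bad.image (· + 2)).card ≤ Bad.card := Finset.card_image_le
        simp only [sizes_cons, Elem.sizes_pile, List.length_append, List.length_cons,
          List.length_nil]
        omega
      · intro k hk hkB
        rw [Finset.mem_insert, not_or] at hkB
        rw [F1_cons]
        rcases k with _ | k
        · exact Or.inl rfl
        · rcases k with _ | k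
          · exact absurd rfl hkB.1
          · right
            refine ⟨k, hB k ?_ ?_, ?_⟩
            · simp at hk; omega
            · intro h
              exact hkB.2 (Finset.mem_image.2 ⟨k, h, rfl⟩)
            · simp; omega

theorem F1_shr_len {a c : ℕ} {e e' : Elem V} (h : Shr a c e e') :
    e'.lets.length = e.lets.length := by
  cases h <;> rfl

theorem off_shr {a c : ℕ} {es es' : List (Elem V)} (h : List.Forall₂ (Shr a c) es es') (k : ℕ) :
    IsOff es k ↔ IsOff es' k := by
  induction h generalizing k with
  | nil => exact Iff.rfl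
  | cons h1 h2 ih =>
    rw [F1_cons, F1_cons, F1_shr_len h1]
    constructor
    · rintro (h | ⟨k', h, h'⟩)
      · exact Or.inl h
      · exact Or.inr ⟨k', (ih k').1 h, h'⟩
    · rintro (h | ⟨k', h, h'⟩)
      · exact Or.inl h
      · exact Or.inr ⟨k', (ih k').2 h, h'⟩

/-- two offsets `k ≤ k'` cut the list into three parts -/
theorem off_split {es : List (Elem V)} {k k' : ℕ} (h : IsOff es k) (h' : IsOff es k') (hk : k ≤ k') :
    ∃ e1 e2 e3, es = e1 ++ e2 ++ e3 ∧ (lets e1).length = k ∧
      (lets e1).length + (lets e2).length = k' := by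
  obtain ⟨a1, a2, ha, hka⟩ := h
  obtain ⟨b1, b2, hb, hkb⟩ := h'
  rw [ha] at hb
  rcases List.append_eq_append_iff.1 hb with ⟨c, h1, h2⟩ | ⟨c, h1, h2⟩
  · refine ⟨a1, c, b2, by rw [ha, h2, List.append_assoc], hka, ?_⟩
    rw [← hkb, h1, lets_append, List.length_append]
  · have hk2 : k = k' + (lets c).length := by
      rw [← hka, h1, lets_append, List.length_append, hkb]
    refine ⟨b1, [], b2, by rw [ha, hb]; simp, by omega, by simp; omega⟩

variable [DecidableEq V] {G : V → V → Prop} {col : V → Bool} {b : V} {SV : List V}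
  {h : ℕ} {fe : List ((V ⊕ ℕ) × ℕ)} {A B : List (V ⊕ ℕ)} {es : List (Elem V)} {k : ℕ}

theorem F1_build {esF esS : List (Elem V)} (H : HInv G col b SV h fe A B es k)
    (hr : (lets es).rotate k = lets (esF ++ esS)) (hp : (esF ++ esS).Perm es) :
    HInv G col b SV h fe A B (esF ++ esS) 0 := by
  refine ⟨H.core.perm (List.Perm.refl _) hp.symm, ?_, ?_, ?_⟩
  · rw [← H.len]
    exact (lets_perm hp).length_eq
  · have := H.cov
    rw [hr] at this
    rw [List.rotate_zero]
    exact this
  · have := H.col
    rw [hr] at this
    rw [List.rotate_zero]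
    exact this

theorem good_rot (H : HInv G col b SV h fe A B es k) (h1 : IsOff es (k % (2 * h + 1)))
    (h2 : IsOff es ((k + h + 1) % (2 * h + 1))) :
    ∃ esF esS, HInv G col b SV h fe A B (esF ++ esS) 0 ∧ (lets esF).length = h + 1 ∧
      (esF ++ esS).Perm es := by
  have hlen := H.len
  have hr1 : k % (2 * h + 1) < 2 * h + 1 := Nat.mod_lt _ (by omega)
  have hrot : (lets es).rotate k = (lets es).rotate (k % (2 * h + 1)) := by
    rw [← hlen, List.rotate_mod]
  have hmod : (k + h + 1) % (2 * h + 1) = (k % (2 * h + 1) + (h + 1)) % (2 * h + 1) := by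
    rw [Nat.mod_add_mod, add_assoc]
  rw [hmod] at h2
  generalize k % (2 * h + 1) = r at *
  rcases lt_or_ge (r + (h + 1)) (2 * h + 1) with hlt | hge
  · rw [Nat.mod_eq_of_lt hlt] at h2
    obtain ⟨e1, e2, e3, he, hl1, hl2⟩ := off_split h1 h2 (by omega)
    have hp : (e2 ++ (e3 ++ e1)).Perm es := by
      rw [he]
      simpa [List.append_assoc] using (List.perm_append_comm (l₁ := e2 ++ e3) (l₂ := e1))
    have hr : (lets es).rotate k = lets (e2 ++ (e3 ++ e1)) := by
      rw [hrot, he, List.append_assoc, lets_append, ← hl1, List.rotate_append_length_eq]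
      simp [List.append_assoc]
    exact ⟨e2, e3 ++ e1, F1_build H hr hp, by omega, hp⟩
  · have h3 : (r + (h + 1)) % (2 * h + 1) = r - h := by
      rw [Nat.mod_eq_sub_mod hge, Nat.mod_eq_of_lt (by omega)]
      omega
    rw [h3] at h2
    obtain ⟨e1, e2, e3, he, hl1, hl2⟩ := off_split h2 h1 (by omega)
    have hp : ((e3 ++ e1) ++ e2).Perm es := by
      rw [he]
      simpa [List.append_assoc] using (List.perm_append_comm (l₁ := e3) (l₂ := e1 ++ e2))
    have hl12 : (lets (e1 ++ e2)).length = r := by
      rw [lets_append, List.length_append]; exact hl2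
    have hr : (lets es).rotate k = lets ((e3 ++ e1) ++ e2) := by
      rw [hrot, he, lets_append (e1 ++ e2) e3, ← hl12, List.rotate_append_length_eq]
      simp [List.append_assoc]
    have hl3 : (lets es).length = (lets e1).length + (lets e2).length + (lets e3).length := by
      rw [he]; simp; omega
    refine ⟨e3 ++ e1, e2, F1_build H hr hp, ?_, hp⟩
    rw [lets_append, List.length_append]
    omega

end Pool.Agent.FLV
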