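import Mathlib

/-!
# Pigeonhole for the residues

`K_i = i (2 h + 4 i + 3) - c`.  For `i ≠ j` in `[i0, i0 + W)`, `i > j`:
`K_i - K_j = (i - j) (2 h + 1) + (i - j) (4 (i + j) + 2)` and `0 < (i - j) (4 (i + j) + 2) ≤ W (8 (i0 + W) + 2) ≤ 2 h < 2 h + 1`,
so the residues of `K_i` modulo `2 h + 1` are distinct.  `BadI` = the set of the `i` in the interval with residue in
`Bad`; the residue map is injective on it.
-/

set_option autoImplicit false

namespace Pool.Agent.FLV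

theorem F2_raw (h c i0 i j : ℕ) (hc : c ≤ i0 * (2 * h + 4 * i0 + 3)) (h0 : i0 ≤ j) (hij : j ≤ i) :
    i * (2 * h + 4 * i + 3) - c = (j * (2 * h + 4 * j + 3) - c) + (i - j) * (2 * h + 1)
      + (i - j) * (4 * (i + j) + 2) := by
  have h1 : i0 * (2 * h + 4 * i0 + 3) ≤ j * (2 * h + 4 * j + 3) :=
    Nat.mul_le_mul h0 (by omega)
  obtain ⟨d, rfl⟩ := Nat.exists_eq_add_of_le hij
  have e1 : j + d - j = d := by omega
  rw [e1]
  have e2 : (j + d) * (2 * h + 4 * (j + d) + 3)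
      = j * (2 * h + 4 * j + 3) + d * (2 * h + 1) + d * (4 * (j + d + j) + 2) := by ring
  rw [e2]
  omega

theorem F2_inj (h c i0 W i j : ℕ) (hW : W * (8 * (i0 + W) + 2) ≤ 2 * h)
    (hc : c ≤ i0 * (2 * h + 4 * i0 + 3)) (h0 : i0 ≤ j) (hij : j < i) (hi : i < i0 + W)
    (he : (i * (2 * h + 4 * i + 3) - c) % (2 * h + 1)
      = (j * (2 * h + 4 * j + 3) - c) % (2 * h + 1)) : False := by
  rw [F2_raw h c i0 i j hc h0 hij.le] at he
  have e1 : (j * (2 * h + 4 * j + 3) - c) + (i - j) * (2 * h + 1) + (i - j) * (4 * (i + j) + 2)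
      = (j * (2 * h + 4 * j + 3) - c) + (i - j) * (4 * (i + j) + 2) + (2 * h + 1) * (i - j) := by
    ring
  rw [e1, Nat.add_mul_mod_self_left] at he
  have h2 : (2 * h + 1) ∣ ((j * (2 * h + 4 * j + 3) - c) + (i - j) * (4 * (i + j) + 2))
      - (j * (2 * h + 4 * j + 3) - c) :=
    (Nat.modEq_iff_dvd' (Nat.le_add_right _ _)).1 he.symm
  rw [Nat.add_sub_cancel_left] at h2
  have h3 : 0 < (i - j) * (4 * (i + j) + 2) := Nat.mul_pos (by omega) (by omega)
  have h4 := Nat.le_of_dvd h3 h2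
  have h5 : (i - j) * (4 * (i + j) + 2) ≤ W * (8 * (i0 + W) + 2) :=
    Nat.mul_le_mul (by omega) (by omega)
  omega

theorem pigeon (h c i0 W : ℕ) (hW : W * (8 * (i0 + W) + 2) ≤ 2 * h)
    (hc : c ≤ i0 * (2 * h + 4 * i0 + 3)) (Bad : Finset ℕ) :
    ∃ BadI : Finset ℕ, BadI.card ≤ Bad.card ∧ ∀ i, i0 ≤ i → i < i0 + W → i ∉ BadI →
      (i * (2 * h + 4 * i + 3) - c) % (2 * h + 1) ∉ Bad := by
  refine ⟨(Finset.Ico i0 (i0 + W)).filter
    (fun i => (i * (2 * h + 4 * i + 3) - c) % (2 * h + 1) ∈ Bad), ?_, ?_⟩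
  · refine Finset.card_le_card_of_injOn
      (fun i => (i * (2 * h + 4 * i + 3) - c) % (2 * h + 1)) ?_ ?_
    · intro i hi
      exact (Finset.mem_filter.mp hi).2
    · intro i hi j hj he
      have hi1 := Finset.mem_Ico.mp (Finset.mem_filter.mp hi).1
      have hj1 := Finset.mem_Ico.mp (Finset.mem_filter.mp hj).1
      rcases lt_trichotomy i j with hlt | heq | hgt
      · exact (F2_inj h c i0 W j i hW hc hi1.1 hlt hj1.2 he.symm).elim
      · exact heq
      · exact (F2_inj h c i0 W i j hW hc hj1.1 hgt hi1.2 he).elim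
  · intro i h1 h2 h3 h4
    exact h3 (Finset.mem_filter.mpr ⟨Finset.mem_Ico.mpr ⟨h1, h2⟩, h4⟩)

end Pool.Agent.FLV
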