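import Pool.Agent.FLV.Base

/-!
# Growing a tree by pendant vertices and long branches; the final statement of the machine
-/

set_option autoImplicit false

namespace Pool.Agent.FLV

/-- steps of the growth of a tree -/
inductive Op (V : Type*)
  | pend (v w : V) : Op V
  | branch (v w wn : V) (mid : List V) (l : V) : Op V

/-- the numbers of inner vertices (minus one) of the long branches -/
def Op.mids {V : Type*} : Op V → List ℕ
  | .pend _ _ => []
  | .branch _ _ _ mid _ => [mid.length]

/-- `Grown G b ops SV AV`: the tree with root `b` grown by the list `ops` (last step first) has the vertices `SV`; new steps may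
be attached at the vertices in `AV` -/
inductive Grown {V : Type*} (G : V → V → Prop) (b : V) : List (Op V) → List V → List V → Prop
  | nil : Grown G b [] [b] [b]
  | pend {ops SV AV v w} (hg : Grown G b ops SV AV) (hv : v ∈ AV) (hw : w ∉ SV) (hvw : G v w) :
      Grown G b (Op.pend v w :: ops) (w :: SV) (w :: AV)
  | branch {ops SV AV v w wn mid l} (hg : Grown G b ops SV AV) (hv : v ∈ AV) (hvw : G v w)
      (hch : (w :: wn :: (mid ++ [l])).IsChain G) (hnd : (w :: wn :: (mid ++ [l])).Nodup)
      (hdis : ∀ a ∈ w :: wn :: (mid ++ [l]), a ∉ SV) (hodd : Odd mid.length) :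
      Grown G b (Op.branch v w wn mid l :: ops) ((w :: wn :: (mid ++ [l])) ++ SV) (w :: l :: AV)

/-- consecutive vertices of the spine `bL, sp, bR` -/
def SpAdj {V : Type*} (bL bR : V) (sp : List ℕ) (u v : V ⊕ ℕ) : Prop :=
  ∃ L1 L2, (Sum.inl bL :: (sp.map Sum.inr ++ [Sum.inl bR]) : List (V ⊕ ℕ)) = L1 ++ u :: v :: L2

/-- The final statement: two grown trees with disjoint vertex sets, joined by a spine with `l` inner vertices; the lists
`X, Y` contain every vertex exactly once and all sums `< m = |X| + |Y| - 1` are realised by edges. -/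
def MachineGrown : Prop :=
  ∀ n : ℕ, ∃ F : ℕ, ∀ (V : Type) (_ : DecidableEq V) (G : V → V → Prop) (col : V → Bool)
    (bL bR : V) (opsL opsR : List (Op V)) (SVL AVL SVR AVR : List V) (l : ℕ),
    (∀ a c, G a c → G c a) → (∀ a c, G a c → col a ≠ col c) →
    Grown G bL opsL SVL AVL → Grown G bR opsR SVR AVR → (∀ a ∈ SVL, a ∉ SVR) →
    opsL.length + opsR.length ≤ n →
    (∀ t ∈ (opsL ++ opsR).flatMap Op.mids, F ≤ t ∧ t ≤ l) → F ≤ l →
    ∃ (X Y : List (V ⊕ ℕ)) (sp : List ℕ), sp.length = l ∧ sp.Nodup ∧
      (X ++ Y).Perm ((SVL ++ SVR).map Sum.inl ++ sp.map Sum.inr) ∧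
      CovI (fun x y => (∃ a c, x = Sum.inl a ∧ y = Sum.inl c ∧ G a c) ∨ SpAdj bL bR sp x y)
        X Y 0 (SVL.length + SVR.length + l - 1)

end Pool.Agent.FLV
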