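import Pool.Agent.FLV.T2

/-!
# Attaching a pendant vertex / a long branch

Start with `HInv.farTrain`.
`HInv.attachPendant`: `cov_absorb`: new rows `((A ++ D) ++ [w]) ++ (lets esS' ++ [d1, d2])` and `((B ++ C) ++ [m]) ++ lets esF'`;
`Core.openD` for `m, d1, d2` (in `Core` the new letters have to be moved to the right place: `Core.perm`), `Core.pendant` for `w`.
`HInv.attachBranch`: the branch is `w, wn, mid, l` (a chain); `cov_branch`: new rows
`((B ++ C) ++ [m]) ++ (lets esF' ++ [l, wn])` and `((A ++ D) ++ [w]) ++ (lets esS' ++ [d1, d2])`; the new pile is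
`pile l mid.reverse wn` (`Core.branch`).  Colours: `w` has the colour of the second row, `wn` the other one, and so has `l`
(`|mid|` is odd: `chain_parity` or a direct induction along the chain).
-/

set_option autoImplicit false

namespace Pool.Agent.FLV

variable {V : Type*} [DecidableEq V] {G : V → V → Prop} {col : V → Bool} {b : V} {SV : List V}
  {h : ℕ} {fe : List ((V ⊕ ℕ) × ℕ)} {A B : List (V ⊕ ℕ)} {esF esS : List (Elem V)}

theorem T3_perm {U : Type*} (A B C D : List U) (x y : U) :
    ((((B ++ C) ++ (A ++ D)) ++ [x]) ++ [y]).Perm ((A ++ (D ++ [y])) ++ (B ++ (C ++ [x]))) := by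
  classical
  rw [List.perm_iff_count]
  intro z
  simp only [List.count_append]
  omega

theorem T3_perm2 {U : Type*} (A B C D : List U) (x y : U) :
    ((((B ++ C) ++ (A ++ D)) ++ [x]) ++ [y]).Perm ((B ++ (C ++ [x])) ++ (A ++ (D ++ [y]))) :=
  (T3_perm A B C D x y).trans List.perm_append_comm

/-- the opening of a string at the end of a train -/
theorem T3_open {m : ℕ} {w : V ⊕ ℕ} {s0 : ℕ}
    (T : TInv G col b SV h fe A B (Sum.inr m) w esF esS s0) :
    ∃ (d1 d2 s : ℕ), s ∉ ids (esF ++ esS) ∧
      Core G b 1 SV ((Sum.inr m, d1) :: (Sum.inr m, d2) :: fe) ((A ++ B) ++ [Sum.inr m])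
        (Elem.free s (Sum.inr d1) :: Elem.free s (Sum.inr d2) :: (esF ++ esS)) := by
  obtain ⟨N, hN⟩ := exists_fresh ((A ++ B) ++ full (esF ++ esS))
  obtain ⟨S, hS0, hS⟩ := exists_name (ids (esF ++ esS))
  refine ⟨max N (m + 1), max N (m + 1) + 1, S, hS S le_rfl, ?_⟩
  exact T.core.openD T.new1 (hN _ (le_max_left _ _)) (hN _ (by omega)) (by omega) (by omega)
    (by omega) (hS S le_rfl) (by omega)

theorem HInv.attachPendant (hG : ∀ a c, G a c → G c a) (hcol : ∀ a c, G a c → col a ≠ col c)
    (i : ℕ) (H : HInv G col b SV h fe A B (esF ++ esS) 0) (hF : (lets esF).length = h + 1)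
    (hbig : ∀ p ∈ sizes (esF ++ esS), 4 * i + 2 ≤ p) {v w : V} (hw : w ∉ SV) (hvw : G v w)
    {l : ℕ} (hv : B[l]? = some (Sum.inl v)) (hl : l + 1 + i * (2 * h + 4 * i + 3) = B.length) :
    ∃ fe' C D es', HInv G col b (w :: SV) (h + 1 + 4 * i) fe' (A ++ C) (B ++ D) es' 0 ∧
      Sum.inl w ∈ A ++ C ∧
      C.length = h + 2 + i * (2 * h + 4 * i + 3) ∧ D.length = h + 1 + i * (2 * h + 4 * i + 3) ∧
      (sizes es').length = (sizes (esF ++ esS)).length ∧
      (∀ L, (∀ p ∈ sizes (esF ++ esS), L + 4 * i + 2 ≤ p) → ∀ p ∈ sizes es', L ≤ p) := by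
  obtain ⟨fe', C, D, m, esF', esS', s0, T, hcov, ⟨κ, hκ1, hκ2⟩, hC, hD, hsz, hL⟩ :=
    HInv.farTrain hG hcol i H hF hbig hw hvw hv hl
  obtain ⟨d1, d2, s, hs, hcore⟩ := T3_open T
  have hcore2 := hcore.pendant hw
  set fe'' : List ((V ⊕ ℕ) × ℕ) := (Sum.inr m, d1) :: (Sum.inr m, d2) :: fe' with hfe
  have hmono : ∀ u v, EE G fe' u v → EE G fe'' u v := fun u v h =>
    h.mono (fun e he => List.mem_cons_of_mem _ (List.mem_cons_of_mem _ he))
  set es' : List (Elem V) := esS' ++ ([Elem.free s (Sum.inr d1), Elem.free s (Sum.inr d2)] ++ esF')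
    with hes
  have hlets : lets es' = (lets esS' ++ [Sum.inr d1, Sum.inr d2]) ++ lets esF' := by
    rw [hes]
    simp
  have hlF := T.lenF
  have hlS := T.lenS
  have hlen : (lets esS' ++ [Sum.inr d1, Sum.inr d2]).length = h + 1 + 4 * i + 1 := by
    rw [List.length_append]
    simp only [List.length_cons, List.length_nil]
    omega
  have htake : ((lets es').rotate 0).take (h + 1 + 4 * i + 1)
      = lets esS' ++ [Sum.inr d1, Sum.inr d2] := by
    rw [List.rotate_zero, hlets, ← hlen, List.take_left]
  have hdrop : ((lets es').rotate 0).drop (h + 1 + 4 * i + 1) = lets esF' := by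
    rw [List.rotate_zero, hlets, ← hlen, List.drop_left]
  refine ⟨fe'', D ++ [Sum.inl w], C ++ [Sum.inr m], es', ?_, ?_, ?_, ?_, ?_, ?_⟩
  · refine ⟨?_, ?_, ?_, ?_⟩
    · refine hcore2.perm ?_ ?_
      · exact T3_perm A B C D _ _
      · rw [hes]
        have h1 : (Elem.free s (Sum.inr d1) :: Elem.free s (Sum.inr d2) :: (esF' ++ esS'))
          = ([Elem.free s (Sum.inr d1), Elem.free s (Sum.inr d2)] ++ esF') ++ esS' := by simp
        rw [h1]
        exact List.perm_append_comm
    · rw [hlets, List.length_append, hlen]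
      omega
    · rw [htake, hdrop]
      have h1 : CovI (EE G fe'') ((A ++ (D ++ [Sum.inl w])) ++ (lets esS' ++ [Sum.inr d1, Sum.inr d2]))
          ((B ++ (C ++ [Sum.inr m])) ++ lets esF') 0
          (A.length + B.length + C.length + D.length + (h + 1 + 4 * i)) := by
        have h2 := (hcov.mono hmono [] [Sum.inr d1, Sum.inr d2]).symm
        have e1 : (A ++ (D ++ [Sum.inl w])) ++ (lets esS' ++ [Sum.inr d1, Sum.inr d2])
          = ((A ++ D) ++ Sum.inl w :: lets esS') ++ [Sum.inr d1, Sum.inr d2] := by simp
        have e2 : (B ++ (C ++ [Sum.inr m])) ++ lets esF'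
          = ((B ++ C) ++ Sum.inr m :: lets esF') ++ [] := by simp
        rw [e1, e2]
        exact h2
      have h3 := cov_absorb (E := EE G fe'') (B ++ C) (A ++ D) (lets esF') (lets esS')
        (Sum.inr m) (Sum.inl w) (Sum.inr d1) (Sum.inr d2) (by omega)
        (EE.mk (by rw [hfe]; exact List.mem_cons_self))
        (EE.mk (by rw [hfe]; exact List.mem_cons_of_mem _ List.mem_cons_self))
      have e1 : (A ++ (D ++ [Sum.inl w])) ++ (lets esS' ++ [Sum.inr d1, Sum.inr d2])
          = ((A ++ D) ++ [Sum.inl w]) ++ (lets esS' ++ [Sum.inr d1, Sum.inr d2]) := by simp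
      have e2 : (B ++ (C ++ [Sum.inr m])) ++ lets esF'
          = ((B ++ C) ++ [Sum.inr m]) ++ lets esF' := by simp
      rw [← e1, ← e2] at h3
      have h4 : CovI (EE G fe'') ((A ++ (D ++ [Sum.inl w])) ++ (lets esS' ++ [Sum.inr d1, Sum.inr d2]))
          ((B ++ (C ++ [Sum.inr m])) ++ lets esF')
          (A.length + B.length + C.length + D.length + (h + 1 + 4 * i))
          ((A ++ (D ++ [Sum.inl w])).length + (B ++ (C ++ [Sum.inr m])).length
            + (h + 1 + 4 * i)) := by
        intro t ht1 ht2
        apply h3 t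
        · simp only [List.length_append]
          omega
        · simp only [List.length_append, List.length_cons, List.length_nil] at ht2 ⊢
          omega
      exact h1.trans h4
    · rw [htake, hdrop]
      refine ⟨!κ, ?_, ?_⟩
      · intro a ha
        apply hκ2
        simp only [List.mem_append, List.mem_cons, List.not_mem_nil, or_false, reduceCtorEq,
          or_false, false_or] at ha ⊢
        tauto
      · intro a ha
        rw [Bool.not_not]
        apply hκ1
        simp only [List.mem_append, List.mem_cons, List.not_mem_nil, or_false, reduceCtorEq,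
          or_false, false_or] at ha ⊢
        tauto
  · simp
  · rw [List.length_append, hD]
    simp only [List.length_cons, List.length_nil]
    omega
  · rw [List.length_append, hC]
    simp only [List.length_cons, List.length_nil]
    omega
  · rw [← hsz, hes]
    simp
    omega
  · intro L hL' p hp
    apply hL L hL' p
    rw [hes] at hp
    simp only [sizes_append, sizes_cons, sizes_nil, Elem.sizes_free, List.append_nil,
      List.nil_append, List.mem_append] at hp ⊢
    tauto

/-- colours along a chain -/
theorem T3_col (hcol : ∀ a c, G a c → col a ≠ col c) (mid : List V) (w l : V)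
    (hch : (w :: (mid ++ [l])).IsChain G) :
    (Even mid.length → col l = !col w) ∧ (Odd mid.length → col l = col w) := by
  induction mid generalizing w with
  | nil =>
    simp only [List.nil_append, List.isChain_cons_cons] at hch
    have h1 := hcol _ _ hch.1
    constructor
    · intro _
      revert h1
      cases col w <;> cases col l <;> simp
    · intro h
      simp at h
  | cons x mid ih =>
    simp only [List.cons_append, List.isChain_cons_cons] at hch
    have h1 := hcol _ _ hch.1
    have h2 := ih x hch.2
    constructor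
    · intro h
      simp only [List.length_cons] at h
      have h3 : Odd mid.length := by
        rcases Nat.even_or_odd mid.length with h4 | h4
        · exact absurd h (by simpa using h4.add_one)
        · exact h4
      rw [h2.2 h3]
      revert h1
      cases col w <;> cases col x <;> simp
    · intro h
      simp only [List.length_cons] at h
      have h3 : Even mid.length := by
        rcases Nat.even_or_odd mid.length with h4 | h4
        · exact h4
        · exact absurd h (by simpa using h4.add_one)
      rw [h2.1 h3]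
      revert h1
      cases col w <;> cases col x <;> simp

theorem HInv.attachBranch (hG : ∀ a c, G a c → G c a) (hcol : ∀ a c, G a c → col a ≠ col c)
    (i : ℕ) (H : HInv G col b SV h fe A B (esF ++ esS) 0) (hF : (lets esF).length = h + 1)
    (hbig : ∀ p ∈ sizes (esF ++ esS), 4 * i + 2 ≤ p) {v w wn l : V} {mid : List V}
    (hvw : G v w) (hch : (w :: wn :: (mid ++ [l])).IsChain G)
    (hnd : (w :: wn :: (mid ++ [l])).Nodup) (hdis : ∀ a ∈ w :: wn :: (mid ++ [l]), a ∉ SV)
    (hodd : Odd mid.length)
    {q : ℕ} (hv : B[q]? = some (Sum.inl v)) (hl : q + 1 + i * (2 * h + 4 * i + 3) = B.length) :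
    ∃ fe' C D es', HInv G col b ((w :: wn :: (mid ++ [l])) ++ SV) (h + 2 + 4 * i) fe'
        (B ++ C) (A ++ D) es' 0 ∧
      Sum.inl w ∈ A ++ D ∧ Sum.inl l ∈ lets es' ∧
      C.length = h + 1 + i * (2 * h + 4 * i + 3) ∧ D.length = h + 2 + i * (2 * h + 4 * i + 3) ∧
      (sizes es').length = (sizes (esF ++ esS)).length + 1 ∧
      (∀ L, (∀ p ∈ sizes (esF ++ esS), L + 4 * i + 2 ≤ p) → L ≤ mid.length →
        ∀ p ∈ sizes es', L ≤ p) := by
  have hw : w ∉ SV := hdis w (by simp)
  obtain ⟨fe', C, D, m, esF', esS', s0, T, hcov, ⟨κ, hκ1, hκ2⟩, hC, hD, hsz, hL⟩ :=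
    HInv.farTrain hG hcol i H hF hbig hw hvw hv hl
  obtain ⟨d1, d2, s, hs, hcore⟩ := T3_open T
  have hcore2 := Core.branch hG hcore hnd hdis hch
  set fe'' : List ((V ⊕ ℕ) × ℕ) := (Sum.inr m, d1) :: (Sum.inr m, d2) :: fe' with hfe
  have hmono : ∀ u v, EE G fe' u v → EE G fe'' u v := fun u v h =>
    h.mono (fun e he => List.mem_cons_of_mem _ (List.mem_cons_of_mem _ he))
  set es' : List (Elem V) := (esF' ++ [Elem.pile l mid.reverse wn]) ++
    (esS' ++ [Elem.free s (Sum.inr d1), Elem.free s (Sum.inr d2)]) with hes
  have hlets : lets es' = (lets esF' ++ [Sum.inl l, Sum.inl wn]) ++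
      (lets esS' ++ [Sum.inr d1, Sum.inr d2]) := by
    rw [hes]
    simp
  have hlF := T.lenF
  have hlS := T.lenS
  have hlen : (lets esF' ++ [Sum.inl l, Sum.inl wn]).length = h + 2 + 4 * i + 1 := by
    rw [List.length_append]
    simp only [List.length_cons, List.length_nil]
    omega
  have htake : ((lets es').rotate 0).take (h + 2 + 4 * i + 1)
      = lets esF' ++ [Sum.inl l, Sum.inl wn] := by
    rw [List.rotate_zero, hlets, ← hlen, List.take_left]
  have hdrop : ((lets es').rotate 0).drop (h + 2 + 4 * i + 1)
      = lets esS' ++ [Sum.inr d1, Sum.inr d2] := by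
    rw [List.rotate_zero, hlets, ← hlen, List.drop_left]
  have hcw : col w = !κ := hκ2 w (by simp)
  have hwwn : G w wn := by
    simp only [List.isChain_cons_cons] at hch
    exact hch.1
  have hcwn : col wn = κ := by
    have h1 := hcol _ _ hwwn
    rw [hcw] at h1
    revert h1
    cases col wn <;> cases κ <;> simp
  have hcl : col l = κ := by
    have h1 : (wn :: (mid ++ [l])).IsChain G := by
      simp only [List.isChain_cons_cons] at hch
      exact hch.2
    rw [(T3_col hcol mid wn l h1).2 hodd, hcwn]
  refine ⟨fe'', C ++ [Sum.inr m], D ++ [Sum.inl w], es', ?_, ?_, ?_, ?_, ?_, ?_, ?_⟩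
  · refine ⟨?_, ?_, ?_, ?_⟩
    · refine hcore2.perm ?_ ?_
      · exact T3_perm2 A B C D _ _
      · rw [hes]
        have h1 : (Elem.pile l mid.reverse wn :: Elem.free s (Sum.inr d1) ::
            Elem.free s (Sum.inr d2) :: (esF' ++ esS'))
          = [Elem.pile l mid.reverse wn] ++
            (([Elem.free s (Sum.inr d1), Elem.free s (Sum.inr d2)] ++ esF') ++ esS') := by simp
        rw [h1]
        have p1 : (([Elem.free s (Sum.inr d1), Elem.free s (Sum.inr d2)] ++ esF') ++ esS').Perm
            ((esF' ++ [Elem.free s (Sum.inr d1), Elem.free s (Sum.inr d2)]) ++ esS') :=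
          List.Perm.append_right _ List.perm_append_comm
        have p2 : ((esF' ++ [Elem.free s (Sum.inr d1), Elem.free s (Sum.inr d2)]) ++ esS').Perm
            (esF' ++ (esS' ++ [Elem.free s (Sum.inr d1), Elem.free s (Sum.inr d2)])) := by
          rw [List.append_assoc]
          exact List.Perm.append_left _ List.perm_append_comm
        have p3 := List.Perm.append_left [Elem.pile l mid.reverse wn] (p1.trans p2)
        refine p3.trans ?_
        rw [← List.append_assoc]
        exact List.Perm.append_right _ List.perm_append_comm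
    · rw [hlets, List.length_append, hlen]
      simp only [List.length_append, List.length_cons, List.length_nil]
      omega
    · rw [htake, hdrop]
      have h1 : CovI (EE G fe'')
          ((B ++ (C ++ [Sum.inr m])) ++ (lets esF' ++ [Sum.inl l, Sum.inl wn]))
          ((A ++ (D ++ [Sum.inl w])) ++ (lets esS' ++ [Sum.inr d1, Sum.inr d2])) 0
          (A.length + B.length + C.length + D.length + (h + 1 + 4 * i)) := by
        have h2 := hcov.mono hmono [Sum.inl l, Sum.inl wn] [Sum.inr d1, Sum.inr d2]
        have e1 : (A ++ (D ++ [Sum.inl w])) ++ (lets esS' ++ [Sum.inr d1, Sum.inr d2])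
          = ((A ++ D) ++ Sum.inl w :: lets esS') ++ [Sum.inr d1, Sum.inr d2] := by simp
        have e2 : (B ++ (C ++ [Sum.inr m])) ++ (lets esF' ++ [Sum.inl l, Sum.inl wn])
          = ((B ++ C) ++ Sum.inr m :: lets esF') ++ [Sum.inl l, Sum.inl wn] := by simp
        rw [e1, e2]
        exact h2
      have h3 := cov_branch (E := EE G fe'') (B ++ C) (A ++ D) (lets esF') (lets esS')
        (Sum.inr m) (Sum.inl w) (Sum.inl wn) (Sum.inl l) (Sum.inr d1) (Sum.inr d2) (by omega)
        (EE.mk (by rw [hfe]; exact List.mem_cons_self))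
        (EE.mk (by rw [hfe]; exact List.mem_cons_of_mem _ List.mem_cons_self))
        (EE.of_G hwwn)
      have e1 : (A ++ (D ++ [Sum.inl w])) ++ (lets esS' ++ [Sum.inr d1, Sum.inr d2])
          = ((A ++ D) ++ [Sum.inl w]) ++ (lets esS' ++ [Sum.inr d1, Sum.inr d2]) := by simp
      have e2 : (B ++ (C ++ [Sum.inr m])) ++ (lets esF' ++ [Sum.inl l, Sum.inl wn])
          = ((B ++ C) ++ [Sum.inr m]) ++ (lets esF' ++ [Sum.inl l, Sum.inl wn]) := by simp
      rw [← e1, ← e2] at h3
      have h4 : CovI (EE G fe'')
          ((B ++ (C ++ [Sum.inr m])) ++ (lets esF' ++ [Sum.inl l, Sum.inl wn]))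
          ((A ++ (D ++ [Sum.inl w])) ++ (lets esS' ++ [Sum.inr d1, Sum.inr d2]))
          (A.length + B.length + C.length + D.length + (h + 1 + 4 * i))
          ((B ++ (C ++ [Sum.inr m])).length + (A ++ (D ++ [Sum.inl w])).length
            + (h + 2 + 4 * i)) := by
        intro t ht1 ht2
        apply h3 t
        · simp only [List.length_append]
          omega
        · simp only [List.length_append, List.length_cons, List.length_nil] at ht2 ⊢
          omega
      exact h1.trans h4
    · rw [htake, hdrop]
      refine ⟨κ, ?_, ?_⟩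
      · intro a ha
        have h5 : (Sum.inl a ∈ (B ++ C) ++ lets esF') ∨ a = l ∨ a = wn := by
          simp only [List.mem_append, List.mem_cons, List.not_mem_nil, or_false, reduceCtorEq,
            or_false, Sum.inl.injEq] at ha ⊢
          tauto
        rcases h5 with h5 | h5 | h5
        · exact hκ1 a h5
        · rw [h5, hcl]
        · rw [h5, hcwn]
      · intro a ha
        apply hκ2
        simp only [List.mem_append, List.mem_cons, List.not_mem_nil, or_false, reduceCtorEq,
          or_false, false_or] at ha ⊢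
        tauto
  · simp
  · rw [hlets]
    simp
  · rw [List.length_append, hC]
    simp only [List.length_cons, List.length_nil]
    omega
  · rw [List.length_append, hD]
    simp only [List.length_cons, List.length_nil]
    omega
  · rw [← hsz, hes]
    simp
    omega
  · intro L hL' hmid p hp
    rw [hes] at hp
    have h5 : p ∈ sizes (esF' ++ esS') ∨ p = mid.length := by
      simp only [sizes_append, sizes_cons, sizes_nil, Elem.sizes_free, Elem.sizes_pile,
        List.length_reverse, List.append_nil, List.mem_append, List.mem_cons,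
        List.not_mem_nil, or_false] at hp ⊢
      tauto
    rcases h5 with h5 | h5
    · exact hL L hL' p h5
    · rw [h5]
      exact hmid

end Pool.Agent.FLV
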