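import Pool.Agent.FLV.M1
import Pool.Agent.FLV.F1
import Pool.Agent.FLV.F2
import Pool.Agent.FLV.T3
import Pool.Agent.FLV.GDefs

/-!
# States during the growth, waiting

`HInv.dsteps`: `K` double steps.
`P1`: a plain state during the growth of the tree.  `base` is the length of the rows at the end of the corner: the
vertices of the tree have labels `≥ base` (`noA`, `noB`), and the rows are not much longer (`upA`, `upB`).
`P1.settle` PROOF: one `HInv.round`: all letters are settled (last conclusion of `HInv.round`); the new second row is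
`A ++ D`.  If `v` is in it, done; otherwise `v ∈ B ++ C`, and after one more round the second row is `(B ++ C) ++ D'`.
The index is `≥ base` by `noA`/`noB`.  Every round adds `h` or `h + 1` to each row.
-/

set_option autoImplicit false

namespace Pool.Agent.FLV

variable {V : Type*} [DecidableEq V] {G : V → V → Prop} {col : V → Bool} {b : V} {SV AV : List V}
  {h : ℕ} {fe : List ((V ⊕ ℕ) × ℕ)} {A B : List (V ⊕ ℕ)} {es : List (Elem V)}

omit [DecidableEq V] in
theorem F3_mem {α β : Type*} {R : α → β → Prop} {l : List α} {l' : List β}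
    (h : List.Forall₂ R l l') : ∀ y ∈ l', ∃ x ∈ l, R x y := by
  induction h with
  | nil => intro y hy; cases hy
  | @cons a c l l' h1 _ ih =>
    intro y hy
    rcases List.mem_cons.1 hy with h2 | h2
    · subst h2; exact ⟨a, by simp, h1⟩
    · obtain ⟨x, hx, hxy⟩ := ih y h2
      exact ⟨x, by simp [hx], hxy⟩

theorem HInv.dsteps (hG : ∀ a c, G a c → G c a) (hcol : ∀ a c, G a c → col a ≠ col c) (K : ℕ)
    {k : ℕ} (H : HInv G col b SV h fe A B es k) (hh : 1 ≤ h) (hbig : ∀ p ∈ sizes es, 2 * K ≤ p) :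
    ∃ fe' C D es', HInv G col b SV h fe' (A ++ C) (B ++ D) es' (k + K) ∧ C.length = K ∧
      D.length = K ∧ List.Forall₂ (Shr 0 (2 * K)) es es' := by
  induction K with
  | zero =>
    refine ⟨fe, [], [], es, ?_, rfl, rfl, shrL_refl es⟩
    simpa using H
  | succ K ih =>
    obtain ⟨fe1, C, D, es1, H1, hC, hD, hshr⟩ := ih (fun p hp => by have := hbig p hp; omega)
    have hb1 : ∀ p ∈ sizes es1, 2 ≤ p := by
      intro p hp
      obtain ⟨q, hq, h1, h2⟩ := F3_mem (shrL_sizes hshr) p hp
      have := hbig q hq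
      omega
    obtain ⟨fe2, u, v, es2, H2, hshr2⟩ := H1.dstep hG hcol hh hb1
    refine ⟨fe2, C ++ [u], D ++ [v], es2, ?_, ?_, ?_, ?_⟩
    · rw [← List.append_assoc, ← List.append_assoc, ← Nat.add_assoc]
      exact H2
    · simp [hC]
    · simp [hD]
    · exact shrL_mono (shrL_trans hshr hshr2) (by omega) (by omega)

/-- A plain state during the growth. -/
structure P1 (G : V → V → Prop) (col : V → Bool) (b : V) (SV AV : List V)
    (base h e np L : ℕ) (fe : List ((V ⊕ ℕ) × ℕ)) (A B : List (V ⊕ ℕ)) (es : List (Elem V)) :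
    Prop where
  inv : HInv G col b SV h fe A B es 0
  leA : base ≤ A.length
  leB : base ≤ B.length
  noA : ∀ a : V, Sum.inl a ∉ A.take base
  noB : ∀ a : V, Sum.inl a ∉ B.take base
  anch : ∀ a ∈ AV, Sum.inl a ∈ A ++ B ++ lets es
  upA : A.length ≤ base + e * h
  upB : B.length ≤ base + e * h
  np : (sizes es).length = np
  big : ∀ p ∈ sizes es, L ≤ p

theorem F3_take {α : Type*} {base : ℕ} {X : List α} (hX : base ≤ X.length) (Y : List α) :
    (X ++ Y).take base = X.take base := by
  rw [List.take_append_of_le_length hX]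

theorem F3_mk {base e e' np L L' : ℕ} (H : P1 G col b SV AV base h e np L fe A B es)
    {fe' : List ((V ⊕ ℕ) × ℕ)} {A' B' X Y : List (V ⊕ ℕ)} {es' : List (Elem V)}
    (inv : HInv G col b SV h fe' A' B' es' 0)
    (hAB : (A' = A ++ X ∧ B' = B ++ Y) ∨ (A' = B ++ X ∧ B' = A ++ Y))
    (hanch : ∀ u, u ∈ A ++ B ++ lets es → u ∈ A' ++ B')
    (hl : X.length + e * h ≤ e' * h ∧ Y.length + e * h ≤ e' * h)
    (hnp : (sizes es').length = (sizes es).length) (hbig : ∀ p ∈ sizes es', L' ≤ p) :
    P1 G col b SV AV base h e' np L' fe' A' B' es' := by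
  have a1 := H.leA
  have a2 := H.leB
  have a3 := H.upA
  have a4 := H.upB
  rcases hAB with ⟨rfl, rfl⟩ | ⟨rfl, rfl⟩
  · refine ⟨inv, ?_, ?_, ?_, ?_, ?_, ?_, ?_, hnp.trans H.np, hbig⟩
    · rw [List.length_append]; omega
    · rw [List.length_append]; omega
    · rw [F3_take a1]; exact H.noA
    · rw [F3_take a2]; exact H.noB
    · intro a ha
      exact List.mem_append_left _ (hanch _ (H.anch a ha))
    · rw [List.length_append]; omega
    · rw [List.length_append]; omega
  · refine ⟨inv, ?_, ?_, ?_, ?_, ?_, ?_, ?_, hnp.trans H.np, hbig⟩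
    · rw [List.length_append]; omega
    · rw [List.length_append]; omega
    · rw [F3_take a2]; exact H.noB
    · rw [F3_take a1]; exact H.noA
    · intro a ha
      exact List.mem_append_left _ (hanch _ (H.anch a ha))
    · rw [List.length_append]; omega
    · rw [List.length_append]; omega

theorem F3_index {base : ℕ} {X : List (V ⊕ ℕ)} {v : V} (h1 : ∀ a : V, Sum.inl a ∉ X.take base)
    (h2 : Sum.inl v ∈ X) : ∃ l : ℕ, X[l]? = some (Sum.inl v) ∧ base ≤ l := by
  obtain ⟨l, hl⟩ := List.mem_iff_getElem?.1 h2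
  refine ⟨l, hl, ?_⟩
  by_contra hlt
  apply h1 v
  rw [List.mem_iff_getElem?]
  exact ⟨l, by rw [List.getElem?_take_of_lt (by omega)]; exact hl⟩

theorem P1.settle (hG : ∀ a c, G a c → G c a) (hcol : ∀ a c, G a c → col a ≠ col c)
    {base e np L : ℕ} (H : P1 G col b SV AV base h e np (L + 4) fe A B es) (hh : 1 ≤ h) {v : V}
    (hv : v ∈ AV) :
    ∃ fe' A' B' es' l, P1 G col b SV AV base h (e + 3) np L fe' A' B' es' ∧
      B'[l]? = some (Sum.inl v) ∧ base ≤ l ∧ ∀ a ∈ AV, Sum.inl a ∈ A' ++ B' := by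
  obtain ⟨fe1, C, D, es1, H1, hC, hD, hshr, hmem⟩ := H.inv.round hG hcol
    (fun p hp => by have := H.big p hp; omega)
  have hb1 : ∀ p ∈ sizes es1, L + 2 ≤ p := by
    intro p hp
    obtain ⟨q, hq, h1, h2⟩ := F3_mem (shrL_sizes hshr) p hp
    have := H.big q hq
    omega
  have hn1 : (sizes es1).length = (sizes es).length := (shrL_sizes hshr).length_eq.symm
  have hv1 := hmem _ (H.anch v hv)
  rcases List.mem_append.1 hv1 with hv2 | hv2
  · obtain ⟨fe2, C', D', es2, H2, hC', hD', hshr', hmem'⟩ := H1.round hG hcol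
      (fun p hp => by have := hb1 p hp; omega)
    have hb2 : ∀ p ∈ sizes es2, L ≤ p := by
      intro p hp
      obtain ⟨q, hq, h1, h2⟩ := F3_mem (shrL_sizes hshr') p hp
      have := hb1 q hq
      omega
    have hn2 : (sizes es2).length = (sizes es).length :=
      (shrL_sizes hshr').length_eq.symm.trans hn1
    have hm2 : ∀ u, u ∈ A ++ B ++ lets es → u ∈ ((A ++ D) ++ C') ++ ((B ++ C) ++ D') :=
      fun u hu => hmem' u (List.mem_append_left _ (hmem u hu))
    have HP : P1 G col b SV AV base h (e + 3) np L fe2 ((A ++ D) ++ C') ((B ++ C) ++ D') es2 :=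
      F3_mk H (X := D ++ C') (Y := C ++ D') H2
        (Or.inl ⟨by rw [List.append_assoc], by rw [List.append_assoc]⟩) hm2
        (by
          rw [List.length_append, List.length_append, hC, hD, hC', hD', add_mul]
          constructor <;> omega) hn2 hb2
    obtain ⟨l, hl, hbl⟩ := F3_index HP.noB (v := v) (List.mem_append_left _ hv2)
    exact ⟨fe2, _, _, es2, l, HP, hl, hbl, fun a ha => hm2 _ (H.anch a ha)⟩
  · have HP : P1 G col b SV AV base h (e + 3) np L fe1 (B ++ C) (A ++ D) es1 :=
      F3_mk H (X := C) (Y := D) H1 (Or.inr ⟨rfl, rfl⟩) hmem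
        (by
          rw [hC, hD, add_mul]
          constructor <;> omega) hn1 (fun p hp => by have := hb1 p hp; omega)
    obtain ⟨l, hl, hbl⟩ := F3_index HP.noB (v := v) hv2
    exact ⟨fe1, _, _, es1, l, HP, hl, hbl, fun a ha => hmem _ (H.anch a ha)⟩

end Pool.Agent.FLV
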