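import Pool.Agent.FLV.F3

/-!
# Attaching a pendant vertex for almost all `i`

PROOF of `P1.attP`.  `P1.settle`: `v` has index `l` in the second row `B'`, `base ≤ l < |B'| ≤ base + (e + 3) h`.  Let
`c = |B'| - 1 - l ≤ (e + 3) h ≤ i0 (2 h + 4 i0 + 3)` and `K_i = i (2 h + 4 i + 3) - c`.  `Bad0` from `off_bad` (applied to
`es'`), `Bad1 = {r | r ∈ Bad0 or (r + h + 1) % (2 h + 1) ∈ Bad0, r < 2 h + 1}` has at most `2 np` elements (`off_bad` needs
`k < (lets es).length = 2 h + 1`).  `BadI` from `pigeon`.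
For a good `i`: `HInv.dsteps` with `K = K_i` (from `k = 0` to `k = K_i`), `off_shr`, `good_rot`, then
`HInv.attachPendant` with this `i`: its condition `l + 1 + i (2 h + 4 i + 3) = |B''|` holds since `|B''| = |B'| + K_i`.
Bounds: `|A'''| ≤ base + (e + 3) h + K_i + (h + 2) + i (2 h + 4 i + 3) ≤ base + (e + 4 i + 8) h`, from
`2 i (4 i + 3) ≤ h`.  Sizes: the loss is at most `4 + 2 K_i + 4 i + 2 ≤ 20 (i0 + W + 1) (h + 1)`.
-/

set_option autoImplicit false

namespace Pool.Agent.FLV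

variable {V : Type*} [DecidableEq V] {G : V → V → Prop} {col : V → Bool} {b : V} {SV AV : List V}
  {h : ℕ} {fe : List ((V ⊕ ℕ) × ℕ)} {A B : List (V ⊕ ℕ)} {es : List (Elem V)}

omit [DecidableEq V] in
/-- the bad residues -/
theorem F4_bad (h : ℕ) (Bad0 : Finset ℕ) :
    ∃ Bad1 : Finset ℕ, Bad1.card ≤ 2 * Bad0.card ∧ ∀ K : ℕ, K % (2 * h + 1) ∉ Bad1 →
      K % (2 * h + 1) ∉ Bad0 ∧ (K + h + 1) % (2 * h + 1) ∉ Bad0 := by
  refine ⟨Bad0 ∪ (Finset.range (2 * h + 1)).filter
    (fun r => (r + (h + 1)) % (2 * h + 1) ∈ Bad0), ?_, ?_⟩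
  · have h1 : ((Finset.range (2 * h + 1)).filter
        (fun r => (r + (h + 1)) % (2 * h + 1) ∈ Bad0)).card ≤ Bad0.card := by
      refine Finset.card_le_card_of_injOn (fun r => (r + (h + 1)) % (2 * h + 1)) ?_ ?_
      · intro r hr
        exact (Finset.mem_filter.1 hr).2
      · intro r hr r' hr' hrr
        have h2 := Finset.mem_range.1 (Finset.mem_filter.1 hr).1
        have h3 := Finset.mem_range.1 (Finset.mem_filter.1 hr').1
        have h4 : r + (h + 1) ≡ r' + (h + 1) [MOD (2 * h + 1)] := hrr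
        have h5 : r ≡ r' [MOD (2 * h + 1)] := Nat.ModEq.add_right_cancel' _ h4
        exact Nat.ModEq.eq_of_lt_of_lt h5 h2 h3
    have h2 := Finset.card_union_le Bad0 ((Finset.range (2 * h + 1)).filter
      (fun r => (r + (h + 1)) % (2 * h + 1) ∈ Bad0))
    omega
  · intro K hK
    rw [Finset.mem_union, not_or] at hK
    refine ⟨hK.1, fun hcon => hK.2 ?_⟩
    rw [Finset.mem_filter, Finset.mem_range]
    refine ⟨Nat.mod_lt _ (by omega), ?_⟩
    rw [Nat.mod_add_mod, ← add_assoc]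
    exact hcon

theorem P1.attP (hG : ∀ a c, G a c → G c a) (hcol : ∀ a c, G a c → col a ≠ col c)
    {base e np L i0 W : ℕ}
    (H : P1 G col b SV AV base h e np (L + 20 * (i0 + W + 1) * (h + 1)) fe A B es) (hh : 1 ≤ h)
    {v w : V} (hv : v ∈ AV) (hw : w ∉ SV) (hvw : G v w) (hi0 : e + 3 ≤ 2 * i0)
    (hW : W * (8 * (i0 + W) + 2) ≤ 2 * h) (h2 : 2 * (i0 + W) * (4 * (i0 + W) + 3) ≤ h) :
    ∃ BadI : Finset ℕ, BadI.card ≤ 2 * np ∧ ∀ i, i0 ≤ i → i < i0 + W → i ∉ BadI →
      ∃ fe' A' B' es', P1 G col b (w :: SV) (w :: AV) base (h + 1 + 4 * i) (e + 4 * i + 8) np L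
        fe' A' B' es' := by
  have hbig0 : 20 ≤ 20 * (i0 + W + 1) * (h + 1) := by nlinarith [Nat.zero_le (i0 + W), Nat.zero_le h]
  have e1 : L + 20 * (i0 + W + 1) * (h + 1) = (L + 20 * (i0 + W + 1) * (h + 1) - 4) + 4 := by omega
  rw [e1] at H
  obtain ⟨fe1, A1, B1, es1, l, H1, hvB, hbl, hanch⟩ := H.settle hG hcol hh hv
  have hlB : l < B1.length := by
    rw [List.getElem?_eq_some_iff] at hvB
    exact hvB.1
  have hBlen := H1.upB
  obtain ⟨c, hc⟩ : ∃ c, B1.length = l + 1 + c := ⟨B1.length - (l + 1), by omega⟩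
  have hcle : c ≤ (e + 3) * h := by omega
  have hc0 : c ≤ i0 * (2 * h + 4 * i0 + 3) := by
    have h3 : (e + 3) * h ≤ 2 * i0 * h := Nat.mul_le_mul_right _ hi0
    have h4 : i0 * (2 * h + 4 * i0 + 3) = 2 * i0 * h + i0 * (4 * i0 + 3) := by ring
    rw [h4]
    exact hcle.trans (h3.trans (Nat.le_add_right _ _))
  have hlets := H1.inv.len
  obtain ⟨Bad0, hB0, hoff⟩ := off_bad es1
  obtain ⟨Bad1, hB1, hBad1⟩ := F4_bad h Bad0
  obtain ⟨BadI, hBI, hgood⟩ := pigeon h c i0 W hW hc0 Bad1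
  refine ⟨BadI, ?_, ?_⟩
  · have h3 := H1.np
    calc BadI.card ≤ Bad1.card := hBI
      _ ≤ 2 * Bad0.card := hB1
      _ ≤ 2 * np := by omega
  · intro i hi1 hi2 hi3
    have hg := hgood i hi1 hi2 hi3
    have hci : c ≤ i * (2 * h + 4 * i + 3) :=
      hc0.trans (Nat.mul_le_mul hi1 (by omega))
    obtain ⟨K, hK⟩ : ∃ K, i * (2 * h + 4 * i + 3) = c + K :=
      ⟨i * (2 * h + 4 * i + 3) - c, by omega⟩
    have hKeq : i * (2 * h + 4 * i + 3) - c = K := by omega
    rw [hKeq] at hg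
    obtain ⟨hg1, hg2⟩ := hBad1 K hg
    -- bounds
    have b1 : i * (4 * i + 3) ≤ (i0 + W) * (4 * (i0 + W) + 3) :=
      Nat.mul_le_mul (by omega) (by omega)
    have b2 : 2 * (i * (4 * i + 3)) ≤ h := by
      have : 2 * (i0 + W) * (4 * (i0 + W) + 3) = 2 * ((i0 + W) * (4 * (i0 + W) + 3)) := by ring
      rw [this] at h2
      omega
    have b3 : i * (2 * h + 4 * i + 3) = 2 * (i * h) + i * (4 * i + 3) := by ring
    have b4 : i * h ≤ (i0 + W) * h := Nat.mul_le_mul_right _ (by omega)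
    have b5 : 20 * (i0 + W + 1) * (h + 1) = 20 * ((i0 + W) * h) + 20 * (i0 + W) + 20 * h + 20 := by
      ring
    have hbigK : ∀ p ∈ sizes es1, 2 * K ≤ p := by
      intro p hp
      have := H1.big p hp
      omega
    obtain ⟨fe2, C, D, es2, H2, hCl, hDl, hshr⟩ := H1.inv.dsteps hG hcol K hh hbigK
    rw [Nat.zero_add] at H2
    have hsz2 := T2_sizes hshr
    have hbig2 : ∀ p ∈ sizes es2, L + 4 * i + 2 ≤ p := by
      apply hsz2.2
      intro p hp
      have := H1.big p hp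
      omega
    have hpos : 0 < 2 * h + 1 := by omega
    have o1 : IsOff es2 (K % (2 * h + 1)) := by
      rw [← off_shr hshr]
      exact hoff _ (by rw [hlets]; exact Nat.mod_lt _ hpos) hg1
    have o2 : IsOff es2 ((K + h + 1) % (2 * h + 1)) := by
      rw [← off_shr hshr]
      exact hoff _ (by rw [hlets]; exact Nat.mod_lt _ hpos) hg2
    obtain ⟨esF, esS, H3, hF, hperm⟩ := good_rot H2 o1 o2
    have hsp := sizes_perm hperm
    have hbig3 : ∀ p ∈ sizes (esF ++ esS), L + 4 * i + 2 ≤ p := fun p hp =>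
      hbig2 p (hsp.mem_iff.1 hp)
    have hv3 : (B1 ++ D)[l]? = some (Sum.inl v) := by
      rw [List.getElem?_append_left hlB]
      exact hvB
    have hl3 : l + 1 + i * (2 * h + 4 * i + 3) = (B1 ++ D).length := by
      rw [List.length_append, hDl, hc, hK]
      omega
    obtain ⟨fe3, C3, D3, es3, H4, hwA, hC3, hD3, hsz3, hL3⟩ :=
      HInv.attachPendant hG hcol i H3 hF (fun p hp => by have := hbig3 p hp; omega) hw hvw hv3 hl3
    have hA1 := H1.upA
    have f1 : (e + 3) * h = e * h + 3 * h := by ring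
    have f2 : (e + 4 * i + 8) * (h + 1) = e * h + 4 * (i * h) + 8 * h + e + 4 * i + 8 := by ring
    have f3 : (e + 4 * i + 8) * (h + 1) ≤ (e + 4 * i + 8) * (h + 1 + 4 * i) :=
      Nat.mul_le_mul_left _ (by omega)
    refine ⟨fe3, (A1 ++ C) ++ C3, (B1 ++ D) ++ D3, es3, H4, ?_, ?_, ?_, ?_, ?_, ?_, ?_, ?_, ?_⟩
    · have := H1.leA
      simp only [List.length_append]
      omega
    · have := H1.leB
      simp only [List.length_append]
      omega
    · intro a
      rw [List.append_assoc, List.take_append_of_le_length H1.leA]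
      exact H1.noA a
    · intro a
      rw [List.append_assoc, List.take_append_of_le_length H1.leB]
      exact H1.noB a
    · intro a ha
      rcases List.mem_cons.1 ha with ha | ha
      · rw [ha]
        simp only [List.mem_append] at hwA ⊢
        tauto
      · have := hanch a ha
        simp only [List.mem_append] at this ⊢
        tauto
    · simp only [List.length_append]
      omega
    · simp only [List.length_append]
      omega
    · rw [hsz3, hsp.length_eq, hsz2.1, H1.np]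
    · exact hL3 L hbig3

end Pool.Agent.FLV
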