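import Pool.Agent.FLV.F3

/-!
# Attaching a long branch for almost all `i`

The same proof as for `P1.attP` (module F4), with `HInv.attachBranch`.
-/

set_option autoImplicit false

namespace Pool.Agent.FLV

theorem F5_mem {l l' : List ℕ} {f : ℕ → ℕ → Prop} (h : List.Forall₂ f l l') : ∀ p' ∈ l', ∃ p ∈ l, f p p' := by
  induction h with
  | nil => simp
  | @cons u v l l' h1 _ ih =>
    intro p' hp'
    rcases List.mem_cons.1 hp' with h2 | h2
    · exact ⟨u, by simp, h2 ▸ h1⟩
    · obtain ⟨p, hp, hr⟩ := ih p' h2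
      exact ⟨p, by simp [hp], hr⟩

theorem F5_arith {i s h : ℕ} (hi : i < s) (h2 : 2 * s * (4 * s + 3) ≤ h) :
    2 * (i * (2 * h + 4 * i + 3)) ≤ 4 * (i * h) + h := by
  have h3 : 2 * i * (4 * i + 3) ≤ 2 * s * (4 * s + 3) := by gcongr
  have h4 : 2 * (i * (2 * h + 4 * i + 3)) = 4 * (i * h) + 2 * i * (4 * i + 3) := by ring
  omega

theorem F5_res {r h b : ℕ} (hr : r < 2 * h + 1) (hb : (r + h + 1) % (2 * h + 1) = b) :
    (b + h) % (2 * h + 1) = r := by
  subst hb
  rw [Nat.mod_add_mod]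
  have : r + h + 1 + h = r + (2 * h + 1) := by ring
  rw [this, Nat.add_mod_right, Nat.mod_eq_of_lt hr]

variable {V : Type*} [DecidableEq V] {G : V → V → Prop} {col : V → Bool} {b : V} {SV AV : List V}
  {h : ℕ} {fe : List ((V ⊕ ℕ) × ℕ)} {A B : List (V ⊕ ℕ)} {es : List (Elem V)}

theorem P1.attB (hG : ∀ a c, G a c → G c a) (hcol : ∀ a c, G a c → col a ≠ col c)
    {base e np L i0 W : ℕ}
    (H : P1 G col b SV AV base h e np (L + 20 * (i0 + W + 1) * (h + 1)) fe A B es) (hh : 1 ≤ h)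
    {v w wn l : V} {mid : List V} (hv : v ∈ AV) (hvw : G v w)
    (hch : (w :: wn :: (mid ++ [l])).IsChain G) (hnd : (w :: wn :: (mid ++ [l])).Nodup)
    (hdis : ∀ a ∈ w :: wn :: (mid ++ [l]), a ∉ SV) (hodd : Odd mid.length)
    (hL : L ≤ mid.length) (hi0 : e + 3 ≤ 2 * i0)
    (hW : W * (8 * (i0 + W) + 2) ≤ 2 * h) (h2 : 2 * (i0 + W) * (4 * (i0 + W) + 3) ≤ h) :
    ∃ BadI : Finset ℕ, BadI.card ≤ 2 * np ∧ ∀ i, i0 ≤ i → i < i0 + W → i ∉ BadI →
      ∃ fe' A' B' es', P1 G col b ((w :: wn :: (mid ++ [l])) ++ SV) (w :: l :: AV) base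
        (h + 2 + 4 * i) (e + 4 * i + 8) (np + 1) L fe' A' B' es' := by
  have hexp : 20 * (i0 + W + 1) * (h + 1)
      = 20 * ((i0 + W) * h) + 20 * (i0 + W) + 20 * h + 20 := by ring
  have H' : P1 G col b SV AV base h e np
      ((L + (20 * ((i0 + W) * h) + 20 * (i0 + W) + 20 * h + 16)) + 4) fe A B es := by
    have : (L + (20 * ((i0 + W) * h) + 20 * (i0 + W) + 20 * h + 16)) + 4
        = L + 20 * (i0 + W + 1) * (h + 1) := by rw [hexp]; ring
    rw [this]; exact H
  obtain ⟨fe1, A1, B1, es1, q, H1, hq, hbq, hAV⟩ := H'.settle hG hcol hh hv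
  have hqB : q < B1.length := (List.getElem?_eq_some_iff.1 hq).1
  obtain ⟨Bad0, hB0, hoff⟩ := off_bad es1
  rw [H1.np] at hB0
  rw [H1.inv.len] at hoff
  have hupB := H1.upB
  have hupA := H1.upA
  have hc0 : (e + 3) * h ≤ 2 * i0 * h := Nat.mul_le_mul_right h hi0
  have hc1 : B1.length - 1 - q ≤ i0 * (2 * h + 4 * i0 + 3) := by
    have h5 : i0 * (2 * h + 4 * i0 + 3) = 2 * i0 * h + i0 * (4 * i0 + 3) := by ring
    omega
  obtain ⟨BadI, hBI, hgood⟩ := pigeon h (B1.length - 1 - q) i0 W hW hc1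
    (Bad0 ∪ Bad0.image (fun b => (b + h) % (2 * h + 1)))
  refine ⟨BadI, ?_, ?_⟩
  · refine hBI.trans ((Finset.card_union_le _ _).trans ?_)
    have := Finset.card_image_le (s := Bad0) (f := fun b => (b + h) % (2 * h + 1))
    omega
  · intro i hi1 hi2 hi3
    have hg := hgood i hi1 hi2 hi3
    have hM := F5_arith hi2 h2
    have hcM : B1.length - 1 - q ≤ i * (2 * h + 4 * i + 3) := by
      refine hc1.trans ?_
      gcongr
    obtain ⟨M, hMdef⟩ : ∃ M, M = i * (2 * h + 4 * i + 3) := ⟨_, rfl⟩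
    rw [← hMdef] at hg hM hcM
    obtain ⟨K, hK⟩ : ∃ K, K = M - (B1.length - 1 - q) := ⟨_, rfl⟩
    rw [← hK] at hg
    have hih : i * h ≤ (i0 + W) * h := Nat.mul_le_mul_right h (by omega)
    have hKM : K ≤ M := by omega
    have hR : 0 < 2 * h + 1 := by omega
    obtain ⟨fe2, C2, D2, es2, H2, hC2, hD2, hs2⟩ := HInv.dsteps hG hcol K H1.inv hh
      (fun p hp => by have := H1.big p hp; omega)
    rw [Nat.zero_add] at H2
    rw [Finset.mem_union, not_or] at hg
    have hKR : K % (2 * h + 1) < 2 * h + 1 := Nat.mod_lt _ hR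
    have o1 : IsOff es2 (K % (2 * h + 1)) := (off_shr hs2 _).1 (hoff _ hKR hg.1)
    have o2 : IsOff es2 ((K + h + 1) % (2 * h + 1)) := by
      refine (off_shr hs2 _).1 (hoff _ (Nat.mod_lt _ hR) ?_)
      intro hmem
      refine hg.2 (Finset.mem_image.2 ⟨_, hmem, ?_⟩)
      refine F5_res hKR ?_
      have e1 : K % (2 * h + 1) + h + 1 = K % (2 * h + 1) + (h + 1) := by ring
      have e2 : K + h + 1 = K + (h + 1) := by ring
      rw [e1, e2, Nat.mod_add_mod]
    obtain ⟨esF, esS, H3, hF, hperm⟩ := good_rot H2 o1 o2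
    have hbig2 : ∀ p ∈ sizes (esF ++ esS),
        L + (20 * ((i0 + W) * h) + 20 * (i0 + W) + 20 * h + 16) ≤ p + 2 * K := by
      intro p hp
      have hp2 : p ∈ sizes es2 := (sizes_perm hperm).mem_iff.1 hp
      obtain ⟨p1, hp1, _, hle⟩ := F5_mem (shrL_sizes hs2) p hp2
      have := H1.big p1 hp1
      omega
    obtain ⟨fe3, C3, D3, es3, H4, hw3, hl3, hC3, hD3, hsz3, hL3⟩ := HInv.attachBranch hG hcol i H3
      hF (fun p hp => by have := hbig2 p hp; omega) hvw hch hnd hdis hodd (q := q)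
      (by rw [List.getElem?_append_left hqB]; exact hq)
      (by rw [List.length_append, hD2, ← hMdef]; omega)
    rw [← hMdef] at hC3 hD3
    have hprod : (e + 4 * i + 8) * h + 16 ≤ (e + 4 * i + 8) * (h + 2 + 4 * i) := by
      have : (e + 4 * i + 8) * (h + 2 + 4 * i)
          = (e + 4 * i + 8) * h + (e + 4 * i + 8) * (2 + 4 * i) := by ring
      rw [this]
      have h8 : 8 * 2 ≤ (e + 4 * i + 8) * (2 + 4 * i) := Nat.mul_le_mul (by omega) (by omega)
      omega
    have hprod2 : (e + 4 * i + 8) * h = e * h + 4 * (i * h) + 8 * h := by ring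
    have hprod3 : (e + 3) * h = e * h + 3 * h := by ring
    refine ⟨fe3, (B1 ++ D2) ++ C3, (A1 ++ C2) ++ D3, es3, ?_⟩
    refine ⟨H4, ?_, ?_, ?_, ?_, ?_, ?_, ?_, ?_, ?_⟩
    · have := H1.leB
      simp only [List.length_append]
      omega
    · have := H1.leA
      simp only [List.length_append]
      omega
    · intro a
      rw [List.append_assoc, List.take_append_of_le_length H1.leB]
      exact H1.noB a
    · intro a
      rw [List.append_assoc, List.take_append_of_le_length H1.leA]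
      exact H1.noA a
    · intro a ha
      rcases List.mem_cons.1 ha with ha | ha
      · subst ha
        exact List.mem_append_left _ (List.mem_append_right _ hw3)
      rcases List.mem_cons.1 ha with ha | ha
      · subst ha
        exact List.mem_append_right _ hl3
      · have := hAV a ha
        simp only [List.mem_append] at this ⊢
        tauto
    · simp only [List.length_append]
      omega
    · simp only [List.length_append]
      omega
    · rw [hsz3, (sizes_perm hperm).length_eq, ← (shrL_sizes hs2).length_eq, H1.np]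
    · refine hL3 L (fun p hp => ?_) hL
      have := hbig2 p hp
      omega

end Pool.Agent.FLV
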