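import Pool.Agent.FLV.TDefs

/-!
# The corner

`CInv.stage`: `Core.adv_all` (with `av = [D', ...]`), `Core.openD` for `D = m`, `v1, v2` (new name `s`), `Core.adv_free` for
`v1 → v1'`; rows as in `cov_corner`: `A' = A ++ m :: lets esF`, `esF' = esS⁺ ++ [free s v1']`,
`B' = B ++ (lets esS ++ [v1])`, `esS' = free s v2 :: esF⁺`.
`corner`: start with `CInv` for `h = 0`, `A = B = []`, no elements, no edges (`CovI` on an empty interval); after `h`
stages with the last `D' = Sum.inl b` (`b` is outside of the lists as `SV = []`) apply `Core.root`: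
`es = free 0 (Sum.inl b) :: (esF ++ esS)`.
Lengths: `|A_{h+1}| = |A_h| + 1 + h`, `|B_{h+1}| = |B_h| + h + 1`.
-/

set_option autoImplicit false

namespace Pool.Agent.FLV

variable {V : Type*} [DecidableEq V] {G : V → V → Prop} {b : V}
  {h : ℕ} {fe : List ((V ⊕ ℕ) × ℕ)} {A B : List (V ⊕ ℕ)} {esF esS : List (Elem V)}

theorem K1_split {α β : Type*} {R : α → β → Prop} {l1 l2 : List α} {l : List β}
    (h : List.Forall₂ R (l1 ++ l2) l) :
    ∃ l1' l2', l = l1' ++ l2' ∧ List.Forall₂ R l1 l1' ∧ List.Forall₂ R l2 l2' := by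
  induction l1 generalizing l with
  | nil => exact ⟨[], l, rfl, .nil, h⟩
  | cons a l1 ih =>
    cases h with
    | @cons _ c _ l' h1 h2 =>
      obtain ⟨l1', l2', rfl, h3, h4⟩ := ih h2
      exact ⟨c :: l1', l2', rfl, .cons h1 h3, h4⟩

theorem CInv.stage (hG : ∀ a c, G a c → G c a) {m : ℕ}
    (H : CInv G b h fe A B (Sum.inr m) esF esS) {D : V ⊕ ℕ} (hD : D ≠ Sum.inr m)
    (h1 : D ∉ A ++ B ++ full (esF ++ esS)) :
    ∃ fe' A' B' esF' esS', CInv G b (h + 1) fe' A' B' D esF' esS' ∧
      A'.length = A.length + 1 + h ∧ B'.length = B.length + h + 1 := by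
  obtain ⟨fe1, es1, hC1, hfe1, hshr, hnx, hav⟩ :=
    H.core.adv_all hG (by rw [H.nopile]; simp) [D, Sum.inr m]
  obtain ⟨esF1, esS1, rfl, hshrF, hshrS⟩ := K1_split hshr
  have hDn := hav D (by simp) h1
  have hmn := hav (Sum.inr m) (by simp) H.new
  have hlF : (lets esF1).length = h := by rw [shrL_len hshrF, H.lenF]
  have hlS : (lets esS1).length = h := by rw [shrL_len hshrS, H.lenS]
  have hsz : sizes (esF1 ++ esS1) = [] := by
    have h2 := shrL_sizes hshr
    rw [H.nopile] at h2
    exact List.forall₂_nil_left_iff.1 h2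
  rw [lets_append, lets_append] at hnx
  have hnxF : List.Forall₂ (Nx G fe1) (lets esF) (lets esF1) := by
    have h2 := List.forall₂_take (lets esF).length hnx
    rw [List.take_left, H.lenF, ← hlF, List.take_left] at h2
    exact h2
  have hnxS : List.Forall₂ (Nx G fe1) (lets esS) (lets esS1) := by
    have h2 := List.forall₂_drop (lets esF).length hnx
    rw [List.drop_left, H.lenF, ← hlF, List.drop_left] at h2
    exact h2
  -- new vertices
  obtain ⟨N, hN⟩ := exists_fresh (D :: Sum.inr m :: (A ++ B ++ lets (esF ++ esS) ++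
    full (esF1 ++ esS1)))
  obtain ⟨s, hs0, hs⟩ := exists_name (ids (esF1 ++ esS1))
  have hN0 := hN N le_rfl
  have hN1 := hN (N + 1) (by omega)
  have hN2 := hN (N + 2) (by omega)
  simp only [List.mem_cons, not_or] at hN0 hN1 hN2
  have hC2 := hC1.openD (m := m) (n := N) (n' := N + 1) (s := s) hmn hN0.2.2 hN1.2.2
    (fun h => hN0.2.1 (by rw [h])) (fun h => hN1.2.1 (by rw [h])) (by omega)
    (hs s le_rfl) (by omega)
  have hC3 := hC2.adv_free (n := N + 2) (by
    intro h2
    simp only [List.mem_append, full_cons, Elem.full_free, List.mem_cons, List.not_mem_nil,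
      or_false] at h2 hN2
    rcases h2 with (h2 | h2) | h2 | h2 | h2
    · exact hN2.2.2 (Or.inl h2)
    · exact hN2.2.1 h2
    · simp at h2
    · simp at h2
    · exact hN2.2.2 (Or.inr h2))
  set fe' := ((Sum.inr N : V ⊕ ℕ), N + 2) :: (Sum.inr m, N) :: (Sum.inr m, N + 1) :: fe1
    with hfe'
  have hmono1 : ∀ e ∈ fe1, e ∈ fe' := by
    intro e he
    rw [hfe']
    simp [he]
  have hmono : ∀ e ∈ fe, e ∈ fe' := fun e he => hmono1 e (hfe1 e he)
  refine ⟨fe', A ++ Sum.inr m :: lets esF, B ++ (lets esS ++ [Sum.inr N]),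
    esS1 ++ [Elem.free s (Sum.inr (N + 2))], Elem.free s (Sum.inr (N + 1)) :: esF1,
    ⟨?_, ?_, ?_, ?_, ?_, ?_⟩, ?_, ?_⟩
  · refine hC3.perm ?_ ?_
    · rw [← Multiset.coe_eq_coe]
      simp only [lets_append, ← Multiset.coe_add, ← Multiset.cons_coe, Multiset.coe_nil,
        ← Multiset.singleton_add]
      abel
    · rw [lets_append] at *
      have h2 : (Elem.free s (Sum.inr (N + 2)) :: Elem.free s (Sum.inr (N + 1)) :: (esF1 ++ esS1)).Perm
          (Elem.free s (Sum.inr (N + 2)) :: (esS1 ++ Elem.free s (Sum.inr (N + 1)) :: esF1)) := by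
        refine List.Perm.cons _ ?_
        exact (List.perm_append_comm (l₁ := Elem.free s (Sum.inr (N + 1)) :: esF1) (l₂ := esS1))
      refine h2.trans ?_
      rw [List.append_assoc]
      exact (List.perm_middle (a := Elem.free s (Sum.inr (N + 2))) (l₁ := esS1)
        (l₂ := Elem.free s (Sum.inr (N + 1)) :: esF1)).symm
  · simp only [sizes_append, sizes_cons, Elem.sizes_free, sizes_nil, List.append_nil,
      List.nil_append, List.append_eq_nil_iff] at hsz ⊢
    exact ⟨hsz.2, hsz.1⟩
  · simp [hlS]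
  · simp [hlF]
  · intro h2
    simp only [List.mem_append, full_append, full_cons, full_nil, Elem.full_free, List.mem_cons,
      List.not_mem_nil, or_false, lets_append] at h2 hDn
    rcases h2 with ((h2 | h2 | h2) | (h2 | h2 | h2)) | (h2 | h2) | h2 | h2
    · exact hDn (Or.inl (Or.inl (Or.inl h2)))
    · exact hD h2
    · exact hDn (Or.inl (Or.inr (Or.inl h2)))
    · exact hDn (Or.inl (Or.inl (Or.inr h2)))
    · exact hDn (Or.inl (Or.inr (Or.inr h2)))
    · exact hN0.1 h2.symm
    · exact hDn (Or.inr (Or.inr h2))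
    · exact hN2.1 h2.symm
    · exact hN1.1 h2.symm
    · exact hDn (Or.inr (Or.inl h2))
  · have c1 : CovI (EE G fe') ((A ++ Sum.inr m :: lets esF) ++ D :: (lets esS1 ++ [Sum.inr (N + 2)]))
        ((B ++ (lets esS ++ [Sum.inr N])) ++ Sum.inr (N + 1) :: lets esF1) 0
        (A.length + B.length + h) := by
      have h2 := H.cov.mono (E' := EE G fe') (fun u v => EE.mono hmono)
        (D :: (lets esS1 ++ [Sum.inr (N + 2)])) (Sum.inr N :: Sum.inr (N + 1) :: lets esF1)
      simpa using h2
    have c2 := cov_corner (E := EE G fe') A B (lets esF) (lets esS) (lets esF1) (lets esS1)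
      (Sum.inr m) D (Sum.inr N) (Sum.inr (N + 2)) (Sum.inr (N + 1)) (by rw [H.lenF, H.lenS])
      (hnxF.imp (fun _ _ h => (h.mono hmono1).ee)) (hnxS.imp (fun _ _ h => (h.mono hmono1).ee))
      (EE.mk (by rw [hfe']; simp)) (EE.mk (by rw [hfe']; simp)) (EE.mk (by rw [hfe']; simp))
    rw [H.lenF] at c2
    have c3 := c1.trans c2
    have e1 : (A ++ Sum.inr m :: lets esF).length + (B ++ (lets esS ++ [Sum.inr N])).length + (h + 1)
        = A.length + B.length + h + (2 * h + 3) := by
      simp only [List.length_append, List.length_cons, List.length_nil, H.lenF, H.lenS]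
      omega
    rw [e1]
    simpa using c3
  · simp only [List.length_append, List.length_cons, H.lenF]
    omega
  · simp only [List.length_append, List.length_cons, List.length_nil, H.lenS]
    omega

theorem K1_iter (hG : ∀ a c, G a c → G c a) (b : V) (h : ℕ) :
    ∃ fe A B m esF esS, CInv G b h fe A B (Sum.inr m) esF esS ∧ 2 * A.length = h * (h + 1) ∧
      2 * B.length = h * (h + 1) := by
  induction h with
  | zero =>
    refine ⟨[], [], [], 0, [], [], ⟨⟨?_, ?_, ?_, ?_, ?_, ?_, ?_, ?_, ?_, ?_, ?_⟩, ?_, ?_, ?_, ?_, ?_⟩,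
      ?_, ?_⟩
    all_goals simp
    intro s h1 h2
    omega
  | succ h ih =>
    obtain ⟨fe, A, B, m, esF, esS, H, hA, hB⟩ := ih
    obtain ⟨N, hN⟩ := exists_fresh (Sum.inr m :: (A ++ B ++ full (esF ++ esS)))
    have hN0 := hN N le_rfl
    simp only [List.mem_cons, not_or] at hN0
    obtain ⟨fe', A', B', esF', esS', H', hA', hB'⟩ := H.stage hG hN0.1 hN0.2
    refine ⟨fe', A', B', N, esF', esS', H', ?_, ?_⟩
    · rw [hA', mul_add, mul_add, hA]
      ring
    · rw [hB', mul_add, mul_add, hB]
      ring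

theorem corner (hG : ∀ a c, G a c → G c a) (col : V → Bool) (b : V) (h : ℕ) (hh : 1 ≤ h) :
    ∃ fe A B es, HInv G col b [b] h fe A B es 0 ∧ 2 * A.length = h * (h + 1) ∧
      2 * B.length = h * (h + 1) ∧ sizes es = [] ∧ (∀ a, Sum.inl a ∉ A ++ B) ∧
      Sum.inl b ∈ lets es := by
  obtain ⟨h, rfl⟩ := Nat.exists_eq_add_of_le' hh
  obtain ⟨fe0, A0, B0, m, esF0, esS0, H0, hA0, hB0⟩ := K1_iter hG b h
  obtain ⟨fe, A, B, esF, esS, H, hA, hB⟩ := H0.stage hG (D := Sum.inl b) (by simp)
    (by rw [H0.core.mem]; simp)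
  have hno : ∀ a, Sum.inl a ∉ A ++ B ++ full (esF ++ esS) := by
    intro a
    rw [H.core.mem]
    simp
  have hA1 : ∀ a, Sum.inl a ∉ A := fun a h1 => hno a (by simp [h1])
  have hB1 : ∀ a, Sum.inl a ∉ B := fun a h1 => hno a (by simp [h1])
  have hF1 : ∀ a, Sum.inl a ∉ lets esF := fun a h1 =>
    hno a (by simp [lets_subset_full h1])
  have hS1 : ∀ a, Sum.inl a ∉ lets esS := fun a h1 =>
    hno a (by simp [lets_subset_full h1])
  have htake : (((lets (Elem.free 0 (Sum.inl b) :: (esF ++ esS))).rotate 0).take (h + 1 + 1))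
      = Sum.inl b :: lets esF := by
    rw [List.rotate_zero]
    simp only [lets_cons, Elem.lets_free, lets_append, List.cons_append, List.nil_append,
      List.take_succ_cons]
    rw [List.take_left' H.lenF]
  have hdrop : (((lets (Elem.free 0 (Sum.inl b) :: (esF ++ esS))).rotate 0).drop (h + 1 + 1))
      = lets esS := by
    rw [List.rotate_zero]
    simp only [lets_cons, Elem.lets_free, lets_append, List.cons_append, List.nil_append,
      List.drop_succ_cons]
    rw [List.drop_left' H.lenF]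
  refine ⟨fe, A, B, Elem.free 0 (Sum.inl b) :: (esF ++ esS), ⟨H.core.root, ?_, ?_, ?_⟩, ?_, ?_, ?_,
    ?_, ?_⟩
  · simp only [lets_cons, Elem.lets_free, lets_append, List.length_append, List.length_cons,
      List.length_nil, H.lenF, H.lenS]
    omega
  · rw [htake, hdrop]
    exact H.cov
  · rw [htake, hdrop]
    refine ⟨col b, ?_, ?_⟩
    · intro a ha
      simp only [List.mem_append, List.mem_cons] at ha
      rcases ha with ha | ha | ha
      · exact absurd ha (hA1 a)
      · rw [Sum.inl.inj ha]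
      · exact absurd ha (hF1 a)
    · intro a ha
      simp only [List.mem_append] at ha
      rcases ha with ha | ha
      · exact absurd ha (hB1 a)
      · exact absurd ha (hS1 a)
  · rw [hA, mul_add, mul_add, hA0]
    ring
  · rw [hB, mul_add, mul_add, hB0]
    ring
  · have h2 := H.nopile
    simpa using h2
  · intro a ha
    rcases List.mem_append.1 ha with ha | ha
    · exact hA1 a ha
    · exact hB1 a ha
  · simp

end Pool.Agent.FLV
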