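import Pool.Agent.FLV.F4
import Pool.Agent.FLV.F5
import Pool.Agent.FLV.K1

/-!
# The growth phase

`p1_all`: induction on `n`, uniform in everything.  `n = 0`: `corner` with `h = q0`, `base = q0 (q0 + 1) / 2`.  Step: by induction
there are `e, d, Q` for `n`; take `i0 = e + 3`, `W = 2 n + 1`; for `q0` large the conditions `hW`, `h2` of `attP`/`attB` hold for
all `h ≥ q0` (`Q' = max Q (100 (i0 + W + 1)^2)`); there are at most `2 np ≤ 2 n` bad `i`, so a good `i` in
`[i0, i0 + W)`.  `e' = e + 4 (i0 + W) + 8` (`P1` is monotone in `e`), `d' = d + 2 + 4 (i0 + W)`,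
`X' = X + 20 (i0 + W + 1) (q0 + d + 1)` (monotone in `L`).
`opC`: the height grows by `1` (pendant) or `2` (branch) modulo `4`.
-/

set_option autoImplicit false

namespace Pool.Agent.FLV

/-- growth of the height modulo four -/
def Op.c {V : Type*} : Op V → ℕ
  | .pend _ _ => 1
  | .branch _ _ _ _ _ => 2

/-- number of long branches -/
def nbr {V : Type*} (ops : List (Op V)) : ℕ := (ops.flatMap Op.mids).length

theorem P1.mono {V : Type*} [DecidableEq V] {G : V → V → Prop} {col : V → Bool} {b : V}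
    {SV AV : List V} {base h e e' np L L' : ℕ} {fe : List ((V ⊕ ℕ) × ℕ)} {A B : List (V ⊕ ℕ)}
    {es : List (Elem V)} (H : P1 G col b SV AV base h e np L fe A B es) (he : e ≤ e')
    (hL : L' ≤ L) : P1 G col b SV AV base h e' np L' fe A B es := by
  have h1 : e * h ≤ e' * h := Nat.mul_le_mul_right h he
  exact ⟨H.inv, H.leA, H.leB, H.noA, H.noB, H.anch, by have := H.upA; omega,
    by have := H.upB; omega, H.np, fun p hp => hL.trans (H.big p hp)⟩

theorem F6_nbr_le {V : Type*} (ops : List (Op V)) : nbr ops ≤ ops.length := by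
  induction ops with
  | nil => simp [nbr]
  | cons o ops ih =>
    unfold nbr at *
    rw [List.flatMap_cons, List.length_append, List.length_cons]
    cases o <;> simp only [Op.mids, List.length_nil, List.length_cons] <;> omega

theorem F6_pick (i0 W : ℕ) (Bad : Finset ℕ) (h : Bad.card < W) :
    ∃ i, i0 ≤ i ∧ i < i0 + W ∧ i ∉ Bad := by
  by_contra hc
  push Not at hc
  have h1 : Finset.Ico i0 (i0 + W) ⊆ Bad := by
    intro i hi
    rw [Finset.mem_Ico] at hi
    exact hc i hi.1 hi.2
  have h2 := Finset.card_le_card h1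
  rw [Nat.card_Ico] at h2
  omega

theorem p1_all (n : ℕ) : ∃ e d Q : ℕ, ∀ q0, Q ≤ q0 → ∃ X : ℕ, ∀ (L : ℕ) (V : Type)
    (_ : DecidableEq V) (G : V → V → Prop) (col : V → Bool) (b : V) (ops : List (Op V))
    (SV AV : List V), (∀ a c, G a c → G c a) → (∀ a c, G a c → col a ≠ col c) →
    Grown G b ops SV AV → ops.length = n → (∀ t ∈ ops.flatMap Op.mids, L + X ≤ t) →
    ∃ h fe A B es, q0 ≤ h ∧ h ≤ q0 + d ∧ h % 4 = (q0 + (ops.map Op.c).sum) % 4 ∧
      P1 G col b SV AV (q0 * (q0 + 1) / 2) h e (nbr ops) L fe A B es := by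
  induction n with
  | zero =>
    refine ⟨0, 0, 1, fun q0 hq0 => ⟨0, ?_⟩⟩
    intro L V _ G col b ops SV AV hG hcol hgr hlen _
    obtain rfl : ops = [] := List.length_eq_zero_iff.1 hlen
    cases hgr
    obtain ⟨fe, A, B, es, H, hA, hB, hs, hno, hb⟩ := corner hG col b q0 hq0
    have hbA : q0 * (q0 + 1) / 2 = A.length := by omega
    have hbB : q0 * (q0 + 1) / 2 = B.length := by omega
    refine ⟨q0, fe, A, B, es, le_rfl, by omega, by simp, ?_⟩
    refine ⟨H, by omega, by omega, ?_, ?_, ?_, by omega, by omega, ?_, ?_⟩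
    · intro a ha
      exact hno a (List.mem_append_left _ (List.mem_of_mem_take ha))
    · intro a ha
      exact hno a (List.mem_append_right _ (List.mem_of_mem_take ha))
    · intro a ha
      rw [List.mem_singleton] at ha
      subst ha
      exact List.mem_append_right _ hb
    · rw [hs]
      rfl
    · rw [hs]
      simp
  | succ n ih =>
    obtain ⟨e, d, Q, hIH⟩ := ih
    obtain ⟨i0, hi0⟩ : ∃ i0, i0 = e + 3 := ⟨_, rfl⟩
    obtain ⟨W, hWd⟩ : ∃ W, W = 2 * n + 1 := ⟨_, rfl⟩
    refine ⟨e + 4 * (i0 + W) + 8, d + 2 + 4 * (i0 + W),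
      Q + (W * (8 * (i0 + W) + 2) + 2 * (i0 + W) * (4 * (i0 + W) + 3) + 1), ?_⟩
    intro q0 hq0
    obtain ⟨X, hX⟩ := hIH q0 (by omega)
    refine ⟨X + 20 * (i0 + W + 1) * (q0 + d + 1), ?_⟩
    intro L V _ G col b ops SV AV hG hcol hgr hlen hmid
    cases hgr with
    | nil => simp at hlen
    | @pend ops0 SV0 AV0 v w hg hv hw hvw =>
      rw [List.length_cons] at hlen
      obtain ⟨h, fe, A, B, es, h1, h2, h3, H⟩ := hX (L + 20 * (i0 + W + 1) * (q0 + d + 1)) V _ G
        col b ops0 SV0 AV0 hG hcol hg (by omega) (by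
          intro t ht
          have := hmid t (by rw [List.flatMap_cons]; exact List.mem_append_right _ ht)
          omega)
      have h4 : 20 * (i0 + W + 1) * (h + 1) ≤ 20 * (i0 + W + 1) * (q0 + d + 1) :=
        Nat.mul_le_mul_left _ (by omega)
      have H1 : P1 G col b SV0 AV0 (q0 * (q0 + 1) / 2) h e (nbr ops0)
          (L + 20 * (i0 + W + 1) * (h + 1)) fe A B es := H.mono le_rfl (by omega)
      obtain ⟨BadI, hB1, hB2⟩ := H1.attP hG hcol (by omega) hv hw hvw (by omega) (by omega)
        (by omega)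
      have h5 := F6_nbr_le ops0
      obtain ⟨i, hi1, hi2, hi3⟩ := F6_pick i0 W BadI (by omega)
      obtain ⟨fe', A', B', es', H2⟩ := hB2 i hi1 hi2 hi3
      refine ⟨h + 1 + 4 * i, fe', A', B', es', by omega, by omega, ?_, ?_⟩
      · simp only [List.map_cons, List.sum_cons, Op.c]
        omega
      · exact H2.mono (by omega) le_rfl
    | @branch ops0 SV0 AV0 v w wn mid l hg hv hvw hch hnd hdis hodd =>
      rw [List.length_cons] at hlen
      obtain ⟨h, fe, A, B, es, h1, h2, h3, H⟩ := hX (L + 20 * (i0 + W + 1) * (q0 + d + 1)) V _ G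
        col b ops0 SV0 AV0 hG hcol hg (by omega) (by
          intro t ht
          have := hmid t (by rw [List.flatMap_cons]; exact List.mem_append_right _ ht)
          omega)
      have hL : L ≤ mid.length := by
        have := hmid mid.length (by rw [List.flatMap_cons]; simp [Op.mids])
        omega
      have h4 : 20 * (i0 + W + 1) * (h + 1) ≤ 20 * (i0 + W + 1) * (q0 + d + 1) :=
        Nat.mul_le_mul_left _ (by omega)
      have H1 : P1 G col b SV0 AV0 (q0 * (q0 + 1) / 2) h e (nbr ops0)
          (L + 20 * (i0 + W + 1) * (h + 1)) fe A B es := H.mono le_rfl (by omega)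
      obtain ⟨BadI, hB1, hB2⟩ := H1.attB hG hcol (by omega) hv hvw hch hnd hdis hodd hL (by omega)
        (by omega) (by omega)
      have h5 := F6_nbr_le ops0
      obtain ⟨i, hi1, hi2, hi3⟩ := F6_pick i0 W BadI (by omega)
      obtain ⟨fe', A', B', es', H2⟩ := hB2 i hi1 hi2 hi3
      refine ⟨h + 2 + 4 * i, fe', A', B', es', by omega, by omega, ?_, ?_⟩
      · simp only [List.map_cons, List.sum_cons, Op.c]
        omega
      · have h6 : nbr (Op.branch v w wn mid l :: ops0) = nbr ops0 + 1 := by
          unfold nbr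
          rw [List.flatMap_cons, List.length_append]
          simp only [Op.mids, List.length_cons, List.length_nil]
          omega
        rw [h6]
        exact H2.mono (by omega) le_rfl

end Pool.Agent.FLV
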