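import Pool.Agent.FLV.F6

/-!
# The growth phase ends with almost every height of a window

`p1_window` PROOF.  It suffices to treat `ops.length = n` for each `n` separately (then take maxima over the finitely
many smaller values; the conclusion is monotone in `X`, `C`, `H0`).
`n = 0`: `corner` with `h`, `Bad = ∅`.
`n + 1`: `ops = op :: ops'` (invert `Grown`).  Let `e, d, Q` be from `p1_all n`, `i0 = e + 3`, `W' = W + d + 8` (so
`4 W' ≥ W + d + 7`), `H0` large.  Given `H`, for each `δ ∈ {0,1,2,3}` let `q0 = H - d - 4 i0 - 4 - δ`; `p1_all` gives `h'` with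
`q0 ≤ h' ≤ q0 + d` and known residue mod 4; `attP`/`attB` with `i0, W'` gives heights `h = h' + 1 + 4 i` (or `+ 2`) for all
`i ∈ [i0, i0 + W')` except at most `2 n`.  These heights cover all `h ∈ [H, H + W)` in one residue class modulo 4
(depending on `δ`, all four classes occur).  `Bad` = the union over `δ` of the images of the four bad sets: at most
`4 · 2 n ≤ 8 (n + 1)` elements.
`|A| + |B| + h ≤ C` from `upA`, `upB` and `base ≤ H ^ 2`.
-/

set_option autoImplicit false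

namespace Pool.Agent.FLV

theorem F7_nbr {V : Type*} (ops : List (Op V)) : nbr ops ≤ ops.length := by
  induction ops with
  | nil => simp [nbr]
  | cons op ops ih =>
    unfold nbr at ih ⊢
    rw [List.flatMap_cons, List.length_append, List.length_cons]
    cases op <;> simp only [Op.mids, List.length_cons, List.length_nil] <;> omega

/-- the arithmetic of the bound for the rows -/
theorem F7_bound {q0 d e i0 W' i h0 h a c : ℕ} (hi : i < i0 + W') (hh : h0 ≤ q0 + d + 2)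
    (hh2 : h = h0 + 4 * i)
    (ha : a ≤ q0 * (q0 + 1) / 2 + (e + 4 * i + 8) * h)
    (hc : c ≤ q0 * (q0 + 1) / 2 + (e + 4 * i + 8) * h) :
    a + c + h ≤ 2 * (q0 * (q0 + 1) / 2 + (e + 4 * (i0 + W') + 8) * (q0 + d + 2 + 4 * (i0 + W')))
      + (q0 + d + 2 + 4 * (i0 + W')) := by
  have h1 : h ≤ q0 + d + 2 + 4 * (i0 + W') := by omega
  have h2 : (e + 4 * i + 8) * h ≤ (e + 4 * (i0 + W') + 8) * (q0 + d + 2 + 4 * (i0 + W')) :=
    Nat.mul_le_mul (by omega) h1
  omega

/-- one residue class modulo four -/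
theorem F7_class (n W : ℕ) : ∃ d i0 Q : ℕ, ∀ q0, ∃ X C : ℕ, Q ≤ q0 → ∀ (L : ℕ) (V : Type)
    (_ : DecidableEq V) (G : V → V → Prop) (col : V → Bool) (b : V) (ops : List (Op V))
    (SV AV : List V), (∀ a c, G a c → G c a) → (∀ a c, G a c → col a ≠ col c) →
    Grown G b ops SV AV → ops.length = n + 1 → (∀ t ∈ ops.flatMap Op.mids, L + X ≤ t) →
    ∃ (h0 : ℕ) (BadI : Finset ℕ), BadI.card ≤ 2 * n ∧ q0 + 1 ≤ h0 ∧ h0 ≤ q0 + d + 2 ∧
      h0 % 4 = (q0 + (ops.map Op.c).sum) % 4 ∧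
      ∀ i, i0 ≤ i → i < i0 + (W + d + 8) → i ∉ BadI →
        ∃ fe A B es, HInv G col b SV (h0 + 4 * i) fe A B es 0 ∧
          A.length + B.length + (h0 + 4 * i) ≤ C ∧
          (sizes es).length ≤ n + 1 ∧ (∀ p ∈ sizes es, L ≤ p) := by
  obtain ⟨e, d, Q, hall⟩ := p1_all n
  refine ⟨d, e + 3, Q + (W + d + 8) * (8 * ((e + 3) + (W + d + 8)) + 2)
    + 2 * ((e + 3) + (W + d + 8)) * (4 * ((e + 3) + (W + d + 8)) + 3) + 1, ?_⟩
  intro q0
  by_cases hq : Q ≤ q0
  swap
  · exact ⟨0, 0, fun h => absurd (le_trans (by omega) h) hq⟩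
  obtain ⟨X, hX⟩ := hall q0 hq
  set i0 := e + 3 with hi0
  set W' := W + d + 8 with hW'
  set Y := 20 * (i0 + W' + 1) * (q0 + d + 1) with hY
  refine ⟨X + Y, 2 * (q0 * (q0 + 1) / 2 + (e + 4 * (i0 + W') + 8) * (q0 + d + 2 + 4 * (i0 + W')))
      + (q0 + d + 2 + 4 * (i0 + W')), ?_⟩
  intro hqQ L V inst G col b ops SV AV hG hcol hgr hlen hmid
  cases hgr with
  | nil => simp at hlen
  | @pend ops SV AV v w hg hv hw hvw =>
    have hlen' : ops.length = n := by simpa using hlen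
    have hmid' : ∀ t ∈ ops.flatMap Op.mids, (L + Y) + X ≤ t := by
      intro t ht
      have := hmid t (by simpa [Op.mids] using ht)
      omega
    obtain ⟨h', fe, A, B, es, hq1, hq2, hq3, HP⟩ := hX (L + Y) V inst G col b ops SV AV hG hcol hg
      hlen' hmid'
    have hY' : 20 * (i0 + W' + 1) * (h' + 1) ≤ Y := Nat.mul_le_mul_left _ (by omega)
    obtain ⟨BadI, hB1, hB2⟩ := (HP.mono le_rfl (L' := L + 20 * (i0 + W' + 1) * (h' + 1))
      (by omega)).attP hG hcol (by omega) hv hw hvw (by omega) (by omega) (by omega)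
    refine ⟨h' + 1, BadI, ?_, by omega, by omega, ?_, ?_⟩
    · have := F7_nbr ops
      omega
    · rw [List.map_cons, List.sum_cons]
      simp only [Op.c]
      omega
    · intro i hi1 hi2 hi3
      obtain ⟨fe', A', B', es', HP'⟩ := hB2 i hi1 hi2 hi3
      refine ⟨fe', A', B', es', HP'.inv, F7_bound hi2 (by omega) rfl HP'.upA HP'.upB, ?_, HP'.big⟩
      rw [HP'.np]
      have := F7_nbr ops
      omega
  | @branch ops SV AV v w wn mid l hg hv hvw hch hnd hdis hodd =>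
    have hlen' : ops.length = n := by simpa using hlen
    have hmid' : ∀ t ∈ ops.flatMap Op.mids, (L + Y) + X ≤ t := by
      intro t ht
      have := hmid t (by
        rw [List.flatMap_cons, List.mem_append]
        exact Or.inr ht)
      omega
    have hmidL : L + (X + Y) ≤ mid.length := hmid _ (by simp [Op.mids])
    obtain ⟨h', fe, A, B, es, hq1, hq2, hq3, HP⟩ := hX (L + Y) V inst G col b ops SV AV hG hcol hg
      hlen' hmid'
    have hY' : 20 * (i0 + W' + 1) * (h' + 1) ≤ Y := Nat.mul_le_mul_left _ (by omega)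
    obtain ⟨BadI, hB1, hB2⟩ := (HP.mono le_rfl (L' := L + 20 * (i0 + W' + 1) * (h' + 1))
      (by omega)).attB hG hcol (by omega) hv hvw hch hnd hdis hodd (by omega) (by omega)
      (by omega) (by omega)
    refine ⟨h' + 2, BadI, ?_, by omega, by omega, ?_, ?_⟩
    · have := F7_nbr ops
      omega
    · rw [List.map_cons, List.sum_cons]
      simp only [Op.c]
      omega
    · intro i hi1 hi2 hi3
      obtain ⟨fe', A', B', es', HP'⟩ := hB2 i hi1 hi2 hi3
      refine ⟨fe', A', B', es', HP'.inv, F7_bound hi2 (by omega) rfl HP'.upA HP'.upB, ?_, HP'.big⟩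
      rw [HP'.np]
      have := F7_nbr ops
      omega

/-- choice of the residue -/
theorem F7_residue (H d i0 s h : ℕ) (hH : d + 4 * i0 + 8 ≤ H) :
    ∃ δ < 4, (H - d - 4 * i0 - 4 - δ + s) % 4 = h % 4 := by
  refine ⟨(H - d - 4 * i0 - 4 + s + 3 * h) % 4, Nat.mod_lt _ (by norm_num), ?_⟩
  omega

theorem F7_succ (n W : ℕ) : ∃ H0 : ℕ, ∀ H, H0 ≤ H → ∃ X C : ℕ, ∀ (L : ℕ) (V : Type)
    (_ : DecidableEq V) (G : V → V → Prop) (col : V → Bool) (b : V) (ops : List (Op V))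
    (SV AV : List V), (∀ a c, G a c → G c a) → (∀ a c, G a c → col a ≠ col c) →
    Grown G b ops SV AV → ops.length = n + 1 → (∀ t ∈ ops.flatMap Op.mids, L + X ≤ t) →
    ∃ Bad : Finset ℕ, Bad.card ≤ 8 * n ∧ ∀ h, H ≤ h → h < H + W → h ∉ Bad →
      ∃ fe A B es, HInv G col b SV h fe A B es 0 ∧ A.length + B.length + h ≤ C ∧
        (sizes es).length ≤ n + 1 ∧ (∀ p ∈ sizes es, L ≤ p) := by
  obtain ⟨d, i0, Q, hcl⟩ := F7_class n W
  choose X C hXC using hcl
  refine ⟨Q + d + 4 * i0 + 8, ?_⟩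
  intro H hH
  refine ⟨∑ δ ∈ Finset.range 4, X (H - d - 4 * i0 - 4 - δ),
    ∑ δ ∈ Finset.range 4, C (H - d - 4 * i0 - 4 - δ), ?_⟩
  intro L V inst G col b ops SV AV hG hcol hgr hlen hmid
  have hex : ∀ δ : ℕ, ∃ (h0 : ℕ) (BadI : Finset ℕ), BadI.card ≤ 2 * n ∧ (δ < 4 →
      H - d - 4 * i0 - 4 - δ + 1 ≤ h0 ∧
      h0 ≤ H - d - 4 * i0 - 4 - δ + d + 2 ∧
      h0 % 4 = (H - d - 4 * i0 - 4 - δ + (ops.map Op.c).sum) % 4 ∧
      ∀ i, i0 ≤ i → i < i0 + (W + d + 8) → i ∉ BadI →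
        ∃ fe A B es, HInv G col b SV (h0 + 4 * i) fe A B es 0 ∧
          A.length + B.length + (h0 + 4 * i) ≤ C (H - d - 4 * i0 - 4 - δ) ∧
          (sizes es).length ≤ n + 1 ∧ (∀ p ∈ sizes es, L ≤ p)) := by
    intro δ
    by_cases hδ : δ < 4
    · have hXle : X (H - d - 4 * i0 - 4 - δ)
          ≤ ∑ δ ∈ Finset.range 4, X (H - d - 4 * i0 - 4 - δ) :=
        Finset.single_le_sum (f := fun δ => X (H - d - 4 * i0 - 4 - δ))
          (fun _ _ => Nat.zero_le _) (Finset.mem_range.2 hδ)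
      obtain ⟨h0, BadI, h1, h2, h3, h4, h5⟩ := hXC (H - d - 4 * i0 - 4 - δ) (by omega) L V inst G
        col b ops SV AV hG hcol hgr hlen (fun t ht => by
          have := hmid t ht
          omega)
      exact ⟨h0, BadI, h1, fun _ => ⟨h2, h3, h4, h5⟩⟩
    · exact ⟨0, ∅, by simp, fun h => absurd h hδ⟩
  choose h0 BadI hcard hprop using hex
  refine ⟨(Finset.range 4).biUnion (fun δ => (BadI δ).image (fun i => h0 δ + 4 * i)), ?_, ?_⟩
  · refine (Finset.card_biUnion_le_card_mul _ _ (2 * n) ?_).trans ?_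
    · intro δ _
      exact Finset.card_image_le.trans (hcard δ)
    · rw [Finset.card_range]
      omega
  · intro h hh1 hh2 hbad
    obtain ⟨δ, hδ, hres⟩ := F7_residue H d i0 (ops.map Op.c).sum h (by omega)
    obtain ⟨h2, h3, h4, h5⟩ := hprop δ hδ
    have hmod : h0 δ % 4 = h % 4 := h4.trans hres
    have hle : h0 δ + 4 * i0 ≤ h := by omega
    obtain ⟨i, hi⟩ : ∃ i, h = h0 δ + 4 * i := ⟨(h - h0 δ) / 4, by omega⟩
    have hi1 : i0 ≤ i := by omega
    have hi2 : i < i0 + (W + d + 8) := by omega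
    have hi3 : i ∉ BadI δ := by
      intro hi3
      apply hbad
      rw [Finset.mem_biUnion]
      exact ⟨δ, Finset.mem_range.2 hδ, Finset.mem_image.2 ⟨i, hi3, hi.symm⟩⟩
    obtain ⟨fe, A, B, es, k1, k2, k3, k4⟩ := h5 i hi1 hi2 hi3
    have hCle : C (H - d - 4 * i0 - 4 - δ) ≤ ∑ δ ∈ Finset.range 4, C (H - d - 4 * i0 - 4 - δ) :=
      Finset.single_le_sum (f := fun δ => C (H - d - 4 * i0 - 4 - δ))
        (fun _ _ => Nat.zero_le _) (Finset.mem_range.2 hδ)
    rw [hi]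
    exact ⟨fe, A, B, es, k1, k2.trans hCle, k3, k4⟩

theorem F7_zero (W : ℕ) : ∃ H0 : ℕ, ∀ H, H0 ≤ H → ∃ X C : ℕ, ∀ (L : ℕ) (V : Type)
    (_ : DecidableEq V) (G : V → V → Prop) (col : V → Bool) (b : V) (ops : List (Op V))
    (SV AV : List V), (∀ a c, G a c → G c a) → (∀ a c, G a c → col a ≠ col c) →
    Grown G b ops SV AV → ops.length ≤ 0 → (∀ t ∈ ops.flatMap Op.mids, L + X ≤ t) →
    ∃ Bad : Finset ℕ, Bad.card ≤ 8 * 0 ∧ ∀ h, H ≤ h → h < H + W → h ∉ Bad →
      ∃ fe A B es, HInv G col b SV h fe A B es 0 ∧ A.length + B.length + h ≤ C ∧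
        (sizes es).length ≤ 0 ∧ (∀ p ∈ sizes es, L ≤ p) := by
  refine ⟨1, fun H hH => ⟨0, (H + W) * (H + W + 1) + (H + W), ?_⟩⟩
  intro L V inst G col b ops SV AV hG hcol hgr hlen _
  cases hgr with
  | nil =>
    refine ⟨∅, by simp, ?_⟩
    intro h hh1 hh2 _
    obtain ⟨fe, A, B, es, k1, k2, k3, k4, -, -⟩ := corner hG col b h (by omega)
    refine ⟨fe, A, B, es, k1, ?_, by simp [k4], by simp [k4]⟩
    have h5 : h * (h + 1) ≤ (H + W) * (H + W + 1) := Nat.mul_le_mul (by omega) (by omega)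
    omega
  | pend _ _ _ _ => simp at hlen
  | branch _ _ _ _ _ _ _ => simp at hlen

theorem p1_window (n W : ℕ) : ∃ H0 : ℕ, ∀ H, H0 ≤ H → ∃ X C : ℕ, ∀ (L : ℕ) (V : Type)
    (_ : DecidableEq V) (G : V → V → Prop) (col : V → Bool) (b : V) (ops : List (Op V))
    (SV AV : List V), (∀ a c, G a c → G c a) → (∀ a c, G a c → col a ≠ col c) →
    Grown G b ops SV AV → ops.length ≤ n → (∀ t ∈ ops.flatMap Op.mids, L + X ≤ t) →
    ∃ Bad : Finset ℕ, Bad.card ≤ 8 * n ∧ ∀ h, H ≤ h → h < H + W → h ∉ Bad →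
      ∃ fe A B es, HInv G col b SV h fe A B es 0 ∧ A.length + B.length + h ≤ C ∧
        (sizes es).length ≤ n ∧ (∀ p ∈ sizes es, L ≤ p) := by
  induction n with
  | zero => exact F7_zero W
  | succ n ih =>
    obtain ⟨H1, ih⟩ := ih
    obtain ⟨H2, hs⟩ := F7_succ n W
    refine ⟨max H1 H2, fun H hH => ?_⟩
    obtain ⟨X1, C1, ih⟩ := ih H (le_trans (le_max_left _ _) hH)
    obtain ⟨X2, C2, hs⟩ := hs H (le_trans (le_max_right _ _) hH)
    refine ⟨X1 + X2, C1 + C2, ?_⟩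
    intro L V inst G col b ops SV AV hG hcol hgr hlen hmid
    rcases Nat.lt_or_ge n ops.length with h1 | h1
    · obtain ⟨Bad, hB, hb⟩ := hs L V inst G col b ops SV AV hG hcol hgr (by omega)
        (fun t ht => by have := hmid t ht; omega)
      refine ⟨Bad, by omega, fun h k1 k2 k3 => ?_⟩
      obtain ⟨fe, A, B, es, j1, j2, j3, j4⟩ := hb h k1 k2 k3
      exact ⟨fe, A, B, es, j1, by omega, j3, j4⟩
    · obtain ⟨Bad, hB, hb⟩ := ih L V inst G col b ops SV AV hG hcol hgr h1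
        (fun t ht => by have := hmid t ht; omega)
      refine ⟨Bad, by omega, fun h k1 k2 k3 => ?_⟩
      obtain ⟨fe, A, B, es, j1, j2, j3, j4⟩ := hb h k1 k2 k3
      exact ⟨fe, A, B, es, j1, by omega, by omega, j4⟩

end Pool.Agent.FLV
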