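import Pool.Agent.FLV.HalfDefs

/-!
# Renaming the fresh vertices of the right half

`Half.rename`: `ρ` is injective on the fresh vertices in use; everything is transported by `rnW ρ` (`Conn` is transported by
`Relation.ReflTransGen.lift`; `dg` of the renamed list at `rnW ρ v` equals `dg fe v` for `v` in use, and `dg` is `0` at
vertices which are not an end point of an edge).
`exists_rename` PROOF: `cR` has no duplicates and the length `2 h + 1` of `c`.  Define `ρ n = c[i]` if `n = (tp h cR)[i]`,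
and `ρ n = n + M` otherwise, `M` larger than all elements of `c` and of `avoid`.  Then `tp h (cR.map ρ) = c` (`tp` commutes with
`map`), `ρ` is injective on everything (`c` nodup), and the new names of the numbers outside of `cR` are neither in `c`
nor in `avoid`.
-/

set_option autoImplicit false

namespace Pool.Agent.FLV

theorem G2_inj {V : Type*} {ρ : ℕ → ℕ} (hρ : Function.Injective ρ) :
    Function.Injective (rnW ρ : V ⊕ ℕ → V ⊕ ℕ) := by
  intro x y h
  cases x <;> cases y <;> simp [rnW] at h ⊢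
  · exact h
  · exact hρ h

theorem G2_inr {V : Type*} (ρ : ℕ → ℕ) (n : ℕ) :
    (Sum.inr (ρ n) : V ⊕ ℕ) = rnW ρ (Sum.inr n) := rfl

theorem G2_inl {V : Type*} (ρ : ℕ → ℕ) (a : V) :
    (Sum.inl a : V ⊕ ℕ) = rnW ρ (Sum.inl a) := rfl

theorem G2_dg {V : Type*} [DecidableEq V] {ρ : ℕ → ℕ} (hρ : Function.Injective ρ)
    (fe : List ((V ⊕ ℕ) × ℕ)) (v : V ⊕ ℕ) :
    dg (fe.map (fun e => (rnW ρ e.1, ρ e.2))) (rnW ρ v) = dg fe v := by
  unfold dg
  rw [List.countP_map, List.countP_map]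
  congr 1
  · apply List.countP_congr
    intro e _
    simp only [Function.comp, decide_eq_true_eq]
    exact (G2_inj hρ).eq_iff
  · apply List.countP_congr
    intro e _
    simp only [Function.comp, decide_eq_true_eq]
    rw [G2_inr]
    exact (G2_inj hρ).eq_iff

theorem G2_dg_zero {V : Type*} [DecidableEq V] {ρ : ℕ → ℕ}
    (fe : List ((V ⊕ ℕ) × ℕ)) (v : V ⊕ ℕ) (hv : ∀ w, v ≠ rnW ρ w) :
    dg (fe.map (fun e => (rnW ρ e.1, ρ e.2))) v = 0 := by
  unfold dg
  rw [List.countP_map, List.countP_map]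
  have h1 : List.countP ((fun e => decide (e.1 = v)) ∘ fun e : (V ⊕ ℕ) × ℕ => (rnW ρ e.1, ρ e.2)) fe
      = 0 := by
    rw [List.countP_eq_zero]
    intro e _
    simp only [Function.comp, decide_eq_true_eq]
    exact fun h => hv _ h.symm
  have h2 : List.countP ((fun e => decide (Sum.inr e.2 = v)) ∘
      fun e : (V ⊕ ℕ) × ℕ => (rnW ρ e.1, ρ e.2)) fe = 0 := by
    rw [List.countP_eq_zero]
    intro e _
    simp only [Function.comp, decide_eq_true_eq]
    rw [G2_inr]
    exact fun h => hv _ h.symm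
  rw [h1, h2]

theorem G2_fadj {V : Type*} {ρ : ℕ → ℕ} {fe : List ((V ⊕ ℕ) × ℕ)} {u v : V ⊕ ℕ}
    (h : FAdj fe u v) : FAdj (fe.map (fun e => (rnW ρ e.1, ρ e.2))) (rnW ρ u) (rnW ρ v) := by
  rcases h with ⟨n, h1, h2⟩ | ⟨n, h1, h2⟩
  · exact Or.inl ⟨ρ n, by rw [h1]; rfl, List.mem_map.mpr ⟨(u, n), h2, rfl⟩⟩
  · exact Or.inr ⟨ρ n, by rw [h1]; rfl, List.mem_map.mpr ⟨(v, n), h2, rfl⟩⟩

theorem G2_conn {V : Type*} {ρ : ℕ → ℕ} {fe : List ((V ⊕ ℕ) × ℕ)} {u v : V ⊕ ℕ}
    (h : Conn fe u v) : Conn (fe.map (fun e => (rnW ρ e.1, ρ e.2))) (rnW ρ u) (rnW ρ v) := by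
  unfold Conn at h ⊢
  induction h with
  | refl => exact Relation.ReflTransGen.refl
  | tail _ hbc ih => exact ih.tail (G2_fadj hbc)

theorem G2_ee {V : Type*} {G : V → V → Prop} {ρ : ℕ → ℕ} {fe : List ((V ⊕ ℕ) × ℕ)} {u v : V ⊕ ℕ}
    (h : EE G fe u v) : EE G (fe.map (fun e => (rnW ρ e.1, ρ e.2))) (rnW ρ u) (rnW ρ v) := by
  rcases h with ⟨a, b, h1, h2, h3⟩ | h
  · exact Or.inl ⟨a, b, by rw [h1]; rfl, by rw [h2]; rfl, h3⟩
  · exact Or.inr (G2_fadj h)

theorem G2_map_inr {V : Type*} (ρ : ℕ → ℕ) (c : List ℕ) :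
    ((c.map ρ).map Sum.inr : List (V ⊕ ℕ)) = (c.map Sum.inr).map (rnW ρ) := by
  rw [List.map_map, List.map_map]
  rfl

theorem G2_all {V : Type*} (ρ : ℕ → ℕ) (A B : List (V ⊕ ℕ)) (c : List ℕ) :
    A.map (rnW ρ) ++ B.map (rnW ρ) ++ (c.map ρ).map Sum.inr
      = (A ++ B ++ c.map Sum.inr).map (rnW ρ) := by
  rw [G2_map_inr, List.map_append, List.map_append]

theorem Half.rename {V : Type*} [DecidableEq V] {G : V → V → Prop} {b : V} {SV : List V} {h : ℕ}
    {fe : List ((V ⊕ ℕ) × ℕ)} {A B : List (V ⊕ ℕ)} {c u : List ℕ}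
    (H : Half G b SV h fe A B c u) (ρ : ℕ → ℕ) (hρ : Function.Injective ρ) :
    Half G b SV h (fe.map (fun e => (rnW ρ e.1, ρ e.2))) (A.map (rnW ρ)) (B.map (rnW ρ))
      (c.map ρ) u := by
  have hinj : Function.Injective (rnW ρ : V ⊕ ℕ → V ⊕ ℕ) := G2_inj hρ
  refine ⟨?_, H.lenu, H.tw, ?_, ?_, ?_, ?_, ?_, ?_, ?_, ?_, ?_⟩
  · rw [List.length_map]; exact H.lenc
  · rw [G2_all]
    exact H.nodup.map hinj
  · intro a
    rw [← H.mem a, ← List.map_append, G2_inl ρ a, List.mem_map_of_injective hinj]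
    rfl
  · intro e he
    obtain ⟨e0, he0, rfl⟩ := List.mem_map.mp he
    obtain ⟨h1, h2, h3⟩ := H.mem_fe e0 he0
    rw [G2_all]
    refine ⟨List.mem_map.mpr ⟨_, h1, rfl⟩, List.mem_map.mpr ⟨_, h2, rfl⟩, ?_⟩
    intro h
    exact h3 (hinj h)
  · intro v
    by_cases hv : ∃ w, v = rnW ρ w
    · obtain ⟨w, rfl⟩ := hv
      rw [G2_dg hρ]
      refine (H.deg w).trans (le_of_eq ?_)
      cases w <;> rfl
    · rw [G2_dg_zero fe v (fun w h => hv ⟨w, h⟩)]
      exact Nat.zero_le _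
  · intro n hn
    obtain ⟨n0, hn0, rfl⟩ := List.mem_map.mp hn
    rw [G2_inr, G2_dg hρ]
    exact H.degc n0 hn0
  · intro i j n m hi hj hu
    rw [List.getElem?_map, Option.map_eq_some_iff] at hi hj
    obtain ⟨n0, hi, rfl⟩ := hi
    obtain ⟨m0, hj, rfl⟩ := hj
    exact G2_conn (H.conn_id i j n0 m0 hi hj hu)
  · intro i n hi hu
    rw [List.getElem?_map, Option.map_eq_some_iff] at hi
    obtain ⟨n0, hi, rfl⟩ := hi
    exact G2_conn (H.conn_root i n0 hi hu)
  · intro n hn
    rw [← List.map_append] at hn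
    obtain ⟨w, hw, he⟩ := List.mem_map.mp hn
    cases w with
    | inl a => simp [rnW] at he
    | inr n0 =>
      have e : n = ρ n0 := by
        simp [rnW] at he
        exact he.symm
      obtain ⟨m, hm, hc⟩ := H.conn_st n0 hw
      refine ⟨ρ m, List.mem_map.mpr ⟨m, hm, rfl⟩, ?_⟩
      rw [e]
      exact G2_conn hc
  · intro s h1 h2
    rw [List.length_map, List.length_map] at h2
    obtain ⟨i, j, x, y, hx, hy, hs, hE⟩ := H.cov s h1 h2
    refine ⟨i, j, rnW ρ x, rnW ρ y, ?_, ?_, hs, ?_⟩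
    · rw [← List.map_take, G2_map_inr, ← List.map_append, List.getElem?_map, hx]
      rfl
    · rw [← List.map_drop, G2_map_inr, ← List.map_append, List.getElem?_map, hy]
      rfl
    · rcases hE with h | h
      · exact Or.inl (G2_ee h)
      · exact Or.inr (G2_ee h)

theorem G2_tp_perm {α : Type*} (h : ℕ) (l : List α) : (tp h l).Perm l := by
  unfold tp
  refine ((List.reverse_perm _).append (List.reverse_perm _)).trans ?_
  rw [List.take_append_drop]

theorem G2_tp_map {α β : Type*} (h : ℕ) (f : α → β) (l : List α) :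
    tp h (l.map f) = (tp h l).map f := by
  unfold tp
  rw [List.map_append, List.map_reverse, List.map_reverse, List.map_take, List.map_drop]

theorem exists_rename {h : ℕ} {c cR : List ℕ} (hc : c.Nodup) (hcR : cR.Nodup)
    (hl : c.length = 2 * h + 1) (hlR : cR.length = 2 * h + 1) (avoid : List ℕ) :
    ∃ ρ : ℕ → ℕ, (∀ n m, ρ n = ρ m → (n ∈ cR ↔ m ∈ cR) → n = m) ∧
      (∀ n, n ∉ cR → ρ n ∉ c ∧ ρ n ∉ avoid) ∧ tp h (cR.map ρ) = c := by
  have hp : (tp h cR).Perm cR := G2_tp_perm h cR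
  have hdn : (tp h cR).Nodup := hp.nodup_iff.2 hcR
  have hdl : (tp h cR).length = c.length := by rw [hp.length_eq, hlR, hl]
  generalize hd : tp h cR = d at hp hdn hdl
  have hmem : ∀ n, n ∈ cR ↔ n ∈ d := fun n => hp.mem_iff.symm
  have hbig : ∀ n, ∀ x ∈ c ++ avoid, n + ((c ++ avoid).sum + 1) ≠ x := by
    intro n x hx h
    have := List.le_sum_of_mem hx
    omega
  refine ⟨fun n => if n ∈ d then c.getD (d.idxOf n) 0 else n + ((c ++ avoid).sum + 1), ?_, ?_, ?_⟩
  · intro n m he hiff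
    rw [hmem, hmem] at hiff
    by_cases hn : n ∈ d
    · have hm := hiff.1 hn
      simp only [if_pos hn, if_pos hm] at he
      have h1 := List.idxOf_lt_length_iff.2 hn
      have h2 := List.idxOf_lt_length_iff.2 hm
      rw [List.getD_eq_getElem c 0 (by omega), List.getD_eq_getElem c 0 (by omega)] at he
      exact (List.idxOf_inj hn).1 (hc.getElem_inj_iff.1 he)
    · have hm : m ∉ d := fun h => hn (hiff.2 h)
      simp only [if_neg hn, if_neg hm] at he
      omega
  · intro n hn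
    rw [hmem] at hn
    simp only [if_neg hn]
    exact ⟨fun h => hbig n _ (List.mem_append_left _ h) rfl,
      fun h => hbig n _ (List.mem_append_right _ h) rfl⟩
  · rw [G2_tp_map, hd]
    refine List.ext_getElem (by rw [List.length_map, hdl]) ?_
    intro i h1 h2
    rw [List.length_map] at h1
    rw [List.getElem_map]
    simp only [if_pos (List.getElem_mem h1)]
    rw [hdn.idxOf_getElem i h1, List.getD_eq_getElem c 0 h2]

/-- the combination used later -/
theorem Half.adapt {V : Type*} [DecidableEq V] {G : V → V → Prop} {b b' : V} {SV SV' : List V}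
    {h : ℕ} {fe fe' : List ((V ⊕ ℕ) × ℕ)} {A B A' B' : List (V ⊕ ℕ)} {c c' u u' : List ℕ}
    (H : Half G b SV h fe A B c u) (H' : Half G b' SV' h fe' A' B' c' u') :
    ∃ fe'' A'' B'' c'', Half G b' SV' h fe'' A'' B'' c'' u' ∧ A''.length = A'.length ∧
      B''.length = B'.length ∧ tp h c'' = c ∧ (∀ n, Sum.inr n ∈ A'' ++ B'' → Sum.inr n ∉ A ++ B) := by
  have hcn : c.Nodup := by
    have h1 := (List.nodup_append.1 H.nodup).2.1
    exact h1.of_map _
  have hcn' : c'.Nodup := by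
    have h1 := (List.nodup_append.1 H'.nodup).2.1
    exact h1.of_map _
  obtain ⟨ρ, h1, h2, h3⟩ := exists_rename hcn hcn' H.lenc H'.lenc ((A ++ B).filterMap Sum.getRight?)
  have hin : ∀ n ∈ c', ρ n ∈ c := by
    intro n hn
    have h4 : ρ n ∈ tp h (c'.map ρ) :=
      (G2_tp_perm h _).mem_iff.2 (List.mem_map.mpr ⟨n, hn, rfl⟩)
    rwa [h3] at h4
  have hinj : Function.Injective ρ := by
    intro n m he
    refine h1 n m he ⟨fun hn => ?_, fun hm => ?_⟩
    · by_contra hm
      exact (h2 m hm).1 (he ▸ hin n hn)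
    · by_contra hn
      exact (h2 n hn).1 (he ▸ hin m hm)
  refine ⟨_, _, _, _, H'.rename ρ hinj, by rw [List.length_map], by rw [List.length_map], h3, ?_⟩
  intro n hn hAB
  rw [← List.map_append] at hn
  obtain ⟨w, hw, he⟩ := List.mem_map.mp hn
  cases w with
  | inl a => simp [rnW] at he
  | inr n0 =>
    have e : n = ρ n0 := by
      simp [rnW] at he
      exact he.symm
    have hn0 : n0 ∉ c' := by
      intro hc
      have h5 := (List.nodup_append.1 H'.nodup).2.2
      exact h5 _ hw _ (List.mem_map.mpr ⟨n0, hc, rfl⟩) rfl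
    refine (h2 n0 hn0).2 ?_
    rw [← e]
    exact List.mem_filterMap.2 ⟨Sum.inr n, hAB, rfl⟩

end Pool.Agent.FLV
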