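import Mathlib

/-!
# Connected, all degrees at most two, two ends: a Hamiltonian path

`E` is a list of edges on the finite vertex set given by the list `W`.
PROOF of `ham`.  Take a list `L` of maximal length with: `L.head? = some a`, `L.Nodup`, `L ⊆ W`, consecutive entries adjacent
(`[a]` is such a list, lengths are bounded by `W.length`).
Closed under adjacency: let `u ∈ L`, `u` adjacent to `w ∉ L`.  If `u` is the last entry, `L ++ [w]` is longer: contradiction.
If `u = a` is not the last entry, its successor and `w` are two different neighbours, `dgE E a ≥ 2`: contradiction.  If `u` is an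
interior entry it has three different neighbours: contradiction to `dgE E u ≤ 2` (an edge is counted once at each
of its two different end points, so `k` different neighbours give `dgE ≥ k`).
By connectivity `W ⊆ L`, so `L` is a permutation of `W` (both nodup).  `b ∈ L`, `b ≠ a`, and `dgE E b ≤ 1`, so `b` is the
last entry (an interior entry has two different neighbours).
Every edge `e ∈ E` joins consecutive entries: otherwise let `e.1` be at position `i`, `e.2` at position `j`, `|i - j| ≥ 2`,
say `i < j`; if `i > 0` then `e.1` has the three neighbours `L[i-1], L[i+1], e.2`; if `i = 0` then `a` has the two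
neighbours `L[1], e.2`; contradiction.
-/

set_option autoImplicit false

namespace Pool.Agent.FLV

/-- number of edges at `u` -/
def dgE {U : Type*} [DecidableEq U] (E : List (U × U)) (u : U) : ℕ :=
  E.countP (fun e => decide (e.1 = u)) + E.countP (fun e => decide (e.2 = u))

/-- adjacency by an edge of the list -/
def adjE {U : Type*} (E : List (U × U)) (u v : U) : Prop := (u, v) ∈ E ∨ (v, u) ∈ E

theorem Ham_count {U : Type*} [DecidableEq U] (E : List (U × U)) (u : U) (l : List U)
    (hn : l.Nodup) (hadj : ∀ v ∈ l, adjE E u v) : l.length ≤ dgE E u := by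
  have hsub : l ⊆ ((E.filter (fun e => decide (e.1 = u))).map (fun e => e.2)) ++
      ((E.filter (fun e => decide (e.2 = u))).map (fun e => e.1)) := by
    intro v hv
    rcases hadj v hv with h | h
    · exact List.mem_append_left _ (List.mem_map.mpr ⟨(u, v), List.mem_filter.mpr ⟨h, by simp⟩, rfl⟩)
    · exact List.mem_append_right _ (List.mem_map.mpr ⟨(v, u), List.mem_filter.mpr ⟨h, by simp⟩, rfl⟩)
  have h := (List.subperm_of_subset hn hsub).length_le
  rw [List.length_append, List.length_map, List.length_map, ← List.countP_eq_length_filter,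
    ← List.countP_eq_length_filter] at h
  exact h

theorem Ham_symm {U : Type*} {E : List (U × U)} {u v : U} (h : adjE E u v) : adjE E v u :=
  h.symm

/-- the list data -/
structure Ham_P {U : Type*} (E : List (U × U)) (W : List U) (a : U) (L : List U) : Prop where
  hd : L.head? = some a
  nd : L.Nodup
  sub : ∀ u ∈ L, u ∈ W
  ch : List.IsChain (adjE E) L

theorem Ham_max {U : Type*} [DecidableEq U] (E : List (U × U)) (W : List U) {a : U} (ha : a ∈ W) :
    ∃ L, Ham_P E W a L ∧ ∀ L', Ham_P E W a L' → L'.length ≤ L.length := by
  by_contra hcon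
  push Not at hcon
  have key : ∀ n : ℕ, ∃ L, Ham_P E W a L ∧ n ≤ L.length := by
    intro n
    induction n with
    | zero =>
      exact ⟨[a], ⟨rfl, List.nodup_singleton a, by simpa using ha, List.isChain_singleton a⟩,
        Nat.zero_le _⟩
    | succ n ih =>
      obtain ⟨L, hL, hn⟩ := ih
      obtain ⟨L', hL', hlt⟩ := hcon L hL
      exact ⟨L', hL', by omega⟩
  obtain ⟨L, hL, hn⟩ := key (W.length + 1)
  have := (List.subperm_of_subset hL.nd (fun u hu => hL.sub u hu)).length_le
  omega

theorem Ham_prev {U : Type*} {E : List (U × U)} {L1 L2 : List U} {y u : U}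
    (h : List.IsChain (adjE E) (L1 ++ [y] ++ u :: L2)) : adjE E y u := by
  rw [List.append_assoc, List.isChain_append] at h
  have h2 := h.2.1
  rw [List.singleton_append, List.isChain_cons_cons] at h2
  exact h2.1

theorem Ham_next {U : Type*} {E : List (U × U)} {L1 L2 : List U} {x u : U}
    (h : List.IsChain (adjE E) (L1 ++ u :: x :: L2)) : adjE E u x := by
  rw [List.isChain_append] at h
  have h2 := h.2.1
  rw [List.isChain_cons_cons] at h2
  exact h2.1

/-- an entry with a successor has no other neighbour except its predecessor -/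
theorem Ham_third {U : Type*} [DecidableEq U] {E : List (U × U)} {W : List U} {a : U}
    (hdeg : ∀ u ∈ W, dgE E u ≤ 2) (hda : dgE E a ≤ 1) {L L1 L2 : List U} (hL : Ham_P E W a L)
    {u x w : U} (e : L = L1 ++ u :: x :: L2) (hw : adjE E u w) (hwx : w ≠ x) (hw1 : w ∉ L1) :
    False := by
  have hch := hL.ch
  have hnd := hL.nd
  rw [e] at hch hnd
  have hx : adjE E u x := Ham_next hch
  rcases List.eq_nil_or_concat L1 with h1 | ⟨M, y, h1⟩
  · have hua : u = a := by
      have := hL.hd
      rw [e, h1] at this
      simpa using this
    have := Ham_count E u [x, w] (by simp [Ne.symm hwx]) (by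
      intro v hv
      rcases List.mem_cons.mp hv with h | h
      · rw [h]; exact hx
      · rw [List.mem_singleton.mp h]; exact hw)
    rw [hua] at this
    simp at this
    omega
  · rw [h1] at hch hnd hw1
    rw [List.concat_eq_append] at hch hnd hw1
    have hy : adjE E y u := Ham_prev hch
    have hxy : y ≠ x := by
      intro h
      rw [List.nodup_append] at hnd
      exact hnd.2.2 y (by simp) x (by simp) h
    have hwy : y ≠ w := by
      intro h
      exact hw1 (by rw [← h]; simp)
    have hu : u ∈ W := hL.sub u (by rw [e]; simp)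
    have := Ham_count E u [y, x, w] (by
      simp [hxy, hwy, Ne.symm hwx]) (by
      intro v hv
      rcases List.mem_cons.mp hv with h | h
      · rw [h]; exact Ham_symm hy
      · rcases List.mem_cons.mp h with h | h
        · rw [h]; exact hx
        · rw [List.mem_singleton.mp h]; exact hw)
    have h3 := hdeg u hu
    simp at this
    omega

theorem Ham_closed {U : Type*} [DecidableEq U] {E : List (U × U)} {W : List U} {a : U}
    (hE : ∀ e ∈ E, e.1 ∈ W ∧ e.2 ∈ W ∧ e.1 ≠ e.2)
    (hdeg : ∀ u ∈ W, dgE E u ≤ 2) (hda : dgE E a ≤ 1) {L : List U} (hL : Ham_P E W a L)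
    (hmax : ∀ L', Ham_P E W a L' → L'.length ≤ L.length) {u w : U} (hu : u ∈ L)
    (hw : adjE E u w) : w ∈ L := by
  by_contra hwL
  have hwW : w ∈ W := by
    rcases hw with h | h
    · exact (hE _ h).2.1
    · exact (hE _ h).1
  obtain ⟨L1, L2, e⟩ := List.append_of_mem hu
  cases L2 with
  | nil =>
    have hP : Ham_P E W a (L ++ [w]) := by
      refine ⟨?_, ?_, ?_, ?_⟩
      · rw [List.head?_append, hL.hd]; rfl
      · rw [List.nodup_append]
        refine ⟨hL.nd, List.nodup_singleton w, ?_⟩
        intro x hx y hy hxy
        rw [List.mem_singleton] at hy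
        rw [hxy, hy] at hx
        exact hwL hx
      · intro v hv
        rcases List.mem_append.mp hv with h | h
        · exact hL.sub v h
        · rw [List.mem_singleton.mp h]; exact hwW
      · rw [List.isChain_append]
        refine ⟨hL.ch, List.isChain_singleton w, ?_⟩
        intro x hx y hy
        rw [e] at hx
        simp at hx hy
        rw [← hx, ← hy]
        exact hw
    have := hmax _ hP
    simp at this
  | cons x L3 =>
    refine Ham_third hdeg hda hL e hw ?_ ?_
    · intro h
      exact hwL (by rw [e, h]; simp)
    · intro h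
      exact hwL (by rw [e]; simp [h])

theorem Ham_consec {U : Type*} [DecidableEq U] {E : List (U × U)} {W : List U} {a : U}
    (hdeg : ∀ u ∈ W, dgE E u ≤ 2) (hda : dgE E a ≤ 1) {L M N K : List U} (hL : Ham_P E W a L)
    {u v : U} (e : L = M ++ u :: (N ++ v :: K)) (huv : adjE E u v) : L = M ++ u :: v :: K := by
  cases N with
  | nil => simpa using e
  | cons x N' =>
    exfalso
    have hnd := hL.nd
    rw [e] at hnd
    refine Ham_third (L1 := M) (L2 := N' ++ v :: K) (x := x) (w := v) hdeg hda hL
      (by rw [e]; rfl) huv ?_ ?_
    · intro h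
      rw [List.nodup_append] at hnd
      have h2 := hnd.2.1
      rw [List.nodup_cons] at h2
      have h3 := h2.2
      rw [List.cons_append, List.nodup_cons] at h3
      exact h3.1 (by rw [← h]; simp)
    · intro h
      rw [List.nodup_append] at hnd
      exact hnd.2.2 v h v (by simp) rfl

theorem ham {U : Type*} [DecidableEq U] (E : List (U × U)) (W : List U)
    (hE : ∀ e ∈ E, e.1 ∈ W ∧ e.2 ∈ W ∧ e.1 ≠ e.2) (hW : W.Nodup)
    (hdeg : ∀ u ∈ W, dgE E u ≤ 2) {a b : U} (ha : a ∈ W) (hb : b ∈ W) (hab : a ≠ b)
    (hda : dgE E a ≤ 1) (hdb : dgE E b ≤ 1)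
    (hconn : ∀ u ∈ W, Relation.ReflTransGen (adjE E) a u) :
    ∃ L : List U, L.Perm W ∧ L.head? = some a ∧ L.getLast? = some b ∧
      ∀ e ∈ E, ∃ L1 L2, L = L1 ++ e.1 :: e.2 :: L2 ∨ L = L1 ++ e.2 :: e.1 :: L2 := by
  obtain ⟨L, hL, hmax⟩ := Ham_max E W ha
  have haL : a ∈ L := by
    have h := hL.hd
    cases L with
    | nil => simp at h
    | cons c T =>
      simp at h
      rw [h]; simp
  have hall : ∀ u ∈ W, u ∈ L := by
    intro u hu
    have h := hconn u hu
    induction h with
    | refl => exact haL
    | @tail b c hab hbc ih =>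
      have hb : b ∈ W := by
        rcases hbc with h | h
        · exact (hE _ h).1
        · exact (hE _ h).2.1
      exact Ham_closed hE hdeg hda hL hmax (ih hb) hbc
  refine ⟨L, ?_, hL.hd, ?_, ?_⟩
  · rw [List.perm_ext_iff_of_nodup hL.nd hW]
    exact fun u => ⟨fun h => hL.sub u h, fun h => hall u h⟩
  · obtain ⟨L1, L2, e⟩ := List.append_of_mem (hall b hb)
    cases L2 with
    | nil => rw [e]; simp
    | cons x L3 =>
      exfalso
      have hch := hL.ch
      have hnd := hL.nd
      rw [e] at hch hnd
      have hx : adjE E b x := Ham_next hch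
      rcases List.eq_nil_or_concat L1 with h1 | ⟨M, y, h1⟩
      · have h := hL.hd
        rw [e, h1] at h
        simp at h
        exact hab h.symm
      · rw [h1, List.concat_eq_append] at hch hnd
        have hy : adjE E y b := Ham_prev hch
        have hxy : y ≠ x := by
          intro h
          rw [List.nodup_append] at hnd
          exact hnd.2.2 y (by simp) x (by simp) h
        have := Ham_count E b [y, x] (by simp [hxy]) (by
          intro v hv
          rcases List.mem_cons.mp hv with h | h
          · rw [h]; exact Ham_symm hy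
          · rw [List.mem_singleton.mp h]; exact hx)
        simp at this
        omega
  · intro e he
    obtain ⟨h1, h2, h12⟩ := hE e he
    have had : adjE E e.1 e.2 := Or.inl he
    obtain ⟨M, K, hM⟩ := List.append_of_mem (hall e.1 h1)
    have h2L := hall e.2 h2
    rw [hM] at h2L
    rcases List.mem_append.mp h2L with h | h
    · obtain ⟨M', N, hM'⟩ := List.append_of_mem h
      have e1 : L = M' ++ e.2 :: (N ++ e.1 :: K) := by
        rw [hM, hM']; simp
      exact ⟨M', K, Or.inr (Ham_consec hdeg hda hL e1 (Ham_symm had))⟩
    · rcases List.mem_cons.mp h with h | h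
      · exact absurd h.symm h12
      · obtain ⟨N, K', hK⟩ := List.append_of_mem h
        have e1 : L = M ++ e.1 :: (N ++ e.2 :: K') := by
          rw [hM, hK]
        exact ⟨M, K', Or.inl (Ham_consec hdeg hda hL e1 had)⟩

end Pool.Agent.FLV
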