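import Pool.Agent.FLV.HalfDefs
import Pool.Agent.FLV.Ham

/-!
# The spine

PROOF.  Apply `ham` (on `U = V ⊕ ℕ`) to `E = (fe ++ fe').map (fun e => (e.1, Sum.inr e.2))` and
`W = inl b :: (F.map inr ++ [inl b'])`, where `F` is the list of all fresh vertices (fresh part of `A ++ B`, `c`, fresh part of
`A' ++ B'`; nodup by `hdis`, `H.nodup`, `H'.nodup`, `c'` is a permutation of `c`).
* end points: an end point `inl a` of an edge of `fe` has `dg ≥ 1`, so `cap b (inl a) ≥ 1`, `a = b`; the same for `fe'`.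
* degrees: `dgE E v = dg fe v + dg fe' v`.  For `inr n` with `n ∈ c`: `≤ 1 + 1`; for `inr n` settled on one side: it is not an
  end point of an edge of the other side, so `≤ 2 + 0`; `inl b`: `≤ 1 + 0` since `cap b' (inl b) = 0` (`b ≠ b'`).
* connectivity: all letters of `c` are connected to each other: `hlink` and induction on `Reach`; a link is an equality of
  names on the left (`H.conn_id`) or on the right (`H'.conn_id`, positions of `c = tp h c'` correspond to
  positions of `c'`, and names `tp h u'` to `u'`).  The root `b` is connected to the letter with name `0` (`H.conn_root`, it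
  exists by `H.tw`), `b'` as well; settled fresh vertices by `conn_st`.
The list `L` given by `ham` starts with `inl b`, ends with `inl b'`, the other entries are fresh:
`L = inl b :: (sp.map inr ++ [inl b'])`.
-/

set_option autoImplicit false

namespace Pool.Agent.FLV

theorem G3_tp_get {α : Type*} {h : ℕ} {l : List α} (hl : l.length = 2 * h + 1) {i : ℕ}
    (hi : i < 2 * h + 1) : (tp h l)[i]? = l[if i ≤ h then h - i else 3 * h + 1 - i]? := by
  unfold tp
  have h1 : (l.take (h + 1)).reverse.length = h + 1 := by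
    rw [List.length_reverse, List.length_take]; omega
  split_ifs with hih
  · rw [List.getElem?_append_left (by omega), List.getElem?_reverse (by simp; omega)]
    rw [List.getElem?_take_of_lt (by simp only [List.length_take]; omega)]
    congr 1
    simp
    omega
  · rw [List.getElem?_append_right (by omega), h1, List.getElem?_reverse (by simp; omega)]
    rw [List.getElem?_drop]
    congr 1
    simp
    omega

theorem G3_tp_length {α : Type*} {h : ℕ} {l : List α} : (tp h l).length = l.length := by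
  unfold tp
  simp
  omega

theorem G3_tp_perm {α : Type*} (h : ℕ) (l : List α) : (tp h l).Perm l := by
  unfold tp
  refine ((List.reverse_perm _).append (List.reverse_perm _)).trans ?_
  rw [List.take_append_drop]

/-- the fresh vertices of a list -/
def frs {V : Type*} (l : List (V ⊕ ℕ)) : List ℕ :=
  l.filterMap (fun x => Sum.elim (fun _ => none) (fun n => some n) x)

theorem mem_frs {V : Type*} {l : List (V ⊕ ℕ)} {n : ℕ} : n ∈ frs l ↔ Sum.inr n ∈ l := by
  unfold frs
  rw [List.mem_filterMap]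
  constructor
  · rintro ⟨a, ha, hn⟩
    cases a with
    | inl a => simp at hn
    | inr m => simp at hn; subst hn; exact ha
  · intro h
    exact ⟨_, h, by simp⟩

theorem frs_nodup {V : Type*} {l : List (V ⊕ ℕ)} (h : l.Nodup) : (frs l).Nodup := by
  unfold frs
  refine List.Nodup.filterMap ?_ h
  intro a a' b hb hb'
  cases a <;> cases a' <;> simp_all

theorem frs_map_inr {V : Type*} (l : List ℕ) : frs (l.map Sum.inr : List (V ⊕ ℕ)) = l := by
  induction l with
  | nil => rfl
  | cons n l ih => simp only [List.map_cons]; unfold frs at ih ⊢; simp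

theorem eq_map_frs {V : Type*} (l : List (V ⊕ ℕ)) (h : ∀ x ∈ l, ∃ n, x = Sum.inr n) :
    l = (frs l).map Sum.inr := by
  induction l with
  | nil => rfl
  | cons x l ih =>
    obtain ⟨n, rfl⟩ := h x (List.mem_cons_self ..)
    have := ih (fun y hy => h y (List.mem_cons_of_mem _ hy))
    unfold frs at this ⊢
    simp only [List.filterMap_cons, Sum.elim_inr, List.map_cons]
    rw [← this]

theorem G3_dgE {V : Type*} [DecidableEq V] (fe : List ((V ⊕ ℕ) × ℕ)) (v : V ⊕ ℕ) :
    dgE (fe.map (fun e => ((e.1, Sum.inr e.2) : (V ⊕ ℕ) × (V ⊕ ℕ)))) v = dg fe v := by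
  unfold dgE dg
  rw [List.countP_map, List.countP_map]
  rfl

theorem G3_dg_pos {V : Type*} [DecidableEq V] {fe : List ((V ⊕ ℕ) × ℕ)} {e : (V ⊕ ℕ) × ℕ}
    (he : e ∈ fe) : 0 < dg fe e.1 := by
  unfold dg
  have : 0 < fe.countP (fun f => decide (f.1 = e.1)) := by
    rw [List.countP_pos_iff]
    exact ⟨e, he, by simp⟩
  omega

/-- end points of the edges of a half -/
theorem Half.ends {V : Type*} [DecidableEq V] {G : V → V → Prop} {b : V} {SV : List V} {h : ℕ}
    {fe : List ((V ⊕ ℕ) × ℕ)} {A B : List (V ⊕ ℕ)} {cs u : List ℕ}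
    (H : Half G b SV h fe A B cs u) {e : (V ⊕ ℕ) × ℕ} (he : e ∈ fe) :
    (e.1 = Sum.inl b ∨ ∃ n, e.1 = Sum.inr n ∧ (Sum.inr n ∈ A ++ B ∨ n ∈ cs)) ∧
      (Sum.inr e.2 ∈ A ++ B ∨ e.2 ∈ cs) ∧ e.1 ≠ Sum.inr e.2 := by
  obtain ⟨h1, h2, h3⟩ := H.mem_fe e he
  have h4 := G3_dg_pos he
  have h5 := H.deg e.1
  refine ⟨?_, ?_, h3⟩
  · cases hx : e.1 with
    | inl a =>
      left
      rw [hx] at h4 h5
      by_contra hne
      rw [cap_inl, if_neg (fun h => hne (by rw [h]))] at h5
      omega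
    | inr n =>
      right
      refine ⟨n, rfl, ?_⟩
      rw [hx] at h1
      rcases List.mem_append.1 h1 with h1 | h1
      · exact Or.inl h1
      · right
        simpa using h1
  · rcases List.mem_append.1 h2 with h2 | h2
    · exact Or.inl h2
    · right
      simpa using h2

theorem Half.dg_zero {V : Type*} [DecidableEq V] {G : V → V → Prop} {b : V} {SV : List V} {h : ℕ}
    {fe : List ((V ⊕ ℕ) × ℕ)} {A B : List (V ⊕ ℕ)} {cs u : List ℕ}
    (H : Half G b SV h fe A B cs u) {v : V ⊕ ℕ} (hv : v ∉ A ++ B ++ cs.map Sum.inr) :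
    dg fe v = 0 := by
  refine dg_eq_zero (fun e he => ?_)
  obtain ⟨h1, h2, _⟩ := H.mem_fe e he
  exact ⟨fun h => hv (h ▸ h1), fun h => hv (h ▸ h2)⟩

theorem spine {V : Type*} [DecidableEq V] {G : V → V → Prop} {b b' : V} {SV SV' : List V}
    {h : ℕ} {fe fe' : List ((V ⊕ ℕ) × ℕ)} {A B A' B' : List (V ⊕ ℕ)} {c c' u u' : List ℕ}
    (H : Half G b SV h fe A B c u) (H' : Half G b' SV' h fe' A' B' c' u') (hc : tp h c' = c)
    (hdis : ∀ n, Sum.inr n ∈ A' ++ B' → Sum.inr n ∉ A ++ B) (hSV : ∀ a ∈ SV, a ∉ SV')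
    (hb : b ∈ SV) (hb' : b' ∈ SV')
    (hlink : ∀ i j, i < 2 * h + 1 → j < 2 * h + 1 → Reach u (tp h u') i j) :
    ∃ sp : List ℕ, sp.Nodup ∧
      (∀ n, n ∈ sp ↔ Sum.inr n ∈ A ++ B ∨ n ∈ c ∨ Sum.inr n ∈ A' ++ B') ∧
      ∀ e ∈ fe ++ fe', SpAdj b b' sp e.1 (Sum.inr e.2) ∨ SpAdj b b' sp (Sum.inr e.2) e.1 := by
  have hbb : b ≠ b' := fun h0 => hSV b hb (h0 ▸ hb')
  have hcc : ∀ n, n ∈ c' ↔ n ∈ c := fun n => by rw [← hc]; exact (G3_tp_perm h c').mem_iff.symm
  have hnd : (A ++ B).Nodup ∧ (c.map Sum.inr : List (V ⊕ ℕ)).Nodup ∧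
      ∀ x ∈ A ++ B, x ∉ (c.map Sum.inr : List (V ⊕ ℕ)) := by
    obtain ⟨h1, h2, h3⟩ := List.nodup_append.1 H.nodup
    exact ⟨h1, h2, fun x hx hx' => h3 x hx x hx' rfl⟩
  have hnd' : (A' ++ B').Nodup ∧ (c'.map Sum.inr : List (V ⊕ ℕ)).Nodup ∧
      ∀ x ∈ A' ++ B', x ∉ (c'.map Sum.inr : List (V ⊕ ℕ)) := by
    obtain ⟨h1, h2, h3⟩ := List.nodup_append.1 H'.nodup
    exact ⟨h1, h2, fun x hx hx' => h3 x hx x hx' rfl⟩
  have d1 : ∀ n, Sum.inr n ∈ A ++ B → n ∉ c := fun n hn hn' =>
    hnd.2.2 _ hn (List.mem_map_of_mem hn')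
  have d2 : ∀ n, Sum.inr n ∈ A' ++ B' → n ∉ c := fun n hn hn' =>
    hnd'.2.2 _ hn (List.mem_map_of_mem ((hcc n).2 hn'))
  have hcnd : c.Nodup := hnd.2.1.of_map _
  set F : List ℕ := frs (A ++ B) ++ (c ++ frs (A' ++ B')) with hF
  have memF : ∀ n, n ∈ F ↔ Sum.inr n ∈ A ++ B ∨ n ∈ c ∨ Sum.inr n ∈ A' ++ B' := by
    intro n
    rw [hF, List.mem_append, List.mem_append, mem_frs, mem_frs]
  have hFnd : F.Nodup := by
    rw [hF]
    refine List.nodup_append.2 ⟨frs_nodup hnd.1, List.nodup_append.2 ⟨hcnd, frs_nodup hnd'.1, ?_⟩, ?_⟩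
    · rintro n hn m hm rfl
      exact d2 n (mem_frs.1 hm) hn
    · rintro n hn m hm rfl
      rcases List.mem_append.1 hm with hm | hm
      · exact d1 n (mem_frs.1 hn) hm
      · exact hdis n (mem_frs.1 hm) (mem_frs.1 hn)
  set W : List (V ⊕ ℕ) := Sum.inl b :: (F.map Sum.inr ++ [Sum.inl b']) with hW
  have memW : ∀ x, x ∈ W ↔ x = Sum.inl b ∨ (∃ n ∈ F, x = Sum.inr n) ∨ x = Sum.inl b' := by
    intro x
    rw [hW, List.mem_cons, List.mem_append, List.mem_map, List.mem_singleton]
    constructor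
    · rintro (h1 | ⟨n, hn, rfl⟩ | h1)
      · exact Or.inl h1
      · exact Or.inr (Or.inl ⟨n, hn, rfl⟩)
      · exact Or.inr (Or.inr h1)
    · rintro (h1 | ⟨n, hn, rfl⟩ | h1)
      · exact Or.inl h1
      · exact Or.inr (Or.inl ⟨n, hn, rfl⟩)
      · exact Or.inr (Or.inr h1)
  have hWnd : W.Nodup := by
    rw [hW]
    refine List.nodup_cons.2 ⟨?_, List.nodup_append.2 ⟨hFnd.map Sum.inr_injective, by simp, ?_⟩⟩
    · simp [hbb]
    · rintro x hx y hy rfl
      rw [List.mem_singleton] at hy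
      subst hy
      simp at hx
  set E : List ((V ⊕ ℕ) × (V ⊕ ℕ)) := (fe ++ fe').map (fun e => (e.1, Sum.inr e.2)) with hE
  have hdgE : ∀ v, dgE E v = dg fe v + dg fe' v := by
    intro v
    rw [hE, G3_dgE, dg_append]
  have hadj : ∀ x y, FAdj fe x y → adjE E x y := by
    rintro x y (⟨n, rfl, hn⟩ | ⟨n, rfl, hn⟩)
    · exact Or.inl (List.mem_map.2 ⟨_, List.mem_append_left _ hn, rfl⟩)
    · exact Or.inr (List.mem_map.2 ⟨_, List.mem_append_left _ hn, rfl⟩)
  have hadj' : ∀ x y, FAdj fe' x y → adjE E x y := by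
    rintro x y (⟨n, rfl, hn⟩ | ⟨n, rfl, hn⟩)
    · exact Or.inl (List.mem_map.2 ⟨_, List.mem_append_right _ hn, rfl⟩)
    · exact Or.inr (List.mem_map.2 ⟨_, List.mem_append_right _ hn, rfl⟩)
  have hconn : ∀ {x y}, Conn fe x y → Relation.ReflTransGen (adjE E) x y := by
    intro x y hxy
    induction hxy with
    | refl => exact .refl
    | tail _ h1 ih => exact ih.tail (hadj _ _ h1)
  have hconn' : ∀ {x y}, Conn fe' x y → Relation.ReflTransGen (adjE E) x y := by
    intro x y hxy
    induction hxy with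
    | refl => exact .refl
    | tail _ h1 ih => exact ih.tail (hadj' _ _ h1)
  -- letters are connected
  have hlet : ∀ i j, Reach u (tp h u') i j → ∀ n m : ℕ, (c)[i]? = some n → (c)[j]? = some m →
      Relation.ReflTransGen (adjE E) (Sum.inr n) (Sum.inr m) := by
    intro i j hij
    induction hij with
    | refl =>
      intro n m hn hm
      rw [hn] at hm
      cases hm
      exact .refl
    | @tail j k hij hjk ih =>
      intro n m hn hm
      obtain ⟨hj, hk, hor⟩ := hjk
      rw [H.lenu] at hj hk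
      obtain ⟨p, hp⟩ : ∃ p, (c)[j]? = some p :=
        ⟨(c)[j]'(by rw [H.lenc]; exact hj), List.getElem?_eq_getElem _⟩
      refine (ih n p hn hp).trans ?_
      rcases hor with hor | hor
      · exact hconn (H.conn_id j k p m hp hm hor)
      · rw [G3_tp_get H'.lenu hj, G3_tp_get H'.lenu hk] at hor
        rw [← hc, G3_tp_get H'.lenc hj] at hp
        rw [← hc, G3_tp_get H'.lenc hk] at hm
        exact hconn' (H'.conn_id _ _ p m hp hm hor)
  have hlets : ∀ n m, n ∈ c → m ∈ c → Relation.ReflTransGen (adjE E) (Sum.inr n) (Sum.inr m) := by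
    intro n m hn hm
    obtain ⟨i, hi, rfl⟩ := List.getElem_of_mem hn
    obtain ⟨j, hj, rfl⟩ := List.getElem_of_mem hm
    exact hlet i j (hlink i j (by rw [← H.lenc]; exact hi) (by rw [← H.lenc]; exact hj)) _ _
      (List.getElem?_eq_getElem _) (List.getElem?_eq_getElem _)
  have hsymm : ∀ {x y}, Relation.ReflTransGen (adjE E) x y → Relation.ReflTransGen (adjE E) y x := by
    intro x y hxy
    induction hxy with
    | refl => exact .refl
    | tail _ h1 ih => exact Relation.ReflTransGen.head (Or.symm h1) ih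
  -- the roots
  obtain ⟨r, hrc, hr⟩ : ∃ r, r ∈ c ∧ Relation.ReflTransGen (adjE E) (Sum.inl b) (Sum.inr r) := by
    have h0 : 0 ∈ u := by
      rw [← List.count_pos_iff, H.tw.1]; exact Nat.one_pos
    obtain ⟨i, hi, h0⟩ := List.getElem_of_mem h0
    have hi' : i < c.length := by rw [H.lenc, ← H.lenu]; exact hi
    refine ⟨(c)[i]'hi', List.getElem_mem _, hconn (H.conn_root i _ (List.getElem?_eq_getElem _) ?_)⟩
    rw [List.getElem?_eq_getElem hi, h0]
  obtain ⟨r', hrc', hr'⟩ : ∃ r, r ∈ c ∧ Relation.ReflTransGen (adjE E) (Sum.inl b') (Sum.inr r) := by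
    have h0 : 0 ∈ u' := by
      rw [← List.count_pos_iff, H'.tw.1]; exact Nat.one_pos
    obtain ⟨i, hi, h0⟩ := List.getElem_of_mem h0
    have hi' : i < c'.length := by rw [H'.lenc, ← H'.lenu]; exact hi
    refine ⟨c'[i]'hi', (hcc _).1 (List.getElem_mem _),
      hconn' (H'.conn_root i _ (List.getElem?_eq_getElem _) ?_)⟩
    rw [List.getElem?_eq_getElem hi, h0]
  have hall : ∀ x ∈ W, Relation.ReflTransGen (adjE E) (Sum.inl b) x := by
    intro x hx
    rcases (memW x).1 hx with rfl | ⟨n, hn, rfl⟩ | rfl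
    · exact .refl
    · rcases (memF n).1 hn with h1 | h1 | h1
      · obtain ⟨m, hm, h2⟩ := H.conn_st n h1
        exact hr.trans ((hlets r m hrc hm).trans (hsymm (hconn h2)))
      · exact hr.trans (hlets r n hrc h1)
      · obtain ⟨m, hm, h2⟩ := H'.conn_st n h1
        exact hr.trans ((hlets r m hrc ((hcc m).1 hm)).trans (hsymm (hconn' h2)))
    · exact hr.trans ((hlets r r' hrc hrc').trans (hsymm hr'))
  have hEW : ∀ e ∈ E, e.1 ∈ W ∧ e.2 ∈ W ∧ e.1 ≠ e.2 := by
    intro e he
    obtain ⟨f, hf, rfl⟩ := List.mem_map.1 he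
    rcases List.mem_append.1 hf with hf | hf
    · obtain ⟨h1, h2, h3⟩ := H.ends hf
      refine ⟨(memW _).2 ?_, (memW _).2 ?_, h3⟩
      · rcases h1 with h1 | ⟨n, hn, h1⟩
        · exact Or.inl h1
        · exact Or.inr (Or.inl ⟨n, (memF n).2 (h1.elim Or.inl (fun h => Or.inr (Or.inl h))), hn⟩)
      · exact Or.inr (Or.inl ⟨f.2, (memF _).2 (h2.elim Or.inl (fun h => Or.inr (Or.inl h))), rfl⟩)
    · obtain ⟨h1, h2, h3⟩ := H'.ends hf
      refine ⟨(memW _).2 ?_, (memW _).2 ?_, h3⟩
      · rcases h1 with h1 | ⟨n, hn, h1⟩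
        · exact Or.inr (Or.inr h1)
        · exact Or.inr (Or.inl ⟨n, (memF n).2 (h1.elim (fun h => Or.inr (Or.inr h))
            (fun h => Or.inr (Or.inl ((hcc n).1 h)))), hn⟩)
      · exact Or.inr (Or.inl ⟨f.2, (memF _).2 (h2.elim (fun h => Or.inr (Or.inr h))
            (fun h => Or.inr (Or.inl ((hcc _).1 h)))), rfl⟩)
  have hdb : dgE E (Sum.inl b) ≤ 1 := by
    rw [hdgE]
    have h1 := H.deg (Sum.inl b)
    have h2 := H'.deg (Sum.inl b)
    rw [cap_inl, if_pos rfl] at h1
    rw [cap_inl, if_neg hbb] at h2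
    omega
  have hdb' : dgE E (Sum.inl b') ≤ 1 := by
    rw [hdgE]
    have h1 := H.deg (Sum.inl b')
    have h2 := H'.deg (Sum.inl b')
    rw [cap_inl, if_neg (Ne.symm hbb)] at h1
    rw [cap_inl, if_pos rfl] at h2
    omega
  have hdeg : ∀ x ∈ W, dgE E x ≤ 2 := by
    intro x hx
    rcases (memW x).1 hx with rfl | ⟨n, hn, rfl⟩ | rfl
    · omega
    · rw [hdgE]
      rcases (memF n).1 hn with h1 | h1 | h1
      · have h2 := H.deg (Sum.inr n)
        have h3 : dg fe' (Sum.inr n) = 0 := H'.dg_zero (by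
          intro h4
          rcases List.mem_append.1 h4 with h4 | h4
          · exact hdis n h4 h1
          · exact d1 n h1 ((hcc n).1 (by simpa using h4)))
        rw [cap_inr] at h2
        omega
      · have h2 := H.degc n h1
        have h3 := H'.degc n ((hcc n).2 h1)
        omega
      · have h2 := H'.deg (Sum.inr n)
        have h3 : dg fe (Sum.inr n) = 0 := H.dg_zero (by
          intro h4
          rcases List.mem_append.1 h4 with h4 | h4
          · exact hdis n h1 h4
          · exact d2 n h1 (by simpa using h4))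
        rw [cap_inr] at h2
        omega
    · omega
  obtain ⟨L, hLW, hhead, hlast, hcons⟩ := ham E W hEW hWnd hdeg ((memW _).2 (Or.inl rfl))
    ((memW _).2 (Or.inr (Or.inr rfl))) (by simp [hbb]) hdb hdb' hall
  -- shape of `L`
  obtain ⟨mid, hmid⟩ : ∃ mid, L = Sum.inl b :: (mid ++ [Sum.inl b']) := by
    cases L with
    | nil => simp at hhead
    | cons x L' =>
      simp only [List.head?_cons, Option.some.injEq] at hhead
      subst hhead
      cases L' using List.reverseRecOn with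
      | nil =>
        simp only [List.getLast?_singleton, Option.some.injEq, Sum.inl.injEq] at hlast
        exact absurd hlast hbb
      | append_singleton L'' y =>
        rw [← List.cons_append, List.getLast?_append] at hlast
        simp only [List.getLast?_singleton, Option.some_or, Option.some.injEq] at hlast
        subst hlast
        exact ⟨L'', rfl⟩
  have hperm : mid.Perm (F.map Sum.inr) := by
    rw [hmid, hW] at hLW
    exact (List.perm_append_right_iff _).1 ((List.perm_cons _).1 hLW)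
  have hmid' : mid = (frs mid).map Sum.inr := by
    refine eq_map_frs mid (fun x hx => ?_)
    obtain ⟨n, _, hn⟩ := List.mem_map.1 (hperm.mem_iff.1 hx)
    exact ⟨n, hn.symm⟩
  have hsp : (frs mid).Perm F := by
    have := hperm.filterMap (fun x => Sum.elim (fun _ => none) (fun n => some n) x)
    have h2 := frs_map_inr (V := V) F
    unfold frs at h2 ⊢
    rwa [h2] at this
  refine ⟨frs mid, hsp.nodup_iff.2 hFnd, fun n => by rw [hsp.mem_iff]; exact memF n, ?_⟩
  intro e he
  obtain ⟨L1, L2, hL⟩ := hcons (e.1, Sum.inr e.2) (List.mem_map.2 ⟨e, he, rfl⟩)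
  unfold SpAdj
  rw [← hmid', ← hmid]
  rcases hL with hL | hL
  · exact Or.inl ⟨L1, L2, hL⟩
  · exact Or.inr ⟨L1, L2, hL⟩

end Pool.Agent.FLV
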