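import Pool.Agent.FLV.G1
import Pool.Agent.FLV.G2
import Pool.Agent.FLV.G3

/-!
# Gluing the two halves

PROOF.  `AF.half` on both sides, `Half.adapt`, `spine`.  `X = (A ++ (c.take (h+1)).map inr) ++ A'.reverse`,
`Y = (B ++ (c.drop (h+1)).map inr) ++ B'.reverse`.  Since `tp h c' = c`:
`X = A ++ (A' ++ (c'.take (h+1)).map inr).reverse`, `Y = B ++ (B' ++ (c'.drop (h+1)).map inr).reverse`.
`|X| + |Y| = N + N' + 1`.  Sums `s < N`: `H.cov` (`CovI.mono`); sums `N ≤ s < N + N'`: `s' = N + N' - 1 - s < N'` is realised on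
the right by positions `i, j`; in `X, Y` these are the positions `|X| - 1 - i`, `|Y| - 1 - j` with sum `s`.  Edges in `EE` are
edges of `G` or edges of `fe`, `fe'`, i.e. consecutive on the spine (`spine`).
Permutation: both sides are nodup with the same elements (`H.nodup`, `H'.nodup`, `H.mem`, `H'.mem`, `hSV`, `spine`).
-/

set_option autoImplicit false

namespace Pool.Agent.FLV

theorem G4_covAt {U : Type*} {E E' : U → U → Prop} {X Y : List U} {s : ℕ} (h : CovAt E X Y s)
    (hE : ∀ x y, E x y → E' x y ∨ E' y x) {X' Y' : List U}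
    (hX : ∀ (i : ℕ) x, X[i]? = some x → X'[i]? = some x)
    (hY : ∀ (i : ℕ) x, Y[i]? = some x → Y'[i]? = some x) : CovAt E' X' Y' s := by
  obtain ⟨i, j, x, y, h1, h2, h3, h4⟩ := h
  refine ⟨i, j, x, y, hX i x h1, hY j y h2, h3, ?_⟩
  rcases h4 with h4 | h4
  · exact hE x y h4
  · exact (hE y x h4).symm

theorem G4_append {U : Type*} (L M : List U) (i : ℕ) (x : U) (h : L[i]? = some x) :
    (L ++ M)[i]? = some x := by
  have hi : i < L.length := by
    by_contra h'
    rw [List.getElem?_eq_none (by omega)] at h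
    exact absurd h (by simp)
  rw [List.getElem?_append_left hi]
  exact h

theorem G4_rev {U : Type*} (L M : List U) (i : ℕ) (x : U) (h : M[i]? = some x) :
    i < M.length ∧ (L ++ M.reverse)[(L ++ M.reverse).length - 1 - i]? = some x := by
  have hi : i < M.length := by
    by_contra h'
    rw [List.getElem?_eq_none (by omega)] at h
    exact absurd h (by simp)
  refine ⟨hi, ?_⟩
  rw [List.length_append, List.length_reverse]
  rw [List.getElem?_append_right (by omega)]
  rw [List.getElem?_reverse (by omega)]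
  rw [← h]
  congr 1
  omega

theorem G4_tp {α : Type*} {h : ℕ} {c c' : List α} (hc : tp h c' = c)
    (hl : c'.length = 2 * h + 1) :
    c.take (h + 1) = (c'.take (h + 1)).reverse ∧ c.drop (h + 1) = (c'.drop (h + 1)).reverse ∧
      c.Perm c' := by
  have h1 : ((c'.take (h + 1)).reverse).length = h + 1 := by
    rw [List.length_reverse, List.length_take]; omega
  refine ⟨?_, ?_, ?_⟩
  · rw [← hc, tp, List.take_append_of_le_length (by omega), List.take_of_length_le (by omega)]
  · rw [← hc, tp, List.drop_append_of_le_length (by omega), List.drop_of_length_le (by omega),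
      List.nil_append]
  · rw [← hc, tp]
    refine ((List.reverse_perm _).append (List.reverse_perm _)).trans ?_
    rw [List.take_append_drop]

theorem glue {V : Type*} [DecidableEq V] {G : V → V → Prop} {col : V → Bool} {b b' : V}
    {SV SV' : List V} {h : ℕ} {u u' : List ℕ} {N N' : ℕ}
    (H : AF G col b SV h u N) (H' : AF G col b' SV' h u' N') (hSV : ∀ a ∈ SV, a ∉ SV')
    (hnd : SV.Nodup) (hnd' : SV'.Nodup) (hb : b ∈ SV) (hb' : b' ∈ SV')
    (hlink : ∀ i j, i < 2 * h + 1 → j < 2 * h + 1 → Reach u (tp h u') i j) :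
    ∃ (X Y : List (V ⊕ ℕ)) (sp : List ℕ), sp.Nodup ∧
      (X ++ Y).Perm ((SV ++ SV').map Sum.inl ++ sp.map Sum.inr) ∧
      X.length + Y.length = N + N' + 1 ∧
      CovI (fun x y => (∃ a c, x = Sum.inl a ∧ y = Sum.inl c ∧ G a c) ∨ SpAdj b b' sp x y)
        X Y 0 (N + N') := by
  obtain ⟨fe, A, B, c, HH, hN⟩ := H.half
  obtain ⟨fe', A', B', c', HH', hN'⟩ := H'.half
  obtain ⟨fe'', A'', B'', c'', K, hA, hB, hc, hdis⟩ := HH.adapt HH'
  obtain ⟨hct, hcd, hcp⟩ := G4_tp hc K.lenc
  obtain ⟨sp, hsp, hmem, hedge⟩ := spine HH K hc hdis hSV hb hb' hlink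
  set X' : List (V ⊕ ℕ) := A'' ++ (c''.take (h + 1)).map Sum.inr with hX'
  set Y' : List (V ⊕ ℕ) := B'' ++ (c''.drop (h + 1)).map Sum.inr with hY'
  have eX : (A ++ (c.take (h + 1)).map Sum.inr) ++ A''.reverse = A ++ X'.reverse := by
    rw [hX', hct, List.reverse_append, ← List.map_reverse, List.append_assoc]
  have eY : (B ++ (c.drop (h + 1)).map Sum.inr) ++ B''.reverse = B ++ Y'.reverse := by
    rw [hY', hcd, List.reverse_append, ← List.map_reverse, List.append_assoc]
  have lX' : X'.length = A''.length + (h + 1) := by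
    rw [hX', List.length_append, List.length_map, List.length_take, K.lenc]; omega
  have lY' : Y'.length = B''.length + h := by
    rw [hY', List.length_append, List.length_map, List.length_drop, K.lenc]; omega
  -- adjacency
  have hE : ∀ x y, EE G fe x y ∨ EE G fe'' x y →
      ((∃ a c, x = Sum.inl a ∧ y = Sum.inl c ∧ G a c) ∨ SpAdj b b' sp x y) ∨
      ((∃ a c, y = Sum.inl a ∧ x = Sum.inl c ∧ G a c) ∨ SpAdj b b' sp y x) := by
    have aux : ∀ x y, (∃ n, y = Sum.inr n ∧ (x, n) ∈ fe ++ fe'') →
        SpAdj b b' sp x y ∨ SpAdj b b' sp y x := by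
      rintro x y ⟨n, rfl, hn⟩
      exact hedge _ hn
    intro x y hxy
    have h1 : (∃ a c, x = Sum.inl a ∧ y = Sum.inl c ∧ G a c) ∨
        (∃ n, y = Sum.inr n ∧ (x, n) ∈ fe ++ fe'') ∨ (∃ n, x = Sum.inr n ∧ (y, n) ∈ fe ++ fe'') := by
      rcases hxy with (h1 | ⟨n, h1, h2⟩ | ⟨n, h1, h2⟩) | (h1 | ⟨n, h1, h2⟩ | ⟨n, h1, h2⟩)
      · exact Or.inl h1
      · exact Or.inr (Or.inl ⟨n, h1, List.mem_append_left _ h2⟩)
      · exact Or.inr (Or.inr ⟨n, h1, List.mem_append_left _ h2⟩)
      · exact Or.inl h1
      · exact Or.inr (Or.inl ⟨n, h1, List.mem_append_right _ h2⟩)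
      · exact Or.inr (Or.inr ⟨n, h1, List.mem_append_right _ h2⟩)
    rcases h1 with h1 | h1 | h1
    · exact Or.inl (Or.inl h1)
    · rcases aux x y h1 with h2 | h2
      · exact Or.inl (Or.inr h2)
      · exact Or.inr (Or.inr h2)
    · rcases aux y x h1 with h2 | h2
      · exact Or.inr (Or.inr h2)
      · exact Or.inl (Or.inr h2)
  refine ⟨(A ++ (c.take (h + 1)).map Sum.inr) ++ A''.reverse,
    (B ++ (c.drop (h + 1)).map Sum.inr) ++ B''.reverse, sp, hsp, ?_, ?_, ?_⟩
  · -- permutation
    have n1 := HH.nodup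
    have n2 := K.nodup
    have m1 : ∀ x, x ∈ c ↔ x ∈ c'' := fun x => hcp.mem_iff
    have hperm : ((A ++ (c.take (h + 1)).map Sum.inr) ++ A''.reverse ++
        ((B ++ (c.drop (h + 1)).map Sum.inr) ++ B''.reverse)).Perm
        ((A ++ B ++ c.map Sum.inr) ++ (A'' ++ B'')) := by
      have e1 : (c.map Sum.inr : List (V ⊕ ℕ)) =
          (c.take (h + 1)).map Sum.inr ++ (c.drop (h + 1)).map Sum.inr := by
        rw [← List.map_append, List.take_append_drop]
      rw [e1, ← Multiset.coe_eq_coe]
      simp only [← Multiset.coe_add, Multiset.coe_reverse]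
      abel
    have hd : ((A ++ B ++ c.map Sum.inr) ++ (A'' ++ B'')).Nodup := by
      rw [List.nodup_append']
      refine ⟨n1, (List.nodup_append'.1 n2).1, ?_⟩
      intro x hx hx'
      rw [List.mem_append] at hx
      rcases hx with hx | hx
      · rcases x with a | n
        · exact hSV a ((HH.mem a).1 hx) ((K.mem a).1 hx')
        · exact hdis n hx' hx
      · obtain ⟨n, hn, rfl⟩ := List.mem_map.1 hx
        refine (List.nodup_append'.1 n2).2.2 hx' ?_
        exact List.mem_map.2 ⟨n, (m1 n).1 hn, rfl⟩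
    refine hperm.trans ((List.perm_ext_iff_of_nodup hd ?_).2 ?_)
    · rw [List.nodup_append']
      refine ⟨?_, hsp.map Sum.inr_injective, ?_⟩
      · refine List.Nodup.map Sum.inl_injective ?_
        rw [List.nodup_append']
        exact ⟨hnd, hnd', fun a h1 h2 => hSV a h1 h2⟩
      · intro x h1 h2
        obtain ⟨a, _, rfl⟩ := List.mem_map.1 h1
        obtain ⟨n, _, h3⟩ := List.mem_map.1 h2
        exact absurd h3 (by simp)
    · intro x
      rcases x with a | n
      · have k1 := HH.mem a
        have k2 := K.mem a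
        simp only [List.mem_append, List.mem_map, reduceCtorEq, and_false, exists_false, or_false,
          Sum.inl.injEq, exists_eq_right] at k1 k2 ⊢
        rw [k1, k2]
      · have k1 := hmem n
        simp only [List.mem_append, List.mem_map, reduceCtorEq, and_false, exists_false, false_or,
          Sum.inr.injEq, exists_eq_right] at k1 ⊢
        rw [k1]
        tauto
  · rw [eX, eY]
    simp only [List.length_append, List.length_reverse, lX', lY']
    omega
  · intro s hs0 hs
    rcases Nat.lt_or_ge s N with hsN | hsN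
    · have h1 := HH.cov s hs0 (by omega)
      exact G4_covAt h1 (fun x y h => hE x y (Or.inl h)) (fun i x => G4_append _ _ i x)
        (fun i x => G4_append _ _ i x)
    · obtain ⟨i, j, x, y, h1, h2, h3, h4⟩ := K.cov (N + N' - 1 - s) (Nat.zero_le _) (by omega)
      obtain ⟨i1, i2⟩ := G4_rev A X' i x h1
      obtain ⟨j1, j2⟩ := G4_rev B Y' j y h2
      rw [← eX] at i2
      rw [← eY] at j2
      refine ⟨_, _, x, y, i2, j2, ?_, ?_⟩
      · rw [eX, eY]
        simp only [List.length_append, List.length_reverse]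
        omega
      · rcases h4 with h4 | h4
        · exact hE x y (Or.inr h4)
        · exact (hE y x (Or.inr h4)).symm

end Pool.Agent.FLV
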