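import Mathlib

/-!
# Planned sizes

`nominal`: process the pairs `(M, a)` one after another.  For one pair: choose the first `a - 2` entries greedily close to
`M / a` with distance `≥ D` to everything chosen before, keeping the partial sums within a bounded distance of
`i M / a`; then `C = M - (partial sum)` has to be divided in two parts `t, C - t` near `C / 2` which have distance
`≥ D` to everything chosen before and to each other: each earlier value forbids at most `2 (2 D + 1)` values of `t`, so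
among `(2 D + 1) (2 p H + 2)` consecutive values `t` there is a good one.  `K` only depends on `p, H, D`.
(Simpler bookkeeping: prove by induction on the list `Ms` the version with an additional list `U` of at most `p H`
numbers to be avoided.)
-/

set_option autoImplicit false

namespace Pool.Agent.FLV

private theorem Nom_pick (D N : ℕ) (U : List ℕ) (hU : U.length ≤ N) (s : ℕ) :
    ∃ x, s ≤ x ∧ x < s + (2 * D * N + 1) ∧ ∀ u ∈ U, x + D ≤ u ∨ u + D ≤ x := by
  classical
  set B : Finset ℕ := U.toFinset.biUnion (fun u => Finset.Ico (u + 1 - D) (u + D)) with hB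
  have hcard : B.card ≤ 2 * D * N := by
    calc B.card ≤ ∑ u ∈ U.toFinset, (Finset.Ico (u + 1 - D) (u + D)).card :=
          Finset.card_biUnion_le
      _ ≤ ∑ _u ∈ U.toFinset, 2 * D := by
          refine Finset.sum_le_sum fun u _ => ?_
          rw [Nat.card_Ico]; omega
      _ = U.toFinset.card * (2 * D) := by simp
      _ ≤ N * (2 * D) := Nat.mul_le_mul_right _ ((List.toFinset_card_le U).trans hU)
      _ = 2 * D * N := by ring
  have hlt : B.card < (Finset.Ico s (s + (2 * D * N + 1))).card := by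
    rw [Nat.card_Ico]; omega
  obtain ⟨x, hx, hxB⟩ := Finset.exists_mem_notMem_of_card_lt_card hlt
  rw [Finset.mem_Ico] at hx
  refine ⟨x, hx.1, hx.2, fun u hu => ?_⟩
  by_contra hcon
  push Not at hcon
  apply hxB
  rw [hB, Finset.mem_biUnion]
  refine ⟨u, by simpa using hu, ?_⟩
  rw [Finset.mem_Ico]
  omega

private theorem Nom_greedy (D N : ℕ) (s : ℕ) : ∀ (n : ℕ) (U : List ℕ), U.length + n ≤ N →
    ∃ l : List ℕ, l.length = n ∧ (∀ x ∈ l, s ≤ x ∧ x < s + (2 * D * N + 1)) ∧
      (∀ x ∈ l, ∀ u ∈ U, x + D ≤ u ∨ u + D ≤ x) ∧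
      l.Pairwise (fun x y => x + D ≤ y ∨ y + D ≤ x)
  | 0, U, _ => ⟨[], by simp⟩
  | n + 1, U, h => by
    obtain ⟨x, hx1, hx2, hx3⟩ := Nom_pick D N U (by omega) s
    obtain ⟨l, hl1, hl2, hl3, hl4⟩ := Nom_greedy D N s n (x :: U) (by simp; omega)
    refine ⟨x :: l, by simp [hl1], ?_, ?_, ?_⟩
    · intro y hy
      rcases List.mem_cons.1 hy with rfl | hy
      · exact ⟨hx1, hx2⟩
      · exact hl2 y hy
    · intro y hy u hu
      rcases List.mem_cons.1 hy with rfl | hy
      · exact hx3 u hu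
      · exact hl3 y hy u (List.mem_cons_of_mem _ hu)
    · rw [List.pairwise_cons]
      refine ⟨fun y hy => ?_, hl4⟩
      have := hl3 y hy x List.mem_cons_self
      tauto

private theorem Nom_one (D N H W W2 K0 : ℕ) (hW : W = 2 * D * N + 1) (hW2 : W2 = 2 * D * (2 * N) + 1)
    (hK0 : K0 = H * W + D + 3 + W2 + H)
    (M b : ℕ) (hb : b + 2 ≤ H) (hM : (H + 1) * (K0 + 2) ≤ M) (U : List ℕ)
    (hU : U.length + (b + 2) ≤ N) :
    ∃ l : List ℕ, l.length = b + 2 ∧ l.sum = M ∧
      (∀ ν ∈ l, (b + 2) * ν ≤ M + (b + 2) * K0 ∧ M ≤ (b + 2) * ν + (b + 2) * (K0 + 1)) ∧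
      (∀ x ∈ l, ∀ u ∈ U, x + D ≤ u ∨ u + D ≤ x) ∧
      l.Pairwise (fun x y => x + D ≤ y ∨ y + D ≤ x) := by
  obtain ⟨q, r, hr, hMq⟩ : ∃ q r, r < b + 2 ∧ M = (b + 2) * q + r :=
    ⟨M / (b + 2), M % (b + 2), Nat.mod_lt _ (by omega), (Nat.div_add_mod M (b + 2)).symm⟩
  have hq : K0 + 2 ≤ q := by
    by_contra hcon
    have h1 : q + 1 ≤ K0 + 2 := by omega
    have h2 : (b + 2) * q + r < (b + 2) * (q + 1) := by
      rw [Nat.mul_add]; omega
    have h3 : (b + 2) * (q + 1) ≤ (H + 1) * (K0 + 2) := Nat.mul_le_mul (by omega) h1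
    omega
  obtain ⟨l, hl1, hl2, hl3, hl4⟩ := Nom_greedy D N q b U (by omega)
  have hs1 : b * q ≤ l.sum := by
    have := List.card_nsmul_le_sum l q (fun x hx => (hl2 x hx).1)
    simpa [hl1] using this
  have hs2 : l.sum ≤ b * (q + W) := by
    have := List.sum_le_card_nsmul l (q + W) (fun x hx => by
      have := (hl2 x hx).2; omega)
    simpa [hl1] using this
  have hbW : b * W ≤ H * W := Nat.mul_le_mul_right _ (by omega)
  obtain ⟨S, hS⟩ : ∃ S, l.sum = b * q + S := ⟨l.sum - b * q, by omega⟩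
  have hS2 : S ≤ H * W := by
    have : b * (q + W) = b * q + b * W := by ring
    omega
  set C : ℕ := 2 * q + r - S with hC
  have hCeq : C + S = 2 * q + r := by omega
  have hMC : l.sum + C = M := by
    rw [hS, hMq]
    have : (b + 2) * q = b * q + 2 * q := by ring
    omega
  obtain ⟨t, ht1, ht2, ht3⟩ := Nom_pick D (2 * N) ((l ++ U) ++ (l ++ U).map (fun v => C - v))
    (by simp [hl1]; omega) (C / 2 + D + 1)
  have htC : t ≤ C := by omega
  have hapart : ∀ v ∈ l ++ U, (t + D ≤ v ∨ v + D ≤ t) ∧ (C - t + D ≤ v ∨ v + D ≤ C - t) := by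
    intro v hv
    refine ⟨ht3 v (List.mem_append_left _ hv), ?_⟩
    have := ht3 (C - v) (List.mem_append_right _ (List.mem_map_of_mem hv))
    omega
  have hbd : ∀ ν, q ≤ ν + K0 → ν ≤ q + K0 →
      ((b + 2) * ν ≤ M + (b + 2) * K0 ∧ M ≤ (b + 2) * ν + (b + 2) * (K0 + 1)) := by
    intro ν h1 h2
    constructor
    · have := Nat.mul_le_mul_left (b + 2) h2
      rw [Nat.mul_add] at this
      omega
    · have := Nat.mul_le_mul_left (b + 2) h1
      rw [Nat.mul_add] at this
      have h3 : (b + 2) * (K0 + 1) = (b + 2) * K0 + (b + 2) := by ring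
      omega
  refine ⟨t :: (C - t) :: l, by simp [hl1], ?_, ?_, ?_, ?_⟩
  · simp only [List.sum_cons]; omega
  · intro ν hν
    rcases List.mem_cons.1 hν with rfl | hν
    · exact hbd _ (by omega) (by omega)
    · rcases List.mem_cons.1 hν with rfl | hν
      · exact hbd _ (by omega) (by omega)
      · have := hl2 ν hν
        exact hbd _ (by omega) (by
          have : W ≤ H * W := Nat.le_mul_of_pos_left _ (by omega)
          omega)
  · intro x hx u hu
    rcases List.mem_cons.1 hx with rfl | hx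
    · exact (hapart u (List.mem_append_right _ hu)).1
    · rcases List.mem_cons.1 hx with rfl | hx
      · exact (hapart u (List.mem_append_right _ hu)).2
      · exact hl3 x hx u hu
  · rw [List.pairwise_cons, List.pairwise_cons]
    refine ⟨fun y hy => ?_, fun y hy => ?_, hl4⟩
    · rcases List.mem_cons.1 hy with rfl | hy
      · right; omega
      · exact (hapart y (List.mem_append_left _ hy)).1
    · exact (hapart y (List.mem_append_left _ hy)).2

private theorem Nom_main (D N H W W2 K0 : ℕ) (hW : W = 2 * D * N + 1)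
    (hW2 : W2 = 2 * D * (2 * N) + 1) (hK0 : K0 = H * W + D + 3 + W2 + H) :
    ∀ (Ms as U : List ℕ), U.length + H * Ms.length ≤ N →
    List.Forall₂ (fun M a => 2 ≤ a ∧ a ≤ H ∧ (H + 1) * (K0 + 2) ≤ M) Ms as →
    ∃ ann : List (List ℕ), ann.map List.sum = Ms ∧ ann.map List.length = as ∧
      List.Forall₂ (fun M a => ∀ ν ∈ a, a.length * ν ≤ M + a.length * ((H + 1) * (K0 + 2)) ∧
        M ≤ a.length * ν + a.length * ((H + 1) * (K0 + 2))) Ms ann ∧
      (∀ x ∈ ann.flatten, ∀ u ∈ U, x + D ≤ u ∨ u + D ≤ x) ∧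
      ann.flatten.Pairwise (fun x y => x + D ≤ y ∨ y + D ≤ x) := by
  intro Ms
  induction Ms with
  | nil =>
    intro as U _ h
    cases h
    exact ⟨[], by simp⟩
  | cons M Ms ih =>
    intro as U hN h
    cases h with
    | @cons _ a _ as' hMa hrest =>
      obtain ⟨ha1, ha2, hM⟩ := hMa
      obtain ⟨b, rfl⟩ : ∃ b, a = b + 2 := ⟨a - 2, by omega⟩
      rw [List.length_cons, Nat.mul_add, Nat.mul_one] at hN
      obtain ⟨l, hl1, hl2, hl3, hl4, hl5⟩ := Nom_one D N H W W2 K0 hW hW2 hK0 M b ha2 hM U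
        (by omega)
      obtain ⟨ann, h1, h2, h3, h4, h5⟩ := ih as' (l ++ U) (by
        rw [List.length_append, hl1]; omega) hrest
      refine ⟨l :: ann, by simp [hl2, h1], by simp [hl1, h2], List.Forall₂.cons ?_ h3, ?_, ?_⟩
      · intro ν hν
        obtain ⟨k1, k2⟩ := hl3 ν hν
        rw [hl1]
        have hK : K0 + 1 ≤ (H + 1) * (K0 + 2) := by nlinarith
        have e1 := Nat.mul_le_mul_left (b + 2) hK
        have e2 : (b + 2) * K0 ≤ (b + 2) * (K0 + 1) := Nat.mul_le_mul_left _ (by omega)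
        omega
      · intro x hx u hu
        rw [List.flatten_cons, List.mem_append] at hx
        rcases hx with hx | hx
        · exact hl4 x hx u hu
        · exact h4 x hx u (List.mem_append_right _ hu)
      · rw [List.flatten_cons, List.pairwise_append]
        refine ⟨hl5, h5, fun x hx y hy => ?_⟩
        have := h4 y hy x (List.mem_append_left _ hx)
        tauto

theorem nominal (p H D : ℕ) : ∃ K : ℕ, ∀ Ms as : List ℕ, Ms.length ≤ p →
    List.Forall₂ (fun M a => 2 ≤ a ∧ a ≤ H ∧ K ≤ M) Ms as →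
    ∃ ann : List (List ℕ), ann.map List.sum = Ms ∧ ann.map List.length = as ∧
      List.Forall₂ (fun M a => ∀ ν ∈ a, a.length * ν ≤ M + a.length * K ∧
        M ≤ a.length * ν + a.length * K) Ms ann ∧
      ann.flatten.Pairwise (fun x y => x + D ≤ y ∨ y + D ≤ x) := by
  refine ⟨(H + 1) * ((H * (2 * D * (H * p) + 1) + D + 3 + (2 * D * (2 * (H * p)) + 1) + H) + 2),
    fun Ms as hp h => ?_⟩
  obtain ⟨ann, h1, h2, h3, _, h5⟩ := Nom_main D (H * p) H _ _ _ rfl rfl rfl Ms as []
    (by simpa using Nat.mul_le_mul_left H hp) h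
  exact ⟨ann, h1, h2, h3, h5⟩

end Pool.Agent.FLV
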