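import Pool.Agent.FLV.Q5

/-!
# Phase 3: closing all piles

`phase3` PROOF: induction on `m`.  `m = 0`: nothing to do.  Step: choose a pile of minimal size `g`; all others are larger by at least
`(m + 1) C1`, `C1 = 100 (n + 2)` (`hsep`); write `es = es1 ++ pile x P x' :: es2`; `HInv.closePile`; the new sizes `g'_j` satisfy
`g_j - 2 K - C1 ≤ g'_j ≤ g_j - 2 K`, `2 K ≤ g`: so they are `≥ m C1`, pairwise separated by `m C1`, and
bounded by `M - 2 K`.  Time: `2 K (2 n + 3) + 2 C1 + (2 n + 3) (M - 2 K) + 2 m C1`.
(`List.Pairwise` of a symmetric relation is invariant under permutations.)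
-/

set_option autoImplicit false

namespace Pool.Agent.FLV

variable {V : Type*} [DecidableEq V] {G : V → V → Prop} {col : V → Bool} {b : V} {SV : List V}
  {n : ℕ} {fe : List ((V ⊕ ℕ) × ℕ)} {A B : List (V ⊕ ℕ)} {es : List (Elem V)}

theorem Q6_split {V : Type*} (es : List (Elem V)) {g : ℕ} (hg : g ∈ sizes es) :
    ∃ es1 x P x' es2, es = es1 ++ Elem.pile x P x' :: es2 ∧ P.length = g := by
  induction es with
  | nil => simp at hg
  | cons e es ih =>
    rw [sizes_cons, List.mem_append] at hg
    rcases hg with hg | hg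
    · cases e with
      | free s v => simp [Elem.sizes] at hg
      | pile x P x' =>
        simp only [Elem.sizes_pile, List.mem_singleton] at hg
        exact ⟨[], x, P, x', es, rfl, hg.symm⟩
    · obtain ⟨es1, x, P, x', es2, he, hP⟩ := ih hg
      exact ⟨e :: es1, x, P, x', es2, by rw [he]; rfl, hP⟩

theorem Q6_exists_min (l : List ℕ) (hl : l ≠ []) : ∃ g ∈ l, ∀ p ∈ l, g ≤ p := by
  induction l with
  | nil => exact absurd rfl hl
  | cons a l ih =>
    by_cases h : l = []
    · subst h
      exact ⟨a, by simp, fun p hp => by simp at hp; omega⟩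
    · obtain ⟨g, hg, hmin⟩ := ih h
      by_cases hag : a ≤ g
      · refine ⟨a, by simp, fun p hp => ?_⟩
        rcases List.mem_cons.1 hp with rfl | hp
        · exact le_rfl
        · exact hag.trans (hmin p hp)
      · refine ⟨g, List.mem_cons_of_mem _ hg, fun p hp => ?_⟩
        rcases List.mem_cons.1 hp with rfl | hp
        · omega
        · exact hmin p hp

theorem Q6_forall₂_mem {α β : Type*} {S : α → β → Prop} {l : List α} {l' : List β}
    (h : List.Forall₂ S l l') {y : β} (hy : y ∈ l') : ∃ x ∈ l, S x y := by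
  induction h with
  | nil => simp at hy
  | cons hab _ ih =>
    rcases List.mem_cons.1 hy with rfl | hy
    · exact ⟨_, by simp, hab⟩
    · obtain ⟨x, hx, hxy⟩ := ih hy
      exact ⟨x, List.mem_cons_of_mem _ hx, hxy⟩

theorem Q6_pairwise {α β : Type*} {S : α → β → Prop} {R : α → α → Prop} {R' : β → β → Prop}
    (hRR : ∀ a b a' b', S a a' → S b b' → R a b → R' a' b') {l : List α} {l' : List β}
    (h : List.Forall₂ S l l') (hp : l.Pairwise R) : l'.Pairwise R' := by
  induction h with
  | nil => exact List.Pairwise.nil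
  | cons hab ht ih =>
    rw [List.pairwise_cons] at hp ⊢
    refine ⟨fun y hy => ?_, ih hp.2⟩
    obtain ⟨x, hx, hxy⟩ := Q6_forall₂_mem ht hy
    exact hRR _ _ _ _ hab hxy (hp.1 x hx)

theorem phase3 (hG : ∀ a c, G a c → G c a) (hcol : ∀ a c, G a c → col a ≠ col c) (m M : ℕ)
    (H : HInv G col b SV (n + 1) fe A B es 0) (hm : (sizes es).length = m)
    (hsep : (sizes es).Pairwise (fun x y => x + m * (100 * (n + 2)) ≤ y ∨
      y + m * (100 * (n + 2)) ≤ x))
    (hlow : ∀ g ∈ sizes es, m * (100 * (n + 2)) ≤ g) (hM : ∀ g ∈ sizes es, g ≤ M) :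
    ∃ fe' A' B' es', HInv G col b SV (n + 1) fe' A' B' es' 0 ∧ sizes es' = [] ∧
      2 * (A'.length + B'.length) ≤
        2 * (A.length + B.length) + (2 * n + 3) * M + m * (200 * (n + 2)) := by
  induction m generalizing M fe A B es with
  | zero =>
    refine ⟨fe, A, B, es, H, List.length_eq_zero_iff.1 hm, ?_⟩
    have : 0 ≤ (2 * n + 3) * M := Nat.zero_le _
    omega
  | succ m ih =>
    have hne : sizes es ≠ [] := by
      intro h0
      rw [h0] at hm
      simp at hm
    obtain ⟨g, hg, hmin⟩ := Q6_exists_min _ hne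
    obtain ⟨es1, x, P, x', es2, hes, hPg⟩ := Q6_split es hg
    subst hes
    have hperm : (sizes (es1 ++ Elem.pile x P x' :: es2)).Perm (P.length :: sizes (es1 ++ es2)) := by
      simp only [sizes_append, sizes_cons, Elem.sizes_pile, List.singleton_append]
      exact List.perm_middle
    have hC : 0 < 100 * (n + 2) := by omega
    have hsep' := (hperm.pairwise_iff (R := fun x y => x + (m + 1) * (100 * (n + 2)) ≤ y ∨
      y + (m + 1) * (100 * (n + 2)) ≤ x) (fun {a b} h => h.symm)).1 hsep
    rw [List.pairwise_cons] at hsep'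
    obtain ⟨hs1, hs2⟩ := hsep'
    have hmC : (m + 1) * (100 * (n + 2)) = m * (100 * (n + 2)) + 100 * (n + 2) := by ring
    have hbig : ∀ p ∈ sizes (es1 ++ es2), P.length + (m + 1) * (100 * (n + 2)) ≤ p := by
      intro p hp
      have h1 := hs1 p hp
      have h2 : g ≤ p := hmin p (hperm.mem_iff.2 (List.mem_cons_of_mem _ hp))
      rcases h1 with h1 | h1
      · exact h1
      · omega
    have hPlow : (m + 1) * (100 * (n + 2)) ≤ P.length :=
      hlow _ (hperm.mem_iff.2 (by simp))
    obtain ⟨K, fe', A', B', es', l, H', hl, hF, hK, hlen⟩ :=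
      HInv.closePile hG hcol H (by omega) (fun p hp => by have := hbig p hp; omega)
    have hPM : P.length ≤ M := hM _ (hperm.mem_iff.2 (by simp))
    have hlm : l.length = m := by
      have h1 := hF.length_eq
      have h2 := hperm.length_eq
      rw [hm, List.length_cons] at h2
      omega
    obtain ⟨fe'', A'', B'', es'', H'', hsz, hle⟩ := ih (M - 2 * K) H'
      (by rw [← hl.length_eq]; exact hlm)
      (by
        refine (hl.pairwise_iff (fun {a b} h => h.symm)).1 ?_
        refine Q6_pairwise ?_ hF hs2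
        intro a c a' c' ha hc hac
        rcases hac with hac | hac
        · left; omega
        · right; omega)
      (by
        intro g' hg'
        obtain ⟨g1, hg1, h1, h2⟩ := Q6_forall₂_mem hF (hl.mem_iff.2 hg')
        have := hbig g1 hg1
        omega)
      (by
        intro g' hg'
        obtain ⟨g1, hg1, h1, h2⟩ := Q6_forall₂_mem hF (hl.mem_iff.2 hg')
        have : g1 ≤ M := hM g1 (hperm.mem_iff.2 (List.mem_cons_of_mem _ hg1))
        omega)
    refine ⟨fe'', A'', B'', es'', H'', hsz, ?_⟩
    obtain ⟨M', hM'⟩ : ∃ M', M = M' + 2 * K := ⟨M - 2 * K, by omega⟩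
    subst hM'
    rw [Nat.add_sub_cancel] at hle
    nlinarith

end Pool.Agent.FLV
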