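import Pool.Agent.FLV.Q4
import Pool.Agent.FLV.Q6
import Pool.Agent.FLV.Nom
import Pool.Agent.FLV.AFDefs

/-!
# Phases 2 and 3 together

`AF` (in AFDefs): a state without piles in which all vertices of the tree are settled.
`phase23` PROOF.  `n` piles at most, `h = m + 1 ≥ H1(n, τ)`.  If there is no pile: one `HInv.round` (to settle the root).
Otherwise let `S = ∑ M_e` (sum of the sizes), `p ≤ n` the number of piles, `h' = h - 3 n`, `a_e = h' M_e / S + 2` (floor):
`2 ≤ a_e ≤ h' + 2`, `∑ a_e ≤ h' + 2 p`, so `t = ∑ (a_e - 1) ≤ h' + p`.  `nominal` with `p = n`, `H = h`, `D` large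
(`D = C0 + m' C1` where `C0 = t (101 (m + 2))` is the error of phase 2 and `m' ≤ h + n` the number of piles in phase 3)
gives the plan.  `phase2` with `c = 0`, `l0 = sizes es`: free letters: `(ids es).length = 2 h + 1 - 2 p` (`lets_length`),
`tr ≤ p` (`tr_le`), so `2 p + 2 t + 3 ≤ 2 h + 3 - 2 p` is needed: `t ≤ h - 2 p`, true as `t ≤ h - 3 n + p`.
The planned sizes are at most `S / h' + 1 + K` (since `a_e ≥ h' M_e / S`, i.e. `M_e / a_e ≤ S / h'`), at least
`M_e / a_e - K`, which is large.  `phase3` with `M = S / h' + 1 + K`.  Then one `HInv.round`.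
Time: `(2 h + 1) (S / h' + 1 + K) / 2 + const`, and `(2 h + 1) / (2 h') ≤ 1 + 1 / τ` for `h` large compared with `n τ`.
-/

set_option autoImplicit false

namespace Pool.Agent.FLV

/-- without piles the list of all vertices is the circle word -/
theorem Q7_full {V : Type*} {es : List (Elem V)} (h : sizes es = []) : full es = lets es := by
  induction es with
  | nil => rfl
  | cons e es ih =>
    cases e with
    | free s v =>
      simp only [sizes_cons, Elem.sizes_free, List.nil_append] at h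
      simp [ih h]
    | pile x P x' => simp at h

theorem Q7_sizes_nil {V : Type*} {a c : ℕ} {es es' : List (Elem V)}
    (h : List.Forall₂ (Shr a c) es es') (h0 : sizes es = []) : sizes es' = [] := by
  have h1 := (shrL_sizes h).length_eq
  rw [h0] at h1
  exact List.length_eq_zero_iff.1 h1.symm

/-- the last round -/
theorem Q7_fin {V : Type} [DecidableEq V] {G : V → V → Prop} {col : V → Bool} {b : V} {SV : List V}
    {h : ℕ} {fe : List ((V ⊕ ℕ) × ℕ)} {A B : List (V ⊕ ℕ)} {es : List (Elem V)}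
    (hG : ∀ a c, G a c → G c a) (hcol : ∀ a c, G a c → col a ≠ col c)
    (H : HInv G col b SV h fe A B es 0) (h0 : sizes es = []) :
    ∃ u, AF G col b SV h u (A.length + B.length + (3 * h + 1)) := by
  obtain ⟨fe', C, D, es', H', hC, hD, hs, hsub⟩ := H.round hG hcol (by rw [h0]; simp)
  refine ⟨ids es', fe', B ++ C, A ++ D, es', H', Q7_sizes_nil hs h0, fun a ha => ?_, rfl, ?_⟩
  · have h1 := (H.core.mem a).2 ha
    rw [Q7_full h0] at h1
    exact hsub _ h1
  · simp only [List.length_append]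
    omega

theorem Q7_sum (q S : ℕ) (l : List ℕ) : (l.map fun M => q * M / S).sum * S ≤ q * l.sum := by
  induction l with
  | nil => simp
  | cons M l ih =>
    have h1 := Nat.div_mul_le_self (q * M) S
    simp only [List.map_cons, List.sum_cons]
    nlinarith

theorem Q7_sum_two (l : List ℕ) (f : ℕ → ℕ) :
    (l.map fun M => f M + 2).sum = (l.map f).sum + 2 * l.length := by
  induction l with
  | nil => simp
  | cons M l ih =>
    simp only [List.map_cons, List.sum_cons, List.length_cons, ih]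
    ring

theorem Q7_t (ann : List (List ℕ)) (h : ∀ a ∈ ann, 1 ≤ a.length) :
    (ann.map (fun a => a.length - 1)).sum + ann.length = (ann.map List.length).sum := by
  induction ann with
  | nil => simp
  | cons a ann ih =>
    have h1 := h a (by simp)
    have h2 := ih fun a ha => h a (by simp [ha])
    simp only [List.map_cons, List.sum_cons, List.length_cons]
    omega

theorem Q7_mem_sum (l : List ℕ) {M : ℕ} (h : M ∈ l) : M ≤ l.sum := by
  induction l with
  | nil => simp at h
  | cons a l ih =>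
    rw [List.sum_cons]
    rcases List.mem_cons.1 h with h1 | h1
    · omega
    · have := ih h1
      omega

/-- separation of the sizes from the separation of the planned sizes -/
theorem Q7_sep {D E F : ℕ} (hD : E + F ≤ D) {l fl : List ℕ}
    (h : List.Forall₂ (fun g ν => g ≤ ν ∧ ν ≤ g + E) l fl)
    (hs : fl.Pairwise (fun x y => x + D ≤ y ∨ y + D ≤ x)) :
    l.Pairwise (fun x y => x + F ≤ y ∨ y + F ≤ x) := by
  induction h with
  | nil => exact List.Pairwise.nil
  | @cons g ν l fl h1 h2 ih =>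
    rw [List.pairwise_cons] at hs ⊢
    refine ⟨fun g' hg' => ?_, ih hs.2⟩
    obtain ⟨ν', hν', h3⟩ : ∃ ν' ∈ fl, g' ≤ ν' ∧ ν' ≤ g' + E := by
      clear ih hs h1
      induction h2 with
      | nil => simp at hg'
      | @cons a c l fl h4 _ ih =>
        rcases List.mem_cons.1 hg' with h5 | h5
        · subst h5
          exact ⟨c, by simp, h4⟩
        · obtain ⟨ν', h6, h7⟩ := ih h5
          exact ⟨ν', by simp [h6], h7⟩
    rcases hs.1 ν' hν' with h4 | h4
    · left; omega
    · right; omega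

theorem Q7_mem {E : ℕ} {l fl : List ℕ}
    (h : List.Forall₂ (fun g ν => g ≤ ν ∧ ν ≤ g + E) l fl) {g : ℕ} (hg : g ∈ l) :
    ∃ ν ∈ fl, g ≤ ν ∧ ν ≤ g + E := by
  induction h with
  | nil => simp at hg
  | @cons a c l fl h4 _ ih =>
    rcases List.mem_cons.1 hg with h5 | h5
    · subst h5
      exact ⟨c, by simp, h4⟩
    · obtain ⟨ν', h6, h7⟩ := ih h5
      exact ⟨ν', by simp [h6], h7⟩

theorem Q7_time {τ S a a1 a2 c1 c2 c3 c4 c5 x k : ℕ} (n1 : a1 ≤ a + c3)
    (n2 : 2 * a2 ≤ 2 * a1 + (c5 + x) + c4) (e2 : c3 ≤ c1) (e3 : c4 ≤ c2)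
    (e1 : τ * x ≤ (2 * τ + 2) * S) :
    τ * (a2 + k) ≤ τ * (a + S + (c1 + c5 + c2 + k)) + S := by
  have e5 : 2 * (a2 + k) ≤ 2 * (a + (c1 + c5 + c2 + k)) + x := by omega
  have e6 := Nat.mul_le_mul_left τ e5
  have e7 : τ * (2 * (a + (c1 + c5 + c2 + k)) + x) = 2 * (τ * (a + (c1 + c5 + c2 + k))) + τ * x := by
    ring
  have e8 : τ * (2 * (a2 + k)) = 2 * (τ * (a2 + k)) := by ring
  have e9 : τ * (a + S + (c1 + c5 + c2 + k)) = τ * (a + (c1 + c5 + c2 + k)) + τ * S := by ring
  have e10 : (2 * τ + 2) * S = 2 * (τ * S) + 2 * S := by ring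
  rw [e9]
  rw [e7, e8] at e6
  rw [e10] at e1
  omega

theorem phase23 (n τ : ℕ) (hτ : 1 ≤ τ) : ∃ H1 : ℕ, ∀ h, H1 ≤ h → ∃ L C : ℕ, ∀ (V : Type)
    (_ : DecidableEq V) (G : V → V → Prop) (col : V → Bool) (b : V) (SV : List V)
    (fe : List ((V ⊕ ℕ) × ℕ)) (A B : List (V ⊕ ℕ)) (es : List (Elem V)),
    (∀ a c, G a c → G c a) → (∀ a c, G a c → col a ≠ col c) →
    HInv G col b SV h fe A B es 0 → (sizes es).length ≤ n → (∀ p ∈ sizes es, L ≤ p) →
    ∃ u N, AF G col b SV h u N ∧
      τ * N ≤ τ * (A.length + B.length + (sizes es).sum + C) + (sizes es).sum := by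
  refine ⟨τ + 6 * n * τ + 6 * n + 3, fun h hh => ?_⟩
  obtain ⟨m, rfl⟩ : ∃ m, h = m + 1 := ⟨h - 1, by omega⟩
  have hm1 : 1 ≤ m := by omega
  obtain ⟨q, hq⟩ : ∃ q, m + 1 = q + 3 * n := ⟨m + 1 - 3 * n, by
    have : 3 * n ≤ 6 * n := by omega
    omega⟩
  have hq1 : 1 ≤ q := by omega
  have hratio : τ * (2 * m + 3) ≤ (2 * τ + 2) * q := by
    have h1 : τ * (2 * m + 3) = 2 * τ * (m + 1) + τ := by ring
    have h2 : (2 * τ + 2) * q = 2 * τ * q + 2 * q := by ring
    rw [h1, h2, hq]
    nlinarith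
  obtain ⟨K, hK⟩ := nominal n (q + 2) ((m + 1) * (101 * (m + 2)) + (m + 1) * (100 * (m + 2)))
  set LB : ℕ := (m + 2) * (101 * (m + 2)) + 400 * (m + 2) + (m + 1) * (100 * (m + 2)) with hLB
  refine ⟨(q + 2) * (K + LB), (m + 1) * (100 * (m + 2) ^ 2) + (2 * m + 3) * K +
    (m + 1) * (200 * (m + 2)) + (3 * (m + 1) + 1), ?_⟩
  intro V _ G col b SV fe A B es hG hcol H hlen hL
  by_cases h0 : sizes es = []
  · obtain ⟨u, hu⟩ := Q7_fin hG hcol H h0
    refine ⟨u, _, hu, ?_⟩
    have h1 : A.length + B.length + (3 * (m + 1) + 1) ≤ A.length + B.length + (sizes es).sum +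
        ((m + 1) * (100 * (m + 2) ^ 2) + (2 * m + 3) * K + (m + 1) * (200 * (m + 2)) +
          (3 * (m + 1) + 1)) := by omega
    exact (Nat.mul_le_mul_left τ h1).trans (Nat.le_add_right _ _)
  set l := sizes es with hl
  set S := l.sum with hS
  have hpos : 0 < S := by
    obtain ⟨M, hM⟩ := List.exists_mem_of_ne_nil l h0
    have h1 := hL M hM
    have h2 := Q7_mem_sum l hM
    have h3 : 0 < (q + 2) * (K + LB) := by positivity
    omega
  have hKL : ∀ M ∈ l, K ≤ M := fun M hM => by
    have h1 := hL M hM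
    nlinarith
  obtain ⟨ann, ha1, ha2, ha3, ha4⟩ := hK l (l.map fun M => q * M / S + 2) hlen (by
    rw [List.forall₂_map_right_iff, List.forall₂_same]
    intro M hM
    refine ⟨Nat.le_add_left 2 _, ?_, hKL M hM⟩
    have h1 : q * M / S ≤ q := by
      rw [Nat.div_le_iff_le_mul_add_pred hpos]
      have := Q7_mem_sum l hM
      nlinarith
    omega)
  have hlenann : ∀ a ∈ ann, a.length = q * a.sum / S + 2 := by
    rw [← ha1, List.map_map] at ha2
    exact List.map_inj_left.1 ha2
  have hannL : ∀ a ∈ ann, a.sum ∈ l := fun a ha => by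
    rw [← ha1]
    exact List.mem_map_of_mem ha
  have hann : ∀ a ∈ ann, ∀ ν ∈ a, a.length * ν ≤ a.sum + a.length * K ∧
      a.sum ≤ a.length * ν + a.length * K := by
    rw [← ha1, List.forall₂_map_left_iff, List.forall₂_same] at ha3
    exact ha3
  have hle : ∀ a ∈ ann, a.length ≤ q + 2 := fun a ha => by
    rw [hlenann a ha]
    have h1 : q * a.sum / S ≤ q := by
      rw [Nat.div_le_iff_le_mul_add_pred hpos]
      have := Q7_mem_sum l (hannL a ha)
      nlinarith
    omega
  -- lower bound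
  have hlow : ∀ a ∈ ann, ∀ ν ∈ a, LB ≤ ν := fun a ha ν hν => by
    have h1 := (hann a ha ν hν).2
    have h2 := hL _ (hannL a ha)
    have h3 := hle a ha
    have h4 : 0 < a.length := List.length_pos_of_mem hν
    have h5 : a.length * (K + LB) ≤ a.length * (ν + K) := by
      have h6 : a.length * (K + LB) ≤ (q + 2) * (K + LB) := Nat.mul_le_mul_right _ h3
      have h7 : a.length * (ν + K) = a.length * ν + a.length * K := by ring
      omega
    have h6 := Nat.le_of_mul_le_mul_left h5 h4
    omega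
  -- upper bound
  have hup : ∀ a ∈ ann, ∀ ν ∈ a, ν ≤ K + S / q := fun a ha ν hν => by
    have h1 := (hann a ha ν hν).1
    have h4 : 0 < a.length := List.length_pos_of_mem hν
    rcases le_total ν K with h2 | h2
    · exact h2.trans (Nat.le_add_right _ _)
    obtain ⟨d, rfl⟩ := Nat.exists_eq_add_of_le h2
    have h3 : a.length * d ≤ a.sum := by
      have : a.length * (K + d) = a.length * K + a.length * d := by ring
      omega
    have h5 : q * a.sum ≤ a.length * S := by
      rw [hlenann a ha]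
      have h6 := Nat.lt_div_mul_add (a := q * a.sum) hpos
      have h7 : (q * a.sum / S + 2) * S = q * a.sum / S * S + 2 * S := by ring
      omega
    have h6 : a.length * (q * d) ≤ a.length * S := by
      calc a.length * (q * d) = q * (a.length * d) := by ring
        _ ≤ q * a.sum := Nat.mul_le_mul_left _ h3
        _ ≤ _ := h5
    have h7 := Nat.le_of_mul_le_mul_left h6 h4
    have h8 : d ≤ S / q := by
      rw [Nat.le_div_iff_mul_le (by omega)]
      linarith [mul_comm q d]
    exact Nat.add_le_add_left h8 K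
  -- the number of splittings
  set t := (ann.map (fun a => a.length - 1)).sum with ht
  have hannlen : ann.length = l.length := by rw [← ha1, List.length_map]
  have htl := Q7_t ann fun a ha => by
    rw [hlenann a ha]
    exact (by norm_num : 1 ≤ 2).trans (Nat.le_add_left 2 _)
  have hsumlen : (ann.map List.length).sum ≤ q + 2 * l.length := by
    rw [ha2, Q7_sum_two]
    have h1 := Q7_sum q S l
    rw [← hS] at h1
    have h2 := Nat.le_of_mul_le_mul_right h1 hpos
    omega
  have htn : t + l.length ≤ q + 2 * l.length := by omega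
  have htm : t ≤ m + 1 := by omega
  obtain ⟨fe1, A1, B1, es1, l1, fl, H1, p1, p2, f1, n1⟩ := phase2 hG hcol hm1 t 0 H
    (l0 := l) (ann := ann) (List.Perm.refl _) (by
      rw [← ha1, List.forall₂_map_left_iff, List.forall₂_same]
      intro a ha
      refine ⟨le_refl _, le_refl _, fun h1 => ?_⟩
      have := hlenann a ha
      rw [h1] at this
      simp at this) rfl (by
      have h1 := tr_le (kinds es)
      rw [kinds_count_false, ← hl] at h1
      have h2 := lets_length es
      rw [H.len, ← hl] at h2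
      omega) (by
      intro a ha ν hν
      have h1 := hlow a ha ν hν
      have h2 : (t + 1) * (101 * (m + 2)) ≤ (m + 2) * (101 * (m + 2)) :=
        Nat.mul_le_mul_right _ (by omega)
      omega)
  rw [Nat.zero_add] at f1
  -- phase 3
  have hfl : ∀ ν ∈ fl, LB ≤ ν ∧ ν ≤ K + S / q := fun ν hν => by
    have h1 := p2.mem_iff.1 hν
    obtain ⟨a, ha, hνa⟩ := List.mem_flatten.1 h1
    exact ⟨hlow a ha ν hνa, hup a ha ν hνa⟩
  have hm' : (sizes es1).length = t + l.length := by
    rw [← p1.length_eq, f1.length_eq, p2.length_eq, List.length_flatten, ← htl, hannlen]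
  have hsepfl : fl.Pairwise (fun x y => x + ((m + 1) * (101 * (m + 2)) +
      (m + 1) * (100 * (m + 2))) ≤ y ∨ y + ((m + 1) * (101 * (m + 2)) +
      (m + 1) * (100 * (m + 2))) ≤ x) :=
    p2.symm.pairwise ha4 (fun hxy => hxy.symm)
  have hE : t * (101 * (m + 2)) ≤ (m + 1) * (101 * (m + 2)) := Nat.mul_le_mul_right _ htm
  have hF : (t + l.length) * (100 * (m + 2)) ≤ (m + 1) * (100 * (m + 2)) :=
    Nat.mul_le_mul_right _ (by omega)
  have hsep1 := Q7_sep (E := t * (101 * (m + 2))) (F := (t + l.length) * (100 * (m + 2)))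
    (by omega) f1 hsepfl
  obtain ⟨fe2, A2, B2, es2, H2, h2, n2⟩ := phase3 hG hcol (t + l.length) (K + S / q) H1 hm'
    (p1.pairwise hsep1 (fun hxy => hxy.symm)) (by
      intro g hg
      obtain ⟨ν, hν, h3, h4⟩ := Q7_mem f1 (p1.mem_iff.2 hg)
      have h5 := (hfl ν hν).1
      have h6 : (m + 2) * (101 * (m + 2)) = (m + 1) * (101 * (m + 2)) + 101 * (m + 2) := by ring
      omega) (by
      intro g hg
      obtain ⟨ν, hν, h3, h4⟩ := Q7_mem f1 (p1.mem_iff.2 hg)
      exact h3.trans (hfl ν hν).2)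
  obtain ⟨u, hu⟩ := Q7_fin hG hcol H2 h2
  refine ⟨u, _, hu, ?_⟩
  -- the time
  have e1 : τ * ((2 * m + 3) * (S / q)) ≤ (2 * τ + 2) * S := by
    calc τ * ((2 * m + 3) * (S / q)) = (τ * (2 * m + 3)) * (S / q) := by ring
      _ ≤ ((2 * τ + 2) * q) * (S / q) := Nat.mul_le_mul_right _ hratio
      _ = (2 * τ + 2) * (q * (S / q)) := by ring
      _ ≤ (2 * τ + 2) * S := Nat.mul_le_mul_left _ (Nat.mul_div_le S q)
  have e2 : t * (100 * (m + 2) ^ 2) ≤ (m + 1) * (100 * (m + 2) ^ 2) := Nat.mul_le_mul_right _ htm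
  have e3 : (t + l.length) * (200 * (m + 2)) ≤ (m + 1) * (200 * (m + 2)) :=
    Nat.mul_le_mul_right _ (by omega)
  have e4 : (2 * m + 3) * (K + S / q) = (2 * m + 3) * K + (2 * m + 3) * (S / q) := by ring
  rw [e4] at n2
  exact Q7_time n1 n2 e2 e3 e1

end Pool.Agent.FLV
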