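import Pool.Agent.FLV.W1

/-!
# Reaching a linked word at a prescribed time

`words_main` PROOF.  `R = 2 h + 1`.  From `P u N` one reaches `P (u.rotate r) (N + 2 r + K R)` (`ha`, `hb`), for all
`r, K`; every `n ≥ 2 R` is `2 r + K R` with `r = (n (h + 1)) % R < R` (`2 (h + 1) ≡ 1` mod `R`).
Let `n = N' - N` and `r = (n (h + 1)) % R`; the *final word* of `(u, N)` is `f = u.rotate r`.  Induction on the number of pairs
`(i, j)`, `i, j < R`, with `¬ Reach f v i j` (at most `R ^ 2`); each step costs at most `4 R` units of time.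
If all pairs are linked, use the first remark.  Otherwise there is `p < R` with `¬ Reach f v p ((p + 1) % R)` (otherwise
all positions are connected).  Let `i = (p + r) % R`; then `u.rotate i = s :: s' :: u0` with `s = f[p]`,
`s' = f[(p + 1) % R]`, `s ≠ s'`.  `ha` (`i` times) and `hc` give `P u1 (N + 2 i + 4 h + 4)`,
`u1 = t :: (u0.map (renN s s') ++ [t]) = (t :: t :: u0.map (renN s s')).rotate 1`.  The final word of
`(u1, N + 2 i + 4 h + 4)` is `mergeW f p ((p + 1) % R) s s' t` (rotations: `(n - 2 i - 4 h - 4) (h + 1) ≡ r - i - 1`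
mod `R`).  By `merge_reach` the number of unlinked pairs is smaller.
-/

set_option autoImplicit false

namespace Pool.Agent.FLV

theorem W2_symm {u v : List ℕ} {i j : ℕ} (h : Reach u v i j) : Reach u v j i := by
  induction h with
  | refl => exact Relation.ReflTransGen.refl
  | tail _ h2 ih =>
    obtain ⟨h3, h4, h5⟩ := h2
    exact Relation.ReflTransGen.head ⟨h4, h3, h5.imp Eq.symm Eq.symm⟩ ih

theorem W2_all {u v : List ℕ} {R : ℕ} (h : ∀ p, p + 1 < R → Reach u v p (p + 1)) :
    ∀ i j, i < R → j < R → Reach u v i j := by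
  have h0 : ∀ i, i < R → Reach u v 0 i := by
    intro i
    induction i with
    | zero => intro _; exact Relation.ReflTransGen.refl
    | succ i ih => intro hi; exact (ih (by omega)).trans (h i hi)
  intro i j hi hj
  exact (W2_symm (h0 i hi)).trans (h0 j hj)

theorem W2_rot {h : ℕ} {P : List ℕ → ℕ → Prop}
    (ha : ∀ u N, P u N → P (u.rotate 1) (N + 2)) {u : List ℕ} {N : ℕ} (hu : P u N) (r : ℕ) :
    P (u.rotate r) (N + 2 * r) := by
  induction r with
  | zero => simpa using hu
  | succ r ih =>
    have := ha _ _ ih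
    rw [List.rotate_rotate] at this
    have e : N + 2 * (r + 1) = N + 2 * r + 2 := by ring
    rw [e]; exact this

theorem W2_wait {h : ℕ} {P : List ℕ → ℕ → Prop}
    (hb : ∀ u N, P u N → P u (N + (2 * h + 1))) {u : List ℕ} {N : ℕ} (hu : P u N) (K : ℕ) :
    P u (N + K * (2 * h + 1)) := by
  induction K with
  | zero => simpa using hu
  | succ K ih =>
    have := hb _ _ ih
    have e : N + (K + 1) * (2 * h + 1) = N + K * (2 * h + 1) + (2 * h + 1) := by ring
    rw [e]; exact this

theorem W2_final {h : ℕ} {P : List ℕ → ℕ → Prop}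
    (ha : ∀ u N, P u N → P (u.rotate 1) (N + 2))
    (hb : ∀ u N, P u N → P u (N + (2 * h + 1))) {u : List ℕ} {N N' : ℕ} (hu : P u N)
    (hN : N + 2 * (2 * h + 1) ≤ N') :
    P (u.rotate (((N' - N) * (h + 1)) % (2 * h + 1))) N' := by
  set n := N' - N with hn
  set r := (n * (h + 1)) % (2 * h + 1) with hr
  have hr1 : r < 2 * h + 1 := Nat.mod_lt _ (by omega)
  have h1 : 2 * r ≡ n [MOD 2 * h + 1] := by
    have e1 : 2 * r ≡ 2 * (n * (h + 1)) [MOD 2 * h + 1] := (Nat.mod_modEq _ _).mul_left 2
    have e2 : 2 * (n * (h + 1)) = n + n * (2 * h + 1) := by ring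
    rw [e2] at e1
    refine e1.trans ?_
    have := (Nat.modEq_zero_iff_dvd.2 (Dvd.intro_left n rfl) :
      n * (2 * h + 1) ≡ 0 [MOD 2 * h + 1])
    simpa using this.add_left n
  have h2 : 2 * r ≤ n := by omega
  obtain ⟨K, hK⟩ := (Nat.modEq_iff_dvd' h2).1 h1
  have h3 := W2_wait hb (W2_rot (h := h) ha hu r) K
  have e : N + 2 * r + K * (2 * h + 1) = N' := by
    have : (2 * h + 1) * K = K * (2 * h + 1) := by ring
    omega
  rw [e] at h3
  exact h3

theorem W2_merge {f : List ℕ} {p s s' t : ℕ} {u0 : List ℕ}
    (hf : f.rotate p = s :: s' :: u0) (hp : p + 1 < f.length) :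
    (mergeW f p (p + 1) s s' t).rotate p = t :: t :: u0.map (renN s s') ∧ f[p]? = some s ∧
      f[p + 1]? = some s' := by
  obtain ⟨A, B, hAB, hA⟩ : ∃ A B, f = A ++ B ∧ A.length = p :=
    ⟨f.take p, f.drop p, (List.take_append_drop p f).symm, by simp; omega⟩
  subst hAB
  subst hA
  rcases B with _ | ⟨x, _ | ⟨y, B⟩⟩
  · simp at hp
  · simp at hp
  rw [List.rotate_append_length_eq] at hf
  simp only [List.cons_append, List.cons.injEq] at hf
  obtain ⟨rfl, rfl, rfl⟩ := hf
  refine ⟨?_, by simp, by simp⟩
  have e : mergeW (A ++ x :: y :: B) A.length (A.length + 1) x y t =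
      A.map (renN x y) ++ t :: t :: B.map (renN x y) := by
    unfold mergeW
    simp [List.set_append]
  rw [e]
  have h2 := List.rotate_append_length_eq (A.map (renN x y)) (t :: t :: B.map (renN x y))
  rw [List.length_map] at h2
  rw [h2]
  simp

open Classical in
/-- number of unlinked pairs -/
noncomputable def W2_c (v : List ℕ) (R : ℕ) (f : List ℕ) : ℕ :=
  ((Finset.range R ×ˢ Finset.range R).filter (fun q => ¬ Reach f v q.1 q.2)).card

theorem W2_c_zero {v : List ℕ} {R : ℕ} {f : List ℕ} (h : W2_c v R f = 0) :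
    ∀ i j, i < R → j < R → Reach f v i j := by
  intro i j hi hj
  by_contra hc
  classical
  unfold W2_c at h
  rw [Finset.card_eq_zero, Finset.filter_eq_empty_iff] at h
  exact h (x := (i, j)) (by simp [hi, hj]) hc

theorem W2_c_lt {v : List ℕ} {R : ℕ} {f f' : List ℕ} {p q : ℕ} (hp : p < R) (hq : q < R)
    (h1 : ∀ i j, Reach f v i j → Reach f' v i j) (h2 : Reach f' v p q) (h3 : ¬ Reach f v p q) :
    W2_c v R f' < W2_c v R f := by
  classical
  unfold W2_c
  apply Finset.card_lt_card
  rw [Finset.ssubset_iff_of_subset]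
  · exact ⟨(p, q), by simp [hp, hq, h3], by simp [h2]⟩
  · intro x hx
    simp only [Finset.mem_filter] at hx ⊢
    exact ⟨hx.1, fun h => hx.2 (h1 _ _ h)⟩

theorem W2_c_le (v : List ℕ) (R : ℕ) (f : List ℕ) : W2_c v R f ≤ R * R := by
  classical
  unfold W2_c
  refine (Finset.card_filter_le _ _).trans ?_
  simp

theorem words_main {h : ℕ} (hh : 1 ≤ h) (P : List ℕ → ℕ → Prop)
    (ha : ∀ u N, P u N → P (u.rotate 1) (N + 2))
    (hb : ∀ u N, P u N → P u (N + (2 * h + 1)))
    (hc : ∀ s s' u0 N, P (s :: s' :: u0) N → s ≠ s' →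
      ∃ t, t ≠ 0 ∧ t ∉ s :: s' :: u0 ∧ P (t :: (u0.map (renN s s') ++ [t])) (N + (4 * h + 4)))
    (hTW : ∀ u N, P u N → u.length = 2 * h + 1 ∧ TW u)
    {v : List ℕ} (hv : TW v) (hvl : v.length = 2 * h + 1) {u : List ℕ} {N : ℕ} (hu : P u N)
    {N' : ℕ} (hN : N + 100 * (h + 1) ^ 3 ≤ N') :
    ∃ u', P u' N' ∧ ∀ i j, i < 2 * h + 1 → j < 2 * h + 1 → Reach u' v i j := by
  have key : ∀ k u N, P u N →
      W2_c v (2 * h + 1) (u.rotate (((N' - N) * (h + 1)) % (2 * h + 1))) ≤ k →
      N + 4 * (2 * h + 1) * k + 2 * (2 * h + 1) ≤ N' →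
      ∃ u', P u' N' ∧ ∀ i j, i < 2 * h + 1 → j < 2 * h + 1 → Reach u' v i j := by
    intro k
    induction k with
    | zero =>
      intro u N hu hk hN
      exact ⟨_, W2_final ha hb hu (by omega), W2_c_zero (by omega)⟩
    | succ k ih =>
      intro u N hu hk hN
      have hN2 : N + 2 * (2 * h + 1) ≤ N' := by
        have : 0 ≤ 4 * (2 * h + 1) * (k + 1) := Nat.zero_le _
        omega
      set n := N' - N with hn
      set R := 2 * h + 1 with hR
      set r := (n * (h + 1)) % R with hr
      set f := u.rotate r with hf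
      by_cases hall : ∀ p, p + 1 < R → Reach f v p (p + 1)
      · exact ⟨_, W2_final ha hb hu hN2, W2_all hall⟩
      push Not at hall
      obtain ⟨p, hp, hpn⟩ := hall
      have hR0 : 0 < R := by omega
      have hul := (hTW _ _ hu).1
      set i := (p + r) % R with hi
      have hi1 : i < R := Nat.mod_lt _ hR0
      -- the rotated word
      have hfp : f.rotate p = u.rotate i := by
        rw [hf, List.rotate_rotate, hi, add_comm r p]
        conv_rhs => rw [← hul]
        rw [List.rotate_mod]
      have hrl : (u.rotate i).length = R := by rw [List.length_rotate, hul]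
      obtain ⟨s, s', u0, hs⟩ : ∃ s s' u0, u.rotate i = s :: s' :: u0 := by
        rcases hw : u.rotate i with _ | ⟨x, _ | ⟨y, w⟩⟩
        · rw [hw, List.length_nil] at hrl; omega
        · rw [hw, List.length_cons, List.length_nil] at hrl; omega
        · exact ⟨x, y, w, rfl⟩
      have hfl : f.length = R := by rw [hf, List.length_rotate, hul]
      have hmg := fun t => W2_merge (t := t) (hfp.trans hs) (by omega : p + 1 < f.length)
      have hne : s ≠ s' := by
        intro he
        apply hpn
        refine Relation.ReflTransGen.single ⟨by omega, by omega, Or.inl ?_⟩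
        rw [(hmg 0).2.1, (hmg 0).2.2, he]
      have hPi := W2_rot (h := h) ha hu i
      rw [hs] at hPi
      obtain ⟨t, ht0, htn, hPt⟩ := hc s s' u0 _ hPi hne
      have htf : t ∉ f := by
        rw [← hs, List.mem_rotate] at htn
        rw [hf, List.mem_rotate]
        exact htn
      have hTf : TW f := (hTW _ _ (W2_rot (h := h) ha hu r)).2
      have hmr := merge_reach hTf hv (by rw [hfl, hvl]) (hmg t).2.1 (hmg t).2.2 ht0 htf hpn
      refine ih _ _ hPt ?_ ?_
      · -- the final word of the new state is the merged word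
        have hNle : N + 2 * i + (4 * h + 4) ≤ N' := by
          have e : 4 * R * (k + 1) = 4 * R * k + 4 * R := by ring
          have : 0 ≤ 4 * R * k := Nat.zero_le _
          omega
        have hfin : (t :: (u0.map (renN s s') ++ [t])).rotate
            (((N' - (N + 2 * i + (4 * h + 4))) * (h + 1)) % R) = mergeW f p (p + 1) s s' t := by
          apply List.rotate_injective p
          simp only
          rw [(hmg t).1]
          have e1 : (t :: (u0.map (renN s s') ++ [t])) =
              (t :: t :: u0.map (renN s s')).rotate 1 := by simp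
          rw [e1, List.rotate_rotate, List.rotate_rotate]
          have hlen : (t :: t :: u0.map (renN s s')).length = R := by
            rw [hs] at hrl
            simpa using hrl
          have hmod : (1 + ((N' - (N + 2 * i + (4 * h + 4))) * (h + 1)) % R + p) ≡ 0 [MOD R] := by
            set m := N' - (N + 2 * i + (4 * h + 4)) with hm
            have hnm : n = m + 2 * i + (4 * h + 4) := by omega
            have a1 : (m * (h + 1)) % R ≡ m * (h + 1) [MOD R] := Nat.mod_modEq _ _
            have a2 : r ≡ n * (h + 1) [MOD R] := Nat.mod_modEq _ _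
            have a3 : i ≡ p + r [MOD R] := Nat.mod_modEq _ _
            have a4 : n * (h + 1) = m * (h + 1) + i + 1 + (i + 2 * h + 3) * R := by
              rw [hnm, hR]; ring
            have a5 : r ≡ m * (h + 1) + i + 1 [MOD R] := by
              refine a2.trans ?_
              rw [a4]
              have := (Nat.modEq_zero_iff_dvd.2 (Dvd.intro_left (i + 2 * h + 3) rfl) :
                (i + 2 * h + 3) * R ≡ 0 [MOD R])
              simpa using this.add_left (m * (h + 1) + i + 1)
            -- add i on both sides and cancel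
            have a6 : 1 + (m * (h + 1)) % R + p + i ≡ 0 + i [MOD R] := by
              have b1 : 1 + (m * (h + 1)) % R + p + i ≡ 1 + m * (h + 1) + p + i [MOD R] :=
                ((a1.add_left 1).add_right p).add_right i
              have b2 : 1 + m * (h + 1) + p + i = (m * (h + 1) + i + 1) + p := by ring
              rw [b2] at b1
              have b3 : (m * (h + 1) + i + 1) + p ≡ r + p [MOD R] := (a5.symm).add_right p
              have b4 : r + p ≡ i [MOD R] := by rw [add_comm]; exact a3.symm
              simpa using (b1.trans b3).trans b4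
            exact Nat.ModEq.add_right_cancel' i a6
          have hz : ((1 + (((N' - (N + 2 * i + (4 * h + 4))) * (h + 1)) % R + p))) % R = 0 := by
            rw [← add_assoc]; exact hmod
          rw [← List.rotate_mod, hlen, hz, List.rotate_zero]
        rw [hfin]
        have := W2_c_lt (R := R) (by omega : p < R) hp hmr.1 hmr.2 hpn
        omega
      · have e : 4 * R * (k + 1) = 4 * R * k + 4 * R := by ring
        omega
  refine key (((2 * h + 1) * (2 * h + 1))) u N hu (W2_c_le _ _ _) (le_trans ?_ hN)
  have e : 4 * (2 * h + 1) * ((2 * h + 1) * (2 * h + 1)) + 2 * (2 * h + 1) ≤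
      100 * (h + 1) ^ 3 := by nlinarith [Nat.zero_le h, Nat.zero_le (h ^ 2), Nat.zero_le (h ^ 3)]
  omega

end Pool.Agent.FLV
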