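import Pool.Agent.FLV.F7
import Pool.Agent.FLV.Q7
import Pool.Agent.FLV.G4
import Pool.Agent.FLV.W2
import Pool.Agent.FLV.A1

/-!
# The machine

`grown_facts`: induction on `Grown`.
`machineGrown` PROOF.  Let `n` be given, `W = 32 n + 2`, `τ = 8 n + 8`.  `H0` from `p1_window n W`, `H1` from `phase23 n τ`;
`H = max H0 H1 + 1`.  `X, C` from `p1_window`; for each `h ∈ [H, H + W)` constants `L_h, C_h` from `phase23`; `L`, `C'` = maxima of
them.  `F` large.  Given the two grown trees (`opsL.length ≤ n`, `opsR.length ≤ n`), there are bad sets of size `≤ 8 n` each, so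
some `h ∈ [H, H + W)` is good for both.  `phase23` gives `AF` on both sides: names `uL, uR`, numbers of sums `NL, NR`, with
`τ NL ≤ τ (C + S_L + C') + S_L` where `S_L` = sum of the sizes of the piles `≤ |SVL|` (the unexplored vertices are distinct
vertices in `SVL`: `Core.nodup`, `Core.mem`), the same for `R`.
`|SVL| + |SVR| ≤ 2 + n (l + 4)`, so with `m = |SVL| + |SVR| + l - 1`:
`NL + NR ≤ |SVL| + |SVR| + (|SVL| + |SVR|) / τ + 2 (C + C')`, and `m - NR ≥ NL + 100 (h + 1)^3` as
`l ≥ F` is large (`(2 + n (l + 4)) / τ ≤ l / 8 + 1`).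
`words_main` with `P u N := AF G col bL SVL h u N`, `v = tp h uR`, `N' = m - NR` (`AF.rot`, `AF.round`, `AF.merge`, `AF.TW`;
`TW` and length of `tp h uR` : it is a permutation of `uR`).  Then `glue`; `sp.length = l` by counting.
-/

set_option autoImplicit false

namespace Pool.Agent.FLV

theorem grown_facts {V : Type*} {G : V → V → Prop} {b : V} {ops : List (Op V)} {SV AV : List V}
    (h : Grown G b ops SV AV) : SV.Nodup ∧ b ∈ SV ∧ (∀ a ∈ AV, a ∈ SV) ∧
      SV.length ≤ 1 + 3 * ops.length + (ops.flatMap Op.mids).sum := by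
  induction h with
  | nil => simp
  | @pend ops SV AV v w _ _ hw _ ih =>
    obtain ⟨h1, h2, h3, h4⟩ := ih
    refine ⟨List.nodup_cons.2 ⟨hw, h1⟩, List.mem_cons_of_mem _ h2, ?_, ?_⟩
    · intro a ha
      rcases List.mem_cons.1 ha with rfl | ha
      · exact List.mem_cons_self ..
      · exact List.mem_cons_of_mem _ (h3 a ha)
    · simp only [List.length_cons, List.flatMap_cons, Op.mids, List.nil_append]
      omega
  | @branch ops SV AV v w wn mid l _ _ _ _ hnd hdis _ ih =>
    obtain ⟨h1, h2, h3, h4⟩ := ih
    refine ⟨List.nodup_append.2 ⟨hnd, h1, ?_⟩, List.mem_append_right _ h2, ?_, ?_⟩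
    · rintro a ha c hc rfl
      exact hdis a ha hc
    · intro a ha
      rcases List.mem_cons.1 ha with rfl | ha
      · simp
      rcases List.mem_cons.1 ha with rfl | ha
      · simp
      · exact List.mem_append_right _ (h3 a ha)
    · simp only [List.length_append, List.length_cons, List.length_nil, List.flatMap_cons, Op.mids,
        List.singleton_append, List.sum_cons]
      omega

theorem mids_sum_le {V : Type*} {l : ℕ} (ops : List (Op V))
    (h : ∀ t ∈ ops.flatMap Op.mids, t ≤ l) : (ops.flatMap Op.mids).sum ≤ ops.length * l := by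
  induction ops with
  | nil => simp
  | cons o ops ih =>
    have ih' := ih (fun t ht => h t (by simp only [List.flatMap_cons, List.mem_append]; right; exact ht))
    cases o with
    | pend v w =>
      simp only [List.flatMap_cons, Op.mids, List.nil_append, List.length_cons]
      nlinarith
    | branch v w wn mid l' =>
      have := h mid.length (by simp [Op.mids])
      simp only [List.flatMap_cons, Op.mids, List.singleton_append, List.sum_cons, List.length_cons]
      nlinarith

/-- the unexplored vertices -/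
def inner {V : Type*} : Elem V → List V
  | .free _ _ => []
  | .pile _ P _ => P

theorem sizes_sum_eq {V : Type*} (es : List (Elem V)) :
    (sizes es).sum = (es.flatMap inner).length := by
  induction es with
  | nil => rfl
  | cons e es ih => cases e <;> simp [inner, ih]

theorem inner_sublist {V : Type*} (es : List (Elem V)) :
    ((es.flatMap inner).map Sum.inl : List (V ⊕ ℕ)).Sublist (full es) := by
  induction es with
  | nil => simp
  | cons e es ih =>
    simp only [List.flatMap_cons, List.map_append, full_cons]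
    refine List.Sublist.append ?_ ih
    cases e with
    | free s v => simp [inner]
    | pile x P x' =>
      simp only [inner, Elem.full_pile]
      exact List.Sublist.cons _ (List.sublist_append_left _ _)

theorem sizes_sum_le {V : Type*} [DecidableEq V] {G : V → V → Prop} {b : V} {r : ℕ} {SV : List V}
    {fe : List ((V ⊕ ℕ) × ℕ)} {st : List (V ⊕ ℕ)} {es : List (Elem V)}
    (H : Core G b r SV fe st es) : (sizes es).sum ≤ SV.length := by
  rw [sizes_sum_eq]
  have h1 := inner_sublist es
  have h2 : (full es).Nodup := (List.nodup_append.1 H.nodup).2.1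
  have h3 : (es.flatMap inner).Nodup := List.Nodup.of_map _ (h2.sublist h1)
  have h4 : es.flatMap inner ⊆ SV := by
    intro a ha
    refine (H.mem a).1 (List.mem_append_right _ (h1.subset ?_))
    exact List.mem_map_of_mem ha
  exact (h3.subperm h4).length_le

theorem tp_perm {α : Type*} (h : ℕ) (l : List α) : (tp h l).Perm l := by
  unfold tp
  refine ((List.reverse_perm _).append (List.reverse_perm _)).trans ?_
  rw [List.take_append_drop]

theorem TW_perm {u v : List ℕ} (h : u.Perm v) (hu : TW u) : TW v := by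
  refine ⟨?_, fun s hs => ?_⟩
  · rw [← h.count_eq]; exact hu.1
  · rw [← h.count_eq]; exact hu.2 s hs

theorem machineGrown : MachineGrown := by
  intro n
  obtain ⟨H0, hH0⟩ := p1_window n (16 * n + 1)
  obtain ⟨H1, hH1⟩ := phase23 n (8 * n + 8) (by omega)
  choose! Lf Cf hLC using hH1
  set H := max H0 (max H1 1) with hH
  have hHa : H0 ≤ H := le_max_left _ _
  have hHb : H1 ≤ H := (le_max_left _ _).trans (le_max_right _ _)
  have hHc : 1 ≤ H := (le_max_right _ _).trans (le_max_right _ _)
  obtain ⟨X, C, hXC⟩ := hH0 H hHa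
  set L := (Finset.range (16 * n + 1)).sup (fun j => Lf (H + j)) with hL
  set C' := (Finset.range (16 * n + 1)).sup (fun j => Cf (H + j)) with hC'
  have hLle : ∀ h, H ≤ h → h < H + (16 * n + 1) → Lf h ≤ L := by
    intro h h1 h2
    have := Finset.le_sup (f := fun j => Lf (H + j)) (Finset.mem_range.2 (show h - H < 16 * n + 1 by omega))
    simpa [show H + (h - H) = h by omega] using this
  have hCle : ∀ h, H ≤ h → h < H + (16 * n + 1) → Cf h ≤ C' := by
    intro h h1 h2
    have := Finset.le_sup (f := fun j => Cf (H + j)) (Finset.mem_range.2 (show h - H < 16 * n + 1 by omega))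
    simpa [show H + (h - H) = h by omega] using this
  refine ⟨L + X + (8 * n + 8) * (2 * C + 2 * C' + 100 * (H + (16 * n + 1) + 1) ^ 3 + 1) + 3 * n + 3, ?_⟩
  intro V _ G col bL bR opsL opsR SVL AVL SVR AVR l hG hcol hgL hgR hdis hops hmid hF
  obtain ⟨ndL, bLm, _, lenL⟩ := grown_facts hgL
  obtain ⟨ndR, bRm, _, lenR⟩ := grown_facts hgR
  have hmL : ∀ t ∈ opsL.flatMap Op.mids, _ := fun t ht => hmid t (by
    rw [List.flatMap_append]; exact List.mem_append_left _ ht)
  have hmR : ∀ t ∈ opsR.flatMap Op.mids, _ := fun t ht => hmid t (by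
    rw [List.flatMap_append]; exact List.mem_append_right _ ht)
  have sL := mids_sum_le (l := l) opsL (fun t ht => (hmL t ht).2)
  have sR := mids_sum_le (l := l) opsR (fun t ht => (hmR t ht).2)
  obtain ⟨BadL, hBL, hgoodL⟩ := hXC L V inferInstance G col bL opsL SVL AVL hG hcol hgL (by omega)
    (fun t ht => by have := (hmL t ht).1; omega)
  obtain ⟨BadR, hBR, hgoodR⟩ := hXC L V inferInstance G col bR opsR SVR AVR hG hcol hgR (by omega)
    (fun t ht => by have := (hmR t ht).1; omega)
  obtain ⟨h, hh, hbad⟩ : ∃ h ∈ Finset.Ico H (H + (16 * n + 1)), h ∉ BadL ∪ BadR := by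
    refine Finset.exists_mem_notMem_of_card_lt_card ?_
    have := Finset.card_union_le BadL BadR
    rw [Nat.card_Ico]
    omega
  rw [Finset.mem_Ico] at hh
  rw [Finset.mem_union, not_or] at hbad
  obtain ⟨feL, AL, BL, esL, HL, hCL, hnL, hpL⟩ := hgoodL h hh.1 hh.2 hbad.1
  obtain ⟨feR, AR, BR, esR, HR, hCR, hnR, hpR⟩ := hgoodR h hh.1 hh.2 hbad.2
  obtain ⟨uL, NL, hAFL, hNL⟩ := hLC h (by omega) V inferInstance G col bL SVL feL AL BL esL hG hcol HL
    hnL (fun p hp => (hLle h hh.1 hh.2).trans (hpL p hp))
  obtain ⟨uR, NR, hAFR, hNR⟩ := hLC h (by omega) V inferInstance G col bR SVR feR AR BR esR hG hcol HR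
    hnR (fun p hp => (hLle h hh.1 hh.2).trans (hpR p hp))
  have sumL := sizes_sum_le HL.core
  have sumR := sizes_sum_le HR.core
  have hCf := hCle h hh.1 hh.2
  have hh1 : 1 ≤ h := by omega
  have hpow : 100 * (h + 1) ^ 3 ≤ 100 * (H + (16 * n + 1) + 1) ^ 3 := by
    have : (h + 1) ^ 3 ≤ (H + (16 * n + 1) + 1) ^ 3 := Nat.pow_le_pow_left (by omega) 3
    omega
  set Q := 100 * (H + (16 * n + 1) + 1) ^ 3 with hQ
  set T := 8 * n + 8 with hT
  set aL := (sizes esL).sum with haL
  set aR := (sizes esR).sum with haR
  have e1 : T * NL ≤ T * (C + aL + C') + aL := by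
    refine hNL.trans (Nat.add_le_add_right (Nat.mul_le_mul_left _ ?_) _)
    omega
  have e2 : T * NR ≤ T * (C + aR + C') + aR := by
    refine hNR.trans (Nat.add_le_add_right (Nat.mul_le_mul_left _ ?_) _)
    omega
  have hS : SVL.length + SVR.length ≤ 2 + 3 * n + n * l := by
    have : opsL.length * l + opsR.length * l ≤ n * l := by
      rw [← Nat.add_mul]; exact Nat.mul_le_mul_right _ hops
    omega
  have hposL : 1 ≤ SVL.length := List.length_pos_of_mem bLm
  have hposR : 1 ≤ SVR.length := List.length_pos_of_mem bRm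
  have hTn : n * l + l ≤ T * l := by
    rw [hT]; nlinarith
  have key : NL + NR + Q + 1 ≤ SVL.length + SVR.length + l := by
    by_contra hcon
    push Not at hcon
    have hTpos : 1 ≤ T := by omega
    have h1 : T * (SVL.length + SVR.length + l + 1) ≤ T * (NL + NR + Q + 1) :=
      Nat.mul_le_mul_left _ (by omega)
    have h2 : T * (NL + NR + Q + 1) = T * NL + T * NR + T * (Q + 1) := by ring
    have h3 : T * (C + aL + C') + aL + (T * (C + aR + C') + aR) =
      T * (2 * C + 2 * C') + T * (aL + aR) + (aL + aR) := by ring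
    have h4 : T * (aL + aR) ≤ T * (SVL.length + SVR.length) := Nat.mul_le_mul_left _ (by omega)
    have h5 : T * (SVL.length + SVR.length + l + 1) =
      T * (SVL.length + SVR.length) + T * l + T := by ring
    have h6 : T * (2 * C + 2 * C' + Q + 1) = T * (2 * C + 2 * C') + T * (Q + 1) := by ring
    omega
  obtain ⟨u', hu', hlink⟩ := words_main hh1 (fun u N => AF G col bL SVL h u N)
    (fun u N hP => hP.rot hG hcol hh1) (fun u N hP => hP.round hG hcol)
    (fun s s' u0 N hP hne => hP.merge hG hcol hh1 hne) (fun u N hP => hP.TW)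
    (v := tp h uR) (TW_perm (tp_perm h uR).symm hAFR.TW.2)
    (by rw [(tp_perm h uR).length_eq]; exact hAFR.TW.1) hAFL
    (N' := SVL.length + SVR.length + l - 1 - NR) (by omega)
  obtain ⟨X', Y', sp, hsp, hperm, hlen, hcov⟩ := glue hu' hAFR hdis ndL ndR bLm bRm hlink
  have hl2 := hperm.length_eq
  simp only [List.length_append, List.length_map] at hl2
  refine ⟨X', Y', sp, by omega, hsp, hperm, ?_⟩
  have : SVL.length + SVR.length + l - 1 - NR + NR = SVL.length + SVR.length + l - 1 := by omega
  rw [this] at hcov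
  exact hcov

end Pool.Agent.FLV
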