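import Pool.Agent.FLV.HalfDefs
import Pool.Agent.FLV.A1

/-!
# From `AF` to `Half`

PROOF.  `H : HInv ...`, `sizes es = []`: `es` is a list of free letters; every vertex of the tree is settled, so by
`nodup` and `mem` no letter is of the form `inl a`; so `lets es = c.map inr`, `ids es = u`, and
`es[i] = free u[i] (inr c[i])`.  `full es = lets es`.
No loops (`mem_fe`, third part): let `(inr n, n) ∈ fe`; it contributes `2` to `dg fe (inr n)`.  If `n ∈ c`: contradiction to
`deg_open`.  Otherwise `inr n` is settled and connected to a letter `v ≠ inr n` (`conn_st`), so there is a second edge at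
`inr n` (the first step of the path which leaves `inr n`), `dg ≥ 3`, contradiction to `deg`.
-/

set_option autoImplicit false

namespace Pool.Agent.FLV

theorem G1_shape {V : Type*} (es : List (Elem V)) (hs : sizes es = [])
    (ha : ∀ a : V, Sum.inl a ∉ lets es) :
    ∃ cs : List ℕ, lets es = cs.map Sum.inr ∧ full es = cs.map Sum.inr ∧
      cs.length = (ids es).length ∧
      (∀ i s n : ℕ, cs[i]? = some n → (ids es)[i]? = some s → Elem.free s (Sum.inr n) ∈ es) ∧
      (∀ s v, Elem.free s v ∈ es → ∃ i n : ℕ, cs[i]? = some n ∧ (ids es)[i]? = some s ∧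
        v = Sum.inr n) := by
  induction es with
  | nil => exact ⟨[], by simp, by simp, by simp, by simp, by simp⟩
  | cons e es ih =>
    cases e with
    | pile x P x' => simp at hs
    | free s v =>
      obtain ⟨cs, h1, h2, h3, h4, h5⟩ := ih (by simpa using hs)
        (fun a h => ha a (by simp [h]))
      cases v with
      | inl a => exact absurd (by simp) (ha a)
      | inr n =>
        refine ⟨n :: cs, by simp [h1], by simp [h2], by simp [h3], ?_, ?_⟩
        · intro i r m hm hr
          cases i with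
          | zero =>
            simp at hm hr
            subst hm hr
            simp
          | succ i =>
            simp at hm hr
            exact List.mem_cons_of_mem _ (h4 i r m hm hr)
        · intro r v hv
          rcases List.mem_cons.1 hv with hv | hv
          · cases hv
            exact ⟨0, n, by simp, by simp, rfl⟩
          · obtain ⟨i, m, hi, hj, rfl⟩ := h5 r v hv
            exact ⟨i + 1, m, by simpa using hi, by simpa using hj, rfl⟩

theorem G1_dg_mem {V : Type*} [DecidableEq V] {fe : List ((V ⊕ ℕ) × ℕ)} {e : (V ⊕ ℕ) × ℕ}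
    (h : e ∈ fe) (u : V ⊕ ℕ) : dg [e] u ≤ dg fe u := by
  obtain ⟨l1, l2, rfl⟩ := List.append_of_mem h
  rw [dg_append, dg_cons e l2, dg_cons e []]
  simp only [dg_nil]
  omega

theorem G1_dg_mem2 {V : Type*} [DecidableEq V] {fe : List ((V ⊕ ℕ) × ℕ)}
    {e e' : (V ⊕ ℕ) × ℕ} (h : e ∈ fe) (h' : e' ∈ fe) (hne : e' ≠ e) (u : V ⊕ ℕ) :
    dg [e] u + dg [e'] u ≤ dg fe u := by
  obtain ⟨l1, l2, rfl⟩ := List.append_of_mem h
  have h2 : e' ∈ l1 ++ l2 := by
    simp only [List.mem_append, List.mem_cons] at h' ⊢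
    tauto
  have h3 := G1_dg_mem h2 u
  rw [dg_append] at h3 ⊢
  rw [dg_cons e l2, dg_cons e []]
  simp only [dg_nil]
  omega

theorem G1_first {V : Type*} {fe : List ((V ⊕ ℕ) × ℕ)} {x y : V ⊕ ℕ} (h : Conn fe x y)
    (hne : y ≠ x) : ∃ w, w ≠ x ∧ FAdj fe x w := by
  induction h with
  | refl => exact absurd rfl hne
  | @tail b c _ hbc ih =>
    by_cases hb : b = x
    · subst hb
      exact ⟨c, hne, hbc⟩
    · exact ih hb

theorem G1_noloop {V : Type*} [DecidableEq V] {G : V → V → Prop} {b : V} {r : ℕ} {SV : List V}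
    {fe : List ((V ⊕ ℕ) × ℕ)} {st : List (V ⊕ ℕ)} {es : List (Elem V)}
    (H : Core G b r SV fe st es) {n : ℕ} (hn : (Sum.inr n, n) ∈ fe)
    (hl : Sum.inr n ∈ lets es → ∃ s, Elem.free s (Sum.inr n) ∈ es) : False := by
  have h2 : dg [((Sum.inr n : V ⊕ ℕ), n)] (Sum.inr n) = 2 := by simp [dg_cons]
  rcases List.mem_append.1 (H.mem_fe _ hn).2 with h | h
  · obtain ⟨s, v, hv, hc⟩ := H.conn_st n h
    have hne : v ≠ Sum.inr n := by
      rintro rfl
      have h3 : Sum.inr n ∈ full es := mem_full.2 ⟨_, hv, by simp⟩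
      exact (List.nodup_append.1 H.nodup).2.2 _ h _ h3 rfl
    obtain ⟨w, hw, hadj⟩ := G1_first hc hne
    have hd := H.deg (Sum.inr n)
    rw [cap_inr] at hd
    rcases hadj with ⟨m, rfl, hm⟩ | ⟨m, hm', hm⟩
    · have hne2 : ((Sum.inr n : V ⊕ ℕ), m) ≠ (Sum.inr n, n) := by
        intro h4
        apply hw
        have := (Prod.mk.inj h4).2
        rw [this]
      have h5 := G1_dg_mem2 hn hm hne2 (Sum.inr n)
      have h6 : 1 ≤ dg [((Sum.inr n : V ⊕ ℕ), m)] (Sum.inr n) := by simp [dg_cons]
      omega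
    · cases hm'
      have hne2 : (w, n) ≠ ((Sum.inr n : V ⊕ ℕ), n) := by
        intro h4
        exact hw (Prod.mk.inj h4).1
      have h5 := G1_dg_mem2 hn hm hne2 (Sum.inr n)
      have h6 : 1 ≤ dg [(w, n)] (Sum.inr n) := by simp [dg_cons]
      omega
  · obtain ⟨s, hs⟩ := hl h
    have h3 := H.deg_open s _ hs
    have h4 := G1_dg_mem hn (Sum.inr n)
    rw [cap_inr] at h3
    omega

theorem AF.half {V : Type*} [DecidableEq V] {G : V → V → Prop} {col : V → Bool} {b : V}
    {SV : List V} {h : ℕ} {u : List ℕ} {N : ℕ} (H : AF G col b SV h u N) :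
    ∃ fe A B c, Half G b SV h fe A B c u ∧ A.length + B.length + h = N := by
  have htw := H.TW
  obtain ⟨fe, A, B, es, H, hs, ha, hu, hN⟩ := H
  have hC := H.core
  have hal : ∀ a : V, Sum.inl a ∉ lets es := by
    intro a hal
    have h1 : Sum.inl a ∈ full es := lets_subset_full hal
    have h2 : a ∈ SV := (hC.mem a).1 (List.mem_append_right _ h1)
    exact (List.nodup_append.1 hC.nodup).2.2 _ (ha a h2) _ h1 rfl
  obtain ⟨cs, h1, h2, h3, h4, h5⟩ := G1_shape es hs hal
  have hlen : cs.length = 2 * h + 1 := by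
    have := H.len
    rw [h1, List.length_map] at this
    exact this
  have hfree : ∀ n, n ∈ cs → ∃ s, Elem.free s (Sum.inr n) ∈ es := by
    intro n hn
    obtain ⟨i, hi, rfl⟩ := List.mem_iff_getElem.1 hn
    have hi' : i < (ids es).length := by omega
    exact ⟨(ids es)[i], h4 i _ _ (List.getElem?_eq_getElem hi) (List.getElem?_eq_getElem hi')⟩
  refine ⟨fe, A, B, cs, ⟨hlen, htw.1, htw.2, ?_, ?_, ?_, hC.deg, ?_, ?_, ?_, ?_, ?_⟩, hN⟩
  · have := hC.nodup
    rwa [h2] at this
  · intro a
    rw [← hC.mem a, h2]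
    simp
  · intro e he
    have h6 := hC.mem_fe e he
    rw [h1] at h6
    refine ⟨h6.1, h6.2, ?_⟩
    intro h7
    have h8 : ((Sum.inr e.2 : V ⊕ ℕ), e.2) ∈ fe := by
      rw [← h7]
      exact he
    refine G1_noloop hC h8 ?_
    intro h9
    rw [h1] at h9
    simp only [List.mem_map, Sum.inr.injEq, exists_eq_right] at h9
    exact hfree _ h9
  · intro n hn
    obtain ⟨s, hs'⟩ := hfree n hn
    have h6 := hC.deg_open s _ hs'
    rw [cap_inr] at h6
    omega
  · intro i j n m hi hj hij
    have hi1 : i < cs.length := by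
      by_contra h6
      rw [List.getElem?_eq_none (by omega)] at hi
      simp at hi
    have hi' : i < (ids es).length := by omega
    have hi2 : (ids es)[i]? = some (ids es)[i] := List.getElem?_eq_getElem hi'
    have hj2 : (ids es)[j]? = some (ids es)[i] := by
      rw [← hu] at hij
      rw [← hij]
      exact hi2
    exact hC.conn_id _ _ _ (h4 i _ _ hi hi2) (h4 j _ _ hj hj2)
  · intro i n hi h0
    rw [← hu] at h0
    exact hC.conn_root _ (h4 i _ _ hi h0)
  · intro n hn
    obtain ⟨s, v, hv, hc⟩ := hC.conn_st n hn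
    obtain ⟨i, m, hi, _, rfl⟩ := h5 s v hv
    exact ⟨m, List.mem_of_getElem? hi, hc⟩
  · have h6 := H.cov
    rw [List.rotate_zero, h1, ← List.map_take, ← List.map_drop] at h6
    exact h6

end Pool.Agent.FLV
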