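import Pool.Agent.FLV.AFDefs
import Pool.Agent.FLV.W1
import Pool.Agent.FLV.GDefs

/-!
# Half labellings, ready for gluing
-/

set_option autoImplicit false

namespace Pool.Agent.FLV

/-- A state without piles in list form: `cs` = the open letters (all fresh), `u` = names of the strings. -/
structure Half {V : Type*} [DecidableEq V] (G : V → V → Prop) (b : V) (SV : List V) (h : ℕ)
    (fe : List ((V ⊕ ℕ) × ℕ)) (A B : List (V ⊕ ℕ)) (cs u : List ℕ) : Prop where
  lenc : cs.length = 2 * h + 1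
  lenu : u.length = 2 * h + 1
  tw : TW u
  nodup : (A ++ B ++ cs.map Sum.inr).Nodup
  mem : ∀ a : V, Sum.inl a ∈ A ++ B ↔ a ∈ SV
  mem_fe : ∀ e ∈ fe, e.1 ∈ A ++ B ++ cs.map Sum.inr ∧ Sum.inr e.2 ∈ A ++ B ++ cs.map Sum.inr ∧
    e.1 ≠ Sum.inr e.2
  deg : ∀ v, dg fe v ≤ cap b v
  degc : ∀ n ∈ cs, dg fe (Sum.inr n) ≤ 1
  conn_id : ∀ i j n m : ℕ, cs[i]? = some n → cs[j]? = some m → u[i]? = u[j]? →
    Conn fe (Sum.inr n) (Sum.inr m)
  conn_root : ∀ i n : ℕ, cs[i]? = some n → u[i]? = some 0 → Conn fe (Sum.inl b) (Sum.inr n)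
  conn_st : ∀ n, Sum.inr n ∈ A ++ B → ∃ m ∈ cs, Conn fe (Sum.inr n) (Sum.inr m)
  cov : CovI (EE G fe) (A ++ (cs.take (h + 1)).map Sum.inr) (B ++ (cs.drop (h + 1)).map Sum.inr) 0
    (A.length + B.length + h)

/-- transport of the circle word of the right half: the two rows are reversed -/
def tp {α : Type*} (h : ℕ) (l : List α) : List α := (l.take (h + 1)).reverse ++ (l.drop (h + 1)).reverse

/-- apply a renaming of the fresh vertices -/
def rnW {V : Type*} (ρ : ℕ → ℕ) : V ⊕ ℕ → V ⊕ ℕ := Sum.map id ρ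

end Pool.Agent.FLV
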