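import Pool.Agent.FLV.Defs

/-!
# Basic facts on coverage, and the explicit macros on rows
-/

set_option autoImplicit false

namespace Pool.Agent.FLV

variable {U : Type*}

theorem CovAt.mono {E E' : U → U → Prop} {X Y : List U} {s : ℕ} (h : CovAt E X Y s)
    (hE : ∀ u v, E u v → E' u v) (C D : List U) : CovAt E' (X ++ C) (Y ++ D) s := by
  obtain ⟨i, j, x, y, hx, hy, hij, he⟩ := h
  refine ⟨i, j, x, y, ?_, ?_, hij, he.imp (hE _ _) (hE _ _)⟩
  · rw [List.getElem?_append_left (List.getElem?_eq_some_iff.1 hx).1]; exact hx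
  · rw [List.getElem?_append_left (List.getElem?_eq_some_iff.1 hy).1]; exact hy

theorem CovAt.symm {E : U → U → Prop} {X Y : List U} {s : ℕ} (h : CovAt E X Y s) :
    CovAt E Y X s := by
  obtain ⟨i, j, x, y, hx, hy, hij, he⟩ := h
  exact ⟨j, i, y, x, hy, hx, by omega, he.symm⟩

theorem CovI.mono {E E' : U → U → Prop} {X Y : List U} {a b : ℕ} (h : CovI E X Y a b)
    (hE : ∀ u v, E u v → E' u v) (C D : List U) : CovI E' (X ++ C) (Y ++ D) a b :=
  fun s h1 h2 => (h s h1 h2).mono hE C D

theorem CovI.symm {E : U → U → Prop} {X Y : List U} {a b : ℕ} (h : CovI E X Y a b) :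
    CovI E Y X a b := fun s h1 h2 => (h s h1 h2).symm

theorem CovI.trans {E : U → U → Prop} {X Y : List U} {a b c : ℕ} (h : CovI E X Y a b)
    (h' : CovI E X Y b c) : CovI E X Y a c := by
  intro s h1 h2
  rcases lt_or_ge s b with h3 | h3
  · exact h s h1 h3
  · exact h' s h3 h2

theorem covAt_mk {E : U → U → Prop} (X1 X2 Y1 Y2 : List U) (x y : U) (he : E x y ∨ E y x)
    {X Y : List U} (hX : X = X1 ++ x :: X2) (hY : Y = Y1 ++ y :: Y2) {s : ℕ}
    (hs : s = X1.length + Y1.length) : CovAt E X Y s := by
  subst hX hY hs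
  exact ⟨X1.length, Y1.length, x, y, by simp, by simp, rfl, he⟩

/-- corresponding entries of two adjacent lists cover every second sum -/
theorem cov_forall₂ {E : U → U → Prop} (X1 X2 Y1 Y2 F F' : List U) (hF : List.Forall₂ E F F')
    {X Y : List U} (hX : X = X1 ++ (F ++ X2)) (hY : Y = Y1 ++ (F' ++ Y2)) (k : ℕ)
    (hk : k < F.length) {s : ℕ} (hs : s = X1.length + Y1.length + 2 * k) : CovAt E X Y s := by
  have hl := hF.length_eq
  subst hX hY hs
  refine ⟨X1.length + k, Y1.length + k, F[k], F'[k], ?_, ?_, by omega, Or.inl ?_⟩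
  · rw [List.getElem?_append_right (by omega), List.getElem?_append_left (by omega)]; simp
  · rw [List.getElem?_append_right (by omega), List.getElem?_append_left (by omega)]; simp
  · exact hF.get (i := k) (by omega) (by omega)

/-- one full round: every open letter is popped once; the rows change their roles -/
theorem cov_round {E : U → U → Prop} (A B F S F' S' : List U) (hF : List.Forall₂ E F F')
    (hS : List.Forall₂ E S S') (hl : F.length = S.length + 1) :
    CovI E (B ++ S ++ F') (A ++ F ++ S') (A.length + B.length + S.length)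
      (A.length + B.length + S.length + (2 * S.length + 1)) := by
  intro s h1 h2
  have hl1 := hF.length_eq
  have hl2 := hS.length_eq
  obtain ⟨t, rfl⟩ := Nat.exists_eq_add_of_le h1
  rcases Nat.even_or_odd' t with ⟨k, hk | hk⟩
  · exact (cov_forall₂ A S' (B ++ S) [] F F' hF (X := A ++ F ++ S') (Y := B ++ S ++ F')
      (by simp) (by simp) k (by omega) (by simp; omega)).symm
  · exact cov_forall₂ B F' (A ++ F) [] S S' hS (X := B ++ S ++ F') (Y := A ++ F ++ S')
      (by simp) (by simp) k (by omega) (by simp; omega)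

/-- double step: the first letter `a` and the opposite letter `b` are popped -/
theorem cov_dstep {E : U → U → Prop} (A B P Q : List U) (a b a' b' : U) (ha : E a a')
    (hb : E b b') (hl : P.length = Q.length + 1) :
    CovI E (A ++ a :: (P ++ [b'])) (B ++ b :: (Q ++ [a'])) (A.length + B.length + P.length)
      (A.length + B.length + P.length + 2) := by
  intro s h1 h2
  obtain ⟨t, rfl⟩ := Nat.exists_eq_add_of_le h1
  have : t = 0 ∨ t = 1 := by omega
  rcases this with rfl | rfl
  · exact covAt_mk A (P ++ [b']) (B ++ b :: Q) [] a a' (Or.inl ha) (by simp) (by simp)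
      (by simp; omega)
  · exact covAt_mk (A ++ a :: P) [] B (Q ++ [a']) b' b (Or.inr hb) (by simp) (by simp)
      (by simp; omega)

end Pool.Agent.FLV
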