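import Pool.Agent.FLV.C5
import Pool.Agent.FLV.L1b

/-!
# The R-move

`rmove`: `Z = (lets es).rotate k = F0 ++ v :: S0`, `|F0| = |S0| = n`.  The plain circle word before was
`x :: x' :: Z`, i.e. the rows were `A ++ x :: x' :: F0` and `B ++ v :: S0`.
PROOF: `Core.adv_all` twice: `w0 = Z`, `w1`, `w2` (rotated words), with `w1 = F1 ++ a1 :: S1`, `w2 = F2 ++ z2 :: S2`;
then `Core.adv_rot` (index `n`) three times: `z2 → y → yp → ypp`.  Result: `Z' = F2 ++ ypp :: S2`.
`A' = A ++ x :: x' :: (F0 ++ y :: a1 :: S1)`, `B' = B ++ v :: (S0 ++ z :: (F1 ++ yp :: z2 :: []))`.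
Settled vertices: `st` plus `w0`, `w1`, `z2, y, yp`; this is a permutation of `A' ++ B'` (`hst`).
Coverage for all `E'`, `c`, `c'`: `CovI.mono` for the old part and `cov_R` (`Z'.take (n+1) = F2 ++ [ypp]`,
`Z'.drop (n+1) = S2`).  Colours: `F0, S1, y, F2, ypp` etc. alternate (`forall₂_nx_col`, `Nx.col`); `z` has the colour of
the second row by `hz`.
Sizes: every pile loses 2 + 2 vertices, and the pile containing `v` three more.
-/

set_option autoImplicit false

namespace Pool.Agent.FLV

section M2aux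

variable {U W : Type*}

theorem M2_f2 {R : U → W → Prop} {l : List U} {l' : List W} (h : List.Forall₂ R l l') :
    ∀ p' ∈ l', ∃ p ∈ l, R p p' := by
  induction h with
  | nil => simp
  | @cons u v l l' h1 _ ih =>
    intro p' hp'
    rcases List.mem_cons.1 hp' with h2 | h2
    · exact ⟨u, by simp, h2 ▸ h1⟩
    · obtain ⟨p, hp, hr⟩ := ih p' h2
      exact ⟨p, by simp [hp], hr⟩

theorem M2_sz {V : Type*} {a c m : ℕ} {es es' : List (Elem V)}
    (h : List.Forall₂ (Shr a c) es es') (hb : ∀ p ∈ sizes es, m + c ≤ p) :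
    ∀ p ∈ sizes es', m ≤ p := by
  intro p' hp'
  obtain ⟨p, hp, _, h2⟩ := M2_f2 (shrL_sizes h) p' hp'
  have := hb p hp
  omega

theorem M2_rot {R : U → W → Prop} {l : List U} {l' : List W} (h : List.Forall₂ R l l') (k : ℕ) :
    List.Forall₂ R (l.rotate k) (l'.rotate k) := by
  have hl := h.length_eq
  rw [List.rotate_eq_drop_append_take_mod, List.rotate_eq_drop_append_take_mod, hl]
  exact List.rel_append (List.forall₂_drop _ h) (List.forall₂_take _ h)

theorem M2_split {n : ℕ} {w : List U} (h : w.length = 2 * n + 1) :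
    ∃ F v S, w = F ++ v :: S ∧ F.length = n ∧ S.length = n := by
  refine ⟨w.take n, w[n], w.drop (n + 1), ?_, by simp; omega, by simp; omega⟩
  rw [← List.drop_eq_getElem_cons (by omega), List.take_append_drop]

theorem M2_app {R : U → W → Prop} {F S : List U} {F' S' : List W} {v : U} {v' : W}
    (h : List.Forall₂ R (F ++ v :: S) (F' ++ v' :: S')) (hl : F.length = F'.length) :
    List.Forall₂ R F F' ∧ R v v' ∧ List.Forall₂ R S S' := by
  induction F generalizing F' with
  | nil =>
    have : F' = [] := by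
      cases F' with
      | nil => rfl
      | cons a l => simp at hl
    subst this
    cases h with
    | cons h1 h2 => exact ⟨.nil, h1, h2⟩
  | cons a F ih =>
    cases F' with
    | nil => simp at hl
    | cons a' F' =>
      cases h with
      | cons h1 h2 =>
        obtain ⟨h3, h4, h5⟩ := ih h2 (by simpa using hl)
        exact ⟨.cons h1 h3, h4, h5⟩

theorem M2_get {F S : List U} {v : U} {n : ℕ} (hF : F.length = n) : (F ++ v :: S)[n]? = some v := by
  rw [List.getElem?_append_right (by omega)]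
  simp [hF]

theorem M2_set {F S : List U} {v v' : U} {n : ℕ} (hF : F.length = n) :
    (F ++ v :: S).set n v' = F ++ v' :: S := by
  rw [List.set_append_right _ _ (by omega)]
  simp [hF]

end M2aux

variable {V : Type*} [DecidableEq V] {G : V → V → Prop} {col : V → Bool} {b : V} {SV : List V}
  {n : ℕ} {fe : List ((V ⊕ ℕ) × ℕ)} {A B : List (V ⊕ ℕ)} {es : List (Elem V)} {k : ℕ}

theorem rmove (hG : ∀ a c, G a c → G c a) (hcol : ∀ a c, G a c → col a ≠ col c)
    {st : List (V ⊕ ℕ)} {x x' z : V ⊕ ℕ} (H : Core G b 1 SV fe st es)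
    (hst : st.Perm (A ++ B ++ [x, x', z])) (hlen : (lets es).length = 2 * n + 1)
    (hcov : CovI (EE G fe) (A ++ x :: x' :: ((lets es).rotate k).take n)
      (B ++ ((lets es).rotate k).drop n) 0 (A.length + B.length + n + 1))
    (hc : ∃ κ, (∀ a, Sum.inl a ∈ A ++ x :: x' :: ((lets es).rotate k).take n → col a = κ) ∧
      (∀ a, Sum.inl a ∈ B ++ z :: ((lets es).rotate k).drop n → col a = !κ))
    (hxz : EE G fe x z) (hxz' : EE G fe x' z) (hbig : ∀ p ∈ sizes es, 8 ≤ p) :
    ∃ fe' C D es', PInv G col b SV n fe' (A ++ C) (B ++ D) es' k ∧ C.length = 2 * n + 4 ∧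
      D.length = 2 * n + 4 ∧ List.Forall₂ (Shr 4 7) es es' := by
  obtain ⟨fe1, es1, H1, hf1, hs1, hn1, -⟩ := H.adv_all hG
    (fun p hp => le_trans (by norm_num) (hbig p hp)) []
  have hb1 : ∀ p ∈ sizes es1, 6 ≤ p := M2_sz hs1 (fun p hp => hbig p hp)
  obtain ⟨fe2, es2, H2, hf2, hs2, hn2, -⟩ := H1.adv_all hG
    (fun p hp => le_trans (by norm_num) (hb1 p hp)) []
  have hb2 : ∀ p ∈ sizes es2, 4 ≤ p := M2_sz hs2 (fun p hp => hb1 p hp)
  have hl1 : (lets es1).length = 2 * n + 1 := by rw [shrL_len hs1, hlen]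
  have hl2 : (lets es2).length = 2 * n + 1 := by rw [shrL_len hs2, hl1]
  obtain ⟨F0, v, S0, e0, hF0, hS0⟩ := M2_split (n := n) (w := (lets es).rotate k) (by simpa using hlen)
  obtain ⟨F1, a1, S1, e1, hF1, hS1⟩ := M2_split (n := n) (w := (lets es1).rotate k) (by simpa using hl1)
  obtain ⟨F2, z2, S2, e2, hF2, hS2⟩ := M2_split (n := n) (w := (lets es2).rotate k) (by simpa using hl2)
  obtain ⟨fe3, es3, y, H3, hf3, hs3, hr3, hx3⟩ := H2.adv_rot hG
    (fun p hp => le_trans (by norm_num) (hb2 p hp)) k (i := n) (v := z2) (by rw [e2]; exact M2_get hF2)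
  rw [e2, M2_set hF2] at hr3
  have hb3 : ∀ p ∈ sizes es3, 3 ≤ p := M2_sz hs3 (fun p hp => hb2 p hp)
  obtain ⟨fe4, es4, yp, H4, hf4, hs4, hr4, hx4⟩ := H3.adv_rot hG
    (fun p hp => le_trans (by norm_num) (hb3 p hp)) k (i := n) (v := y) (by rw [hr3]; exact M2_get hF2)
  rw [hr3, M2_set hF2] at hr4
  have hb4 : ∀ p ∈ sizes es4, 2 ≤ p := M2_sz hs4 (fun p hp => hb3 p hp)
  obtain ⟨fe5, es5, ypp, H5, hf5, hs5, hr5, hx5⟩ := H4.adv_rot hG
    (fun p hp => le_trans (by norm_num) (hb4 p hp)) k (i := n) (v := yp) (by rw [hr4]; exact M2_get hF2)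
  rw [hr4, M2_set hF2] at hr5
  have g4 : ∀ e ∈ fe4, e ∈ fe5 := hf5
  have g3 : ∀ e ∈ fe3, e ∈ fe5 := fun e he => g4 e (hf4 e he)
  have g2 : ∀ e ∈ fe2, e ∈ fe5 := fun e he => g3 e (hf3 e he)
  have g1 : ∀ e ∈ fe1, e ∈ fe5 := fun e he => g2 e (hf2 e he)
  have g0 : ∀ e ∈ fe, e ∈ fe5 := fun e he => g1 e (hf1 e he)
  have r1 := M2_rot hn1 k
  have r2 := M2_rot hn2 k
  rw [e0, e1] at r1
  rw [e1, e2] at r2
  obtain ⟨rF1, rv, rS1⟩ := M2_app r1 (by omega)
  obtain ⟨rF2, ra, rS2⟩ := M2_app r2 (by omega)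
  have t0 : (F0 ++ v :: S0).take n = F0 := by
    rw [List.take_append_of_le_length (by omega), List.take_of_length_le (by omega)]
  have d0 : (F0 ++ v :: S0).drop n = v :: S0 := by
    rw [← hF0]; exact List.drop_left
  rw [e0, t0, d0] at hcov hc
  have t5 : (F2 ++ ypp :: S2).take (n + 1) = F2 ++ [ypp] := by
    have : F2 ++ ypp :: S2 = (F2 ++ [ypp]) ++ S2 := by simp
    rw [this, List.take_append_of_le_length (by simp; omega), List.take_of_length_le (by simp; omega)]
  have d5 : (F2 ++ ypp :: S2).drop (n + 1) = S2 := by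
    have : F2 ++ ypp :: S2 = (F2 ++ [ypp]) ++ S2 := by simp
    have h : n + 1 = (F2 ++ [ypp]).length := by simp [hF2]
    rw [this, h]; exact List.drop_left
  have hl5 : (lets es5).length = 2 * n + 1 := by
    rw [shrL_len hs5, shrL_len hs4, shrL_len hs3, hl2]
  refine ⟨fe5, x :: x' :: (F0 ++ y :: a1 :: S1), v :: (S0 ++ z :: (F1 ++ yp :: z2 :: [])), es5,
    ⟨?_, hl5, ?_, ?_⟩, by simp; omega, by simp; omega, ?_⟩
  · refine H5.perm ?_ (List.Perm.refl _)
    have p0 : (lets es).Perm (F0 ++ v :: S0) := by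
      rw [← e0]; exact (List.rotate_perm _ _).symm
    have p1 : (lets es1).Perm (F1 ++ a1 :: S1) := by
      rw [← e1]; exact (List.rotate_perm _ _).symm
    have hp : (st ++ lets es ++ lets es1 ++ [z2] ++ [y] ++ [yp]).Perm
        ((A ++ B ++ [x, x', z]) ++ (F0 ++ v :: S0) ++ (F1 ++ a1 :: S1) ++ [z2] ++ [y] ++ [yp]) := by
      exact (((((hst.append p0).append p1).append (List.Perm.refl _)).append
        (List.Perm.refl _)).append (List.Perm.refl _))
    refine hp.trans ?_
    rw [← Multiset.coe_eq_coe]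
    simp only [← Multiset.coe_add, ← Multiset.cons_coe, ← Multiset.singleton_add,
      Multiset.coe_nil, add_zero]
    abel
  · intro E' c c' hE hcc
    rw [hr5, t5, d5]
    have hold : CovI E' ((A ++ x :: x' :: (F0 ++ y :: a1 :: S1)) ++ c :: (F2 ++ [ypp]))
        ((B ++ v :: (S0 ++ z :: (F1 ++ yp :: z2 :: []))) ++ (S2 ++ [c'])) 0
        (A.length + B.length + F0.length + 1) := by
      have h := hcov.mono (E' := E') (fun u w hu => hE u w (hu.mono g0))
        (y :: a1 :: S1 ++ c :: (F2 ++ [ypp])) (z :: (F1 ++ yp :: z2 :: []) ++ (S2 ++ [c']))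
      rw [hF0]
      simpa using h
    have hnew := cov_R (E := E') A B F0 F1 F2 S0 S1 S2 x x' v z a1 z2 y yp ypp c c' (by omega)
      (rF1.imp fun _ _ h => hE _ _ (h.mono g1).ee) (rF2.imp fun _ _ h => hE _ _ (h.mono g2).ee)
      (rS1.imp fun _ _ h => hE _ _ (h.mono g1).ee) (rS2.imp fun _ _ h => hE _ _ (h.mono g2).ee)
      (Or.inl (hE _ _ (hxz.mono g0))) (Or.inl (hE _ _ (hxz'.mono g0)))
      (hE _ _ (rv.mono g1).ee) (hE _ _ (ra.mono g2).ee) (hE _ _ (hx3.mono g3).ee)
      (hE _ _ (hx4.mono g4).ee) (hE _ _ hx5.ee) hcc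
    have := hold.trans hnew
    have hlen' : (A ++ x :: x' :: (F0 ++ y :: a1 :: S1)).length
        + (B ++ v :: (S0 ++ z :: (F1 ++ yp :: z2 :: []))).length + n + 1
        = A.length + B.length + F0.length + 1 + (4 * (F0.length + 1) + 4) := by
      simp; omega
    rw [hlen']
    exact this
  · rw [hr5, t5, d5]
    obtain ⟨κ, hA, hB⟩ := hc
    have cF0 : ∀ a, Sum.inl a ∈ F0 → col a = κ := fun a ha => hA a (by simp [ha])
    have cS0 : ∀ a, Sum.inl a ∈ S0 → col a = !κ := fun a ha => hB a (by simp [ha])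
    have cv : ∀ a, v = Sum.inl a → col a = !κ := fun a ha => hB a (by simp [ha])
    have cF1 := forall₂_nx_col hcol rF1 cF0
    have cF2 := forall₂_nx_col hcol rF2 cF1
    have cS1 := forall₂_nx_col hcol rS1 cS0
    have cS2 := forall₂_nx_col hcol rS2 cS1
    have ca1 := rv.col hcol cv
    have cz2 := ra.col hcol ca1
    have cy := hx3.col hcol cz2
    have cyp := hx4.col hcol cy
    have cypp := hx5.col hcol cyp
    refine ⟨κ, ?_, ?_⟩
    · intro a ha
      simp only [List.mem_append, List.mem_cons, List.not_mem_nil, or_false] at ha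
      rcases ha with (h | h | h | h | h | h | h) | h | h
      · exact hA a (by simp [h])
      · exact hA a (by simp [h])
      · exact hA a (by simp [h])
      · exact hA a (by simp [h])
      · simpa using cy a h.symm
      · simpa using ca1 a h.symm
      · simpa using cS1 a h
      · simpa using cF2 a h
      · simpa using cypp a h.symm
    · intro a ha
      simp only [List.mem_append, List.mem_cons, List.not_mem_nil, or_false] at ha
      rcases ha with (h | h | h | h | h | h | h) | h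
      · exact hB a (by simp [h])
      · exact hB a (by simp [h])
      · exact hB a (by simp [h])
      · exact hB a (by simp [h])
      · simpa using cF1 a h
      · simpa using cyp a h.symm
      · simpa using cz2 a h.symm
      · simpa using cS2 a h
  · have := shrL_trans (shrL_trans (shrL_trans (shrL_trans hs1 hs2) hs3) hs4) hs5
    exact shrL_mono this (by omega) (by omega)

end Pool.Agent.FLV
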