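import Pool.Agent.FLV.M2

/-!
# Passing one letter

`PInv.pass`: the first letter `t` of the circle word `Z = (lets es).rotate k` is advanced three times
(`Core.adv_rot`, index `0`): `t → z → c → c'`, giving `es1` with `(lets es1).rotate k = c' :: Z.tail`.  With this choice of
`c, c'` the pending state is the plain state with circle word `c :: t :: (Z.tail ++ [c'])` (use `H.cov` with
`E' = EE G fe1`), and `(lets es1).rotate (k+1) = Z.tail ++ [c']`.  Now `rmove` with `x = c`, `x' = t`, `z`:
`hst`: the settled vertices are `A ++ B ++ [t, z, c]`.  Colours: `t` is in the first row (`0 < n + 1`), `z` has the other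
colour, `c` the colour of the first row, `c'` the colour of the second row (`Nx.col`).
Sizes: `-4`, up to `3` more for the pile of `v`, `3` more for the pile of `t`.
-/

set_option autoImplicit false

namespace Pool.Agent.FLV

theorem M4_EE_symm {V : Type*} {G : V → V → Prop} {fe : List ((V ⊕ ℕ) × ℕ)}
    (hG : ∀ a c, G a c → G c a) {u v : V ⊕ ℕ} (h : EE G fe u v) : EE G fe v u := by
  rcases h with ⟨a, c, hu, hv, h⟩ | h
  · exact Or.inl ⟨c, a, hv, hu, hG _ _ h⟩
  · exact Or.inr h.symm

theorem M4_big {a c N : ℕ} {l l' : List ℕ}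
    (h : List.Forall₂ (fun g g' => g' + a ≤ g ∧ g ≤ g' + c) l l') (hb : ∀ p ∈ l, N + c ≤ p) :
    ∀ p ∈ l', N ≤ p := by
  induction h with
  | nil => simp
  | @cons g g' l l' h1 _ ih =>
    intro p hp
    rcases List.mem_cons.1 hp with h2 | h2
    · have := hb g (by simp)
      omega
    · exact ih (fun p hp => hb p (by simp [hp])) p h2

theorem M4_big' {V : Type*} {a c N : ℕ} {es es' : List (Elem V)}
    (h : List.Forall₂ (Shr a c) es es') (hb : ∀ p ∈ sizes es, N + c ≤ p) :
    ∀ p ∈ sizes es', N ≤ p := M4_big (shrL_sizes h) hb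

variable {V : Type*} [DecidableEq V] {G : V → V → Prop} {col : V → Bool} {b : V} {SV : List V}
  {n : ℕ} {fe : List ((V ⊕ ℕ) × ℕ)} {A B : List (V ⊕ ℕ)} {es : List (Elem V)} {k : ℕ}

theorem PInv.pass (hG : ∀ a c, G a c → G c a) (hcol : ∀ a c, G a c → col a ≠ col c)
    (H : PInv G col b SV n fe A B es k) (hbig : ∀ p ∈ sizes es, 12 ≤ p) :
    ∃ fe' C D es', PInv G col b SV n fe' (A ++ C) (B ++ D) es' (k + 1) ∧ C.length = 2 * n + 4 ∧
      D.length = 2 * n + 4 ∧ List.Forall₂ (Shr 4 10) es es' := by
  obtain ⟨t, Z, hZ⟩ : ∃ t Z, (lets es).rotate k = t :: Z := by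
    rcases h : (lets es).rotate k with _ | ⟨t, Z⟩
    · have h1 := congrArg List.length h
      rw [List.length_rotate, H.len] at h1
      simp at h1
    · exact ⟨t, Z, rfl⟩
  have hZlen : Z.length = 2 * n := by
    have h1 := congrArg List.length hZ
    rw [List.length_rotate, H.len, List.length_cons] at h1
    omega
  obtain ⟨fe1, es1, z, K1, hf1, hS1, hr1, hn1⟩ := H.core.adv_rot hG
    (fun p hp => by have := hbig p hp; omega) k (i := 0) (v := t) (by rw [hZ]; rfl)
  rw [hZ, List.set_cons_zero] at hr1
  obtain ⟨fe2, es2, c, K2, hf2, hS2, hr2, hn2⟩ := K1.adv_rot hG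
    (M4_big' hS1 fun p hp => by have := hbig p hp; omega) k (i := 0) (v := z) (by rw [hr1]; rfl)
  rw [hr1, List.set_cons_zero] at hr2
  have hS12 : List.Forall₂ (Shr 0 2) es es2 := shrL_trans hS1 hS2
  obtain ⟨fe3, es3, c', K3, hf3, hS3, hr3, hn3⟩ := K2.adv_rot hG
    (M4_big' hS12 fun p hp => by have := hbig p hp; omega) k (i := 0) (v := c) (by rw [hr2]; rfl)
  rw [hr2, List.set_cons_zero] at hr3
  have hS : List.Forall₂ (Shr 0 3) es es3 := shrL_trans hS12 hS3
  have hrot : (lets es3).rotate (k + 1) = Z ++ [c'] := by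
    rw [← List.rotate_rotate, hr3, List.rotate_cons_succ, List.rotate_zero]
  have hf23 : ∀ e ∈ fe1, e ∈ fe3 := fun e he => hf3 _ (hf2 _ he)
  have htake : ((lets es3).rotate (k + 1)).take n = Z.take n := by
    rw [hrot, List.take_append_of_le_length (by omega)]
  have hdrop : ((lets es3).rotate (k + 1)).drop n = Z.drop n ++ [c'] := by
    rw [hrot, List.drop_append_of_le_length (by omega)]
  obtain ⟨κ, hκ1, hκ2⟩ := H.col
  rw [hZ, List.take_succ_cons] at hκ1
  rw [hZ, List.drop_succ_cons] at hκ2
  have hcz : ∀ a, z = Sum.inl a → col a = !κ :=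
    hn1.col hcol (fun a ha => hκ1 a (by simp [ha]))
  have hcc : ∀ a, c = Sum.inl a → col a = κ := by
    have := hn2.col hcol hcz
    simpa using this
  have hcc' : ∀ a, c' = Sum.inl a → col a = !κ := hn3.col hcol hcc
  have hcov := H.cov (EE G fe3) c c' (fun u v h => h.mono fun e he => hf23 _ (hf1 _ he)) hn3.ee
  rw [hZ, List.take_succ_cons, List.drop_succ_cons] at hcov
  obtain ⟨fe', C, D, es', h1, h2, h3, h4⟩ := rmove (k := k + 1) (n := n) (A := A) (B := B)
    (x := c) (x' := t) (z := z) hG hcol K3
    (by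
      simp only [List.append_assoc]
      refine List.Perm.append_left _ (List.Perm.append_left _ ?_)
      simp only [List.cons_append, List.nil_append]
      exact ((List.Perm.swap c z []).cons t).trans (List.Perm.swap c t [z]))
    (by rw [shrL_len hS, H.len])
    (by rw [htake, hdrop]; exact hcov)
    ⟨κ, by
      rw [htake]
      intro a ha
      simp only [List.mem_append, List.mem_cons] at ha hκ1
      rcases ha with h | h | h | h
      · exact hκ1 a (Or.inl h)
      · exact hcc a h.symm
      · exact hκ1 a (Or.inr (Or.inl h))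
      · exact hκ1 a (Or.inr (Or.inr h)), by
      rw [hdrop]
      intro a ha
      simp only [List.mem_append, List.mem_cons, List.not_mem_nil, or_false] at ha hκ2
      rcases ha with h | h | h | h
      · exact hκ2 a (Or.inl h)
      · exact hcz a h.symm
      · exact hκ2 a (Or.inr h)
      · exact hcc' a h.symm⟩
    (M4_EE_symm hG (hn2.ee.mono hf3)) (hn1.ee.mono hf23)
    (M4_big' hS fun p hp => by have := hbig p hp; omega)
  exact ⟨fe', C, D, es', h1, h2, h3, shrL_trans hS h4⟩

end Pool.Agent.FLV
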