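import Pool.Agent.FLV.Base

/-!
# Transitions and joinable pairs

`kinds es`: `true` for a free letter, `false` for a pile.  `tr k`: number of cyclic transitions from `true` to `false`.
* `tr_rotate`: `(k.rotate r).zip ((k.rotate r).rotate 1) = (k.zip (k.rotate 1)).rotate r`, counts are invariant under rotation.
* `tr_le`: every transition ends at a different `false`.
* `tr_split`: the cyclic word `F F K1 P K2` becomes `K1 P P K2`: removing `F F` does not create a transition, doubling `P` neither.
* `joinable`: a list (linear word) with `t` cyclic transitions has at most `t + 1` maximal runs of `true`; if there are at least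
  `2 t + 3` free letters, one run contains three consecutive free letters with names `s1, s2, s3`; they are not all equal
  (`hcnt`), so two adjacent ones differ.
-/

set_option autoImplicit false

namespace Pool.Agent.FLV

variable {V : Type*}

/-- kinds of the elements -/
def kinds (es : List (Elem V)) : List Bool :=
  es.map (fun e => match e with
    | .free _ _ => true
    | .pile _ _ _ => false)

/-- cyclic transitions from `true` to `false` -/
def tr (k : List Bool) : ℕ := (k.zip (k.rotate 1)).count (true, false)


theorem tr_rotate (k : List Bool) (r : ℕ) : tr (k.rotate r) = tr k := by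
  unfold tr
  have h : (k.rotate r).zip ((k.rotate r).rotate 1) = (k.zip (k.rotate 1)).rotate r := by
    rw [List.rotate_rotate, Nat.add_comm, ← List.rotate_rotate]
    exact (List.zipWith_rotate_distrib _ _ _ _ (by simp)).symm
  rw [h]
  exact (List.rotate_perm _ _).count_eq _

theorem Q1_zip_count (a b : List Bool) (x y : Bool) : (a.zip b).count (x, y) ≤ b.count y := by
  induction a generalizing b with
  | nil => simp
  | cons c a ih =>
    cases b with
    | nil => simp
    | cons d b =>
      rw [List.zip_cons_cons, List.count_cons, List.count_cons]
      have := ih b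
      by_cases h : d = y
      · subst h
        simp only [beq_self_eq_true, if_true]
        split_ifs <;> omega
      · have h1 : ¬ (((c, d) == (x, y)) = true) := by
          simp [h]
        rw [if_neg h1]
        omega

theorem tr_le (k : List Bool) : tr k ≤ k.count false := by
  unfold tr
  refine (Q1_zip_count _ _ _ _).trans (le_of_eq ?_)
  exact (List.rotate_perm _ _).count_eq _

/-- transitions of the linear word `a :: l` -/
def Q1_lin (a : Bool) : List Bool → ℕ
  | [] => 0
  | b :: l => (if a = true ∧ b = false then 1 else 0) + Q1_lin b l

theorem Q1_lin_append (a : Bool) (l : List Bool) (b : Bool) (m : List Bool) :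
    Q1_lin a (l ++ b :: m) = Q1_lin a (l ++ [b]) + Q1_lin b m := by
  induction l generalizing a with
  | nil => simp [Q1_lin]
  | cons c l ih => simp only [List.cons_append, Q1_lin]; rw [ih]; omega

theorem Q1_lin_end (a : Bool) (l : List Bool) :
    Q1_lin a (l ++ [false]) ≤ Q1_lin a (l ++ [true]) + 1 := by
  induction l generalizing a with
  | nil => cases a <;> simp [Q1_lin]
  | cons c l ih => simp only [List.cons_append, Q1_lin]; have := ih c; omega

theorem Q1_lin_zip (a : Bool) (l : List Bool) (c : Bool) :
    ((a :: l).zip (l ++ [c])).count (true, false) = Q1_lin a (l ++ [c]) := by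
  induction l generalizing a with
  | nil => cases a <;> cases c <;> simp [Q1_lin]
  | cons b l ih =>
    rw [List.cons_append, List.zip_cons_cons, List.count_cons, ih, Q1_lin]
    cases a <;> cases b <;> simp [Nat.add_comm]

theorem Q1_tr_cons (a : Bool) (l : List Bool) : tr (a :: l) = Q1_lin a (l ++ [a]) := by
  unfold tr
  rw [← Q1_lin_zip]
  simp [List.rotate_cons_succ]

theorem tr_split (K1 K2 : List Bool) :
    tr (false :: (K2 ++ (K1 ++ [false]))) ≤ tr (true :: true :: (K1 ++ false :: K2)) := by
  rw [Q1_tr_cons, Q1_tr_cons]
  have e1 : Q1_lin true ((true :: (K1 ++ false :: K2)) ++ [true]) =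
      Q1_lin true (K1 ++ [false]) + Q1_lin false (K2 ++ [true]) := by
    rw [List.cons_append, Q1_lin, List.append_assoc, List.cons_append, Q1_lin_append]
    simp
  have e2 : Q1_lin false ((K2 ++ (K1 ++ [false])) ++ [false]) =
      Q1_lin false (K2 ++ (K1 ++ [false])) := by
    have : (K2 ++ (K1 ++ [false])) ++ [false] = (K2 ++ K1) ++ false :: [false] := by simp
    rw [this, Q1_lin_append]
    simp [Q1_lin]
  rw [e1, e2]
  cases K1 with
  | nil =>
    have := Q1_lin_end false K2
    simp [Q1_lin]
    omega
  | cons c K1 =>
    rw [List.cons_append, Q1_lin_append]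
    simp only [Q1_lin]
    cases c with
    | true => simp; omega
    | false =>
      have := Q1_lin_end false K2
      simp
      omega

theorem kinds_count_true (es : List (Elem V)) : (kinds es).count true = (ids es).length := by
  induction es with
  | nil => rfl
  | cons e es ih =>
    unfold kinds at ih ⊢
    cases e <;> simp [ih]

theorem kinds_count_false (es : List (Elem V)) : (kinds es).count false = (sizes es).length := by
  induction es with
  | nil => rfl
  | cons e es ih =>
    unfold kinds at ih ⊢
    cases e <;> simp [ih]

theorem lets_length (es : List (Elem V)) :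
    (lets es).length = (ids es).length + 2 * (sizes es).length := by
  induction es with
  | nil => rfl
  | cons e es ih =>
    cases e <;> simp [ih] <;> omega

theorem shrL_kinds {a c : ℕ} {es es' : List (Elem V)} (h : List.Forall₂ (Shr a c) es es') :
    kinds es' = kinds es := by
  induction h with
  | nil => rfl
  | cons h1 _ ih =>
    unfold kinds at ih ⊢
    cases h1 <;> simp [ih]

theorem kinds_ren (s s' : ℕ) (es : List (Elem V)) : kinds (es.map (Elem.ren s s')) = kinds es := by
  induction es with
  | nil => rfl
  | cons e es ih =>
    unfold kinds at ih ⊢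
    cases e <;> simpa [Elem.ren] using ih

/-- linear transitions -/
def Q1_lt : List Bool → ℕ
  | [] => 0
  | a :: l => Q1_lin a l

theorem Q1_lt_le (k : List Bool) : Q1_lt k ≤ tr k := by
  cases k with
  | nil => simp [Q1_lt]
  | cons a l =>
    rw [Q1_tr_cons, Q1_lt]
    cases l with
    | nil => simp [Q1_lin]
    | cons b l =>
      have h : ∀ (a : Bool) (l m : List Bool), Q1_lin a l ≤ Q1_lin a (l ++ m) := by
        intro a l m
        induction l generalizing a with
        | nil => simp [Q1_lin]
        | cons c l ih => simp only [List.cons_append, Q1_lin]; have := ih c; omega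
      exact h _ _ _

theorem Q1_lt_false (l : List Bool) : Q1_lt (false :: l) = Q1_lt l := by
  cases l with
  | nil => simp [Q1_lt, Q1_lin]
  | cons a l => simp [Q1_lt, Q1_lin]

theorem Q1_lt_tf (l : List Bool) : Q1_lt (true :: false :: l) = 1 + Q1_lt l := by
  rw [← Q1_lt_false l]
  simp [Q1_lt, Q1_lin]

theorem Q1_lt_tt (l : List Bool) : Q1_lt (true :: true :: l) = Q1_lt (true :: l) := by
  simp [Q1_lt, Q1_lin]

theorem Q1_runs (n : ℕ) : ∀ es : List (Elem V), es.length = n → (∀ s, (ids es).count s ≤ 2) →
    (∀ es1 s x s' x' es2, es = es1 ++ Elem.free s x :: Elem.free s' x' :: es2 → s = s') →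
    (ids es).length ≤ 2 * Q1_lt (kinds es) + 2 := by
  induction n using Nat.strong_induction_on with
  | _ n ih =>
  intro es hn hc hp
  have key : ∀ pre suf : List (Elem V), es = pre ++ suf → pre ≠ [] →
      (ids suf).length ≤ 2 * Q1_lt (kinds suf) + 2 := by
    intro pre suf he hpre
    refine ih suf.length ?_ suf rfl ?_ ?_
    · have : 0 < pre.length := List.length_pos_iff.2 hpre
      rw [← hn, he, List.length_append]; omega
    · intro s
      refine le_trans ?_ (hc s)
      rw [he, ids_append, List.count_append]; omega
    · intro es1 s x s' x' es2 h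
      exact hp (pre ++ es1) s x s' x' es2 (by rw [he, h]; simp)
  match es, hc, hp, key with
  | [], _, _, _ => simp
  | .pile x P x' :: es', hc, hp, key =>
    have h := key [.pile x P x'] es' rfl (by simp)
    have e : kinds (Elem.pile x P x' :: es') = false :: kinds es' := rfl
    rw [e, Q1_lt_false]
    simpa using h
  | [.free s x], _, _, _ => simp
  | .free s x :: .pile y P y' :: es', hc, hp, key =>
    have h := key [.free s x, .pile y P y'] es' rfl (by simp)
    have e : kinds (Elem.free s x :: Elem.pile y P y' :: es') = true :: false :: kinds es' := rfl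
    rw [e, Q1_lt_tf]
    simp
    omega
  | [.free s x, .free s' x'], _, _, _ => simp
  | .free s x :: .free s' x' :: .pile y P y' :: es', hc, hp, key =>
    have h := key [.free s x, .free s' x', .pile y P y'] es' rfl (by simp)
    have e : kinds (Elem.free s x :: Elem.free s' x' :: Elem.pile y P y' :: es') =
      true :: true :: false :: kinds es' := rfl
    rw [e, Q1_lt_tt, Q1_lt_tf]
    simp
    omega
  | .free s x :: .free s' x' :: .free s'' x'' :: es', hc, hp, key =>
    exfalso
    have h1 := hp [] s x s' x' (.free s'' x'' :: es') rfl
    have h2 := hp [.free s x] s' x' s'' x'' es' rfl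
    subst h1 h2
    have := hc s
    simp at this

theorem joinable {es : List (Elem V)} (hcnt : ∀ s, (ids es).count s ≤ 2)
    (hf : 2 * tr (kinds es) + 3 ≤ (ids es).length) :
    ∃ es1 s x s' x' es2, es = es1 ++ Elem.free s x :: Elem.free s' x' :: es2 ∧ s ≠ s' := by
  by_contra hcon
  push Not at hcon
  have h := Q1_runs es.length es rfl hcnt hcon
  have h2 := Q1_lt_le (kinds es)
  omega

end Pool.Agent.FLV
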