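import Pool.Agent.FLV.M1
import Pool.Agent.FLV.M4
import Pool.Agent.FLV.M5

/-!
# Rotating and passing whole elements

`HInv.rotTo`: for one element `e` at the front: `HInv.dstep` `e.lets.length` times (from `k = 0` to
`k = e.lets.length`), then `HInv.norm`; induction on `es1`.  Number of double steps: `|lets es1| ≤ 2 h + 1`, each
costs at most `2` per pile.
`PInv.passTo`: the same with `PInv.pass`, `PInv.norm`; each pass costs at most `10` per pile and `2 n + 4` per row.
-/

set_option autoImplicit false

namespace Pool.Agent.FLV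

variable {V : Type*} [DecidableEq V] {G : V → V → Prop} {col : V → Bool} {b : V} {SV : List V}
  {h n : ℕ} {fe : List ((V ⊕ ℕ) × ℕ)} {A B : List (V ⊕ ℕ)} {es1 es2 : List (Elem V)}

omit [DecidableEq V] in
theorem Q2_split {R : Elem V → Elem V → Prop} (l1 l2 l : List (Elem V))
    (h : List.Forall₂ R (l1 ++ l2) l) :
    ∃ l1' l2', l = l1' ++ l2' ∧ List.Forall₂ R l1 l1' ∧ List.Forall₂ R l2 l2' := by
  induction l1 generalizing l with
  | nil => exact ⟨[], l, rfl, .nil, h⟩
  | cons a l1 ih =>
    cases h with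
    | cons h1 h2 =>
      obtain ⟨l1', l2', rfl, h3, h4⟩ := ih _ h2
      exact ⟨_ :: l1', l2', rfl, .cons h1 h3, h4⟩

omit [DecidableEq V] in
theorem Q2_lets {a c : ℕ} {e e' : Elem V} (h : Shr a c e e') : e'.lets.length = e.lets.length := by
  cases h <;> rfl

omit [DecidableEq V] in
/-- several steps -/
theorem Q2_steps
    (P : List ((V ⊕ ℕ) × ℕ) → List (V ⊕ ℕ) → List (V ⊕ ℕ) → List (Elem V) → ℕ → Prop)
    (d g c : ℕ)
    (step : ∀ fe A B es k, P fe A B es k → (∀ p ∈ sizes es, g + d ≤ p) →
      ∃ fe' C D es', P fe' (A ++ C) (B ++ D) es' (k + 1) ∧ C.length = c ∧ D.length = c ∧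
        List.Forall₂ (Shr 0 g) es es') (m : ℕ) :
    ∀ fe A B es k, P fe A B es k → (∀ p ∈ sizes es, g * m + d ≤ p) →
      ∃ fe' C D es', P fe' (A ++ C) (B ++ D) es' (k + m) ∧ C.length = m * c ∧
        D.length = m * c ∧ List.Forall₂ (Shr 0 (g * m)) es es' := by
  induction m with
  | zero =>
    intro fe A B es k h _
    exact ⟨fe, [], [], es, by simpa using h, by simp, by simp, by simpa using shrL_refl es⟩
  | succ m ih =>
    intro fe A B es k h hb
    obtain ⟨fe1, C1, D1, es1, h1, h2, h3, h4⟩ := step fe A B es k h (fun p hp => by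
      have h5 := hb p hp
      rw [mul_add, mul_one] at h5
      omega)
    obtain ⟨fe2, C2, D2, es2, h5, h6, h7, h8⟩ := ih fe1 _ _ es1 (k + 1) h1
      (M4_big' h4 fun p hp => by
        have h5 := hb p hp
        rw [mul_add, mul_one] at h5
        omega)
    refine ⟨fe2, C1 ++ C2, D1 ++ D2, es2, ?_, ?_, ?_, ?_⟩
    · rw [← List.append_assoc, ← List.append_assoc]
      have h9 : k + (m + 1) = k + 1 + m := by omega
      rw [h9]
      exact h5
    · rw [List.length_append, h2, h6]
      ring
    · rw [List.length_append, h3, h7]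
      ring
    · refine shrL_mono (shrL_trans h4 h8) (by omega) (le_of_eq ?_)
      ring

omit [DecidableEq V] in
/-- whole elements -/
theorem Q2_gen
    (P : List ((V ⊕ ℕ) × ℕ) → List (V ⊕ ℕ) → List (V ⊕ ℕ) → List (Elem V) → ℕ → Prop)
    (d g c : ℕ)
    (step : ∀ fe A B es k, P fe A B es k → (∀ p ∈ sizes es, g + d ≤ p) →
      ∃ fe' C D es', P fe' (A ++ C) (B ++ D) es' (k + 1) ∧ C.length = c ∧ D.length = c ∧
        List.Forall₂ (Shr 0 g) es es')
    (norm : ∀ fe A B e es, P fe A B (e :: es) (Elem.lets e).length → P fe A B (es ++ [e]) 0)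
    (N : ℕ) :
    ∀ (es1 : List (Elem V)), es1.length = N → ∀ fe A B es2, P fe A B (es1 ++ es2) 0 →
      (∀ p ∈ sizes (es1 ++ es2), g * (lets es1).length + d ≤ p) →
      ∃ fe' C D es1' es2', P fe' (A ++ C) (B ++ D) (es2' ++ es1') 0 ∧
        C.length = (lets es1).length * c ∧ D.length = (lets es1).length * c ∧
        List.Forall₂ (Shr 0 (g * (lets es1).length)) es1 es1' ∧
        List.Forall₂ (Shr 0 (g * (lets es1).length)) es2 es2' := by
  induction N with
  | zero =>
    intro es1 hN fe A B es2 h _
    rw [List.length_eq_zero_iff] at hN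
    subst hN
    exact ⟨fe, [], [], [], es2, by simpa using h, by simp, by simp, .nil,
      by simpa using shrL_refl es2⟩
  | succ N ih =>
    intro es1 hN fe A B es2 h hb
    obtain ⟨e, t, rfl⟩ : ∃ e t, es1 = e :: t := by
      cases es1 with
      | nil => simp at hN
      | cons e t => exact ⟨e, t, rfl⟩
    rw [List.length_cons] at hN
    have hlen : (lets (e :: t)).length = e.lets.length + (lets t).length := by simp
    rw [hlen] at hb ⊢
    rw [List.cons_append] at h hb
    obtain ⟨fe1, C1, D1, es', h1, h2, h3, h4⟩ := Q2_steps P d g c step e.lets.length fe A B _ 0 h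
      (fun p hp => by
        have h5 := hb p hp
        rw [mul_add] at h5
        omega)
    have hb' : ∀ p ∈ sizes es', g * (lets t).length + d ≤ p := M4_big' h4 fun p hp => by
      have h5 := hb p hp
      rw [mul_add] at h5
      omega
    cases h4 with
    | @cons _ e' _ s' h5 h6 =>
      rw [Nat.zero_add, ← Q2_lets h5] at h1
      have h7 := norm _ _ _ _ _ h1
      obtain ⟨t', es2', rfl, h8, h9⟩ := Q2_split t es2 s' h6
      rw [List.append_assoc] at h7
      obtain ⟨fe2, C2, D2, t'', u, k1, k2, k3, k4, k5⟩ := ih t'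
        (by rw [← h8.length_eq]; omega) fe1 _ _ _ h7 (by
          intro p hp
          rw [shrL_len h8]
          refine hb' p ?_
          have hpm : (t' ++ (es2' ++ [e'])).Perm (e' :: (t' ++ es2')) := by
            rw [← List.append_assoc]
            exact List.perm_append_singleton _ _
          exact (sizes_perm hpm).mem_iff.1 hp)
      obtain ⟨es2'', e1, rfl, k6, k7⟩ := Q2_split es2' [e'] u k5
      obtain ⟨e'', rfl, k8⟩ : ∃ e'', e1 = [e''] ∧ Shr 0 (g * (lets t').length) e' e'' := by
        cases k7 with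
        | cons k8 k9 =>
          cases k9
          exact ⟨_, rfl, k8⟩
      rw [shrL_len h8] at k2 k3 k4 k6 k8
      have hg : g * e.lets.length + g * (lets t).length =
          g * (e.lets.length + (lets t).length) := by ring
      refine ⟨fe2, C1 ++ C2, D1 ++ D2, e'' :: t'', es2'', ?_, ?_, ?_, ?_, ?_⟩
      · rw [← List.append_assoc, ← List.append_assoc]
        have h10 : es2'' ++ e'' :: t'' = (es2'' ++ [e'']) ++ t'' := by simp
        rw [h10]
        exact k1
      · rw [List.length_append, h2, k2]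
        ring
      · rw [List.length_append, h3, k3]
        ring
      · refine .cons ?_ ?_
        · exact (h5.trans k8).mono (by omega) (le_of_eq hg)
        · exact shrL_mono (shrL_trans h8 k4) (by omega) (le_of_eq hg)
      · exact shrL_mono (shrL_trans h9 k6) (by omega) (le_of_eq hg)

theorem HInv.rotTo (hG : ∀ a c, G a c → G c a) (hcol : ∀ a c, G a c → col a ≠ col c)
    (H : HInv G col b SV h fe A B (es1 ++ es2) 0) (hh : 1 ≤ h)
    (hbig : ∀ p ∈ sizes (es1 ++ es2), 4 * h + 2 ≤ p) :
    ∃ fe' C D es1' es2', HInv G col b SV h fe' (A ++ C) (B ++ D) (es2' ++ es1') 0 ∧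
      C.length = (lets es1).length ∧ D.length = (lets es1).length ∧
      List.Forall₂ (Shr 0 (4 * h + 2)) es1 es1' ∧ List.Forall₂ (Shr 0 (4 * h + 2)) es2 es2' := by
  have hlen := H.len
  rw [lets_append, List.length_append] at hlen
  obtain ⟨fe', C, D, es1', es2', h1, h2, h3, h4, h5⟩ := Q2_gen
    (fun fe A B es k => HInv G col b SV h fe A B es k) 0 2 1
    (fun fe A B es k H hb => by
      obtain ⟨fe', u, v, es', h1, h2⟩ := H.dstep hG hcol hh (fun p hp => by
        have := hb p hp
        omega)
      exact ⟨fe', [u], [v], es', h1, rfl, rfl, h2⟩)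
    (fun fe A B e es H => H.norm) es1.length es1 rfl fe A B es2 H
    (fun p hp => by
      have := hbig p hp
      omega)
  exact ⟨fe', C, D, es1', es2', h1, by rw [h2, mul_one], by rw [h3, mul_one],
    shrL_mono h4 le_rfl (by omega), shrL_mono h5 le_rfl (by omega)⟩

theorem PInv.passTo (hG : ∀ a c, G a c → G c a) (hcol : ∀ a c, G a c → col a ≠ col c)
    (H : PInv G col b SV n fe A B (es1 ++ es2) 0)
    (hbig : ∀ p ∈ sizes (es1 ++ es2), 20 * n + 12 ≤ p) :
    ∃ fe' C D es1' es2', PInv G col b SV n fe' (A ++ C) (B ++ D) (es2' ++ es1') 0 ∧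
      C.length = (lets es1).length * (2 * n + 4) ∧ D.length = (lets es1).length * (2 * n + 4) ∧
      List.Forall₂ (Shr 0 (20 * n + 10)) es1 es1' ∧
      List.Forall₂ (Shr 0 (20 * n + 10)) es2 es2' := by
  have hlen := H.len
  rw [lets_append, List.length_append] at hlen
  obtain ⟨fe', C, D, es1', es2', h1, h2, h3, h4, h5⟩ := Q2_gen
    (fun fe A B es k => PInv G col b SV n fe A B es k) 2 10 (2 * n + 4)
    (fun fe A B es k H hb => by
      obtain ⟨fe', C, D, es', h1, h2, h3, h4⟩ := H.pass hG hcol (fun p hp => by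
        have := hb p hp
        omega)
      exact ⟨fe', C, D, es', h1, h2, h3, shrL_mono h4 (by omega) le_rfl⟩)
    (fun fe A B e es H => H.norm) es1.length es1 rfl fe A B es2 H
    (fun p hp => by
      have := hbig p hp
      omega)
  exact ⟨fe', C, D, es1', es2', h1, h2, h3,
    shrL_mono h4 le_rfl (by omega), shrL_mono h5 le_rfl (by omega)⟩

end Pool.Agent.FLV
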