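import Pool.Agent.FLV.Q1
import Pool.Agent.FLV.Q2
import Pool.Agent.FLV.M3

/-!
# Splitting a pile

`HInv.splitPile` PROOF.  `joinable` gives `es = e1 ++ free s y :: free s' y' :: e2`, `s ≠ s'`; `HInv.rotTo` brings the pair to the
front: `es' = free s _ :: free s' _ :: (e2' ++ e1')` (the pile is in `e2'` or `e1'`).  `HInv.startFree` gives a pending state
with elements `K1 ++ pile x1 P1 x1' :: K2`; `PInv.passTo` over `K1`: `pile x2 P2 x2' :: (K2' ++ K1')` at
`k = 0`; `PInv.pass` once: `k = 1`; `PInv.even`: the remaining `P3` has even length; write `P3 = Pa ++ u1 :: u2 :: Pb` with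
`|Pb| = g2` (odd), `|Pa| = |P3| - g2 - 2` is odd; `PInv.fillPile`.  The new list of elements is
`pile u2 Pb _ :: (K2'' ++ K1'' ++ [pile _ Pa u1])`.
Number of transitions: rotation (`tr_rotate`) and `tr_split`.  Free letters: two less.
Bounds: sizes lose at most `(4 h + 2) + 7 + (20 n + 10) + 10 ≤ 100 (n + 2)`, time at most
`2 ((2 h + 1) + (2 n + 4) + (2 n + 2) (2 n + 4)) ≤ 100 (n + 2)^2`.
-/

set_option autoImplicit false

namespace Pool.Agent.FLV

variable {V : Type*} [DecidableEq V] {G : V → V → Prop} {col : V → Bool} {b : V} {SV : List V}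
  {n : ℕ} {fe : List ((V ⊕ ℕ) × ℕ)} {A B : List (V ⊕ ℕ)} {es es1 es2 : List (Elem V)}

/-- same kind, sizes shrink by at most `c` -/
def Q3_R {V : Type*} (c : ℕ) : Elem V → Elem V → Prop
  | .free _ _, .free _ _ => True
  | .pile _ P _, .pile _ Q _ => Q.length ≤ P.length ∧ P.length ≤ Q.length + c
  | _, _ => False

theorem Q3_R_of_Shr {V : Type*} {a c : ℕ} {e e' : Elem V} (h : Shr a c e e') : Q3_R c e e' := by
  cases h with
  | free s v v' => trivial
  | pile x P x' y Q y' h1 h2 => exact ⟨by omega, h2⟩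

theorem Q3_R_ren {V : Type*} (s s' : ℕ) (e : Elem V) : Q3_R 0 e (Elem.ren s s' e) := by
  cases e with
  | free r v => trivial
  | pile x P x' => exact ⟨le_rfl, le_rfl⟩

theorem Q3_R_trans {V : Type*} {c c' : ℕ} {e e' e'' : Elem V} (h : Q3_R c e e')
    (h' : Q3_R c' e' e'') : Q3_R (c + c') e e'' := by
  cases e <;> cases e' <;> cases e'' <;> simp only [Q3_R] at h h' ⊢
  omega

theorem Q3_L_of_Shr {V : Type*} {a c : ℕ} {es es' : List (Elem V)}
    (h : List.Forall₂ (Shr a c) es es') : List.Forall₂ (Q3_R c) es es' :=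
  h.imp (fun _ _ h => Q3_R_of_Shr h)

theorem Q3_L_trans {V : Type*} {c c' : ℕ} {es es' es'' : List (Elem V)}
    (h : List.Forall₂ (Q3_R c) es es') (h' : List.Forall₂ (Q3_R c') es' es'') :
    List.Forall₂ (Q3_R (c + c')) es es'' := by
  induction h generalizing es'' with
  | nil => cases h'; exact .nil
  | cons h1 _ ih => cases h' with
    | cons h2 h3 => exact .cons (Q3_R_trans h1 h2) (ih h3)

theorem Q3_L_ren {V : Type*} (s s' : ℕ) (es : List (Elem V)) :
    List.Forall₂ (Q3_R 0) es (es.map (Elem.ren s s')) := by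
  induction es with
  | nil => exact .nil
  | cons e es ih => exact .cons (Q3_R_ren s s' e) ih

theorem Q3_L_split {V : Type*} {c : ℕ} {e1 e2 es' : List (Elem V)}
    (h : List.Forall₂ (Q3_R c) (e1 ++ e2) es') :
    ∃ e1' e2', es' = e1' ++ e2' ∧ List.Forall₂ (Q3_R c) e1 e1' ∧ List.Forall₂ (Q3_R c) e2 e2' := by
  induction e1 generalizing es' with
  | nil => exact ⟨[], es', rfl, .nil, h⟩
  | cons e e1 ih =>
    cases h with
    | @cons _ b _ l' h1 h2 =>
      obtain ⟨e1', e2', rfl, h3, h4⟩ := ih h2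
      exact ⟨b :: e1', e2', rfl, .cons h1 h3, h4⟩

theorem Q3_L_pile {V : Type*} {c : ℕ} {x x' : V} {P : List V} {es es' : List (Elem V)}
    (h : List.Forall₂ (Q3_R c) (Elem.pile x P x' :: es) es') :
    ∃ y Q y' es'', es' = Elem.pile y Q y' :: es'' ∧ Q.length ≤ P.length ∧ P.length ≤ Q.length + c ∧
      List.Forall₂ (Q3_R c) es es'' := by
  cases h with
  | @cons _ b _ l' h1 h2 =>
    cases b with
    | free s v => exact absurd h1 (by simp [Q3_R])
    | pile y Q y' => exact ⟨y, Q, y', l', rfl, h1.1, h1.2, h2⟩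

theorem Q3_L_len {V : Type*} {c : ℕ} {es es' : List (Elem V)}
    (h : List.Forall₂ (Q3_R c) es es') : (lets es').length = (lets es).length := by
  induction h with
  | nil => rfl
  | @cons e e' _ _ h1 _ ih => cases e <;> cases e' <;> simp_all [Q3_R]

theorem Q3_L_kinds {V : Type*} {c : ℕ} {es es' : List (Elem V)}
    (h : List.Forall₂ (Q3_R c) es es') : kinds es' = kinds es := by
  induction h with
  | nil => rfl
  | @cons e e' _ _ h1 _ ih => cases e <;> cases e' <;> simp_all [Q3_R, kinds]

theorem Q3_L_sizes {V : Type*} {c : ℕ} {es es' : List (Elem V)}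
    (h : List.Forall₂ (Q3_R c) es es') :
    List.Forall₂ (fun g g' => g' ≤ g ∧ g ≤ g' + c) (sizes es) (sizes es') := by
  induction h with
  | nil => exact .nil
  | @cons e e' _ _ h1 _ ih =>
    cases e <;> cases e'
    · simpa using ih
    · simp [Q3_R] at h1
    · simp [Q3_R] at h1
    · simp only [sizes_cons, Elem.sizes_pile, List.singleton_append]
      exact .cons h1 ih

theorem Q3_L_min {V : Type*} {c m : ℕ} {es es' : List (Elem V)}
    (h : List.Forall₂ (Q3_R c) es es') (hb : ∀ p ∈ sizes es, m + c ≤ p) :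
    ∀ p ∈ sizes es', m ≤ p := by
  intro p' hp'
  obtain ⟨p, hp, _, h2⟩ := M2_f2 (Q3_L_sizes h) p' hp'
  have := hb p hp
  omega

theorem Q3_kinds_append {V : Type*} (es es' : List (Elem V)) :
    kinds (es ++ es') = kinds es ++ kinds es' := by
  simp [kinds]

theorem Q3_kinds_free {V : Type*} (s : ℕ) (v : V ⊕ ℕ) (es : List (Elem V)) :
    kinds (Elem.free s v :: es) = true :: kinds es := rfl

theorem Q3_kinds_pile {V : Type*} (x x' : V) (P : List V) (es : List (Elem V)) :
    kinds (Elem.pile x P x' :: es) = false :: kinds es := rfl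

theorem Q3_cut {α : Type*} {g : ℕ} {l : List α} (h : g + 2 ≤ l.length) :
    ∃ a u1 u2 c, l = a ++ u1 :: u2 :: c ∧ c.length = g := by
  have h1 : (l.drop (l.length - (g + 2))).length = g + 2 := by
    rw [List.length_drop]; omega
  rcases hd : l.drop (l.length - (g + 2)) with _ | ⟨u1, _ | ⟨u2, c⟩⟩
  · rw [hd] at h1; simp at h1
  · rw [hd] at h1; simp at h1
  · refine ⟨l.take (l.length - (g + 2)), u1, u2, c, ?_, ?_⟩
    · rw [← hd, List.take_append_drop]
    · rw [hd] at h1; simpa using h1

/-- the position of the pile after rotation -/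
theorem Q3_pos {V : Type*} {es1 es2 e1 e2 : List (Elem V)} {x x' : V} {P : List V} {s s' : ℕ}
    {y y' : V ⊕ ℕ}
    (h : es1 ++ Elem.pile x P x' :: es2 = e1 ++ Elem.free s y :: Elem.free s' y' :: e2) :
    ∃ K1 K2, e2 ++ e1 = K1 ++ Elem.pile x P x' :: K2 ∧
      (sizes (es1 ++ es2)).Perm (sizes (K2 ++ K1)) := by
  rw [List.append_eq_append_iff] at h
  rcases h with ⟨a, h1, h2⟩ | ⟨a, h1, h2⟩
  · -- e1 = es1 ++ a, pile :: es2 = a ++ free ...
    cases a with
    | nil => simp at h2
    | cons b a =>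
      simp only [List.cons_append, List.cons.injEq] at h2
      obtain ⟨rfl, rfl⟩ := h2
      subst h1
      refine ⟨e2 ++ es1, a, by simp, ?_⟩
      simp only [sizes_append, sizes_cons, Elem.sizes_free, List.nil_append]
      rw [← Multiset.coe_eq_coe]
      simp only [← Multiset.coe_add]
      abel
  · cases a with
    | nil => simp at h2
    | cons b a =>
      simp only [List.cons_append, List.cons.injEq] at h2
      obtain ⟨rfl, h2⟩ := h2
      cases a with
      | nil => simp at h2
      | cons b a =>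
        simp only [List.cons_append, List.cons.injEq] at h2
        obtain ⟨rfl, rfl⟩ := h2
        subst h1
        refine ⟨a, es2 ++ e1, by simp, ?_⟩
        simp only [sizes_append, sizes_cons, Elem.sizes_free, List.nil_append]
        rw [← Multiset.coe_eq_coe]
        simp only [← Multiset.coe_add]
        abel

theorem HInv.splitPile (hG : ∀ a c, G a c → G c a) (hcol : ∀ a c, G a c → col a ≠ col c)
    (hn : 1 ≤ n) {x x' : V} {P : List V}
    (H : HInv G col b SV (n + 1) fe A B (es1 ++ Elem.pile x P x' :: es2) 0)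
    (hf : 2 * tr (kinds (es1 ++ Elem.pile x P x' :: es2)) + 3 ≤
      (ids (es1 ++ Elem.pile x P x' :: es2)).length)
    (hbig : ∀ p ∈ sizes (es1 ++ es2), 200 * (n + 2) ≤ p) {g2 : ℕ} (hodd : Odd g2)
    (hg2 : g2 + 200 * (n + 2) ≤ P.length) :
    ∃ fe' A' B' es' g1 l0, HInv G col b SV (n + 1) fe' A' B' es' 0 ∧
      (g1 :: g2 :: l0).Perm (sizes es') ∧
      List.Forall₂ (fun g g' => g' ≤ g ∧ g ≤ g' + 100 * (n + 2)) (sizes (es1 ++ es2)) l0 ∧
      g1 + g2 + 2 ≤ P.length ∧ P.length ≤ g1 + g2 + 100 * (n + 2) ∧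
      A'.length + B'.length ≤ A.length + B.length + 100 * (n + 2) ^ 2 ∧
      tr (kinds es') ≤ tr (kinds (es1 ++ Elem.pile x P x' :: es2)) ∧
      (ids es').length + 2 = (ids (es1 ++ Elem.pile x P x' :: es2)).length := by
  have hcnt : ∀ s, (ids (es1 ++ Elem.pile x P x' :: es2)).count s ≤ 2 := by
    intro s
    by_cases hs : s = 0
    · rw [hs, H.core.cnt0]; norm_num
    · rcases H.core.cnt s hs with h | h <;> omega
  obtain ⟨e1, s, y, s', y', e2, hes, hss⟩ := joinable hcnt hf
  obtain ⟨K1, K2, hK, hperm⟩ := Q3_pos hes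
  have hsz : ∀ p ∈ sizes (K1 ++ Elem.pile x P x' :: K2), 200 * (n + 2) ≤ p := by
    intro p hp
    simp only [sizes_append, sizes_cons, Elem.sizes_pile, List.mem_append, List.mem_cons,
      List.not_mem_nil, or_false] at hp
    have hq : p ∈ sizes (K2 ++ K1) → 200 * (n + 2) ≤ p := fun h => hbig p (hperm.mem_iff.2 h)
    rcases hp with h | rfl | h
    · exact hq (by simp [h])
    · exact le_trans (Nat.le_add_left _ _) hg2
    · exact hq (by simp [h])
  rw [← hK] at hsz
  rw [hes] at H
  -- rotation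
  obtain ⟨fe1, C1, D1, e1', t2, H1, hC1, hD1, hs1, hs2⟩ := H.rotTo hG hcol (by omega) (by
    intro p hp
    have := hsz p (by simp at hp ⊢; tauto)
    omega)
  obtain ⟨w, w', e2', rfl, hs2'⟩ : ∃ w w' e2', t2 = Elem.free s w :: Elem.free s' w' :: e2' ∧
      List.Forall₂ (Shr 0 (4 * (n + 1) + 2)) e2 e2' := by
    cases hs2 with
    | cons h1 h2 => cases h2 with
      | cons h2 h3 =>
        cases h1
        cases h2
        exact ⟨_, _, _, rfl, h3⟩
  have hR1 : List.Forall₂ (Q3_R (4 * n + 6)) (K1 ++ Elem.pile x P x' :: K2) (e2' ++ e1') := by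
    rw [← hK]
    exact List.rel_append ((Q3_L_of_Shr hs2').imp fun _ _ h => by convert h using 1; ring)
      ((Q3_L_of_Shr hs1).imp fun _ _ h => by convert h using 1; ring)
  rw [hK] at hsz
  -- start of the move
  obtain ⟨fe2, C2, D2, K, H2, hC2, hD2, hs3⟩ := HInv.startFree hG hcol (es := e2' ++ e1') H1 hss
    (Q3_L_min hR1 (fun p hp => by have := hsz p hp; omega))
  have hR2 : List.Forall₂ (Q3_R (4 * n + 13)) (K1 ++ Elem.pile x P x' :: K2) K := by
    have := Q3_L_trans (Q3_L_trans hR1 (Q3_L_ren s s' _)) (Q3_L_of_Shr hs3)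
    exact this.imp fun _ _ h => by convert h using 1
  obtain ⟨K1', t3, rfl, hk1, hk2⟩ := Q3_L_split hR2
  obtain ⟨x1, P1, x1', K2', rfl, hP1, hP1', hk2'⟩ := Q3_L_pile hk2
  -- passing over K1'
  obtain ⟨fe3, C3, D3, K1'', t4, H3, hC3, hD3, hs4, hs5⟩ := H2.passTo hG hcol
    (Q3_L_min hR2 (fun p hp => by have := hsz p hp; omega))
  obtain ⟨x2, P2, x2', K2'', rfl, hP2, hP2', hk3⟩ := Q3_L_pile (Q3_L_of_Shr hs5)
  have hR3 : List.Forall₂ (Q3_R (24 * n + 23)) (Elem.pile x P x' :: (K2 ++ K1))
      (Elem.pile x2 P2 x2' :: (K2'' ++ K1'')) := by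
    refine .cons ⟨by omega, by omega⟩ ?_
    exact List.rel_append ((Q3_L_trans hk2' hk3).imp fun _ _ h => by convert h using 1; ring)
      ((Q3_L_trans hk1 (Q3_L_of_Shr hs4)).imp fun _ _ h => by convert h using 1; ring)
  have hsz2 : ∀ p ∈ sizes (Elem.pile x P x' :: (K2 ++ K1)), 200 * (n + 2) ≤ p := by
    intro p hp
    refine hsz p ?_
    simp only [sizes_append, sizes_cons, Elem.sizes_pile, List.mem_append, List.mem_cons,
      List.not_mem_nil, or_false] at hp ⊢
    tauto
  obtain ⟨fe4, C4, D4, t5, H4, hC4, hD4, hs6⟩ := H3.pass hG hcol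
    (Q3_L_min hR3 (fun p hp => by have := hsz2 p hp; omega))
  obtain ⟨x3, P3, x3', L, rfl, hP3, hP3', hk4⟩ := Q3_L_pile (Q3_L_of_Shr hs6)
  have hL : List.Forall₂ (Q3_R (24 * n + 33)) (K2 ++ K1) L := by
    cases hR3 with
    | cons _ h => exact (Q3_L_trans h hk4).imp fun _ _ h => by convert h using 1
  have heven := H4.even hcol hn
  have hl1 : P3.length ≤ P.length := by omega
  have hl2 : P.length ≤ P3.length + (24 * n + 33) := by omega
  obtain ⟨Pa, u1, u2, Pb, hPe, hPb⟩ := Q3_cut (g := g2) (l := P3) (by omega)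
  subst hPe
  have hla : (Pa ++ u1 :: u2 :: Pb).length = Pa.length + g2 + 2 := by
    simp [hPb]; omega
  rw [hla] at hl1 hl2 heven
  have hPaodd : Odd Pa.length := by
    rw [← Nat.not_even_iff_odd]
    intro h
    have h1 : Odd (Pa.length + g2) := h.add_odd hodd
    rw [← Nat.not_even_iff_odd] at h1
    exact h1 ((Nat.even_add.1 heven).2 even_two)
  have H5 := H4.fillPile hcol hG hn hPaodd (by rw [hPb]; exact hodd)
  -- sizes
  obtain ⟨l0, hl0, hl0'⟩ := List.perm_comp_forall₂ hperm (Q3_L_sizes hL)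
  have hkL : kinds L = kinds K2 ++ kinds K1 := by
    rw [Q3_L_kinds hL, Q3_kinds_append]
  have hkes : tr (kinds (es1 ++ Elem.pile x P x' :: es2)) =
      tr (true :: true :: (kinds K1 ++ false :: kinds K2)) := by
    rw [hes, Q3_kinds_append, Q3_kinds_free, Q3_kinds_free, ← tr_rotate _ (kinds e1).length,
      List.rotate_append_length_eq]
    have : kinds e2 ++ kinds e1 = kinds K1 ++ false :: kinds K2 := by
      rw [← Q3_kinds_append, hK, Q3_kinds_append, Q3_kinds_pile]
    simp only [List.cons_append, this]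
  have hkc : (kinds (es1 ++ Elem.pile x P x' :: es2)).count true =
      (true :: true :: (kinds K1 ++ false :: kinds K2)).count true := by
    have : kinds e2 ++ kinds e1 = kinds K1 ++ false :: kinds K2 := by
      rw [← Q3_kinds_append, hK, Q3_kinds_append, Q3_kinds_pile]
    rw [hes, Q3_kinds_append, Q3_kinds_free, Q3_kinds_free, ← this]
    simp only [List.count_append, List.count_cons]
    omega
  refine ⟨_, _, _, _, Pa.length, l0, H5, ?_, ?_, by omega, by omega, ?_, ?_, ?_⟩
  · simp only [sizes_cons, sizes_append, Elem.sizes_pile, sizes_nil, List.append_nil, hPb]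
    have h1 : (Pa.length :: g2 :: l0).Perm (g2 :: Pa.length :: l0) := List.Perm.swap _ _ _
    refine h1.trans (List.Perm.cons _ ?_)
    exact (List.Perm.cons _ hl0').trans (List.perm_append_singleton _ _).symm
  · exact hl0.imp fun a c h => ⟨h.1, by omega⟩
  · have b1 : (lets e1).length ≤ 2 * n + 3 := by
      have := H.len
      simp only [lets_append, List.length_append] at this
      omega
    have b2 : (lets K1').length ≤ 2 * n + 1 := by
      have := H2.len
      simp only [lets_append, List.length_append] at this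
      omega
    have b3 : (lets K1').length * (2 * n + 4) ≤ (2 * n + 1) * (2 * n + 4) :=
      Nat.mul_le_mul_right _ b2
    have b4 : (2 * n + 1) * (2 * n + 4) = 4 * (n * n) + 10 * n + 4 := by ring
    have b5 : 100 * (n + 2) ^ 2 = 100 * (n * n) + 400 * n + 400 := by ring
    rw [b5]
    rw [b4] at b3
    simp only [List.length_append, hC1, hC2, hC3, hC4, hD1, hD2, hD3, hD4]
    generalize (lets K1').length * (2 * n + 4) = X at b3 ⊢
    generalize n * n = Y at b3 ⊢
    clear hsz2 hsz hf hbig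
    omega
  · rw [hkes]
    refine le_trans (le_of_eq ?_) (tr_split _ _)
    rw [Q3_kinds_pile, Q3_kinds_append, hkL, List.append_assoc]
    rfl
  · rw [← kinds_count_true, ← kinds_count_true, hkc, Q3_kinds_pile, Q3_kinds_append, hkL]
    have : kinds [Elem.pile x3 Pa u1] = [false] := rfl
    rw [this]
    simp only [List.count_append, List.count_cons, List.count_nil]
    simp
    omega

end Pool.Agent.FLV
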