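import Pool.Agent.FLV.Q3

/-!
# Phase 2: splitting all piles according to a plan

The state is annotated: `l0` is a permutation of the sizes, `ann` a list of nonempty lists of planned sizes, the
corresponding size is at most the sum and at least the sum minus `c`.
`phase2` PROOF: induction on `t = ∑ (|a| - 1)`.  If `t = 0` all lists are singletons.  Otherwise choose an entry `a = ν :: a'`, `a' ≠ []`,
with its pile `P`, `∑ a - c ≤ |P| ≤ ∑ a`; apply `HInv.splitPile` with `g2 = ν` or `ν - 1` (odd).  The new sizes: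
`g2` is annotated with `[ν]`, `g1` with `a'`: `g1 ≤ |P| - g2 - 2 ≤ ∑ a' + ν - g2 - 2 ≤ ∑ a'` and
`g1 ≥ |P| - g2 - 100 (n+2) ≥ ∑ a' - c - 100 (n + 2)`; all other sizes lose at most `100 (n + 2)`.  So the new `c` is
`c + 100 (n + 2) + 1`.  The condition `hf` for `splitPile` holds since `tr` does not increase and the number of free
letters decreases by `2`.
-/

set_option autoImplicit false

namespace Pool.Agent.FLV

variable {V : Type*} [DecidableEq V] {G : V → V → Prop} {col : V → Bool} {b : V} {SV : List V}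
  {n : ℕ} {fe : List ((V ⊕ ℕ) × ℕ)} {A B : List (V ⊕ ℕ)} {es : List (Elem V)}

theorem Q4_mem_sizes {es : List (Elem V)} {g : ℕ} (hg : g ∈ sizes es) :
    ∃ es1 x P x' es2, es = es1 ++ Elem.pile x P x' :: es2 ∧ P.length = g := by
  unfold sizes at hg
  rw [List.mem_flatMap] at hg
  obtain ⟨e, he, hg⟩ := hg
  obtain ⟨es1, es2, h⟩ := List.append_of_mem he
  cases e with
  | free s v => simp [Elem.sizes] at hg
  | pile x P x' =>
    refine ⟨es1, x, P, x', es2, h, ?_⟩
    simp only [Elem.sizes, List.mem_singleton] at hg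
    exact hg.symm

theorem Q4_sizes_append (es1 es2 : List (Elem V)) :
    sizes (es1 ++ es2) = sizes es1 ++ sizes es2 := by
  simp [sizes]

theorem Q4_sizes_pile (es1 es2 : List (Elem V)) (x x' : V) (P : List V) :
    sizes (es1 ++ Elem.pile x P x' :: es2) = sizes es1 ++ P.length :: sizes es2 := by
  simp [sizes, Elem.sizes]

theorem Q4_base {c : ℕ} {l0 : List ℕ} {ann : List (List ℕ)}
    (hann : List.Forall₂ (fun g a => g ≤ a.sum ∧ a.sum ≤ g + c ∧ a ≠ []) l0 ann)
    (ht : (ann.map (fun a => a.length - 1)).sum = 0) :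
    List.Forall₂ (fun g ν => g ≤ ν ∧ ν ≤ g + c) l0 ann.flatten := by
  induction hann with
  | nil => exact List.Forall₂.nil
  | @cons g a l0 ann h _ ih =>
    rw [List.map_cons, List.sum_cons] at ht
    have h1 : a.length - 1 = 0 := by omega
    have h2 : (ann.map (fun a => a.length - 1)).sum = 0 := by omega
    obtain ⟨h3, h4, h5⟩ := h
    cases a with
    | nil => exact absurd rfl h5
    | cons ν a' =>
      have h6 : a' = [] := by
        rw [List.length_cons] at h1
        exact List.length_eq_zero_iff.1 (by omega)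
      subst h6
      simp only [List.sum_cons, List.sum_nil, add_zero] at h3 h4
      rw [List.flatten_cons, List.singleton_append]
      exact List.Forall₂.cons ⟨h3, h4⟩ (ih h2)

theorem Q4_find {c : ℕ} {l0 : List ℕ} {ann : List (List ℕ)}
    (hann : List.Forall₂ (fun g a => g ≤ a.sum ∧ a.sum ≤ g + c ∧ a ≠ []) l0 ann)
    (ht : 1 ≤ (ann.map (fun a => a.length - 1)).sum) :
    ∃ l1 g l2 ann1 ν a' ann2, l0 = l1 ++ g :: l2 ∧ ann = ann1 ++ (ν :: a') :: ann2 ∧ a' ≠ [] ∧
      g ≤ ν + a'.sum ∧ ν + a'.sum ≤ g + c ∧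
      List.Forall₂ (fun g a => g ≤ a.sum ∧ a.sum ≤ g + c ∧ a ≠ []) (l1 ++ l2) (ann1 ++ ann2) := by
  induction hann with
  | nil => simp at ht
  | @cons g a l0 ann h hh ih =>
    rw [List.map_cons, List.sum_cons] at ht
    by_cases h1 : a.length - 1 = 0
    · have h2 : 1 ≤ (ann.map (fun a => a.length - 1)).sum := by omega
      obtain ⟨l1, g', l2, ann1, ν, a', ann2, e1, e2, e3, e4, e5, e6⟩ := ih h2
      refine ⟨g :: l1, g', l2, a :: ann1, ν, a', ann2, ?_, ?_, e3, e4, e5, ?_⟩
      · rw [e1]; rfl
      · rw [e2]; rfl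
      · exact List.Forall₂.cons h e6
    · cases a with
      | nil => simp at h1
      | cons ν a' =>
        refine ⟨[], g, l0, [], ν, a', ann, rfl, rfl, ?_, ?_, ?_, hh⟩
        · rintro rfl
          simp at h1
        · simpa using h.1
        · simpa using h.2.1

theorem Q4_comb {c d : ℕ} {l l' : List ℕ} {ann : List (List ℕ)}
    (h1 : List.Forall₂ (fun g a => g ≤ a.sum ∧ a.sum ≤ g + c ∧ a ≠ []) l ann)
    (h2 : List.Forall₂ (fun g g' => g' ≤ g ∧ g ≤ g' + d) l l') :
    List.Forall₂ (fun g a => g ≤ a.sum ∧ a.sum ≤ g + (c + d) ∧ a ≠ []) l' ann := by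
  induction h1 generalizing l' with
  | nil =>
    cases h2
    exact List.Forall₂.nil
  | cons h hh ih =>
    cases h2 with
    | cons h3 h4 =>
      refine List.Forall₂.cons ⟨?_, ?_, h.2.2⟩ (ih h4)
      · omega
      · omega

theorem Q4_mem {c : ℕ} {l : List ℕ} {ann : List (List ℕ)}
    (h1 : List.Forall₂ (fun g a => g ≤ a.sum ∧ a.sum ≤ g + c ∧ a ≠ []) l ann) {p : ℕ}
    (hp : p ∈ l) : ∃ a ∈ ann, ∃ ν ∈ a, ν ≤ p + c := by
  induction h1 with
  | nil => simp at hp
  | @cons g a l ann h hh ih =>
    rcases List.mem_cons.1 hp with h2 | h2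
    · cases a with
      | nil => exact absurd rfl h.2.2
      | cons ν a' =>
        refine ⟨ν :: a', List.mem_cons_self, ν, List.mem_cons_self, ?_⟩
        have := h.2.1
        rw [List.sum_cons] at this
        omega
    · obtain ⟨b, hb, ν, hν, h3⟩ := ih h2
      exact ⟨b, List.mem_cons_of_mem _ hb, ν, hν, h3⟩

theorem phase2 (hG : ∀ a c, G a c → G c a) (hcol : ∀ a c, G a c → col a ≠ col c)
    (hn : 1 ≤ n) (t c : ℕ) (H : HInv G col b SV (n + 1) fe A B es 0) {l0 : List ℕ}
    {ann : List (List ℕ)} (hl0 : l0.Perm (sizes es))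
    (hann : List.Forall₂ (fun g a => g ≤ a.sum ∧ a.sum ≤ g + c ∧ a ≠ []) l0 ann)
    (ht : (ann.map (fun a => a.length - 1)).sum = t)
    (hf : 2 * tr (kinds es) + 2 * t + 3 ≤ (ids es).length + 2)
    (hbig : ∀ a ∈ ann, ∀ ν ∈ a, c + (t + 1) * (101 * (n + 2)) + 400 * (n + 2) ≤ ν) :
    ∃ fe' A' B' es' l' fl, HInv G col b SV (n + 1) fe' A' B' es' 0 ∧ l'.Perm (sizes es') ∧
      fl.Perm ann.flatten ∧
      List.Forall₂ (fun g ν => g ≤ ν ∧ ν ≤ g + (c + t * (101 * (n + 2)))) l' fl ∧
      A'.length + B'.length ≤ A.length + B.length + t * (100 * (n + 2) ^ 2) := by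
  induction t generalizing c fe A B es l0 ann with
  | zero =>
    refine ⟨fe, A, B, es, l0, ann.flatten, H, hl0, List.Perm.refl _, ?_, by omega⟩
    have := Q4_base hann ht
    simpa using this
  | succ t ih =>
    obtain ⟨l1, g, l2, ann1, ν, a', ann2, e1, e2, e3, e4, e5, e6⟩ := Q4_find hann (by omega)
    have hgm : g ∈ sizes es := hl0.subset (by rw [e1]; simp)
    obtain ⟨es1, x, P, x', es2, he, hP⟩ := Q4_mem_sizes hgm
    have hperm : (l1 ++ l2).Perm (sizes (es1 ++ es2)) := by
      have h1 : (g :: (l1 ++ l2)).Perm (g :: (sizes es1 ++ sizes es2)) := by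
        have h2 : (g :: (l1 ++ l2)).Perm l0 := by
          rw [e1]
          exact List.perm_middle.symm
        have h3 : (sizes es).Perm (g :: (sizes es1 ++ sizes es2)) := by
          rw [he, Q4_sizes_pile, hP]
          exact List.perm_middle
        exact (h2.trans hl0).trans h3
      rw [Q4_sizes_append]
      exact h1.cons_inv
    have hX : ∀ a ∈ ann, ∀ ν ∈ a, c + (t + 2) * (101 * (n + 2)) + 400 * (n + 2) ≤ ν :=
      fun a ha ν hν => hbig a ha ν hν
    have hW : ∀ a ∈ ann, ∀ ν ∈ a, c + 400 * (n + 2) ≤ ν := fun a ha ν hν =>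
      (Nat.add_le_add_right (Nat.le_add_right c _) _).trans (hX a ha ν hν)
    have hbig1 : ∀ p ∈ sizes (es1 ++ es2), 200 * (n + 2) ≤ p := by
      intro p hp
      obtain ⟨a, ha, ν, hν, h3⟩ := Q4_mem e6 (hperm.symm.subset hp)
      have ha' : a ∈ ann := by
        rw [e2]
        rcases List.mem_append.1 ha with h | h
        · exact List.mem_append_left _ h
        · exact List.mem_append_right _ (List.mem_cons_of_mem _ h)
      have := hW a ha' ν hν
      linarith
    have hνW := hW (ν :: a') (by rw [e2]; simp) ν List.mem_cons_self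
    have ha'W : c + 400 * (n + 2) ≤ a'.sum := by
      cases a' with
      | nil => exact absurd rfl e3
      | cons ν' a'' =>
        have := hW (ν :: ν' :: a'') (by rw [e2]; simp) ν' (by simp)
        rw [List.sum_cons]
        omega
    obtain ⟨g2, hodd, hg2a, hg2b⟩ : ∃ g2, Odd g2 ∧ g2 ≤ ν ∧ ν ≤ g2 + 1 := by
      rcases Nat.even_or_odd ν with h | h
      · have h1 : 1 ≤ ν := by omega
        refine ⟨ν - 1, ?_, by omega, by omega⟩
        exact Nat.Even.sub_odd h1 h odd_one
      · exact ⟨ν, h, le_refl _, by omega⟩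
    have htt : (ann.map (fun a => a.length - 1)).sum =
        a'.length + ((ann1 ++ ann2).map (fun a => a.length - 1)).sum := by
      rw [e2]
      simp only [List.map_append, List.map_cons, List.sum_append, List.sum_cons,
        List.length_cons, Nat.add_sub_cancel]
      omega
    have ha'1 : 1 ≤ a'.length := List.length_pos_iff.2 e3
    subst he
    obtain ⟨fe', A', B', es', g1, l0', H', p1, p2, p3, p4, p5, p6, p7⟩ :=
      HInv.splitPile hG hcol hn H (by omega) hbig1 hodd (by rw [hP]; linarith)
    obtain ⟨l0'', q1, q2⟩ := List.perm_comp_forall₂ hperm p2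
    have hann' := Q4_comb e6 q1
    have hl0' : (g1 :: g2 :: l0'').Perm (sizes es') :=
      ((q2.cons g2).cons g1).trans p1
    have key := ih (c + 101 * (n + 2)) H' (l0 := g1 :: g2 :: l0'')
      (ann := a' :: [ν] :: (ann1 ++ ann2)) hl0'
      (by
        refine List.Forall₂.cons ⟨by omega, by omega, e3⟩ (List.Forall₂.cons ⟨?_, ?_, ?_⟩ ?_)
        · simpa using hg2a
        · simp only [List.sum_cons, List.sum_nil, add_zero]
          omega
        · simp
        · refine hann'.imp ?_
          intro g a h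
          exact ⟨h.1, by have := h.2.1; omega, h.2.2⟩)
      (by
        rw [htt] at ht
        simp only [List.map_cons, List.sum_cons, List.length_cons, List.length_nil]
        omega)
      (by omega)
      (by
        intro a ha ν' hν'
        have h2 : c + 101 * (n + 2) + (t + 1) * (101 * (n + 2)) =
            c + (t + 2) * (101 * (n + 2)) := by ring
        rw [h2]
        rcases List.mem_cons.1 ha with h | h
        · subst h
          exact hX (ν :: a) (by rw [e2]; simp) ν' (List.mem_cons_of_mem _ hν')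
        · rcases List.mem_cons.1 h with h | h
          · subst h
            rw [List.mem_singleton] at hν'
            rw [hν']
            exact hX (ν :: a') (by rw [e2]; simp) ν List.mem_cons_self
          · refine hX a ?_ ν' hν'
            rw [e2]
            rcases List.mem_append.1 h with h | h
            · exact List.mem_append_left _ h
            · exact List.mem_append_right _ (List.mem_cons_of_mem _ h))
    obtain ⟨fe'', A'', B'', es'', l', fl, H'', r1, r2, r3, r4⟩ := key
    refine ⟨fe'', A'', B'', es'', l', fl, H'', r1, r2.trans ?_, ?_, ?_⟩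
    · rw [e2]
      simp only [List.flatten_cons, List.flatten_append]
      have s1 : (a' ++ ([ν] ++ (ann1.flatten ++ ann2.flatten))).Perm
          ((ν :: a') ++ (ann1.flatten ++ ann2.flatten)) := by
        simpa using List.perm_middle (a := ν) (l₁ := a') (l₂ := ann1.flatten ++ ann2.flatten)
      refine s1.trans ?_
      rw [← List.append_assoc, ← List.append_assoc]
      exact List.Perm.append_right _ List.perm_append_comm
    · refine r3.imp ?_
      intro g ν h
      have h2 : c + 101 * (n + 2) + t * (101 * (n + 2)) = c + (t + 1) * (101 * (n + 2)) := by ring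
      rw [h2] at h
      exact h
    · have h2 : (t + 1) * (100 * (n + 2) ^ 2) = t * (100 * (n + 2) ^ 2) + 100 * (n + 2) ^ 2 := by
        ring
      omega

end Pool.Agent.FLV
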