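import Pool.Agent.FLV.Q2
import Pool.Agent.FLV.M3

/-!
# Closing the smallest pile

`HInv.rounds`: `K` full rounds (only lengths are recorded, the rows change their roles).
`HInv.closePile` PROOF.  `HInv.rotTo` brings the pile to the front: `pile x1 P1 x1' :: (es2' ++ es1')`, `|P1| ≥ |P| - (4 h + 2)`;
`HInv.odd`: `|P1| = 2 K + 1`; `HInv.rounds` with this `K`: the pile has exactly one unexplored vertex; `HInv.startPile`;
`PInv.fillFree`.  The other sizes lose `2 K` in the rounds and at most `(4 h + 2) + 7` otherwise.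
Time: `2 (2 h + 1) + K (2 h + 1) + (4 n + 8)`.
-/

set_option autoImplicit false

namespace Pool.Agent.FLV

variable {V : Type*} [DecidableEq V] {G : V → V → Prop} {col : V → Bool} {b : V} {SV : List V}
  {h n : ℕ} {fe : List ((V ⊕ ℕ) × ℕ)} {A B : List (V ⊕ ℕ)} {es es1 es2 : List (Elem V)}

theorem Q5_mem {R : ℕ → ℕ → Prop} {l l' : List ℕ} (h : List.Forall₂ R l l') :
    ∀ q ∈ l', ∃ p ∈ l, R p q := by
  induction h with
  | nil => intro q hq; simp at hq
  | @cons a c l l' h1 _ ih =>
    intro q hq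
    rcases List.mem_cons.1 hq with h2 | h2
    · subst h2; exact ⟨a, by simp, h1⟩
    · obtain ⟨p, hp, hpq⟩ := ih q h2
      exact ⟨p, by simp [hp], hpq⟩

theorem Q5_sz {a c m : ℕ} {es es' : List (Elem V)} (h : List.Forall₂ (Shr a c) es es')
    (hb : ∀ p ∈ sizes es, m + c ≤ p) : ∀ p ∈ sizes es', m ≤ p := by
  intro q hq
  obtain ⟨p, hp, _, h2⟩ := Q5_mem (shrL_sizes h) q hq
  have := hb p hp
  omega

theorem Q5_split {R : Elem V → Elem V → Prop} : ∀ {l1 l2 l' : List (Elem V)},
    List.Forall₂ R (l1 ++ l2) l' →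
      ∃ m1 m2, l' = m1 ++ m2 ∧ List.Forall₂ R l1 m1 ∧ List.Forall₂ R l2 m2 := by
  intro l1
  induction l1 with
  | nil => intro l2 l' h; exact ⟨[], l', rfl, .nil, h⟩
  | cons a l1 ih =>
    intro l2 l' h
    cases h with
    | cons h1 h2 =>
      obtain ⟨m1, m2, h3, h4, h5⟩ := ih h2
      exact ⟨_ :: m1, m2, by rw [h3]; rfl, .cons h1 h4, h5⟩

theorem HInv.rounds (hG : ∀ a c, G a c → G c a) (hcol : ∀ a c, G a c → col a ≠ col c) (K : ℕ)
    {k : ℕ} (H : HInv G col b SV h fe A B es k) (hbig : ∀ p ∈ sizes es, 2 * K ≤ p) :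
    ∃ fe' A' B' es', HInv G col b SV h fe' A' B' es' k ∧
      A'.length + B'.length = A.length + B.length + K * (2 * h + 1) ∧
      List.Forall₂ (Shr (2 * K) (2 * K)) es es' := by
  induction K generalizing fe A B es with
  | zero =>
    exact ⟨fe, A, B, es, H, by simp, by simpa using shrL_refl es⟩
  | succ K ih =>
    obtain ⟨fe1, C, D, es1, H1, hC, hD, hs, _⟩ := H.round hG hcol
      (fun p hp => le_trans (by omega) (hbig p hp))
    obtain ⟨fe2, A2, B2, es2, H2, hl, hs2⟩ := ih H1
      (Q5_sz hs (fun p hp => le_trans (by omega) (hbig p hp)))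
    refine ⟨fe2, A2, B2, es2, H2, ?_, ?_⟩
    · rw [hl, List.length_append, List.length_append, hC, hD]
      ring
    · have := shrL_trans hs hs2
      have e : 2 + 2 * K = 2 * (K + 1) := by ring
      rwa [e] at this

theorem HInv.closePile (hG : ∀ a c, G a c → G c a) (hcol : ∀ a c, G a c → col a ≠ col c)
    {x x' : V} {P : List V}
    (H : HInv G col b SV (n + 1) fe A B (es1 ++ Elem.pile x P x' :: es2) 0)
    (hP : 100 * (n + 2) ≤ P.length)
    (hbig : ∀ p ∈ sizes (es1 ++ es2), P.length + 100 * (n + 2) ≤ p) :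
    ∃ K fe' A' B' es' l, HInv G col b SV (n + 1) fe' A' B' es' 0 ∧ l.Perm (sizes es') ∧
      List.Forall₂ (fun g g' => g' + 2 * K ≤ g ∧ g ≤ g' + 2 * K + 100 * (n + 2))
        (sizes (es1 ++ es2)) l ∧ 2 * K ≤ P.length ∧
      A'.length + B'.length ≤ A.length + B.length + K * (2 * n + 3) + 100 * (n + 2) := by
  have hlen := H.len
  have hb1 : ∀ p ∈ sizes es1, P.length + 100 * (n + 2) ≤ p := fun p hp => hbig p (by simp [hp])
  have hb2 : ∀ p ∈ sizes es2, P.length + 100 * (n + 2) ≤ p := fun p hp => hbig p (by simp [hp])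
  obtain ⟨fe1, C, D, es1', es2', H1, hC, hD, hs1, hs2⟩ := H.rotTo hG hcol (by omega) (by
    intro p hp
    simp only [sizes_append, sizes_cons, Elem.sizes_pile, List.mem_append, List.mem_cons,
      List.not_mem_nil, or_false] at hp
    rcases hp with hp | hp | hp
    · have := hb1 p hp; omega
    · omega
    · have := hb2 p hp; omega)
  cases hs2 with
  | cons h1 hs2 =>
  rename_i e2 es2'
  cases h1 with
  | pile _ _ _ y Q y' hQ1 hQ2 =>
  have hodd : Odd Q.length := by
    rw [List.cons_append] at H1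
    exact H1.odd hcol (by omega)
  obtain ⟨K, hK⟩ := hodd
  have hb1' := Q5_sz (m := P.length + 50 * (n + 2)) hs1
    (fun p hp => by have := hb1 p hp; omega)
  have hb2' := Q5_sz (m := P.length + 50 * (n + 2)) hs2
    (fun p hp => by have := hb2 p hp; omega)
  obtain ⟨fe2, A2, B2, es3, H2, hl2, hs3⟩ := H1.rounds hG hcol K (by
    intro p hp
    simp only [List.cons_append, sizes_append, sizes_cons, Elem.sizes_pile, List.mem_append,
      List.mem_cons, List.not_mem_nil, or_false, false_or, List.nil_append] at hp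
    rcases hp with hp | hp | hp
    · omega
    · have := hb2' p hp; omega
    · have := hb1' p hp; omega)
  rw [List.cons_append] at hs3
  cases hs3 with
  | cons h1 hs3 =>
  rename_i e3 es4
  cases h1 with
  | pile _ _ _ z R z' hR1 hR2 =>
  have hRl : R.length = 1 := by omega
  obtain ⟨z0, rfl⟩ := List.length_eq_one_iff.1 hRl
  have hb4 : ∀ p ∈ sizes es4, 8 ≤ p := Q5_sz hs3 (by
    intro p hp
    rw [sizes_append, List.mem_append] at hp
    rcases hp with hp | hp
    · have := hb2' p hp; omega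
    · have := hb1' p hp; omega)
  obtain ⟨fe3, C3, D3, es5, H3, hC3, hD3, hs5⟩ := H2.startPile hG hcol hb4
  obtain ⟨fe4, c, c', s, _, _, H4⟩ := H3.fillFree
  obtain ⟨m2, m1, rfl, hm2, hm1⟩ := Q5_split (shrL_trans hs3 hs5)
  have g1 := shrL_sizes (shrL_trans hs1 hm1)
  have g2 := shrL_sizes (shrL_trans hs2 hm2)
  refine ⟨K, fe4, _, _, _, sizes m1 ++ sizes m2, H4, ?_, ?_, by omega, ?_⟩
  · simp only [sizes_cons, sizes_append, Elem.sizes_free, List.nil_append, sizes_nil,
      List.append_nil]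
    exact List.perm_append_comm
  · rw [sizes_append]
    refine List.rel_append (g1.imp ?_) (g2.imp ?_)
    · intro a c' h; omega
    · intro a c' h; omega
  · have h7 : (lets es1).length ≤ 2 * (n + 1) + 1 := by
      rw [← hlen, lets_append, List.length_append]
      omega
    have h8 : K * (2 * (n + 1) + 1) = K * (2 * n + 3) := by ring
    simp only [List.length_append] at hl2 ⊢
    omega

end Pool.Agent.FLV
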