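import Pool.Agent.FLV.TDefs

/-!
# The start of a train and one stage

`HInv.far0`: the circle word is `lets esF ++ lets esS` with `|lets esF| = h + 1`; insert `D1, D2`, pop all letters once
(`Core.adv_all` with `av = [D1, D2]`, then split the new list of elements in the same way).  New rows:
`(B ++ lets esS) ++ D1 :: lets esF'` and `(A ++ lets esF) ++ D2 :: lets esS'`; `cov_far0`.  The sum
`s0 = |A| + |B| + h` is not realised (yet).

`TInv.stage`: `Core.openD` for `D1 = m1` with `d1, d2` (name `s1`), for `D2 = m2` with `e1, e2` (name `s2`), `Core.adv_all` for the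
elements of `esF ++ esS` — do this first —, `Core.adv_free` for `d1 → d1'` and `e1 → e1'`; all new vertices are chosen
different from `D1'`, `D2'` (`exists_fresh`).  New rows as in `cov_stage`:
`A' = B ++ D2 :: (lets esS ++ [d1])`, `esF'' = free s1 d2 :: (esF' ++ [free s2 e1'])`,
`B' = A ++ D1 :: (lets esF ++ [e1])`, `esS'' = free s2 e2 :: (esS' ++ [free s1 d1'])`.
-/

set_option autoImplicit false

namespace Pool.Agent.FLV

theorem T1_split {α β : Type*} {R : α → β → Prop} {l1 l2 : List α} {l : List β}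
    (h : List.Forall₂ R (l1 ++ l2) l) :
    ∃ m1 m2, l = m1 ++ m2 ∧ List.Forall₂ R l1 m1 ∧ List.Forall₂ R l2 m2 := by
  induction l1 generalizing l with
  | nil => exact ⟨[], l, rfl, .nil, h⟩
  | cons a l1 ih =>
    cases h with
    | cons h1 h2 =>
      obtain ⟨m1, m2, rfl, h3, h4⟩ := ih h2
      exact ⟨_ :: m1, m2, rfl, .cons h1 h3, h4⟩

theorem T1_split2 {α β : Type*} {R : α → β → Prop} {l1 l2 : List α} {m1 m2 : List β}
    (h : List.Forall₂ R (l1 ++ l2) (m1 ++ m2)) (hl : m1.length = l1.length) :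
    List.Forall₂ R l1 m1 ∧ List.Forall₂ R l2 m2 := by
  obtain ⟨n1, n2, h1, h2, h3⟩ := T1_split h
  have := h2.length_eq
  obtain ⟨rfl, rfl⟩ := List.append_inj h1 (by omega)
  exact ⟨h2, h3⟩

theorem T1_mem {α β : Type*} {R : α → β → Prop} {l : List α} {m : List β}
    (h : List.Forall₂ R l m) {y : β} (hy : y ∈ m) : ∃ x ∈ l, R x y := by
  induction h with
  | nil => simp at hy
  | @cons a c l l' h1 _ ih =>
    rcases List.mem_cons.1 hy with h2 | h2
    · subst h2
      exact ⟨a, by simp, h1⟩
    · obtain ⟨x, hx, hR⟩ := ih h2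
      exact ⟨x, by simp [hx], hR⟩

/-- all letters are advanced once and the two parts are kept -/
theorem T1_adv {V : Type*} [DecidableEq V] {G : V → V → Prop} {b : V} {r : ℕ} {SV : List V}
    {fe : List ((V ⊕ ℕ) × ℕ)} {st : List (V ⊕ ℕ)} {esF esS : List (Elem V)}
    (hG : ∀ a c, G a c → G c a) (H : Core G b r SV fe st (esF ++ esS))
    (hbig : ∀ p ∈ sizes (esF ++ esS), 2 ≤ p) (av : List (V ⊕ ℕ)) :
    ∃ fe' esF' esS', Core G b r SV fe' (st ++ (lets esF ++ lets esS)) (esF' ++ esS') ∧
      (∀ e ∈ fe, e ∈ fe') ∧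
      List.Forall₂ (Shr 2 2) esF esF' ∧ List.Forall₂ (Shr 2 2) esS esS' ∧
      List.Forall₂ (Nx G fe') (lets esF) (lets esF') ∧
      List.Forall₂ (Nx G fe') (lets esS) (lets esS') ∧
      (∀ u ∈ av, u ∉ st ++ full (esF ++ esS) →
        u ∉ st ++ (lets esF ++ lets esS) ++ full (esF' ++ esS')) := by
  obtain ⟨fe', es', h1, h2, h3, h4, h5⟩ := H.adv_all hG hbig av
  obtain ⟨esF', esS', rfl, h6, h7⟩ := T1_split h3
  rw [lets_append, lets_append] at h4
  obtain ⟨h8, h9⟩ := T1_split2 h4 (shrL_len h6)
  rw [lets_append] at h1 h5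
  exact ⟨fe', esF', esS', h1, h2, h6, h7, h8, h9, h5⟩

variable {V : Type*} [DecidableEq V] {G : V → V → Prop} {col : V → Bool} {b : V} {SV : List V}
  {h : ℕ} {fe : List ((V ⊕ ℕ) × ℕ)} {A B : List (V ⊕ ℕ)} {esF esS : List (Elem V)}

theorem HInv.far0 (hG : ∀ a c, G a c → G c a) (hcol : ∀ a c, G a c → col a ≠ col c)
    (H : HInv G col b SV h fe A B (esF ++ esS) 0) (hF : (lets esF).length = h + 1)
    (hbig : ∀ p ∈ sizes (esF ++ esS), 2 ≤ p) {D1 D2 : V ⊕ ℕ} (hne : D1 ≠ D2)
    (h1 : D1 ∉ A ++ B ++ full (esF ++ esS)) (h2 : D2 ∉ A ++ B ++ full (esF ++ esS)) :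
    ∃ fe' esF' esS', TInv G col b SV (h + 1) fe' (B ++ lets esS) (A ++ lets esF) D1 D2 esF' esS'
        (A.length + B.length + h) ∧
      List.Forall₂ (Shr 2 2) esF esF' ∧ List.Forall₂ (Shr 2 2) esS esS' := by
  have hlen := H.len
  rw [lets_append, List.length_append] at hlen
  have hS : (lets esS).length = h := by omega
  have hcov := H.cov
  have hcl := H.col
  rw [List.rotate_zero, lets_append, ← hF, List.take_left, List.drop_left] at hcov hcl
  obtain ⟨fe', esF', esS', c1, c2, c3, c4, c5, c6, c7⟩ := T1_adv hG H.core hbig [D1, D2]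
  have l3 := shrL_len c3
  have l4 := shrL_len c4
  have n1 := c7 D1 (by simp) h1
  have n2 := c7 D2 (by simp) h2
  refine ⟨fe', esF', esS', ⟨?_, by omega, by omega, ?_, ?_, hne, ?_, ?_⟩, c3, c4⟩
  · refine c1.perm ?_ (List.Perm.refl _)
    rw [← Multiset.coe_eq_coe]
    simp only [← Multiset.coe_add]
    abel
  · simp only [List.mem_append, not_or] at n1 ⊢
    tauto
  · simp only [List.mem_append, not_or] at n2 ⊢
    tauto
  · intro s hs hs0
    simp only [List.length_append] at hs
    rcases lt_or_ge s (A.length + B.length + h) with hlt | hge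
    · exact (hcov s (Nat.zero_le _) hlt).symm.mono (fun _ _ he => he.mono c2) _ _
    · exact cov_far0 A B (lets esF) (lets esS) (lets esF') (lets esS') D1 D2 (by omega)
        (c5.imp (fun _ _ h => h.ee)) (c6.imp (fun _ _ h => h.ee)) s (by omega) (by omega)
  · obtain ⟨κ, k1, k2⟩ := hcl
    refine ⟨!κ, ?_, ?_⟩
    · have := forall₂_nx_col hcol c5 (κ := κ) (fun a ha => k1 a (by simp [ha]))
      intro a ha
      simp only [List.mem_append] at ha
      rcases ha with ha | ha
      · exact k2 a (by simpa using ha)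
      · exact this a ha
    · have := forall₂_nx_col hcol c6 (κ := !κ) (fun a ha => k2 a (by simp [ha]))
      intro a ha
      simp only [List.mem_append] at ha
      rcases ha with ha | ha
      · rw [Bool.not_not]; exact k1 a (by simpa using ha)
      · exact this a ha

theorem TInv.stage (hG : ∀ a c, G a c → G c a) (hcol : ∀ a c, G a c → col a ≠ col c)
    {m1 m2 s0 : ℕ}
    (H : TInv G col b SV h fe A B (Sum.inr m1) (Sum.inr m2) esF esS s0)
    (hbig : ∀ p ∈ sizes (esF ++ esS), 2 ≤ p) {D1 D2 : V ⊕ ℕ} (hne : D1 ≠ D2)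
    (h1 : D1 ∉ A ++ B ++ full (esF ++ esS)) (h2 : D2 ∉ A ++ B ++ full (esF ++ esS))
    (h11 : D1 ≠ Sum.inr m1) (h12 : D1 ≠ Sum.inr m2) (h21 : D2 ≠ Sum.inr m1)
    (h22 : D2 ≠ Sum.inr m2) (hs0 : s0 < A.length + B.length + h) :
    ∃ fe' C D esF' esS', TInv G col b SV (h + 2) fe' (B ++ C) (A ++ D) D1 D2 esF' esS' s0 ∧
      C.length = h + 1 ∧ D.length = h + 2 ∧
      (sizes (esF' ++ esS')).length = (sizes (esF ++ esS)).length ∧
      (∀ L, (∀ p ∈ sizes (esF ++ esS), L + 2 ≤ p) → ∀ p ∈ sizes (esF' ++ esS'), L ≤ p) := by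
  obtain ⟨fe1, esF1, esS1, c1, c2, c3, c4, c5, c6, c7⟩ :=
    T1_adv hG H.core hbig [D1, D2, Sum.inr m1, Sum.inr m2]
  have l3 := shrL_len c3
  have l4 := shrL_len c4
  have lF := H.lenF
  have lS := H.lenS
  have n1 := c7 D1 (by simp) h1
  have n2 := c7 D2 (by simp) h2
  have n3 := c7 (Sum.inr m1) (by simp) H.new1
  have n4 := c7 (Sum.inr m2) (by simp) H.new2
  have n34 : m1 ≠ m2 := fun he => H.ne (by rw [he])
  obtain ⟨s1, hs1, hid⟩ := exists_name (ids (esF1 ++ esS1))
  obtain ⟨N, hN⟩ := exists_fresh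
    (A ++ B ++ (lets esF ++ lets esS) ++ full (esF1 ++ esS1) ++ [D1, D2, Sum.inr m1, Sum.inr m2])
  have f0 := hN N (by omega)
  have f1 := hN (N + 1) (by omega)
  have f2 := hN (N + 2) (by omega)
  have f3 := hN (N + 3) (by omega)
  have f4 := hN (N + 4) (by omega)
  have f5 := hN (N + 5) (by omega)
  have g1 := hid s1 le_rfl
  have g2 := hid (s1 + 1) (by omega)
  clear hN hid
  -- open the two strings
  have C2 := c1.openD (m := m1) (n := N) (n' := N + 1) (s := s1) n3
    (by simp only [List.mem_append, not_or] at f0 ⊢; tauto)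
    (by simp only [List.mem_append, not_or] at f1 ⊢; tauto)
    (fun he => by simp [he] at f0) (fun he => by simp [he] at f1) (by omega) g1 (by omega)
  have C3 := C2.openD (m := m2) (n := N + 2) (n' := N + 3) (s := s1 + 1)
    (by
      have a1 : m2 ≠ N := fun he => by simp [he] at f0
      have a2 : m2 ≠ N + 1 := fun he => by simp [he] at f1
      simp only [List.mem_append, not_or, full_cons, Elem.full_free, List.mem_cons,
        List.not_mem_nil, or_false, Sum.inr.injEq] at n4 ⊢
      tauto)
    (by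
      have a1 : N + 2 ≠ m1 := fun he => by simp [he] at f2
      simp only [List.mem_append, not_or, full_cons, Elem.full_free, List.mem_cons,
        List.not_mem_nil, or_false, Sum.inr.injEq] at f2 ⊢
      have a2 : N + 2 ≠ N := by omega
      have a3 : N + 2 ≠ N + 1 := by omega
      tauto)
    (by
      have a1 : N + 3 ≠ m1 := fun he => by simp [he] at f3
      simp only [List.mem_append, not_or, full_cons, Elem.full_free, List.mem_cons,
        List.not_mem_nil, or_false, Sum.inr.injEq] at f3 ⊢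
      have a2 : N + 3 ≠ N := by omega
      have a3 : N + 3 ≠ N + 1 := by omega
      tauto)
    (fun he => by simp [he] at f2) (fun he => by simp [he] at f3) (by omega)
    (by
      simp only [ids_cons, Elem.ids_free, List.mem_append, List.mem_cons, List.not_mem_nil,
        or_false, not_or] at g2 ⊢
      exact ⟨by omega, by omega, g2⟩)
    (by omega)
  -- advance the inner ends
  have C3' := C3.perm (List.Perm.refl _) (es' := Elem.free s1 (Sum.inr N) ::
    (Elem.free (s1 + 1) (Sum.inr (N + 2)) :: Elem.free (s1 + 1) (Sum.inr (N + 3)) ::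
      Elem.free s1 (Sum.inr (N + 1)) :: (esF1 ++ esS1)))
    (by
      rw [← Multiset.coe_eq_coe]
      simp only [← Multiset.cons_coe]
      simp only [Multiset.cons_swap (Elem.free s1 (Sum.inr N))])
  have C4 := C3'.adv_free (n := N + 4)
    (by
      have a1 : N + 4 ≠ m1 := fun he => by simp [he] at f4
      have a1' : N + 4 ≠ m2 := fun he => by simp [he] at f4
      simp only [List.mem_append, not_or, full_cons, Elem.full_free, List.mem_cons,
        List.not_mem_nil, or_false, Sum.inr.injEq] at f4 ⊢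
      have a2 : N + 4 ≠ N := by omega
      have a3 : N + 4 ≠ N + 1 := by omega
      have a4 : N + 4 ≠ N + 2 := by omega
      have a5 : N + 4 ≠ N + 3 := by omega
      tauto)
  have C4' := C4.perm (List.Perm.refl _) (es' := Elem.free (s1 + 1) (Sum.inr (N + 2)) ::
    (Elem.free s1 (Sum.inr (N + 4)) :: Elem.free (s1 + 1) (Sum.inr (N + 3)) ::
      Elem.free s1 (Sum.inr (N + 1)) :: (esF1 ++ esS1))) (List.Perm.swap _ _ _)
  have C5 := C4'.adv_free (n := N + 5)
    (by
      have a1 : N + 5 ≠ m1 := fun he => by simp [he] at f5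
      have a1' : N + 5 ≠ m2 := fun he => by simp [he] at f5
      simp only [List.mem_append, not_or, full_cons, Elem.full_free, List.mem_cons,
        List.not_mem_nil, or_false, Sum.inr.injEq] at f5 ⊢
      have a2 : N + 5 ≠ N := by omega
      have a3 : N + 5 ≠ N + 1 := by omega
      have a4 : N + 5 ≠ N + 2 := by omega
      have a5 : N + 5 ≠ N + 3 := by omega
      have a6 : N + 5 ≠ N + 4 := by omega
      tauto)
  clear C2 C3 C3' C4 C4'
  set fe5 : List ((V ⊕ ℕ) × ℕ) := (Sum.inr (N + 2), N + 5) :: (Sum.inr N, N + 4) ::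
    (Sum.inr m2, N + 2) :: (Sum.inr m2, N + 3) :: (Sum.inr m1, N) :: (Sum.inr m1, N + 1) :: fe1
    with hfe5
  have sub1 : ∀ e ∈ fe1, e ∈ fe5 := fun e he => by simp [hfe5, he]
  have sub : ∀ e ∈ fe, e ∈ fe5 := fun e he => sub1 e (c2 e he)
  refine ⟨fe5, Sum.inr m2 :: (lets esS ++ [Sum.inr N]), Sum.inr m1 :: (lets esF ++ [Sum.inr (N + 2)]),
    Elem.free s1 (Sum.inr (N + 1)) :: (esF1 ++ [Elem.free (s1 + 1) (Sum.inr (N + 5))]),
    Elem.free (s1 + 1) (Sum.inr (N + 3)) :: (esS1 ++ [Elem.free s1 (Sum.inr (N + 4))]),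
    ⟨?_, ?_, ?_, ?_, ?_, hne, ?_, ?_⟩, ?_, ?_, ?_, ?_⟩
  · refine C5.perm ?_ ?_
    · rw [← Multiset.coe_eq_coe]
      simp only [← Multiset.cons_coe, ← Multiset.coe_add, ← Multiset.singleton_add,
        Multiset.coe_nil, add_zero]
      abel
    · rw [← Multiset.coe_eq_coe]
      simp only [← Multiset.cons_coe, ← Multiset.coe_add, ← Multiset.singleton_add,
        Multiset.coe_nil, add_zero]
      abel
  · simp; omega
  · simp; omega
  · have e0 : D1 ≠ Sum.inr N := fun he => by simp [he] at f0
    have e1 : D1 ≠ Sum.inr (N + 1) := fun he => by simp [he] at f1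
    have e2 : D1 ≠ Sum.inr (N + 2) := fun he => by simp [he] at f2
    have e3 : D1 ≠ Sum.inr (N + 3) := fun he => by simp [he] at f3
    have e4 : D1 ≠ Sum.inr (N + 4) := fun he => by simp [he] at f4
    have e5 : D1 ≠ Sum.inr (N + 5) := fun he => by simp [he] at f5
    simp only [List.mem_append, not_or, full_append, full_cons, full_nil, Elem.full_free,
      List.mem_cons, List.not_mem_nil, or_false] at n1 ⊢
    tauto
  · have e0 : D2 ≠ Sum.inr N := fun he => by simp [he] at f0
    have e1 : D2 ≠ Sum.inr (N + 1) := fun he => by simp [he] at f1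
    have e2 : D2 ≠ Sum.inr (N + 2) := fun he => by simp [he] at f2
    have e3 : D2 ≠ Sum.inr (N + 3) := fun he => by simp [he] at f3
    have e4 : D2 ≠ Sum.inr (N + 4) := fun he => by simp [he] at f4
    have e5 : D2 ≠ Sum.inr (N + 5) := fun he => by simp [he] at f5
    simp only [List.mem_append, not_or, full_append, full_cons, full_nil, Elem.full_free,
      List.mem_cons, List.not_mem_nil, or_false] at n2 ⊢
    tauto
  · intro s hs hs0'
    simp only [List.length_append, List.length_cons, List.length_nil] at hs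
    rcases lt_or_ge s (A.length + B.length + h) with hlt | hge
    · have := (H.cov s hlt hs0').symm.mono (fun _ _ he => EE.mono sub he)
        ([Sum.inr N] ++ D1 :: (Sum.inr (N + 1) :: (lets esF1 ++ [Sum.inr (N + 5)])))
        ([Sum.inr (N + 2)] ++ D2 :: (Sum.inr (N + 3) :: (lets esS1 ++ [Sum.inr (N + 4)])))
      simpa using this
    · have := cov_stage (E := EE G fe5) A B (lets esF) (lets esS) (lets esF1) (lets esS1)
        (Sum.inr m1) (Sum.inr m2) D1 D2 (Sum.inr N) (Sum.inr (N + 4)) (Sum.inr (N + 1))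
        (Sum.inr (N + 2)) (Sum.inr (N + 5)) (Sum.inr (N + 3)) (by omega)
        (c5.imp (fun _ _ h => (h.mono sub1).ee)) (c6.imp (fun _ _ h => (h.mono sub1).ee))
        (EE.mk (by simp [hfe5])) (EE.mk (by simp [hfe5])) (EE.mk (by simp [hfe5]))
        (EE.mk (by simp [hfe5])) (EE.mk (by simp [hfe5])) (EE.mk (by simp [hfe5])) s
        (by omega) (by omega)
      simpa using this
  · obtain ⟨κ, k1, k2⟩ := H.col
    have q1 := forall₂_nx_col hcol c5 (κ := κ) (fun a ha => k1 a (by simp [ha]))
    have q2 := forall₂_nx_col hcol c6 (κ := !κ) (fun a ha => k2 a (by simp [ha]))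
    refine ⟨!κ, ?_, ?_⟩
    · intro a ha
      simp only [List.mem_append, lets_cons, lets_append, lets_nil, Elem.lets_free, List.mem_cons,
        List.not_mem_nil, or_false, reduceCtorEq, false_or] at ha
      rcases ha with (ha | ha) | ha
      · exact k2 a (by simp [ha])
      · exact k2 a (by simp [ha])
      · exact q1 a ha
    · intro a ha
      simp only [List.mem_append, lets_cons, lets_append, lets_nil, Elem.lets_free, List.mem_cons,
        List.not_mem_nil, or_false, reduceCtorEq, false_or] at ha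
      rcases ha with (ha | ha) | ha
      · rw [Bool.not_not]; exact k1 a (by simp [ha])
      · rw [Bool.not_not]; exact k1 a (by simp [ha])
      · exact q2 a ha
  · simp; omega
  · simp; omega
  · have z1 := (shrL_sizes c3).length_eq
    have z2 := (shrL_sizes c4).length_eq
    simp [z1, z2]
  · intro L hL p hp
    simp only [sizes_append, sizes_cons, sizes_nil, Elem.sizes_free, List.mem_append,
      List.not_mem_nil, or_false, false_or] at hp
    rcases hp with hp | hp
    · obtain ⟨g, hg, hg1, hg2⟩ := T1_mem (shrL_sizes c3) hp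
      have := hL g (by simp [hg])
      omega
    · obtain ⟨g, hg, hg1, hg2⟩ := T1_mem (shrL_sizes c4) hp
      have := hL g (by simp [hg])
      omega

end Pool.Agent.FLV
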