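import Pool.Agent.FLV.T1

/-!
# A train with `2 i` stages

Induction on `i`, two stages (`TInv.stage`) at a time (the rows change roles twice): `h → h + 4`, `A' = A ++ _`,
`B' = B ++ _`, each longer by `(h + 1) + (h + 2 + 2) = 2 h + 5`.  (`∑_{l<i} (2 (h + 4 l) + 5) = i (2 h + 4 i + 1)`.)
In the last stage `D2'` is the prescribed vertex `w` (all other new vertices must be different from `w`:
choose the intermediate `D1', D2'` fresh and different from everything including `w`; for this keep the side condition that `w`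
is not in the lists: it follows from `new2` only at the end, so carry it through the induction, e.g. by the extra
conclusion that given finitely many vertices outside of the lists stay outside: use the freedom in `TInv.stage`
with `D2 := w`?  Simplest: if `w = Sum.inl a` then `w` is outside of the lists iff `a ∉ SV` (`Core.mem`), which does not change.)
-/

set_option autoImplicit false

namespace Pool.Agent.FLV

variable {V : Type*} [DecidableEq V] {G : V → V → Prop} {col : V → Bool} {b : V} {SV : List V}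
  {h : ℕ} {fe : List ((V ⊕ ℕ) × ℕ)} {A B : List (V ⊕ ℕ)} {esF esS : List (Elem V)}

/-- one stage with two fresh vertices -/
theorem T2_fresh (hG : ∀ a c, G a c → G c a) (hcol : ∀ a c, G a c → col a ≠ col c)
    {m1 m2 s0 : ℕ}
    (H : TInv G col b SV h fe A B (Sum.inr m1) (Sum.inr m2) esF esS s0)
    (hbig : ∀ p ∈ sizes (esF ++ esS), 2 ≤ p) (hs0 : s0 < A.length + B.length + h) :
    ∃ m1' m2' fe' C D esF' esS',
      TInv G col b SV (h + 2) fe' (B ++ C) (A ++ D) (Sum.inr m1') (Sum.inr m2') esF' esS' s0 ∧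
      C.length = h + 1 ∧ D.length = h + 2 ∧
      (sizes (esF' ++ esS')).length = (sizes (esF ++ esS)).length ∧
      (∀ L, (∀ p ∈ sizes (esF ++ esS), L + 2 ≤ p) → ∀ p ∈ sizes (esF' ++ esS'), L ≤ p) := by
  obtain ⟨N, hN⟩ := exists_fresh (A ++ B ++ full (esF ++ esS) ++ [Sum.inr m1, Sum.inr m2])
  have h1 := hN N le_rfl
  have h2 := hN (N + 1) (by omega)
  rw [List.mem_append, not_or] at h1 h2
  have h12 : ∀ n, (Sum.inr n : V ⊕ ℕ) ∉ ([Sum.inr m1, Sum.inr m2] : List (V ⊕ ℕ)) →
      (Sum.inr n : V ⊕ ℕ) ≠ Sum.inr m1 ∧ (Sum.inr n : V ⊕ ℕ) ≠ Sum.inr m2 := by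
    intro n hn
    refine ⟨fun h' => hn ?_, fun h' => hn ?_⟩
    · rw [h']
      exact List.mem_cons_self
    · rw [h']
      exact List.mem_cons_of_mem _ List.mem_cons_self
  have h3 := h12 _ h1.2
  have h4 := h12 _ h2.2
  have hne : (Sum.inr N : V ⊕ ℕ) ≠ Sum.inr (N + 1) := by
    intro h'
    have := Sum.inr.inj h'
    omega
  obtain ⟨fe', C, D, esF', esS', g1, g2, g3, g4, g5⟩ :=
    H.stage hG hcol hbig hne h1.1 h2.1 h3.1 h3.2 h4.1 h4.2 hs0
  exact ⟨N, N + 1, fe', C, D, esF', esS', g1, g2, g3, g4, g5⟩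

/-- one stage, the second new vertex is `w` -/
theorem T2_last (hG : ∀ a c, G a c → G c a) (hcol : ∀ a c, G a c → col a ≠ col c)
    {m1 m2 s0 : ℕ}
    (H : TInv G col b SV h fe A B (Sum.inr m1) (Sum.inr m2) esF esS s0)
    (hbig : ∀ p ∈ sizes (esF ++ esS), 2 ≤ p) (hs0 : s0 < A.length + B.length + h)
    {w : V} (hw : w ∉ SV) :
    ∃ m fe' C D esF' esS',
      TInv G col b SV (h + 2) fe' (B ++ C) (A ++ D) (Sum.inr m) (Sum.inl w) esF' esS' s0 ∧
      C.length = h + 1 ∧ D.length = h + 2 ∧
      (sizes (esF' ++ esS')).length = (sizes (esF ++ esS)).length ∧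
      (∀ L, (∀ p ∈ sizes (esF ++ esS), L + 2 ≤ p) → ∀ p ∈ sizes (esF' ++ esS'), L ≤ p) := by
  obtain ⟨N, hN⟩ := exists_fresh (A ++ B ++ full (esF ++ esS) ++ [Sum.inr m1, Sum.inr m2])
  have h1 := hN N le_rfl
  rw [List.mem_append, not_or] at h1
  have h3 : (Sum.inr N : V ⊕ ℕ) ≠ Sum.inr m1 := by
    intro h'
    apply h1.2
    rw [h']
    exact List.mem_cons_self
  have h4 : (Sum.inr N : V ⊕ ℕ) ≠ Sum.inr m2 := by
    intro h'
    apply h1.2
    rw [h']
    exact List.mem_cons_of_mem _ List.mem_cons_self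
  have h5 : (Sum.inl w : V ⊕ ℕ) ∉ A ++ B ++ full (esF ++ esS) := fun h' => hw ((H.core.mem w).1 h')
  obtain ⟨fe', C, D, esF', esS', g1, g2, g3, g4, g5⟩ :=
    H.stage hG hcol hbig (D1 := Sum.inr N) (D2 := Sum.inl w) Sum.inr_ne_inl h1.1 h5 h3 h4
      Sum.inl_ne_inr Sum.inl_ne_inr hs0
  exact ⟨N, fe', C, D, esF', esS', g1, g2, g3, g4, g5⟩

omit [DecidableEq V] in
/-- the sizes after one round -/
theorem T2_sizes {a c : ℕ} {es es' : List (Elem V)} (h : List.Forall₂ (Shr a c) es es') :
    (sizes es').length = (sizes es).length ∧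
      ∀ L, (∀ p ∈ sizes es, L + c ≤ p) → ∀ p ∈ sizes es', L ≤ p := by
  have h1 := shrL_sizes h
  refine ⟨h1.length_eq.symm, fun L hL p hp => ?_⟩
  obtain ⟨g, hg, h2⟩ : ∃ g ∈ sizes es, g + 0 ≤ p + c := by
    generalize sizes es = l at h1
    generalize sizes es' = l' at h1 hp
    clear hL
    induction h1 with
    | nil => simp at hp
    | @cons x y l l' hxy _ ih =>
      rcases List.mem_cons.1 hp with h3 | h3
      · exact ⟨x, List.mem_cons_self, by omega⟩
      · obtain ⟨g, hg, h4⟩ := ih h3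
        exact ⟨g, List.mem_cons_of_mem _ hg, h4⟩
  have h3 := hL g hg
  omega

/-- `2 i` stages, `i ≥ 1`, the last new vertex in the second row is `w` -/
theorem TInv.train (hG : ∀ a c, G a c → G c a) (hcol : ∀ a c, G a c → col a ≠ col c)
    {m1 m2 s0 : ℕ} (i : ℕ) (hi : 1 ≤ i)
    (H : TInv G col b SV h fe A B (Sum.inr m1) (Sum.inr m2) esF esS s0)
    (hbig : ∀ p ∈ sizes (esF ++ esS), 4 * i ≤ p) (hs0 : s0 < A.length + B.length + h)
    {w : V} (hw : w ∉ SV) :
    ∃ fe' C D m esF' esS',
      TInv G col b SV (h + 4 * i) fe' (A ++ C) (B ++ D) (Sum.inr m) (Sum.inl w) esF' esS' s0 ∧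
      C.length = i * (2 * h + 4 * i + 1) ∧ D.length = i * (2 * h + 4 * i + 1) ∧
      (sizes (esF' ++ esS')).length = (sizes (esF ++ esS)).length ∧
      (∀ L, (∀ p ∈ sizes (esF ++ esS), L + 4 * i ≤ p) → ∀ p ∈ sizes (esF' ++ esS'), L ≤ p) := by
  induction i, hi using Nat.le_induction generalizing h fe A B m1 m2 esF esS with
  | base =>
    obtain ⟨n1, n2, fe1, C1, D1, esF1, esS1, g1, g2, g3, g4, g5⟩ :=
      T2_fresh hG hcol H (fun p hp => by have := hbig p hp; omega) hs0
    have hb1 : ∀ p ∈ sizes (esF1 ++ esS1), 2 ≤ p := g5 2 (fun p hp => by have := hbig p hp; omega)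
    obtain ⟨m, fe2, C2, D2, esF2, esS2, k1, k2, k3, k4, k5⟩ :=
      T2_last hG hcol g1 hb1 (by simp only [List.length_append]; omega) hw
    refine ⟨fe2, D1 ++ C2, C1 ++ D2, m, esF2, esS2, ?_, ?_, ?_, by omega, fun L hL => ?_⟩
    · rw [← List.append_assoc, ← List.append_assoc]
      exact k1
    · rw [List.length_append]
      omega
    · rw [List.length_append]
      omega
    · exact k5 L (g5 (L + 2) (fun p hp => by have := hL p hp; omega))
  | succ i hi ih =>
    obtain ⟨n1, n2, fe1, C1, D1, esF1, esS1, g1, g2, g3, g4, g5⟩ :=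
      T2_fresh hG hcol H (fun p hp => by have := hbig p hp; omega) hs0
    have hb1 : ∀ p ∈ sizes (esF1 ++ esS1), 4 * i + 2 ≤ p :=
      g5 (4 * i + 2) (fun p hp => by have := hbig p hp; omega)
    obtain ⟨l1, l2, fe2, C2, D2, esF2, esS2, k1, k2, k3, k4, k5⟩ :=
      T2_fresh hG hcol g1 (fun p hp => by have := hb1 p hp; omega)
        (by simp only [List.length_append]; omega)
    have hb2 : ∀ p ∈ sizes (esF2 ++ esS2), 4 * i ≤ p :=
      k5 (4 * i) (fun p hp => by have := hb1 p hp; omega)
    obtain ⟨fe3, C3, D3, m, esF3, esS3, j1, j2, j3, j4, j5⟩ :=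
      ih k1 hb2 (by simp only [List.length_append]; omega)
    refine ⟨fe3, (D1 ++ C2) ++ C3, (C1 ++ D2) ++ D3, m, esF3, esS3, ?_, ?_, ?_, by omega,
      fun L hL => ?_⟩
    · have e1 : h + 4 * (i + 1) = h + 2 + 2 + 4 * i := by ring
      rw [e1]
      rw [← List.append_assoc, ← List.append_assoc, ← List.append_assoc, ← List.append_assoc]
      exact j1
    · rw [List.length_append, List.length_append, j2, g3, k2]
      ring
    · rw [List.length_append, List.length_append, j3, g2, k3]
      ring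
    · refine j5 L (k5 (L + 4 * i) (g5 (L + 4 * i + 2) (fun p hp => ?_)))
      have := hL p hp
      omega

/-- The far edge: `v` is in the second row with index `λ`, `λ + 1 + i (2 h + 4 i + 3) = |B|`.  (For `i = 0` use
`HInv.far0` with `D2 = w` directly, otherwise `HInv.far0` with two fresh vertices and then `TInv.train`.)  The sum
`s0 = |A| + |B| + h` is realised by `v` (index `λ` in the first row) and `w` (index `|A| + |D|` in the
second row). -/
theorem HInv.farTrain (hG : ∀ a c, G a c → G c a) (hcol : ∀ a c, G a c → col a ≠ col c)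
    (i : ℕ) (H : HInv G col b SV h fe A B (esF ++ esS) 0) (hF : (lets esF).length = h + 1)
    (hbig : ∀ p ∈ sizes (esF ++ esS), 4 * i + 2 ≤ p) {v w : V} (hw : w ∉ SV) (hvw : G v w)
    {l : ℕ} (hv : B[l]? = some (Sum.inl v)) (hl : l + 1 + i * (2 * h + 4 * i + 3) = B.length) :
    ∃ fe' C D m esF' esS' s0,
      TInv G col b SV (h + 1 + 4 * i) fe' (B ++ C) (A ++ D) (Sum.inr m) (Sum.inl w) esF' esS' s0 ∧
      CovI (EE G fe') ((B ++ C) ++ Sum.inr m :: lets esF') ((A ++ D) ++ Sum.inl w :: lets esS') 0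
        (A.length + B.length + C.length + D.length + (h + 1 + 4 * i)) ∧
      (∃ κ, (∀ a, Sum.inl a ∈ (B ++ C) ++ lets esF' → col a = κ) ∧
        (∀ a, Sum.inl a ∈ (A ++ D) ++ Sum.inl w :: lets esS' → col a = !κ)) ∧
      C.length = h + i * (2 * h + 4 * i + 3) ∧ D.length = h + 1 + i * (2 * h + 4 * i + 3) ∧
      (sizes (esF' ++ esS')).length = (sizes (esF ++ esS)).length ∧
      (∀ L, (∀ p ∈ sizes (esF ++ esS), L + 4 * i + 2 ≤ p) →
        ∀ p ∈ sizes (esF' ++ esS'), L ≤ p) := by
  have hlS : (lets esS).length = h := by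
    have h1 := H.len
    rw [lets_append, List.length_append] at h1
    omega
  have hwl : (Sum.inl w : V ⊕ ℕ) ∉ A ++ B ++ full (esF ++ esS) :=
    fun h' => hw ((H.core.mem w).1 h')
  have key : ∃ fe' C D m esF' esS',
      TInv G col b SV (h + 1 + 4 * i) fe' (B ++ C) (A ++ D) (Sum.inr m) (Sum.inl w) esF' esS'
        (A.length + B.length + h) ∧
      C.length = h + i * (2 * h + 4 * i + 3) ∧ D.length = h + 1 + i * (2 * h + 4 * i + 3) ∧
      (sizes (esF' ++ esS')).length = (sizes (esF ++ esS)).length ∧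
      (∀ L, (∀ p ∈ sizes (esF ++ esS), L + 4 * i + 2 ≤ p) →
        ∀ p ∈ sizes (esF' ++ esS'), L ≤ p) := by
    obtain ⟨N, hN⟩ := exists_fresh (A ++ B ++ full (esF ++ esS))
    rcases Nat.eq_zero_or_pos i with hi | hi
    · subst hi
      obtain ⟨fe', esF', esS', g1, g2, g3⟩ := H.far0 hG hcol hF
        (fun p hp => by have := hbig p hp; omega) (D1 := Sum.inr N) (D2 := Sum.inl w)
        Sum.inr_ne_inl (hN N le_rfl) hwl
      have g4 := T2_sizes (List.rel_append g2 g3)
      refine ⟨fe', lets esS, lets esF, N, esF', esS', g1, by omega, by omega, g4.1, fun L hL => ?_⟩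
      exact g4.2 L (fun p hp => by have := hL p hp; omega)
    · have hne : (Sum.inr N : V ⊕ ℕ) ≠ Sum.inr (N + 1) := by
        intro h'
        have := Sum.inr.inj h'
        omega
      obtain ⟨fe', esF', esS', g1, g2, g3⟩ := H.far0 hG hcol hF
        (fun p hp => by have := hbig p hp; omega) hne (hN N le_rfl) (hN (N + 1) (by omega))
      have g4 := T2_sizes (List.rel_append g2 g3)
      obtain ⟨fe2, C2, D2, m, esF2, esS2, k1, k2, k3, k4, k5⟩ := g1.train hG hcol i hi
        (g4.2 (4 * i) (fun p hp => by have := hbig p hp; omega))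
        (by simp only [List.length_append]; omega) hw
      refine ⟨fe2, lets esS ++ C2, lets esF ++ D2, m, esF2, esS2, ?_, ?_, ?_, ?_, fun L hL => ?_⟩
      · rw [← List.append_assoc, ← List.append_assoc]
        exact k1
      · rw [List.length_append, k2, hlS]
        ring
      · rw [List.length_append, k3, hF]
        ring
      · rw [k4, g4.1]
      · exact k5 L (g4.2 (L + 4 * i) (fun p hp => by have := hL p hp; omega))
  obtain ⟨fe', C, D, m, esF', esS', g1, g2, g3, g4, g5⟩ := key
  refine ⟨fe', C, D, m, esF', esS', A.length + B.length + h, g1, ?_, ?_, g2, g3, g4, g5⟩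
  · intro s _ hs
    by_cases hs0 : s = A.length + B.length + h
    · refine ⟨l, (A ++ D).length, Sum.inl v, Sum.inl w, ?_, ?_, ?_, Or.inl (EE.of_G hvw)⟩
      · have hl' : l < B.length := (List.getElem?_eq_some_iff.1 hv).1
        rw [List.append_assoc, List.getElem?_append_left hl']
        exact hv
      · simp
      · rw [List.length_append, g3]
        omega
    · exact g1.cov s (by simp only [List.length_append]; omega) hs0
  · obtain ⟨κ, c1, c2⟩ := g1.col
    refine ⟨κ, c1, fun a ha => ?_⟩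
    have hvB : (Sum.inl v : V ⊕ ℕ) ∈ B := List.mem_of_getElem? hv
    have cv : col v = κ := c1 v (by simp [hvB])
    have cw : col w = !κ := by
      have h2 := hcol v w hvw
      rw [cv] at h2
      revert h2
      cases col w <;> cases κ <;> simp
    rw [List.mem_append, List.mem_cons] at ha
    rcases ha with ha | ha | ha
    · exact c2 a (List.mem_append_left _ ha)
    · rw [Sum.inl.inj ha]
      exact cw
    · exact c2 a (List.mem_append_right _ ha)

end Pool.Agent.FLV
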