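import Pool.Agent.FLV.C5
import Pool.Agent.FLV.C4
import Pool.Agent.FLV.L1b

/-!
# Trains: definitions
-/

set_option autoImplicit false

namespace Pool.Agent.FLV

variable {V : Type*} [DecidableEq V]

/-- A state inside a train: rows `A ++ D1 :: lets esF` and `B ++ D2 :: lets esS`; the vertices `D1, D2` are not
known to the invariant `Core`; the sum `s0` need not be realised. -/
structure TInv (G : V → V → Prop) (col : V → Bool) (b : V) (SV : List V) (h : ℕ)
    (fe : List ((V ⊕ ℕ) × ℕ)) (A B : List (V ⊕ ℕ)) (D1 D2 : V ⊕ ℕ) (esF esS : List (Elem V))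
    (s0 : ℕ) : Prop where
  core : Core G b 1 SV fe (A ++ B) (esF ++ esS)
  lenF : (lets esF).length = h
  lenS : (lets esS).length + 1 = h
  new1 : D1 ∉ A ++ B ++ full (esF ++ esS)
  new2 : D2 ∉ A ++ B ++ full (esF ++ esS)
  ne : D1 ≠ D2
  cov : ∀ s < A.length + B.length + h, s ≠ s0 →
    CovAt (EE G fe) (A ++ D1 :: lets esF) (B ++ D2 :: lets esS) s
  col : ColOK col (A ++ lets esF) (B ++ lets esS)

/-- A state in the corner: rows `A ++ D :: lets esF` and `B ++ lets esS`, all elements are free letters. -/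
structure CInv (G : V → V → Prop) (b : V) (h : ℕ)
    (fe : List ((V ⊕ ℕ) × ℕ)) (A B : List (V ⊕ ℕ)) (D : V ⊕ ℕ) (esF esS : List (Elem V)) :
    Prop where
  core : Core G b 0 [] fe (A ++ B) (esF ++ esS)
  nopile : sizes (esF ++ esS) = []
  lenF : (lets esF).length = h
  lenS : (lets esS).length = h
  new : D ∉ A ++ B ++ full (esF ++ esS)
  cov : CovI (EE G fe) (A ++ D :: lets esF) (B ++ lets esS) 0 (A.length + B.length + h)

end Pool.Agent.FLV
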